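import Pool.Agent.H76.TP.MertR

/-!
# TP ZSum2: the main term of `E_2`

`N/8 ≤ x ≤ 8N`, `p` prime, `N^ζ < p`, `p² ≤ 16N`.  With `u = log p/L ∈ (ζ, 1/2 + log 16/(2L)] ⊆ (ζ, 1/2 + η]`: `log(x/p) ≥ L(1 - u) - log 8 ≥ (1-η) L (1-u)`.  `mert_r` with `a = ζ`, `b = 1/2 + η`, `f u = 1/(1-u)` (`M = 10`):
the sum is `≤ (1-η)^(-1) (1/L) (∫_ζ^{1/2+η} du/(u(1-u)) + η)`, and `∫_ζ^b du/(u(1-u)) = log(b/(1-b)) + log((1-ζ)/ζ)`, `b/(1-b) → 1` as `η → 0`.
-/

set_option autoImplicit false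

namespace Pool.Agent.H76.TP

open Finset MeasureTheory

/-- the integral -/
private theorem ZSum2_int (a b : ℝ) (ha : 0 < a) (hab : a ≤ b) (hb : b < 1) :
    ∫ u in a..b, (1 / (1 - u)) / u = (Real.log b - Real.log (1 - b)) - (Real.log a - Real.log (1 - a)) := by
  have hI : ∀ u ∈ Set.uIcc a b, 0 < u ∧ 0 < 1 - u := by
    intro u hu
    rw [Set.uIcc_of_le hab] at hu
    exact ⟨lt_of_lt_of_le ha hu.1, by linarith [hu.2]⟩
  refine intervalIntegral.integral_eq_sub_of_hasDerivAt (f := fun u => Real.log u - Real.log (1 - u))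
    (fun u hu => ?_) ?_
  · obtain ⟨h1, h2⟩ := hI u hu
    have h3 : HasDerivAt (fun u : ℝ => Real.log u) u⁻¹ u := Real.hasDerivAt_log h1.ne'
    have h4 : HasDerivAt (fun u : ℝ => 1 - u) (-1) u := by
      simpa using (hasDerivAt_id u).const_sub 1
    have h5 : HasDerivAt (fun u : ℝ => Real.log (1 - u)) ((-1) / (1 - u)) u := h4.log h2.ne'
    have h6 := h3.sub h5
    refine h6.congr_deriv ?_
    field_simp
    ring
  · refine ContinuousOn.intervalIntegrable ?_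
    refine ContinuousOn.div (ContinuousOn.div continuousOn_const
      (continuousOn_const.sub continuousOn_id) fun u hu => (hI u hu).2.ne') continuousOn_id
      fun u hu => (hI u hu).1.ne'

/-- the final numerical estimate -/
private theorem ZSum2_num (ζ ε η : ℝ) (hζ : 1 / 4 < ζ) (hζ2 : ζ < 1 / 3) (hη : 0 < η)
    (hη1 : η ≤ 1 / 8) (hη2 : η * (11 + ε) ≤ ε) :
    1 / (1 - η) * ((∫ u in ζ..(1 / 2 + η), (1 / (1 - u)) / u) + η) ≤ Z2 ζ + ε := by
  rw [ZSum2_int ζ (1 / 2 + η) (by linarith) (by linarith) (by linarith)]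
  have hZ : Z2 ζ = Real.log (1 - ζ) - Real.log ζ := by
    unfold Z2
    rw [Real.log_div (by linarith) (by linarith)]
  have h1 : Real.log (1 / 2 + η) - Real.log (1 - (1 / 2 + η)) ≤ 8 * η := by
    rw [← Real.log_div (by linarith) (by linarith)]
    have h2 : (0 : ℝ) < (1 / 2 + η) / (1 - (1 / 2 + η)) := div_pos (by linarith) (by linarith)
    refine (Real.log_le_sub_one_of_pos h2).trans ?_
    rw [sub_le_iff_le_add, div_le_iff₀ (by linarith)]
    nlinarith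
  have h3 : Z2 ζ ≤ 2 := by
    unfold Z2
    have h4 : (0 : ℝ) < (1 - ζ) / ζ := div_pos (by linarith) (by linarith)
    refine (Real.log_le_sub_one_of_pos h4).trans ?_
    rw [sub_le_iff_le_add, div_le_iff₀ (by linarith)]
    linarith
  rw [one_div, inv_mul_le_iff₀ (by linarith)]
  nlinarith

theorem e2sum (ζ ε : ℝ) (hζ : 1 / 4 < ζ) (hζ2 : ζ < 1 / 3) (hε : 0 < ε) : ∃ N0 : ℕ, ∀ N : ℕ, N0 ≤ N → ∀ x : ℕ,
    N ≤ 8 * x → x ≤ 8 * N →
      ∑ p ∈ (Icc 1 (16 * N)).filter (fun p : ℕ => p.Prime ∧ (N : ℝ) ^ ζ < p ∧ p ^ 2 ≤ 16 * N),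
        1 / (p * Real.log ((x : ℝ) / p)) ≤ (Z2 ζ + ε) / Real.log N := by
  set η : ℝ := min (1 / 8) (ε / (11 + ε)) with hηdef
  have hη : 0 < η := lt_min (by norm_num) (by positivity)
  have hη1 : η ≤ 1 / 8 := min_le_left _ _
  have hη2 : η * (11 + ε) ≤ ε := by
    have h1 : η ≤ ε / (11 + ε) := min_le_right _ _
    rwa [le_div_iff₀ (by positivity)] at h1
  obtain ⟨N1, hN1⟩ := mert_r (1 / 4) 16 η (by norm_num) (by norm_num) hη
  refine ⟨max N1 (⌈Real.exp (8 / η)⌉₊ + 1), fun N hN x hx1 hx2 => ?_⟩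
  have hNN1 : N1 ≤ N := le_trans (le_max_left _ _) hN
  have hNe : Real.exp (8 / η) ≤ N := by
    have h1 : ⌈Real.exp (8 / η)⌉₊ + 1 ≤ N := le_trans (le_max_right _ _) hN
    have h2 : (⌈Real.exp (8 / η)⌉₊ : ℝ) ≤ N := by exact_mod_cast (by omega : ⌈Real.exp (8 / η)⌉₊ ≤ N)
    exact (Nat.le_ceil _).trans h2
  have hN0 : (0 : ℝ) < N := lt_of_lt_of_le (Real.exp_pos _) hNe
  set L : ℝ := Real.log N with hL
  have hL8 : 8 / η ≤ L := by
    rw [hL, Real.le_log_iff_exp_le hN0]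
    exact hNe
  have hηL : 8 ≤ η * L := by
    rw [div_le_iff₀ hη] at hL8
    linarith
  have hLpos : 0 < L := lt_of_lt_of_le (by positivity) hL8
  set b : ℝ := 1 / 2 + η with hb
  have hN1' : (1 : ℝ) ≤ N := by
    have h1 : 1 ≤ N := by
      have : 0 < N := by exact_mod_cast hN0
      omega
    exact_mod_cast h1
  -- the function
  have hf1 : ∀ u ∈ Set.Icc ζ b, 0 ≤ 1 / (1 - u) ∧ 1 / (1 - u) ≤ 16 := by
    intro u hu
    have h1 : 3 / 8 ≤ 1 - u := by linarith [hu.2]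
    refine ⟨by positivity, ?_⟩
    rw [div_le_iff₀ (by linarith)]
    linarith
  have hf2 : ∀ u ∈ Set.Icc ζ b, ∀ v ∈ Set.Icc ζ b, |1 / (1 - u) - 1 / (1 - v)| ≤ 16 * |u - v| := by
    intro u hu v hv
    have h1 : 3 / 8 ≤ 1 - u := by linarith [hu.2]
    have h2 : 3 / 8 ≤ 1 - v := by linarith [hv.2]
    have h3 : 1 / (1 - u) - 1 / (1 - v) = (u - v) / ((1 - u) * (1 - v)) := by
      rw [div_sub_div _ _ (by linarith) (by linarith)]
      congr 1
      ring
    have h4 : 9 / 64 ≤ (1 - u) * (1 - v) := by nlinarith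
    rw [h3, abs_div, abs_of_pos (by linarith : (0 : ℝ) < (1 - u) * (1 - v)), div_le_iff₀ (by linarith)]
    nlinarith [abs_nonneg (u - v)]
  have hmain := hN1 N hNN1 ζ b (fun u => 1 / (1 - u)) hζ.le (by linarith) (by linarith) hf1 hf2
  have hnum := ZSum2_num ζ ε η hζ hζ2 hη hη1 hη2
  -- the range of the primes
  have hrange : ∀ p : ℕ, p.Prime → (N : ℝ) ^ ζ < p → (p : ℝ) ≤ (N : ℝ) ^ b →
      Real.log p / L ∈ Set.Icc ζ b := by
    intro p hp h1 h2
    have hp0 : (0 : ℝ) < p := by exact_mod_cast hp.pos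
    have h3 := Real.log_le_log (Real.rpow_pos_of_pos hN0 ζ) h1.le
    rw [Real.log_rpow hN0] at h3
    have h4 := Real.log_le_log hp0 h2
    rw [Real.log_rpow hN0] at h4
    exact ⟨by rw [le_div_iff₀ hLpos]; exact h3, by rw [div_le_iff₀ hLpos]; exact h4⟩
  have hsub : ∀ p : ℕ, p ^ 2 ≤ 16 * N → (p : ℝ) ≤ (N : ℝ) ^ b := by
    intro p hp
    have h1 : (p : ℝ) ^ 2 ≤ 16 * N := by exact_mod_cast hp
    have h2 : (p : ℝ) ≤ 4 * (N : ℝ) ^ (1 / 2 : ℝ) := by
      rw [← Real.sqrt_eq_rpow]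
      have h4 : Real.sqrt (16 * N) = 4 * Real.sqrt N := by
        rw [Real.sqrt_mul (by norm_num)]
        rw [show (16 : ℝ) = 4 ^ 2 by norm_num, Real.sqrt_sq (by norm_num)]
      rw [← h4]
      exact Real.le_sqrt_of_sq_le h1
    have h3 : (4 : ℝ) ≤ (N : ℝ) ^ η := by
      rw [← Real.log_le_log_iff (by norm_num) (Real.rpow_pos_of_pos hN0 η), Real.log_rpow hN0]
      have h4 : Real.log 4 ≤ 4 - 1 := Real.log_le_sub_one_of_pos (by norm_num)
      linarith
    rw [hb, Real.rpow_add hN0]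
    calc (p : ℝ) ≤ 4 * (N : ℝ) ^ (1 / 2 : ℝ) := h2
      _ ≤ (N : ℝ) ^ η * (N : ℝ) ^ (1 / 2 : ℝ) :=
        mul_le_mul_of_nonneg_right h3 (Real.rpow_nonneg hN0.le _)
      _ = (N : ℝ) ^ (1 / 2 : ℝ) * (N : ℝ) ^ η := mul_comm _ _
  have hterm : ∀ p ∈ (Icc 1 (16 * N)).filter (fun p : ℕ => p.Prime ∧ (N : ℝ) ^ ζ < p ∧ p ^ 2 ≤ 16 * N),
      1 / (p * Real.log ((x : ℝ) / p)) ≤
        1 / (1 - η) / L * ((fun u : ℝ => 1 / (1 - u)) (Real.log p / L) / p) := by
    intro p hp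
    obtain ⟨-, hpp, h1, h2⟩ := Finset.mem_filter.1 hp
    have hp0 : (0 : ℝ) < p := by exact_mod_cast hpp.pos
    obtain ⟨h3, h4⟩ := hrange p hpp h1 (hsub p h2)
    have hu : 3 / 8 ≤ 1 - Real.log p / L := by linarith
    have hx8 : (N : ℝ) ≤ 8 * x := by exact_mod_cast hx1
    have h5 : (N : ℝ) / (8 * p) ≤ x / p := by
      rw [div_le_div_iff₀ (by positivity) hp0]
      nlinarith
    have h6 : L - Real.log 8 - Real.log p ≤ Real.log ((x : ℝ) / p) := by
      have h7 := Real.log_le_log (by positivity) h5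
      rw [Real.log_div hN0.ne' (by positivity), Real.log_mul (by norm_num) hp0.ne'] at h7
      linarith
    have h8 : Real.log 8 ≤ 3 := by
      have h9 : Real.log 8 = 3 * Real.log 2 := by
        rw [show (8 : ℝ) = 2 ^ (3 : ℕ) by norm_num, Real.log_pow]
        norm_num
      have h10 : Real.log 2 ≤ 2 - 1 := Real.log_le_sub_one_of_pos (by norm_num)
      linarith
    have h9 : (1 - η) * (L * (1 - Real.log p / L)) ≤ Real.log ((x : ℝ) / p) := by
      have h10 : L * (1 - Real.log p / L) = L - Real.log p := by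
        field_simp
      have h11 : 3 ≤ η * (L * (1 - Real.log p / L)) := by nlinarith
      nlinarith
    have h12 : 0 < (1 - η) * (L * (1 - Real.log p / L)) := by
      have h13 : (0 : ℝ) < 1 - η := by linarith
      have h14 : 0 < 1 - Real.log p / L := by linarith
      positivity
    calc 1 / (p * Real.log ((x : ℝ) / p)) ≤ 1 / (p * ((1 - η) * (L * (1 - Real.log p / L)))) :=
          one_div_le_one_div_of_le (by positivity) (mul_le_mul_of_nonneg_left h9 hp0.le)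
      _ = 1 / (1 - η) / L * ((fun u : ℝ => 1 / (1 - u)) (Real.log p / L) / p) := by
        have h13 : (1 - η : ℝ) ≠ 0 := by linarith
        have h14 : 1 - Real.log p / L ≠ 0 := by linarith
        simp only [mul_inv, div_eq_mul_inv]
        ring
  calc ∑ p ∈ (Icc 1 (16 * N)).filter (fun p : ℕ => p.Prime ∧ (N : ℝ) ^ ζ < p ∧ p ^ 2 ≤ 16 * N),
        1 / (p * Real.log ((x : ℝ) / p))
      ≤ ∑ p ∈ (Icc 1 (16 * N)).filter (fun p : ℕ => p.Prime ∧ (N : ℝ) ^ ζ < p ∧ p ^ 2 ≤ 16 * N),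
        1 / (1 - η) / L * ((fun u : ℝ => 1 / (1 - u)) (Real.log p / L) / p) :=
        Finset.sum_le_sum hterm
    _ ≤ ∑ p ∈ (Icc 1 N).filter (fun p : ℕ => p.Prime ∧ (N : ℝ) ^ ζ < p ∧ (p : ℝ) ≤ (N : ℝ) ^ b),
        1 / (1 - η) / L * ((fun u : ℝ => 1 / (1 - u)) (Real.log p / L) / p) := by
        refine Finset.sum_le_sum_of_subset_of_nonneg ?_ ?_
        · intro p hp
          obtain ⟨h1, hpp, h2, h3⟩ := Finset.mem_filter.1 hp
          have h4 := hsub p h3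
          have h5 : (p : ℝ) ≤ N := by
            refine h4.trans ?_
            have h6 := Real.rpow_le_rpow_of_exponent_le hN1' (by linarith : b ≤ 1)
            rwa [Real.rpow_one] at h6
          exact Finset.mem_filter.2 ⟨Finset.mem_Icc.2 ⟨hpp.one_lt.le, by exact_mod_cast h5⟩,
            hpp, h2, h4⟩
        · intro p hp _
          obtain ⟨h1, hpp, h2, h3⟩ := Finset.mem_filter.1 hp
          have h4 := (hf1 _ (hrange p hpp h2 h3)).1
          have h5 : (0 : ℝ) < 1 - η := by linarith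
          have hp0 : (0 : ℝ) < p := by exact_mod_cast hpp.pos
          exact mul_nonneg (by positivity) (div_nonneg h4 hp0.le)
    _ = 1 / (1 - η) / L * ∑ p ∈ (Icc 1 N).filter (fun p : ℕ => p.Prime ∧ (N : ℝ) ^ ζ < p ∧ (p : ℝ) ≤ (N : ℝ) ^ b),
        (fun u : ℝ => 1 / (1 - u)) (Real.log p / L) / p := by rw [Finset.mul_sum]
    _ ≤ 1 / (1 - η) / L * ((∫ u in ζ..b, (1 / (1 - u)) / u) + η) := by
        refine mul_le_mul_of_nonneg_left hmain ?_
        have h5 : (0 : ℝ) < 1 - η := by linarith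
        positivity
    _ = (1 / (1 - η) * ((∫ u in ζ..b, (1 / (1 - u)) / u) + η)) / L := by ring
    _ ≤ (Z2 ζ + ε) / L := div_le_div_of_nonneg_right hnum hLpos.le

end Pool.Agent.H76.TP
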