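import Pool.Agent.H76.TP.PntI
import Pool.Agent.H76.TP.ZSum2
import Pool.Agent.H76.TP.ZSum3

/-!
# TP ZCnt: numbers with all prime factors `> N^ζ` in short intervals (`1/4 < ζ < 1/3`): primes + `E_2` + `E_3`

`m ∈ (x, x+l]`, `N/8 ≤ x ≤ 8N`, `l ≤ x`, so `2 ≤ m ≤ 16N < N^(4ζ)`: `m` has 1, 2 or 3 prime factors.  Let `ε' ` be small.
* `m = p`: `pnt_int` with `d = 1`: `≤ (1+ε') l/log x`, `log x ≥ L - log 8 ≥ (1-ε') L`.
* `m = p q`, `p ≤ q`: `p² ≤ 16N`, `q ∈ (x/p, (x+l)/p]` (natural division): `pnt_int` with `d = p ≤ 4 √N`: `∑_p (1+ε') l/(p log(x/p)) ≤ (1+ε')(Z2 ζ + ε') l/L` (`e2sum`).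
* `m = p q r`, `p ≤ q ≤ r`: `p³ ≤ 16N`, `p q² ≤ 16N`, `r ∈ (x/(pq), (x+l)/(pq)]`: `pnt_int` with `d = p q ≤ (16N)^(2/3)`, `e3sum`.
-/

set_option autoImplicit false

namespace Pool.Agent.H76.TP

open Finset MeasureTheory

/-- numbers with all prime factors `> y`, `m < y ^ 4`: one, two or three prime factors -/
private theorem ZCnt_split {N x l : ℕ} {y : ℝ} (hy : 0 ≤ y) (h4 : (16 * N : ℝ) < y ^ 4)
    (hx : 1 ≤ x) (hxl : x + l ≤ 16 * N) {m : ℕ} (hm1 : x < m) (hm2 : m ≤ x + l)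
    (hr : ∀ p : ℕ, p.Prime → p ∣ m → y < p) :
    m.Prime ∨
      (∃ p q : ℕ, p.Prime ∧ y < p ∧ p ^ 2 ≤ 16 * N ∧ q.Prime ∧ m = p * q) ∨
      (∃ p q r : ℕ, p.Prime ∧ y < p ∧ p ^ 3 ≤ 16 * N ∧ q.Prime ∧ p ≤ q ∧ p * q ^ 2 ≤ 16 * N ∧
        r.Prime ∧ m = p * q * r) := by
  have hm0 : m ≠ 1 := by omega
  have hm16 : m ≤ 16 * N := hm2.trans hxl
  obtain ⟨p, hp⟩ : ∃ p, p = m.minFac := ⟨_, rfl⟩
  have hpp : p.Prime := hp ▸ Nat.minFac_prime hm0
  have hpm : p ∣ m := hp ▸ Nat.minFac_dvd m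
  obtain ⟨m1, hm1'⟩ := id hpm
  by_cases h1 : m1 = 1
  · left
    rw [hm1', h1, mul_one]
    exact hpp
  obtain ⟨q, hq⟩ : ∃ q, q = m1.minFac := ⟨_, rfl⟩
  have hqp : q.Prime := hq ▸ Nat.minFac_prime h1
  have hqm1 : q ∣ m1 := hq ▸ Nat.minFac_dvd m1
  have hqm : q ∣ m := hqm1.trans ⟨p, by rw [hm1', mul_comm]⟩
  have hpq : p ≤ q := by
    rw [hp]
    exact Nat.minFac_le_of_dvd hqp.two_le hqm
  obtain ⟨m2, hm2'⟩ := id hqm1
  by_cases h2 : m2 = 1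
  · right
    left
    rw [h2, mul_one] at hm2'
    refine ⟨p, q, hpp, hr p hpp hpm, ?_, hqp, by rw [hm1', hm2']⟩
    calc p ^ 2 = p * p := sq p
      _ ≤ p * q := Nat.mul_le_mul_left p hpq
      _ = m := by rw [hm1', hm2']
      _ ≤ 16 * N := hm16
  obtain ⟨r, hr'⟩ : ∃ r, r = m2.minFac := ⟨_, rfl⟩
  have hrp : r.Prime := hr' ▸ Nat.minFac_prime h2
  have hrm2 : r ∣ m2 := hr' ▸ Nat.minFac_dvd m2
  have hrm1 : r ∣ m1 := hrm2.trans ⟨q, by rw [hm2', mul_comm]⟩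
  have hrm : r ∣ m := hrm1.trans ⟨p, by rw [hm1', mul_comm]⟩
  have hqr : q ≤ r := by
    rw [hq]
    exact Nat.minFac_le_of_dvd hrp.two_le hrm1
  obtain ⟨m3, hm3'⟩ := id hrm2
  by_cases h3 : m3 = 1
  · right
    right
    rw [h3, mul_one] at hm3'
    have hm : m = p * q * r := by rw [hm1', hm2', hm3', mul_assoc]
    refine ⟨p, q, r, hpp, hr p hpp hpm, ?_, hqp, hpq, ?_, hrp, hm⟩
    · calc p ^ 3 = p * p * p := by ring
        _ ≤ p * q * r := Nat.mul_le_mul (Nat.mul_le_mul_left p hpq) (hpq.trans hqr)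
        _ = m := hm.symm
        _ ≤ 16 * N := hm16
    · calc p * q ^ 2 = p * q * q := by ring
        _ ≤ p * q * r := Nat.mul_le_mul_left _ hqr
        _ = m := hm.symm
        _ ≤ 16 * N := hm16
  · exfalso
    obtain ⟨s, hs⟩ : ∃ s, s = m3.minFac := ⟨_, rfl⟩
    have hsp : s.Prime := hs ▸ Nat.minFac_prime h3
    have hsm3 : s ∣ m3 := hs ▸ Nat.minFac_dvd m3
    have hm : m = p * q * r * m3 := by rw [hm1', hm2', hm3']; ring
    have hsm : s ∣ m := hsm3.trans ⟨p * q * r, by rw [hm, mul_comm]⟩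
    have hm30 : 0 < m3 := by
      rcases Nat.eq_zero_or_pos m3 with h | h
      · rw [h, mul_zero] at hm
        omega
      · exact h
    have hsle : s ≤ m3 := Nat.le_of_dvd hm30 hsm3
    have e1 := hr p hpp hpm
    have e2 := hr q hqp hqm
    have e3 := hr r hrp hrm
    have e4 := hr s hsp hsm
    have h5 : y ^ 4 ≤ (p : ℝ) * q * r * s := by
      have : y ^ 4 = y * y * y * y := by ring
      rw [this]
      gcongr
    have h6 : ((p * q * r * s : ℕ) : ℝ) ≤ ((16 * N : ℕ) : ℝ) := by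
      have : p * q * r * s ≤ p * q * r * m3 := Nat.mul_le_mul_left _ hsle
      exact_mod_cast (this.trans (hm ▸ le_rfl)).trans hm16
    push_cast at h6
    linarith

/-- the union bound -/
private theorem ZCnt_union {N x l : ℕ} {y : ℝ} (hy : 0 ≤ y) (h4 : (16 * N : ℝ) < y ^ 4)
    (hx : 1 ≤ x) (hxl : x + l ≤ 16 * N) (T : Finset ℕ)
    (hT : ∀ m ∈ T, x < m ∧ m ≤ x + l ∧ ∀ p : ℕ, p.Prime → p ∣ m → y < p) :
    (T.card : ℝ) ≤ (((Ioc (x / 1) ((x + l) / 1)).filter Nat.Prime).card : ℝ) +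
      ∑ p ∈ (Icc 1 (16 * N)).filter (fun p : ℕ => p.Prime ∧ y < p ∧ p ^ 2 ≤ 16 * N),
        (((Ioc (x / p) ((x + l) / p)).filter Nat.Prime).card : ℝ) +
      ∑ p ∈ (Icc 1 (16 * N)).filter (fun p : ℕ => p.Prime ∧ y < p ∧ p ^ 3 ≤ 16 * N),
        ∑ q ∈ (Icc p (16 * N)).filter (fun q : ℕ => q.Prime ∧ p * q ^ 2 ≤ 16 * N),
          (((Ioc (x / (p * q)) ((x + l) / (p * q))).filter Nat.Prime).card : ℝ) := by
  have hsub : T ⊆ ((Ioc (x / 1) ((x + l) / 1)).filter Nat.Prime) ∪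
      (((Icc 1 (16 * N)).filter (fun p : ℕ => p.Prime ∧ y < p ∧ p ^ 2 ≤ 16 * N)).biUnion
        (fun p => ((Ioc (x / p) ((x + l) / p)).filter Nat.Prime).image (fun q => p * q))) ∪
      (((Icc 1 (16 * N)).filter (fun p : ℕ => p.Prime ∧ y < p ∧ p ^ 3 ≤ 16 * N)).biUnion
        (fun p => ((Icc p (16 * N)).filter
          (fun q : ℕ => q.Prime ∧ p * q ^ 2 ≤ 16 * N)).biUnion
          (fun q => ((Ioc (x / (p * q)) ((x + l) / (p * q))).filter Nat.Prime).image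
            (fun r => p * q * r)))) := by
    intro m hm
    obtain ⟨hm1, hm2, hr⟩ := hT m hm
    rw [mem_union, mem_union]
    rcases ZCnt_split hy h4 hx hxl hm1 hm2 hr with h | ⟨p, q, hp, hyp, hp2, hq, hmpq⟩ |
      ⟨p, q, r, hp, hyp, hp3, hq, hpq, hpq2, hr', hmr⟩
    · left; left
      rw [Nat.div_one, Nat.div_one, mem_filter, mem_Ioc]
      exact ⟨⟨hm1, hm2⟩, h⟩
    · left; right
      rw [mem_biUnion]
      refine ⟨p, ?_, ?_⟩
      · rw [mem_filter, mem_Icc]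
        exact ⟨⟨hp.one_le, (Nat.le_self_pow two_ne_zero p).trans hp2⟩, hp, hyp, hp2⟩
      · rw [mem_image]
        refine ⟨q, ?_, hmpq.symm⟩
        rw [mem_filter, mem_Ioc]
        refine ⟨⟨?_, ?_⟩, hq⟩
        · rw [Nat.div_lt_iff_lt_mul hp.pos, mul_comm, ← hmpq]
          exact hm1
        · rw [Nat.le_div_iff_mul_le hp.pos, mul_comm, ← hmpq]
          exact hm2
    · right
      rw [mem_biUnion]
      refine ⟨p, ?_, ?_⟩
      · rw [mem_filter, mem_Icc]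
        exact ⟨⟨hp.one_le, (Nat.le_self_pow three_ne_zero p).trans hp3⟩, hp, hyp, hp3⟩
      · rw [mem_biUnion]
        refine ⟨q, ?_, ?_⟩
        · rw [mem_filter, mem_Icc]
          refine ⟨⟨hpq, ?_⟩, hq, hpq2⟩
          calc q ≤ q ^ 2 := Nat.le_self_pow two_ne_zero q
            _ ≤ p * q ^ 2 := Nat.le_mul_of_pos_left _ hp.pos
            _ ≤ 16 * N := hpq2
        · rw [mem_image]
          refine ⟨r, ?_, hmr.symm⟩
          rw [mem_filter, mem_Ioc]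
          have hpos : 0 < p * q := Nat.mul_pos hp.pos hq.pos
          refine ⟨⟨?_, ?_⟩, hr'⟩
          · rw [Nat.div_lt_iff_lt_mul hpos, mul_comm, ← hmr]
            exact hm1
          · rw [Nat.le_div_iff_mul_le hpos, mul_comm, ← hmr]
            exact hm2
  have h1 := (card_le_card hsub).trans ((card_union_le _ _).trans
    (add_le_add (card_union_le _ _) le_rfl))
  have h2 := (card_biUnion_le (s := (Icc 1 (16 * N)).filter
    (fun p : ℕ => p.Prime ∧ y < p ∧ p ^ 2 ≤ 16 * N))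
    (t := fun p => ((Ioc (x / p) ((x + l) / p)).filter Nat.Prime).image (fun q => p * q))).trans
    (sum_le_sum fun p _ => card_image_le)
  have h3 := (card_biUnion_le (s := (Icc 1 (16 * N)).filter
    (fun p : ℕ => p.Prime ∧ y < p ∧ p ^ 3 ≤ 16 * N))
    (t := fun p => ((Icc p (16 * N)).filter
          (fun q : ℕ => q.Prime ∧ p * q ^ 2 ≤ 16 * N)).biUnion
          (fun q => ((Ioc (x / (p * q)) ((x + l) / (p * q))).filter Nat.Prime).image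
            (fun r => p * q * r)))).trans
    (sum_le_sum fun p _ => card_biUnion_le.trans (sum_le_sum fun q _ => card_image_le))
  have h4 := h1.trans (add_le_add (add_le_add le_rfl h2) h3)
  have h5 : ((T.card : ℕ) : ℝ) ≤ _ := Nat.cast_le.2 h4
  push_cast at h5
  exact h5

private theorem ZCnt_size {N x d : ℕ} (hN : (2 : ℝ) ^ 17 ≤ (N : ℝ) ^ (1 / 4 : ℝ))
    (hx : N ≤ 8 * x) (hd : d ^ 6 ≤ (16 * N) ^ 4) : (N : ℝ) ^ (1 / 4 : ℝ) * d ≤ x := by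
  have hx' : (N : ℝ) ≤ 8 * x := by exact_mod_cast hx
  have hN0 : (0 : ℝ) ≤ N := Nat.cast_nonneg N
  have hd' : (d : ℝ) ^ 3 ≤ (16 * N) ^ 2 := by
    have h1 : ((d : ℝ) ^ 3) ^ 2 ≤ (((16 : ℝ) * N) ^ 2) ^ 2 := by
      have h2 : ((d ^ 6 : ℕ) : ℝ) ≤ (((16 * N) ^ 4 : ℕ) : ℝ) := by exact_mod_cast hd
      push_cast at h2
      calc ((d : ℝ) ^ 3) ^ 2 = (d : ℝ) ^ 6 := by ring
        _ ≤ ((16 : ℝ) * N) ^ 4 := h2
        _ = (((16 : ℝ) * N) ^ 2) ^ 2 := by ring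
    exact (pow_le_pow_iff_left₀ (by positivity) (by positivity) two_ne_zero).1 h1
  obtain ⟨a, ha⟩ : ∃ a : ℝ, a = (N : ℝ) ^ (1 / 4 : ℝ) := ⟨_, rfl⟩
  have ha4 : a ^ 4 = N := by
    rw [ha, ← Real.rpow_natCast, ← Real.rpow_mul hN0]
    norm_num
  rw [← ha] at hN ⊢
  have ha0 : 0 ≤ a := le_trans (by positivity) hN
  have h3 : (a * d) ^ 3 ≤ ((N : ℝ) / 8) ^ 3 := by
    have h4 : (a * d) ^ 3 = a ^ 3 * (d : ℝ) ^ 3 := by ring
    have h5 : a ^ 3 * (d : ℝ) ^ 3 ≤ a ^ 3 * (16 * N) ^ 2 :=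
      mul_le_mul_of_nonneg_left hd' (by positivity)
    have h6 : a ^ 3 * (16 * (N : ℝ)) ^ 2 = 256 * a ^ 11 := by
      rw [← ha4]; ring
    have h7 : ((N : ℝ) / 8) ^ 3 = a ^ 11 * a / 512 := by
      rw [← ha4]; ring
    have h8 : (0 : ℝ) ≤ a ^ 11 := by positivity
    have h9 : a ^ 11 * (2 : ℝ) ^ 17 ≤ a ^ 11 * a := mul_le_mul_of_nonneg_left hN h8
    rw [h4, h7]
    refine h5.trans ?_
    rw [h6]
    have h10 : (2 : ℝ) ^ 17 = 256 * 512 := by norm_num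
    rw [h10] at h9
    linarith
  have h4 : a * d ≤ (N : ℝ) / 8 :=
    (pow_le_pow_iff_left₀ (by positivity) (by positivity) three_ne_zero).1 h3
  linarith

open Classical in
theorem zcount (ζ ε : ℝ) (hζ : 1 / 4 < ζ) (hζ2 : ζ < 1 / 3) (hε : 0 < ε) (K : ℕ) : ∃ N0 : ℕ, ∀ N : ℕ, N0 ≤ N →
    ∀ x l : ℕ, N ≤ 8 * x → x ≤ 8 * N → (x : ℝ) / Real.log N ^ K ≤ l → l ≤ x →
      (((Ioc x (x + l)).filter (fun m => ∀ p : ℕ, p.Prime → p ∣ m → (N : ℝ) ^ ζ < p)).card : ℝ) ≤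
        (1 + Z2 ζ + Z3 ζ + ε) * l / Real.log N := by
  obtain ⟨Z, hZ⟩ : ∃ Z : ℝ, Z = Z2 ζ + Z3 ζ := ⟨_, rfl⟩
  obtain ⟨δ, hδ0, hδ1, hδ⟩ : ∃ δ : ℝ, 0 < δ ∧ δ ≤ 1 ∧ δ * (|Z| + 7) ≤ ε := by
    refine ⟨min 1 (ε / (|Z| + 7)), lt_min one_pos (by positivity), min_le_left _ _, ?_⟩
    calc min 1 (ε / (|Z| + 7)) * (|Z| + 7) ≤ ε / (|Z| + 7) * (|Z| + 7) :=
          mul_le_mul_of_nonneg_right (min_le_right _ _) (by positivity)
      _ = ε := div_mul_cancel₀ _ (by positivity)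
  obtain ⟨N1, hN1⟩ := pnt_int K δ (1 / 4) hδ0 (by norm_num)
  obtain ⟨N2, hN2⟩ := e2sum ζ δ hζ hζ2 hδ0
  obtain ⟨N3, hN3⟩ := e3sum ζ δ hζ hζ2 hδ0
  have hcast : Filter.Tendsto (fun N : ℕ => (N : ℝ)) Filter.atTop Filter.atTop :=
    tendsto_natCast_atTop_atTop
  have E1 : ∀ᶠ N : ℕ in Filter.atTop, (16 : ℝ) < (N : ℝ) ^ (4 * ζ - 1) :=
    ((tendsto_rpow_atTop (by linarith)).comp hcast).eventually_gt_atTop 16
  have E2 : ∀ᶠ N : ℕ in Filter.atTop, (2 : ℝ) ^ 17 ≤ (N : ℝ) ^ (1 / 4 : ℝ) :=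
    ((tendsto_rpow_atTop (by norm_num)).comp hcast).eventually_ge_atTop _
  have E3 : ∀ᶠ N : ℕ in Filter.atTop, (1 + δ) * Real.log 8 / δ ≤ Real.log N :=
    (Real.tendsto_log_atTop.comp hcast).eventually_ge_atTop _
  have E4 : ∀ᶠ N : ℕ in Filter.atTop, N1 ≤ N ∧ N2 ≤ N ∧ N3 ≤ N ∧ 8 ≤ N := by
    filter_upwards [Filter.eventually_ge_atTop (N1 + N2 + N3 + 8)] with N hN
    omega
  obtain ⟨N0, hN0⟩ := Filter.eventually_atTop.1 (E1.and (E2.and (E3.and E4)))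
  refine ⟨N0, fun N hN x l hx8 hx hl hlx => ?_⟩
  obtain ⟨e1, e2, e3, n1, n2, n3, n8⟩ := hN0 N hN
  have hNpos : (0 : ℝ) < N := by exact_mod_cast (by omega : 0 < N)
  have hx1 : 1 ≤ x := by omega
  have hxpos : (0 : ℝ) < x := by exact_mod_cast hx1
  have hL8 : Real.log 8 < Real.log N := by
    have h1 : (0 : ℝ) < Real.log 8 := Real.log_pos (by norm_num)
    have h2 : Real.log 8 < (1 + δ) * Real.log 8 / δ := by
      rw [lt_div_iff₀ hδ0]
      nlinarith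
    linarith
  have hLpos : 0 < Real.log N := lt_trans (Real.log_pos (by norm_num)) hL8
  have h4 : (16 * N : ℝ) < ((N : ℝ) ^ ζ) ^ 4 := by
    have h1 : ((N : ℝ) ^ ζ) ^ 4 = (N : ℝ) ^ (4 * ζ - 1) * N := by
      rw [← Real.rpow_natCast, ← Real.rpow_mul hNpos.le]
      nth_rewrite 3 [← Real.rpow_one (N : ℝ)]
      rw [← Real.rpow_add hNpos]
      congr 1
      push_cast
      ring
    rw [h1]
    exact mul_lt_mul_of_pos_right e1 hNpos
  have hxl : x + l ≤ 16 * N := by omega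
  have hxN2 : x ≤ N ^ 2 := by nlinarith
  have hU := ZCnt_union (y := (N : ℝ) ^ ζ) (by positivity) h4 hx1 hxl
    ((Ioc x (x + l)).filter (fun m => ∀ p : ℕ, p.Prime → p ∣ m → (N : ℝ) ^ ζ < p))
    (fun m hm => by
      rw [mem_filter, mem_Ioc] at hm
      exact ⟨hm.1.1, hm.1.2, hm.2⟩)
  have hpnt : ∀ d : ℕ, 1 ≤ d → d ^ 6 ≤ (16 * N) ^ 4 →
      (((Ioc (x / d) ((x + l) / d)).filter Nat.Prime).card : ℝ) ≤
        (1 + δ) * l / (d * Real.log ((x : ℝ) / d)) := fun d hd hd6 =>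
    hN1 N n1 x l d hd (ZCnt_size e2 hx8 hd6) hxN2 hl hlx
  have hl0 : (0 : ℝ) ≤ l := Nat.cast_nonneg l
  -- primes
  have B1 : (((Ioc (x / 1) ((x + l) / 1)).filter Nat.Prime).card : ℝ) ≤
      (1 + δ) ^ 2 * l / Real.log N := by
    have h1 := hpnt 1 le_rfl (by
      rw [one_pow]
      exact Nat.one_le_pow _ _ (by omega))
    refine h1.trans ?_
    rw [Nat.cast_one, one_mul, div_one]
    have h2 : Real.log N ≤ (1 + δ) * Real.log x := by
      have h3 : Real.log N - Real.log 8 ≤ Real.log x := by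
        rw [← Real.log_div hNpos.ne' (by norm_num)]
        refine Real.log_le_log (by positivity) ?_
        rw [div_le_iff₀ (by norm_num)]
        have : (N : ℝ) ≤ 8 * x := by exact_mod_cast hx8
        linarith
      have h4 : (1 + δ) * Real.log 8 ≤ δ * Real.log N := by
        rw [div_le_iff₀ hδ0] at e3
        linarith
      nlinarith
    have h3 : 0 < Real.log x := by
      by_contra h3
      push Not at h3
      nlinarith
    rw [div_le_div_iff₀ h3 hLpos]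
    have h4 : 0 ≤ (1 + δ) * l := by positivity
    nlinarith [mul_le_mul_of_nonneg_left h2 h4]
  -- products of two primes
  have B2 : ∑ p ∈ (Icc 1 (16 * N)).filter
      (fun p : ℕ => p.Prime ∧ (N : ℝ) ^ ζ < p ∧ p ^ 2 ≤ 16 * N),
        (((Ioc (x / p) ((x + l) / p)).filter Nat.Prime).card : ℝ) ≤
      (1 + δ) * l * ((Z2 ζ + δ) / Real.log N) := by
    refine le_trans ?_ (mul_le_mul_of_nonneg_left (hN2 N n2 x hx8 hx) (by positivity))
    rw [mul_sum]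
    refine sum_le_sum fun p hp => ?_
    rw [mem_filter] at hp
    obtain ⟨-, hpp, -, hp2⟩ := hp
    refine (hpnt p hpp.one_le ?_).trans (le_of_eq ?_)
    · calc p ^ 6 = (p ^ 2) ^ 3 := by ring
        _ ≤ (16 * N) ^ 3 := Nat.pow_le_pow_left hp2 3
        _ ≤ (16 * N) ^ 4 := Nat.pow_le_pow_right (by omega) (by norm_num)
    · rw [mul_one_div]
  -- products of three primes
  have B3 : ∑ p ∈ (Icc 1 (16 * N)).filter
      (fun p : ℕ => p.Prime ∧ (N : ℝ) ^ ζ < p ∧ p ^ 3 ≤ 16 * N),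
        ∑ q ∈ (Icc p (16 * N)).filter (fun q : ℕ => q.Prime ∧ p * q ^ 2 ≤ 16 * N),
          (((Ioc (x / (p * q)) ((x + l) / (p * q))).filter Nat.Prime).card : ℝ) ≤
      (1 + δ) * l * ((Z3 ζ + δ) / Real.log N) := by
    refine le_trans ?_ (mul_le_mul_of_nonneg_left (hN3 N n3 x hx8 hx) (by positivity))
    rw [mul_sum]
    refine sum_le_sum fun p hp => ?_
    rw [mul_sum]
    refine sum_le_sum fun q hq => ?_
    rw [mem_filter] at hp hq
    obtain ⟨-, hpp, -, hp3⟩ := hp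
    obtain ⟨-, hqp, hpq2⟩ := hq
    refine (hpnt (p * q) (Nat.mul_pos hpp.pos hqp.pos) ?_).trans (le_of_eq ?_)
    · calc (p * q) ^ 6 = p ^ 3 * (p * q ^ 2) ^ 3 := by ring
        _ ≤ (16 * N) * (16 * N) ^ 3 := Nat.mul_le_mul hp3 (Nat.pow_le_pow_left hpq2 3)
        _ = (16 * N) ^ 4 := by ring
    · rw [Nat.cast_mul, mul_one_div]
  have hfin : (1 + δ) ^ 2 + (1 + δ) * (Z2 ζ + δ) + (1 + δ) * (Z3 ζ + δ) ≤
      1 + Z2 ζ + Z3 ζ + ε := by
    have h1 : Z ≤ |Z| := le_abs_self Z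
    have h2 : δ * Z ≤ δ * |Z| := mul_le_mul_of_nonneg_left h1 hδ0.le
    have h3 : δ * δ ≤ δ := by nlinarith
    have h4 : (1 + δ) ^ 2 + (1 + δ) * (Z2 ζ + δ) + (1 + δ) * (Z3 ζ + δ) =
        1 + Z + (δ * Z + 4 * δ + 3 * (δ * δ)) := by rw [hZ]; ring
    have h5 : 1 + Z2 ζ + Z3 ζ + ε = 1 + Z + ε := by rw [hZ]; ring
    rw [h4, h5]
    nlinarith
  have hlL : 0 ≤ (l : ℝ) / Real.log N := by positivity
  calc _ ≤ _ := hU
    _ ≤ (1 + δ) ^ 2 * l / Real.log N + (1 + δ) * l * ((Z2 ζ + δ) / Real.log N) +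
        (1 + δ) * l * ((Z3 ζ + δ) / Real.log N) := add_le_add (add_le_add B1 B2) B3
    _ = ((1 + δ) ^ 2 + (1 + δ) * (Z2 ζ + δ) + (1 + δ) * (Z3 ζ + δ)) *
        (l / Real.log N) := by ring
    _ ≤ (1 + Z2 ζ + Z3 ζ + ε) * (l / Real.log N) := mul_le_mul_of_nonneg_right hfin hlL
    _ = (1 + Z2 ζ + Z3 ζ + ε) * l / Real.log N := by ring

end Pool.Agent.H76.TP
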