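import Pool.Agent.H76.TP.Defs
import Pool.Agent.Lead.ZN.Mertens

/-!
# TP Gup: Selberg's `G` is almost the Euler product

`GD w y D = ∑_{A ⊆ PY w y, ∏A ≤ D} ∏_{p ∈ A} 1/(p-1)`.  `VV(PY w y) ∑_{all A} ∏ 1/(p-1) = ∏ (1 - 1/p)(1 + 1/(p-1)) = 1`.
The `A` with `∏A > D`: Rankin with `η = 1/log y`: `≤ D^(-η) VV ∏ (1 + p^η/(p-1)) = D^(-η) ∏ (1 + (p^η - 1)/p) ≤ D^(-η) exp(∑_{p ≤ y} (p^η - 1)/p)`, and `p^η - 1 ≤ 2 log p/log y` (`e^t - 1 ≤ 2t` for `0 ≤ t ≤ 1`),
`∑_{p ≤ y} log p/p ≤ log y + C'` (Mertens, e.g. `Pool.Agent.Lead.ZN.mertens`, see the proof of `Pool.Agent.H37.PPC.rankin` in `H37/PPC/Rk.lean`, which is almost this statement).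
-/

set_option autoImplicit false

namespace Pool.Agent.H76.TP

open Finset

/-- Selberg's denominator -/
noncomputable def GD (w y D : ℕ) : ℝ :=
  ∑ A ∈ (PY w y).powerset.filter (fun A => ∏ p ∈ A, p ≤ D), ∏ p ∈ A, (1 / ((p : ℝ) - 1))

private theorem Gup_factor {l : ℕ} (hl : l.Prime) {h t : ℝ} (h0 : 0 ≤ h) (hk : h * l ≤ 1 + h)
    (ht0 : 0 ≤ t) (ht1 : t ≤ 1) :
    1 + h * Real.exp t ≤ (1 + h) * Real.exp (1 / l * (2 * t)) := by
  have hl0 : (0 : ℝ) < l := by exact_mod_cast hl.pos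
  have h1 : Real.exp t - 1 ≤ 2 * t := by
    have := Real.abs_exp_sub_one_le (x := t) (by rw [abs_of_nonneg ht0]; exact ht1)
    rw [abs_of_nonneg ht0] at this
    exact (le_abs_self _).trans this
  have h2 : h ≤ 1 / l * (1 + h) := by
    rw [div_mul_eq_mul_div, one_mul, le_div_iff₀ hl0]
    exact hk
  have h4 : 1 + 1 / l * (2 * t) ≤ Real.exp (1 / l * (2 * t)) := by
    have := Real.add_one_le_exp ((1 : ℝ) / l * (2 * t))
    linarith
  calc 1 + h * Real.exp t = (1 + h) + h * (Real.exp t - 1) := by ring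
    _ ≤ (1 + h) + h * (2 * t) := by
        have := mul_le_mul_of_nonneg_left h1 h0
        linarith
    _ ≤ (1 + h) + 1 / l * (1 + h) * (2 * t) := by
        have := mul_le_mul_of_nonneg_right h2 (by linarith : (0 : ℝ) ≤ 2 * t)
        linarith
    _ = (1 + h) * (1 + 1 / l * (2 * t)) := by ring
    _ ≤ (1 + h) * Real.exp (1 / l * (2 * t)) :=
        mul_le_mul_of_nonneg_left h4 (by linarith)

private theorem Gup_mem {w y l : ℕ} (hl : l ∈ PY w y) : l.Prime ∧ l ≤ y := by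
  unfold PY at hl
  rw [mem_filter, mem_Ioc] at hl
  exact ⟨hl.2, hl.1.2⟩

theorem gup : ∃ C : ℝ, 0 < C ∧ ∀ w y D : ℕ, 2 ≤ w → w ≤ y → 1 ≤ D →
    1 - C * Real.exp (-(Real.log D / Real.log y)) ≤ VV (PY w y) * GD w y D := by
  obtain ⟨C, hC1, hC, -⟩ := Pool.Agent.Lead.ZN.mertens
  have hlog2 : 0 < Real.log 2 := Real.log_pos (by norm_num)
  refine ⟨Real.exp (2 * (1 + C / Real.log 2)), Real.exp_pos _, ?_⟩
  intro w y D hw hwy hD
  have hy2 : 2 ≤ y := hw.trans hwy
  have hD0 : (0 : ℝ) < D := by exact_mod_cast hD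
  set L : ℝ := Real.log y with hL
  have hL2 : Real.log 2 ≤ L := Real.log_le_log (by norm_num) (by exact_mod_cast hy2)
  have hL0 : 0 < L := hlog2.trans_le hL2
  set P : Finset ℕ := PY w y with hP
  have hPp : ∀ l ∈ P, l.Prime ∧ l ≤ y := fun l hl => Gup_mem hl
  set h : ℕ → ℝ := fun p => 1 / ((p : ℝ) - 1) with hh
  have hone : ∀ l ∈ P, (1 : ℝ) < l := fun l hl => by exact_mod_cast (hPp l hl).1.one_lt
  have hh0 : ∀ l ∈ P, 0 ≤ h l := fun l hl => by
    have := hone l hl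
    rw [hh]
    exact div_nonneg zero_le_one (by linarith)
  have hhk : ∀ l ∈ P, h l * l ≤ 1 + h l := fun l hl => by
    have h1 := hone l hl
    have h2 : (l : ℝ) - 1 ≠ 0 := by linarith
    rw [hh]
    apply le_of_eq
    field_simp
    ring
  have hV : VV P * ∏ l ∈ P, (1 + h l) = 1 := by
    unfold VV
    rw [← Finset.prod_mul_distrib]
    refine Finset.prod_eq_one fun l hl => ?_
    have h1 := hone l hl
    have h2 : (l : ℝ) - 1 ≠ 0 := by linarith
    have h3 : (l : ℝ) ≠ 0 := by linarith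
    rw [hh]
    field_simp
    ring
  have hV0 : 0 ≤ VV P := by
    unfold VV
    refine Finset.prod_nonneg fun l hl => ?_
    have h1 := hone l hl
    have h2 : 1 / (l : ℝ) ≤ 1 := by
      rw [div_le_one (by linarith)]
      exact h1.le
    linarith
  have ht : ∀ l ∈ P, 0 ≤ Real.log l / L ∧ Real.log l / L ≤ 1 := by
    intro l hl
    have h3 := hone l hl
    refine ⟨div_nonneg (Real.log_nonneg h3.le) hL0.le, ?_⟩
    rw [div_le_one hL0]
    exact Real.log_le_log (by linarith) (by exact_mod_cast (hPp l hl).2)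
  have hsum : ∑ l ∈ P, Real.log l / l ≤ L + C := by
    have h1 := hC 0 L le_rfl hL0.le
    rw [sub_zero] at h1
    refine le_trans (Finset.sum_le_sum_of_subset_of_nonneg ?_ ?_) h1
    · intro l hl
      obtain ⟨h1, h2⟩ := hPp l hl
      rw [Pool.Agent.Lead.ZN.mem_PL]
      refine ⟨h1, Real.log_pos (by exact_mod_cast h1.one_lt), ?_⟩
      exact Real.log_le_log (by exact_mod_cast h1.pos) (by exact_mod_cast h2)
    · intro l hl _
      have h2 := (Pool.Agent.Lead.ZN.mem_PL.1 hl).1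
      exact div_nonneg (Real.log_nonneg (by exact_mod_cast h2.one_lt.le)) (Nat.cast_nonneg _)
  have hprodpos : 0 ≤ ∏ l ∈ P, (1 + h l) :=
    Finset.prod_nonneg fun l hl => by
      have := hh0 l hl
      linarith
  have htw : ∏ l ∈ P, (1 + h l * Real.exp (Real.log l / L)) ≤
      (∏ l ∈ P, (1 + h l)) * Real.exp (2 * (1 + C / Real.log 2)) := by
    have h1 : ∏ l ∈ P, (1 + h l * Real.exp (Real.log l / L)) ≤
        ∏ l ∈ P, ((1 + h l) * Real.exp (1 / l * (2 * (Real.log l / L)))) := by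
      refine Finset.prod_le_prod ?_ ?_
      · intro l hl
        have := hh0 l hl
        positivity
      · intro l hl
        exact Gup_factor (hPp l hl).1 (hh0 l hl) (hhk l hl) (ht l hl).1 (ht l hl).2
    refine h1.trans ?_
    rw [Finset.prod_mul_distrib, ← Real.exp_sum]
    refine mul_le_mul_of_nonneg_left ?_ hprodpos
    rw [Real.exp_le_exp]
    have h4 : ∑ l ∈ P, ((1 : ℝ) / l * (2 * (Real.log l / L))) =
        2 / L * ∑ l ∈ P, Real.log l / l := by
      rw [Finset.mul_sum]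
      refine Finset.sum_congr rfl fun l _ => ?_
      ring
    rw [h4]
    have h5 : 2 / L * ∑ l ∈ P, Real.log l / l ≤ 2 / L * (L + C) :=
      mul_le_mul_of_nonneg_left hsum (by positivity)
    refine h5.trans ?_
    have h6 : 2 / L * (L + C) = 2 * (1 + C / L) := by
      field_simp
    rw [h6]
    refine mul_le_mul_of_nonneg_left ?_ (by norm_num)
    have : C / L ≤ C / Real.log 2 := div_le_div_of_nonneg_left (by linarith) hlog2 hL2
    linarith
  have hexp : ∏ l ∈ P, (1 + h l) = ∑ T ∈ P.powerset, ∏ l ∈ T, h l := Finset.prod_one_add P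
  have hexp2 : ∏ l ∈ P, (1 + h l * Real.exp (Real.log l / L)) =
      ∑ T ∈ P.powerset, ∏ l ∈ T, (h l * Real.exp (Real.log l / L)) := Finset.prod_one_add P
  have hTs : ∀ T ∈ P.powerset, ∀ l ∈ T, l ∈ P := fun T hT l hl => Finset.mem_powerset.1 hT hl
  -- the bad subsets
  have hbad : ∑ T ∈ P.powerset.filter (fun T => ¬ ∏ l ∈ T, l ≤ D), ∏ l ∈ T, h l ≤
      Real.exp (-(Real.log D / L)) * ∏ l ∈ P, (1 + h l * Real.exp (Real.log l / L)) := by
    rw [hexp2, Finset.mul_sum]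
    refine le_trans (Finset.sum_le_sum fun T hT => ?_)
      (Finset.sum_le_sum_of_subset_of_nonneg (Finset.filter_subset _ _) ?_)
    · obtain ⟨hT1, hT2⟩ := Finset.mem_filter.1 hT
      have hTs' := hTs T hT1
      rw [Finset.prod_mul_distrib, ← Real.exp_sum, mul_left_comm]
      refine le_mul_of_one_le_right
        (Finset.prod_nonneg fun l hl => hh0 l (hTs' l hl)) ?_
      rw [← Real.exp_add]
      refine Real.one_le_exp ?_
      have h1 : ∑ l ∈ T, Real.log (l : ℝ) = Real.log ((∏ l ∈ T, l : ℕ) : ℝ) := by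
        push_cast
        rw [Real.log_prod]
        intro l hl
        exact_mod_cast (hPp l (hTs' l hl)).1.ne_zero
      have h2 : Real.log D ≤ ∑ l ∈ T, Real.log (l : ℝ) := by
        rw [h1]
        refine Real.log_le_log hD0 ?_
        exact_mod_cast (not_le.1 hT2).le
      rw [← Finset.sum_div]
      have h3 : Real.log D / L ≤ (∑ l ∈ T, Real.log (l : ℝ)) / L :=
        div_le_div_of_nonneg_right h2 hL0.le
      linarith
    · intro T hT _
      refine mul_nonneg (Real.exp_pos _).le (Finset.prod_nonneg fun l hl => ?_)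
      have := hh0 l (hTs T hT l hl)
      positivity
  have hsplit := Finset.sum_filter_add_sum_filter_not P.powerset (fun T => ∏ l ∈ T, l ≤ D)
    (fun T => ∏ l ∈ T, h l)
  have hG : GD w y D = ∑ T ∈ P.powerset.filter (fun T => ∏ l ∈ T, l ≤ D), ∏ l ∈ T, h l := rfl
  rw [← hexp, ← hG] at hsplit
  have hb2 : ∑ T ∈ P.powerset.filter (fun T => ¬ ∏ l ∈ T, l ≤ D), ∏ l ∈ T, h l ≤
      Real.exp (-(Real.log D / L)) *
        ((∏ l ∈ P, (1 + h l)) * Real.exp (2 * (1 + C / Real.log 2))) :=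
    hbad.trans (mul_le_mul_of_nonneg_left htw (Real.exp_pos _).le)
  have hfin : VV P * (∑ T ∈ P.powerset.filter (fun T => ¬ ∏ l ∈ T, l ≤ D), ∏ l ∈ T, h l) ≤
      Real.exp (2 * (1 + C / Real.log 2)) * Real.exp (-(Real.log D / L)) := by
    refine (mul_le_mul_of_nonneg_left hb2 hV0).trans (le_of_eq ?_)
    calc VV P * (Real.exp (-(Real.log D / L)) *
        ((∏ l ∈ P, (1 + h l)) * Real.exp (2 * (1 + C / Real.log 2))))
        = (VV P * ∏ l ∈ P, (1 + h l)) *
          (Real.exp (2 * (1 + C / Real.log 2)) * Real.exp (-(Real.log D / L))) := by ring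
      _ = _ := by rw [hV, one_mul]
  have hmain : VV P * GD w y D = 1 -
      VV P * (∑ T ∈ P.powerset.filter (fun T => ¬ ∏ l ∈ T, l ≤ D), ∏ l ∈ T, h l) := by
    have h1 : GD w y D = (∏ l ∈ P, (1 + h l)) -
        ∑ T ∈ P.powerset.filter (fun T => ¬ ∏ l ∈ T, l ≤ D), ∏ l ∈ T, h l := by linarith
    rw [h1, mul_sub, hV]
  rw [hmain]
  linarith

end Pool.Agent.H76.TP
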