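import Pool.Agent.H76.TP.Defs
import Pool.Agent.H76.GB.Defs

/-!
# TP SvEv: facts for large `N` used in SvBB
-/

set_option autoImplicit false

namespace Pool.Agent.H76.TP

open Finset

/-- `a log L + b ≤ √L` -/
theorem sv_core (a b : ℝ) : ∃ N0 : ℕ, ∀ N : ℕ, N0 ≤ N →
    a * Real.log (Real.log N) + b ≤ Real.sqrt (Real.log N) := by
  have h1 := (isLittleO_log_rpow_atTop (show (0 : ℝ) < 1 / 2 by norm_num)).bound
    (c := 1 / (2 * (|a| + 1))) (by positivity)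
  have h2 : ∀ᶠ t : ℝ in Filter.atTop, 2 * |b| ≤ t ^ (1 / 2 : ℝ) :=
    (tendsto_rpow_atTop (by norm_num : (0 : ℝ) < 1 / 2)).eventually_ge_atTop _
  have h3 := (h1.and h2).and (Filter.eventually_ge_atTop (1 : ℝ))
  have h4 := (Real.tendsto_log_atTop.comp tendsto_natCast_atTop_atTop).eventually h3
  obtain ⟨N0, h5⟩ := Filter.eventually_atTop.1 h4
  refine ⟨N0, fun N hN => ?_⟩
  obtain ⟨⟨k1, k2⟩, k3⟩ := h5 N hN
  simp only [Function.comp_apply] at k1 k2 k3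
  set t := Real.log (N : ℝ) with ht
  rw [Real.norm_eq_abs, Real.norm_eq_abs, abs_of_nonneg (by positivity : (0 : ℝ) ≤ t ^ (1 / 2 : ℝ))] at k1
  rw [Real.sqrt_eq_rpow]
  set s := t ^ (1 / 2 : ℝ) with hs
  have hs0 : 0 ≤ s := by positivity
  have e1 : a * Real.log t ≤ s / 2 := by
    calc a * Real.log t ≤ |a * Real.log t| := le_abs_self _
      _ = |a| * |Real.log t| := abs_mul _ _
      _ ≤ |a| * (1 / (2 * (|a| + 1)) * s) := mul_le_mul_of_nonneg_left k1 (abs_nonneg _)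
      _ = (|a| / (|a| + 1)) * (s / 2) := by field_simp
      _ ≤ 1 * (s / 2) := by
          refine mul_le_mul_of_nonneg_right ?_ (by positivity)
          rw [div_le_one (by positivity)]
          linarith [abs_nonneg a]
      _ = s / 2 := one_mul _
  have e2 : b ≤ s / 2 := (le_abs_self b).trans (by linarith)
  linarith

/-- `exp(K √L log L) ≤ N^σ` -/
theorem sv_pow (K σ : ℝ) (hσ : 0 < σ) : ∃ N0 : ℕ, ∀ N : ℕ, N0 ≤ N →
    Real.exp (K * Real.sqrt (Real.log N) * Real.log (Real.log N)) ≤ (N : ℝ) ^ σ := by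
  obtain ⟨N1, h1⟩ := sv_core (K / σ) 0
  obtain ⟨N2, h2⟩ := Pool.Agent.H76.GB.log_ge 1
  refine ⟨max (max N1 N2) 1, fun N hN => ?_⟩
  have g1 := h1 N (((le_max_left _ _).trans (le_max_left _ _)).trans hN)
  have g2 := h2 N (((le_max_right _ _).trans (le_max_left _ _)).trans hN)
  have g3 : 1 ≤ N := (le_max_right _ _).trans hN
  have hN0 : (0 : ℝ) < N := by exact_mod_cast g3
  rw [Real.rpow_def_of_pos hN0]
  apply Real.exp_le_exp.2
  set L := Real.log (N : ℝ) with hL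
  rw [add_zero] at g1
  have hs : 0 ≤ Real.sqrt L := Real.sqrt_nonneg _
  have e1 : K * Real.sqrt L * Real.log L = σ * Real.sqrt L * (K / σ * Real.log L) := by
    field_simp
  rw [e1]
  calc σ * Real.sqrt L * (K / σ * Real.log L) ≤ σ * Real.sqrt L * Real.sqrt L :=
        mul_le_mul_of_nonneg_left g1 (by positivity)
    _ = L * σ := by rw [mul_assoc, Real.mul_self_sqrt (by linarith)]; ring

/-- `K L^M ≤ 2^⌊√L⌋` -/
theorem sv_two (K : ℝ) (M : ℕ) : ∃ N0 : ℕ, ∀ N : ℕ, N0 ≤ N →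
    K * Real.log N ^ M ≤ 2 ^ ⌊Real.sqrt (Real.log N)⌋₊ := by
  obtain ⟨N1, h1⟩ := sv_core (2 * M) (2 * Real.log (|K| + 1) + 1)
  obtain ⟨N2, h2⟩ := Pool.Agent.H76.GB.log_ge 1
  refine ⟨max N1 N2, fun N hN => ?_⟩
  have g1 := h1 N ((le_max_left _ _).trans hN)
  have g2 := h2 N ((le_max_right _ _).trans hN)
  set L := Real.log (N : ℝ) with hL
  have hL0 : 0 < L := by linarith
  have hf : Real.sqrt L - 1 ≤ (⌊Real.sqrt L⌋₊ : ℝ) := by
    have := Nat.lt_floor_add_one (Real.sqrt L)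
    linarith
  have hl2 : (1 : ℝ) / 2 ≤ Real.log 2 := by
    have := Real.log_two_gt_d9
    linarith
  have hf0 : (0 : ℝ) ≤ (⌊Real.sqrt L⌋₊ : ℝ) := Nat.cast_nonneg _
  calc K * L ^ M ≤ (|K| + 1) * L ^ M := by
        refine mul_le_mul_of_nonneg_right ?_ (by positivity)
        linarith [le_abs_self K]
    _ = Real.exp (Real.log (|K| + 1) + M * Real.log L) := by
        rw [Real.exp_add, Real.exp_log (by positivity), mul_comm (M : ℝ), ← Real.rpow_def_of_pos hL0,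
          Real.rpow_natCast]
    _ ≤ Real.exp ((⌊Real.sqrt L⌋₊ : ℝ) * Real.log 2) := by
        apply Real.exp_le_exp.2
        nlinarith
    _ = 2 ^ ⌊Real.sqrt L⌋₊ := by
        rw [mul_comm, ← Real.rpow_def_of_pos (by norm_num), Real.rpow_natCast]

/-- all the facts -/
theorem sv_ev (e4 e1 ε : ℝ) (he4 : 0 < e4) (he1 : 0 < e1) (he : e1 ≤ e4 / 80) (hε : 0 < ε) (A B : ℕ)
    (hB : 1 ≤ B) :
    ∃ N0 : ℕ, ∀ N : ℕ, N0 ≤ N → ∀ w r D Q : ℕ, w = ⌊Real.log N ^ B⌋₊ → r = ⌊Real.sqrt (Real.log N)⌋₊ →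
      D = ⌊(N : ℝ) ^ (e4 / 40)⌋₊ → Q = w ^ (2 * r) * D ^ 2 →
      8 ≤ Real.log N ∧ 2 ≤ w ∧ w ≤ yN e1 N ∧ Real.log N ^ B / 2 ≤ w ∧ 6 * (1 + Real.log w) ≤ r + 1 ∧
      yN e1 N ≤ D ∧ 1 ≤ D ∧ (yN e1 N : ℝ) ≤ (N : ℝ) ^ e1 ∧ e1 / 2 * Real.log N ≤ Real.log (yN e1 N) ∧
      (Q : ℝ) ≤ (N : ℝ) ^ (e4 / 12) ∧ 6 * (1 + Real.log Q) ^ 3 ≤ Real.log N ^ 4 ∧
      100 * (1 + 2 * Real.log Q) ^ 15 ≤ Real.log N ^ 16 ∧
      8 * Real.log N ^ A ≤ 2 ^ r ∧ 16 * (2 + Real.log (yN e1 N)) * Real.log N ≤ ε * 2 ^ r ∧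
      80 * yN e1 N * (Q : ℝ) ^ 2 * Real.log N ≤ ε * (N : ℝ) ^ e4 ∧
      8 * ((w : ℝ) + 1) ^ (2 * r + 1) * Real.log N ≤ ε * (N : ℝ) ^ e4 ∧
      8 * (Q : ℝ) ^ 4 * Real.log N ^ (A + 4) ≤ (N : ℝ) ^ e4 ∧
      e4 / (50 * e1) ≤ Real.log D / Real.log (yN e1 N) ∧ w ≤ Q ∧ (Q : ℝ) ^ 4 ≤ (N : ℝ) ^ e4 := by
  obtain ⟨M1, hM1⟩ := Pool.Agent.H76.GB.log_ge (max (max 8 (100 * (1 + e4) ^ 15)) (max (200 / e4) (6 * (1 + e4) ^ 3)))
  obtain ⟨M2, hM2⟩ := Pool.Agent.H76.GB.log_pow_le e1 1 he1 (by norm_num) B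
  obtain ⟨M3, hM3⟩ := sv_core (6 * B) 6
  obtain ⟨M4, hM4⟩ := Pool.Agent.H76.GB.log_pow_le (e1 / 2) 2 (by positivity) (by norm_num) 0
  obtain ⟨M5, hM5⟩ := sv_pow (2 * B) (e4 / 60) (by positivity)
  obtain ⟨M6, hM6⟩ := sv_two 8 A
  obtain ⟨M7, hM7⟩ := sv_two (16 * (2 + e1) / ε) 2
  obtain ⟨M8, hM8⟩ := Pool.Agent.H76.GB.log_pow_le (e4 / 4) (80 / ε) (by positivity) (by positivity) 1
  obtain ⟨M9, hM9⟩ := sv_pow (3 * (B + 1)) (e4 / 4) (by positivity)
  obtain ⟨M10, hM10⟩ := Pool.Agent.H76.GB.log_pow_le (e4 / 4) 8 (by positivity) (by norm_num) (A + 4)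
  obtain ⟨M11, hM11⟩ := Pool.Agent.H76.GB.log_pow_le (e4 / 40) 2 (by positivity) (by norm_num) 0
  refine ⟨M1 + M2 + M3 + M4 + M5 + M6 + M7 + M8 + M9 + M10 + M11, fun N hN w r D Q hw hr hD hQ => ?_⟩
  have g1 := hM1 N (by omega)
  have g2 := hM2 N (by omega)
  have g3 := hM3 N (by omega)
  have g4 := hM4 N (by omega)
  have g5 := hM5 N (by omega)
  have g6 := hM6 N (by omega)
  have g7 := hM7 N (by omega)
  have g8 := hM8 N (by omega)
  have g9 := hM9 N (by omega)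
  have g10 := hM10 N (by omega)
  have g11 := hM11 N (by omega)
  rw [pow_zero, mul_one] at g4 g11
  rw [pow_one] at g8
  rw [one_mul] at g2
  set L := Real.log (N : ℝ) with hL
  simp only [max_le_iff] at g1
  obtain ⟨⟨a1, a2⟩, a3, a4⟩ := g1
  have hL0 : 0 < L := by linarith
  have hL1 : 1 ≤ L := by linarith
  have hN0 : N ≠ 0 := by
    rintro rfl
    rw [hL] at a1
    norm_num at a1
  have hN1 : (1 : ℝ) ≤ N := by exact_mod_cast Nat.one_le_iff_ne_zero.2 hN0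
  have hNpos : (0 : ℝ) < N := by linarith
  have hLB : 8 ≤ L ^ B := by
    calc (8 : ℝ) ≤ L ^ 1 := by linarith
      _ ≤ L ^ B := pow_le_pow_right₀ hL1 hB
  have w1 : (w : ℝ) ≤ L ^ B := by rw [hw]; exact Nat.floor_le (by positivity)
  have w2 : L ^ B < w + 1 := by rw [hw]; exact Nat.lt_floor_add_one _
  have w3 : L ^ B / 2 ≤ w := by linarith
  have w4 : (2 : ℝ) ≤ w := by linarith
  have w5 : 2 ≤ w := by exact_mod_cast w4
  have s0 : 0 ≤ Real.sqrt L := Real.sqrt_nonneg _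
  have s1 : 1 ≤ Real.sqrt L := by
    rw [Real.one_le_sqrt]
    exact hL1
  have r1 : (r : ℝ) ≤ Real.sqrt L := by rw [hr]; exact Nat.floor_le s0
  have r2 : Real.sqrt L < r + 1 := by rw [hr]; exact Nat.lt_floor_add_one _
  have r3 : 1 ≤ r := by rw [hr]; exact Nat.floor_pos.2 s1
  have hll : 0 ≤ Real.log L := Real.log_nonneg hL1
  have y1 : (yN e1 N : ℝ) ≤ (N : ℝ) ^ e1 := Nat.floor_le (by positivity)
  have y2 : (N : ℝ) ^ e1 < yN e1 N + 1 := Nat.lt_floor_add_one _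
  have y3 : (N : ℝ) ^ (e1 / 2) ≤ yN e1 N := by
    have t1 : (N : ℝ) ^ e1 = (N : ℝ) ^ (e1 / 2) * (N : ℝ) ^ (e1 / 2) := by
      rw [← Real.rpow_add hNpos]; congr 1; ring
    have t2 := mul_le_mul_of_nonneg_right g4 (show (0 : ℝ) ≤ (N : ℝ) ^ (e1 / 2) by positivity)
    linarith
  have y4 : (2 : ℝ) ≤ yN e1 N := g4.trans y3
  have y5 : e1 / 2 * L ≤ Real.log (yN e1 N) := by
    have := Real.log_le_log (by positivity) y3
    rw [Real.log_rpow hNpos] at this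
    exact this
  have y6 : Real.log (yN e1 N) ≤ e1 * L := by
    have := Real.log_le_log (by linarith) y1
    rw [Real.log_rpow hNpos] at this
    exact this
  have y7 : 0 < Real.log (yN e1 N) := lt_of_lt_of_le (by positivity) y5
  have d1 : (D : ℝ) ≤ (N : ℝ) ^ (e4 / 40) := by rw [hD]; exact Nat.floor_le (by positivity)
  have d2 : (N : ℝ) ^ (e4 / 40) < D + 1 := by rw [hD]; exact Nat.lt_floor_add_one _
  have d3 : (N : ℝ) ^ (e4 / 40) / 2 ≤ D := by linarith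
  have d4 : 1 ≤ D := by
    rw [hD]; exact Nat.floor_pos.2 (Real.one_le_rpow hN1 (by positivity))
  have yD : yN e1 N ≤ D := by
    rw [hD]
    unfold yN
    exact Nat.floor_le_floor (Real.rpow_le_rpow_of_exponent_le hN1 (by linarith))
  have wy : w ≤ yN e1 N := by
    rw [hw]
    unfold yN
    exact Nat.floor_le_floor g2
  -- `w^(2r)`
  have p1 : (w : ℝ) ^ (2 * r) ≤ (N : ℝ) ^ (e4 / 60) := by
    refine le_trans ?_ g5
    calc (w : ℝ) ^ (2 * r) ≤ (L ^ B) ^ (2 * r) := pow_le_pow_left₀ (Nat.cast_nonneg _) w1 _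
      _ = Real.exp (((B * (2 * r) : ℕ) : ℝ) * Real.log L) := by
          rw [← pow_mul, mul_comm _ (Real.log L), ← Real.rpow_def_of_pos hL0, Real.rpow_natCast]
      _ ≤ Real.exp (2 * B * Real.sqrt L * Real.log L) := by
          apply Real.exp_le_exp.2
          refine mul_le_mul_of_nonneg_right ?_ hll
          push_cast
          have : (B : ℝ) * (2 * r) = 2 * B * r := by ring
          rw [this]
          exact mul_le_mul_of_nonneg_left r1 (by positivity)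
  have p2 : ((w : ℝ) + 1) ^ (2 * r + 1) ≤ (N : ℝ) ^ (e4 / 4) := by
    refine le_trans ?_ g9
    have t1 : (w : ℝ) + 1 ≤ L ^ (B + 1) := by
      rw [pow_succ]
      have t2 : L ^ B * 2 ≤ L ^ B * L := mul_le_mul_of_nonneg_left (by linarith) (by positivity)
      linarith
    calc ((w : ℝ) + 1) ^ (2 * r + 1) ≤ (L ^ (B + 1)) ^ (2 * r + 1) := pow_le_pow_left₀ (by positivity) t1 _
      _ = Real.exp ((((B + 1) * (2 * r + 1) : ℕ) : ℝ) * Real.log L) := by
          rw [← pow_mul, mul_comm _ (Real.log L), ← Real.rpow_def_of_pos hL0, Real.rpow_natCast]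
      _ ≤ Real.exp (3 * (B + 1) * Real.sqrt L * Real.log L) := by
          apply Real.exp_le_exp.2
          refine mul_le_mul_of_nonneg_right ?_ hll
          push_cast
          have t2 : (2 : ℝ) * r + 1 ≤ 3 * Real.sqrt L := by
            have : (1 : ℝ) ≤ r := by exact_mod_cast r3
            linarith
          have t3 : ((B : ℝ) + 1) * (2 * r + 1) ≤ (B + 1) * (3 * Real.sqrt L) :=
            mul_le_mul_of_nonneg_left t2 (by positivity)
          linarith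
  have q1 : (Q : ℝ) ≤ (N : ℝ) ^ (e4 / 12) := by
    rw [hQ]
    push_cast
    calc (w : ℝ) ^ (2 * r) * (D : ℝ) ^ 2 ≤ (N : ℝ) ^ (e4 / 60) * ((N : ℝ) ^ (e4 / 40)) ^ 2 :=
          mul_le_mul p1 (pow_le_pow_left₀ (Nat.cast_nonneg _) d1 2) (by positivity) (by positivity)
      _ = (N : ℝ) ^ (e4 / 60 + e4 / 40 * 2) := by
          rw [Real.rpow_add hNpos, Real.rpow_mul hNpos.le (e4 / 40) 2]
          norm_num
      _ ≤ (N : ℝ) ^ (e4 / 12) := Real.rpow_le_rpow_of_exponent_le hN1 (by linarith)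
  have q0 : 1 ≤ Q := by
    rw [hQ]
    exact Nat.mul_pos (by positivity) (by positivity)
  have q0r : (1 : ℝ) ≤ Q := by exact_mod_cast q0
  have q2 : Real.log Q ≤ e4 / 12 * L := by
    have := Real.log_le_log (by linarith) q1
    rw [Real.log_rpow hNpos] at this
    exact this
  have q3 : 0 ≤ Real.log Q := Real.log_nonneg q0r
  have q4 : (Q : ℝ) ^ 4 ≤ (N : ℝ) ^ (e4 / 3) := by
    calc (Q : ℝ) ^ 4 ≤ ((N : ℝ) ^ (e4 / 12)) ^ 4 := pow_le_pow_left₀ (Nat.cast_nonneg _) q1 4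
      _ = (N : ℝ) ^ (e4 / 3) := by
          rw [← Real.rpow_natCast, ← Real.rpow_mul hNpos.le]
          congr 1
          push_cast
          ring
  have q5 : (Q : ℝ) ^ 2 ≤ (N : ℝ) ^ (e4 / 6) := by
    calc (Q : ℝ) ^ 2 ≤ ((N : ℝ) ^ (e4 / 12)) ^ 2 := pow_le_pow_left₀ (Nat.cast_nonneg _) q1 2
      _ = (N : ℝ) ^ (e4 / 6) := by
          rw [← Real.rpow_natCast, ← Real.rpow_mul hNpos.le]
          congr 1
          push_cast
          ring
  refine ⟨a1, w5, wy, w3, ?_, yD, d4, y1, y5, q1, ?_, ?_, ?_, ?_, ?_, ?_, ?_, ?_, ?_, ?_⟩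
  · -- 6 (1 + log w) ≤ r + 1
    have t1 : Real.log w ≤ B * Real.log L := by
      have := Real.log_le_log (by linarith) w1
      rw [Real.log_pow] at this
      exact this
    linarith
  · have t1 : 1 + Real.log Q ≤ (1 + e4) * L := by
      have t2 : 0 ≤ e4 * L := by positivity
      linarith
    calc 6 * (1 + Real.log Q) ^ 3 ≤ 6 * ((1 + e4) * L) ^ 3 :=
          mul_le_mul_of_nonneg_left (pow_le_pow_left₀ (by linarith) t1 3) (by norm_num)
      _ = (6 * (1 + e4) ^ 3) * L ^ 3 := by ring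
      _ ≤ L * L ^ 3 := mul_le_mul_of_nonneg_right a4 (by positivity)
      _ = L ^ 4 := by ring
  · have t1 : 1 + 2 * Real.log Q ≤ (1 + e4) * L := by
      have t2 : 0 ≤ e4 * L := by positivity
      linarith
    calc 100 * (1 + 2 * Real.log Q) ^ 15 ≤ 100 * ((1 + e4) * L) ^ 15 :=
          mul_le_mul_of_nonneg_left (pow_le_pow_left₀ (by linarith) t1 15) (by norm_num)
      _ = (100 * (1 + e4) ^ 15) * L ^ 15 := by ring
      _ ≤ L * L ^ 15 := mul_le_mul_of_nonneg_right a2 (by positivity)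
      _ = L ^ 16 := by ring
  · rw [hr]; exact g6
  · rw [hr]
    rw [div_mul_eq_mul_div, div_le_iff₀ hε] at g7
    have t1 : 16 * (2 + Real.log (yN e1 N)) * L ≤ 16 * (2 + e1) * L ^ 2 := by
      have t2 : 2 + Real.log (yN e1 N) ≤ (2 + e1) * L := by linarith
      calc 16 * (2 + Real.log (yN e1 N)) * L ≤ 16 * ((2 + e1) * L) * L :=
            mul_le_mul_of_nonneg_right (by linarith) hL0.le
        _ = 16 * (2 + e1) * L ^ 2 := by ring
    linarith
  · -- 80 y Q² L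
    rw [div_mul_eq_mul_div, div_le_iff₀ hε] at g8
    calc 80 * yN e1 N * (Q : ℝ) ^ 2 * L = (yN e1 N : ℝ) * (Q : ℝ) ^ 2 * (80 * L) := by ring
      _ ≤ (N : ℝ) ^ e1 * (N : ℝ) ^ (e4 / 6) * ((N : ℝ) ^ (e4 / 4) * ε) :=
          mul_le_mul (mul_le_mul y1 q5 (by positivity) (by positivity)) g8 (by positivity) (by positivity)
      _ = ε * (N : ℝ) ^ (e1 + e4 / 6 + e4 / 4) := by
          rw [Real.rpow_add hNpos, Real.rpow_add hNpos]
          ring
      _ ≤ ε * (N : ℝ) ^ e4 :=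
          mul_le_mul_of_nonneg_left (Real.rpow_le_rpow_of_exponent_le hN1 (by linarith)) hε.le
  · rw [div_mul_eq_mul_div, div_le_iff₀ hε] at g8
    calc 8 * ((w : ℝ) + 1) ^ (2 * r + 1) * L = ((w : ℝ) + 1) ^ (2 * r + 1) * (8 * L) := by ring
      _ ≤ (N : ℝ) ^ (e4 / 4) * ((N : ℝ) ^ (e4 / 4) * ε) :=
          mul_le_mul p2 (by linarith) (by positivity) (by positivity)
      _ = ε * (N : ℝ) ^ (e4 / 4 + e4 / 4) := by
          rw [Real.rpow_add hNpos]
          ring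
      _ ≤ ε * (N : ℝ) ^ e4 :=
          mul_le_mul_of_nonneg_left (Real.rpow_le_rpow_of_exponent_le hN1 (by linarith)) hε.le
  · calc 8 * (Q : ℝ) ^ 4 * L ^ (A + 4) = (Q : ℝ) ^ 4 * (8 * L ^ (A + 4)) := by ring
      _ ≤ (N : ℝ) ^ (e4 / 3) * (N : ℝ) ^ (e4 / 4) := mul_le_mul q4 g10 (by positivity) (by positivity)
      _ = (N : ℝ) ^ (e4 / 3 + e4 / 4) := by rw [Real.rpow_add hNpos]
      _ ≤ (N : ℝ) ^ e4 := Real.rpow_le_rpow_of_exponent_le hN1 (by linarith)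
  · rw [div_le_div_iff₀ (by positivity) y7]
    have t1 : e4 / 40 * L - 1 ≤ Real.log D := by
      have := Real.log_le_log (by positivity) d3
      rw [Real.log_div (by positivity) (by norm_num), Real.log_rpow hNpos] at this
      have h2 := Real.log_two_lt_d9
      linarith
    have t2 : 200 ≤ e4 * L := by
      rw [div_le_iff₀ he4] at a3
      linarith
    calc e4 * Real.log (yN e1 N) ≤ e4 * (e1 * L) := mul_le_mul_of_nonneg_left y6 he4.le
      _ = (e4 / 50 * L) * (50 * e1) := by ring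
      _ ≤ (e4 / 40 * L - 1) * (50 * e1) := by
          refine mul_le_mul_of_nonneg_right ?_ (by positivity)
          linarith
      _ ≤ Real.log D * (50 * e1) := mul_le_mul_of_nonneg_right t1 (by positivity)
  · rw [hQ]
    calc w ≤ w ^ (2 * r) := Nat.le_self_pow (by omega) w
      _ ≤ w ^ (2 * r) * D ^ 2 := Nat.le_mul_of_pos_right _ (by positivity)
  · exact q4.trans (Real.rpow_le_rpow_of_exponent_le hN1 (by linarith))

end Pool.Agent.H76.TP
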