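import Pool.Agent.H76.TP.Defs
import Pool.Agent.H91.EHA.SwK2

/-!
# TP TyI: functions of type I of small level

`g : ℕ → ℝ`, `g n = 0` unless `n` is squarefree, `|g n| ≤ 3^ω(n)`, `S m = ∑_{n ≤ Q, n ∣ m} g n` for `m ≥ 1`, `Q^6 ≤ H`.
* `1[n ∣ m] = (1/n) ∑_{q ∣ n} c_q(m)` (`c_q(m) = ramS q m = ∑_{a mod q}^* ee(am/q)`, `m ≥ 1`), so `S m = ∑_{q ≤ Q} a_q ramS q m`, `a_q = ∑_{n ≤ Q, q ∣ n} g n/n`.
* `|a_q| ≤ 3^ω(q)/q ∑_{n' ≤ Q} 3^ω(n')/n' ≤ 3^ω(q)/q (1 + log Q)^3` (`3^ω(n) = τ_3(n)` for squarefree `n`), and `3^ω(q) ≤ 6 √q` for squarefree `q`.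
* hypothesis (`q ≤ R`): `|a_q - κ μ(q)/φ(q)| ≤ δ`.  Therefore `S m - κ lamR R m = ∑_{q ≤ Q} b_q ramS q m`, `|b_q| ≤ δ` for `q ≤ R` and `|b_q| ≤ 6 (1 + log Q)^3/√q` for `R < q ≤ Q`
* for real `α`, `I = [iH, (i+1)H)`, `i ≥ 1`: `|∑_{m ∈ I} ee(m(a/q - α))| ≤ min(H, 1/(2 nz(a/q - α)))`; two different fractions `a/q, a'/q'` with `q, q' ≤ Q` have distance `≥ 1/Q²`, so all but one have
  `nz ≥ 1/(2Q²)`, contribution `≤ Q²` each, at most `Q²` of them: `‖Bs (S - κ lamR R) H i α‖ ≤ H max |b_q| + Q^4 · 6 (1 + log Q)^3`.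
-/

set_option autoImplicit false

namespace Pool.Agent.H76.TP

open Finset
open Pool.Agent.H91.PK (ee)
open Pool.Agent.H91.EHA (Lam hR lamR ramS)
open Pool.Agent.H53.MID (Fp Bs)

/-! ### Ramanujan sums and geometric sums -/

private theorem TyI_ee (t : ℝ) : ee t = Pool.Agent.H92.EH.e t := by
  unfold ee Pool.Agent.H92.EH.e
  congr 1
  push_cast
  ring

private theorem TyI_red (c : ℕ) (hc : 1 ≤ c) (f : ℕ → ℂ) (hf : f c = f 0) :
    ∑ b ∈ (Icc 1 c).filter (fun b => Nat.Coprime b c), f b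
      = ∑ b ∈ Pool.Agent.H92.EH.red c, f b := by
  rcases Nat.eq_or_lt_of_le hc with h1 | h1
  · subst h1
    have e1 : (Icc 1 1).filter (fun b => Nat.Coprime b 1) = {1} := by decide
    have e2 : Pool.Agent.H92.EH.red 1 = {0} := by decide
    rw [e1, e2, sum_singleton, sum_singleton, hf]
  · apply sum_congr _ (fun _ _ => rfl)
    ext b
    rw [mem_filter, mem_Icc, Pool.Agent.H92.EH.mem_red]
    constructor
    · rintro ⟨⟨h2, h3⟩, h4⟩
      refine ⟨lt_of_le_of_ne h3 ?_, h4⟩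
      rintro rfl
      rw [Nat.coprime_self] at h4
      omega
    · rintro ⟨h2, h4⟩
      refine ⟨⟨Nat.one_le_iff_ne_zero.mpr ?_, h2.le⟩, h4⟩
      rintro rfl
      rw [Nat.coprime_zero_left] at h4
      omega

private theorem TyI_ram (c n : ℕ) (hc : 1 ≤ c) :
    ((ramS c n : ℝ) : ℂ) = ∑ b ∈ Pool.Agent.H92.EH.red c,
      Pool.Agent.H92.EH.e (n * ((b : ℝ) / c)) := by
  have hc0 : (c : ℝ) ≠ 0 := by exact_mod_cast (by omega : c ≠ 0)
  rw [Pool.Agent.H91.EHA.ramS_eq c n hc, TyI_red c hc (fun b => ee ((n : ℝ) * b / c))]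
  · apply sum_congr rfl
    intro b _
    rw [TyI_ee]
    congr 1
    ring
  · rw [TyI_ee, TyI_ee]
    have h1 : (n : ℝ) * (c : ℝ) / c = (n : ℝ) := by field_simp
    have h2 : (n : ℝ) * ((0 : ℕ) : ℝ) / c = ((0 : ℕ) : ℝ) := by simp
    rw [h1, h2, Pool.Agent.H92.EH.e_nat, Pool.Agent.H92.EH.e_nat]

private theorem TyI_geom (H i : ℕ) (t δ : ℝ) (hδ : 0 < δ) (h : ∀ m : ℤ, δ ≤ |t - m|) :
    ‖∑ n ∈ Ico (i * H) ((i + 1) * H), Pool.Agent.H92.EH.e (n * t)‖ ≤ 1 / (2 * δ) := by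
  have h3 := Pool.Agent.H92.EH.le_norm_e_sub_one h
  have h1 : ∑ n ∈ Ico (i * H) ((i + 1) * H), Pool.Agent.H92.EH.e (n * t)
      = Pool.Agent.H92.EH.e ((i * H : ℕ) * t) *
        ∑ n ∈ range ((i + 1) * H - i * H), Pool.Agent.H92.EH.e t ^ n := by
    rw [sum_Ico_eq_sum_range, mul_sum]
    apply sum_congr rfl
    intro n _
    rw [← Pool.Agent.H92.EH.e_nat_mul, ← Pool.Agent.H92.EH.e_add]
    congr 1
    push_cast
    ring
  have h2 : (∑ n ∈ range ((i + 1) * H - i * H), Pool.Agent.H92.EH.e t ^ n) *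
      (Pool.Agent.H92.EH.e t - 1) = Pool.Agent.H92.EH.e t ^ ((i + 1) * H - i * H) - 1 :=
    geom_sum_mul _ _
  have h4 : ‖(∑ n ∈ range ((i + 1) * H - i * H), Pool.Agent.H92.EH.e t ^ n)‖ *
      ‖Pool.Agent.H92.EH.e t - 1‖ ≤ 2 := by
    rw [← norm_mul, h2]
    refine (norm_sub_le _ _).trans ?_
    rw [norm_pow, Pool.Agent.H92.EH.norm_e, one_pow, norm_one]
    norm_num
  rw [h1, norm_mul, Pool.Agent.H92.EH.norm_e, one_mul, le_div_iff₀ (by positivity)]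
  have h5 : ‖(∑ n ∈ range ((i + 1) * H - i * H), Pool.Agent.H92.EH.e t ^ n)‖ * (4 * δ) ≤ 2 :=
    (mul_le_mul_of_nonneg_left h3 (norm_nonneg _)).trans h4
  linarith

private theorem TyI_card (H i : ℕ) : (Ico (i * H) ((i + 1) * H)).card = H := by
  rw [Nat.card_Ico]
  have : (i + 1) * H = i * H + H := by ring
  omega

/-! ### The Ramanujan expansion of the divisibility indicator -/

private theorem TyI_div (m : ℕ) (hm : 1 ≤ m) (n : ℕ) (hn : 0 < n) :
    ∑ q ∈ n.divisors, ramS q m = if n ∣ m then (n : ℝ) else 0 := by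
  refine (ArithmeticFunction.sum_eq_iff_sum_mul_moebius_eq (f := fun q => ramS q m)
    (g := fun n => if n ∣ m then (n : ℝ) else 0)).2 ?_ n hn
  intro c hc
  unfold ramS
  have h1 : (Nat.gcd c m).divisors = c.divisors.filter (fun d => d ∣ m) := by
    ext d
    rw [Nat.mem_divisors, mem_filter, Nat.mem_divisors]
    constructor
    · rintro ⟨h1, h2⟩
      exact ⟨⟨h1.trans (Nat.gcd_dvd_left c m), by omega⟩, h1.trans (Nat.gcd_dvd_right c m)⟩
    · rintro ⟨⟨h1, h2⟩, h3⟩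
      refine ⟨Nat.dvd_gcd h1 h3, ?_⟩
      intro h4
      rw [Nat.gcd_eq_zero_iff] at h4
      omega
  rw [h1, sum_filter, Nat.sum_divisorsAntidiagonal' (f := fun a b : ℕ =>
    ((ArithmeticFunction.moebius a : ℤ) : ℝ) * (if b ∣ m then (b : ℝ) else 0))]
  apply sum_congr rfl
  intro d _
  by_cases h2 : d ∣ m
  · rw [if_pos h2, if_pos h2]
    ring
  · rw [if_neg h2, if_neg h2, mul_zero]

private theorem TyI_expand (Q : ℕ) (g : ℕ → ℝ) (m : ℕ) (hm : 1 ≤ m) :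
    ∑ n ∈ (Icc 1 Q).filter (fun n => n ∣ m), g n =
      ∑ q ∈ Icc 1 Q, (∑ n ∈ (Icc 1 Q).filter (fun n => q ∣ n), g n / n) * ramS q m := by
  have h1 : ∀ n ∈ Icc 1 Q, (if n ∣ m then g n else 0) =
      ∑ q ∈ Icc 1 Q, (if q ∣ n then g n / n * ramS q m else 0) := by
    intro n hn
    rw [mem_Icc] at hn
    have hn0 : (n : ℝ) ≠ 0 := by exact_mod_cast (by omega : n ≠ 0)
    have h2 : ∑ q ∈ Icc 1 Q, (if q ∣ n then g n / n * ramS q m else 0) =
        g n / n * ∑ q ∈ n.divisors, ramS q m := by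
      rw [← sum_filter, mul_sum]
      apply sum_congr _ (fun _ _ => rfl)
      ext q
      rw [mem_filter, mem_Icc, Nat.mem_divisors]
      constructor
      · rintro ⟨h3, h4⟩
        exact ⟨h4, by omega⟩
      · rintro ⟨h3, h4⟩
        have h5 := Nat.le_of_dvd (by omega) h3
        have h6 := Nat.pos_of_dvd_of_pos h3 (by omega)
        exact ⟨⟨h6, by omega⟩, h3⟩
    rw [h2, TyI_div m hm n (by omega)]
    by_cases h3 : n ∣ m
    · rw [if_pos h3, if_pos h3]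
      field_simp
    · rw [if_neg h3, if_neg h3, mul_zero]
  rw [sum_filter, sum_congr rfl h1, sum_comm]
  apply sum_congr rfl
  intro q _
  rw [sum_filter, sum_mul]
  apply sum_congr rfl
  intro n _
  by_cases h2 : q ∣ n
  · rw [if_pos h2, if_pos h2]
  · rw [if_neg h2, if_neg h2, zero_mul]

/-! ### The coefficients -/

private noncomputable def TyI_z : ArithmeticFunction ℝ := ⟨fun n => 1 / (n : ℝ), by simp⟩

private theorem TyI_z_apply (n : ℕ) : TyI_z n = 1 / (n : ℝ) := rfl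

private theorem TyI_z_mult : TyI_z.IsMultiplicative := by
  refine ⟨by rw [TyI_z_apply]; simp, ?_⟩
  intro m n _
  rw [TyI_z_apply, TyI_z_apply, TyI_z_apply]
  push_cast
  rw [one_div_mul_one_div]

private theorem TyI_mul_prime (f h : ArithmeticFunction ℝ) {p : ℕ} (hp : p.Prime) :
    (f * h) p = f p * h 1 + f 1 * h p := by
  rw [ArithmeticFunction.mul_apply, Nat.sum_divisorsAntidiagonal (f := fun a b => f a * h b),
    Nat.Prime.sum_divisors hp, Nat.div_self hp.pos, Nat.div_one]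

private theorem TyI_w_prime {p : ℕ} (hp : p.Prime) : (TyI_z * (TyI_z * TyI_z)) p = 3 / (p : ℝ) := by
  have h1 : (TyI_z * TyI_z) 1 = 1 := (TyI_z_mult.mul TyI_z_mult).map_one
  rw [TyI_mul_prime _ _ hp, TyI_mul_prime _ _ hp, h1, TyI_z_mult.map_one, TyI_z_apply]
  ring

private theorem TyI_w_sqf {n : ℕ} (hn : Squarefree n) :
    (3 : ℝ) ^ n.primeFactors.card / n = (TyI_z * (TyI_z * TyI_z)) n := by
  have h1 := (TyI_z_mult.mul (TyI_z_mult.mul TyI_z_mult)).prod_primeFactors hn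
  rw [← h1, prod_congr rfl fun p hp => TyI_w_prime (Nat.prime_of_mem_primeFactors hp),
    prod_div_distrib, prod_const]
  congr 1
  rw [← Nat.cast_prod, Nat.prod_primeFactors_of_squarefree hn]

private theorem TyI_conv (f h : ArithmeticFunction ℝ) (hf : ∀ n, 0 ≤ f n) (hh : ∀ n, 0 ≤ h n)
    (Q : ℕ) : ∑ n ∈ Ioc 0 Q, (f * h) n ≤ (∑ n ∈ Ioc 0 Q, f n) * ∑ n ∈ Ioc 0 Q, h n := by
  rw [ArithmeticFunction.sum_Ioc_mul_eq_sum_sum, sum_mul]
  refine sum_le_sum fun n _ => mul_le_mul_of_nonneg_left ?_ (hf n)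
  refine sum_le_sum_of_subset_of_nonneg ?_ fun m _ _ => hh m
  intro m hm
  rw [mem_Ioc] at hm ⊢
  exact ⟨hm.1, hm.2.trans (Nat.div_le_self Q n)⟩

private theorem TyI_harm (Q : ℕ) : ∑ n ∈ Ioc 0 Q, TyI_z n ≤ 1 + Real.log Q := by
  have h1 := harmonic_le_one_add_log Q
  rw [harmonic_eq_sum_Icc] at h1
  push_cast at h1
  have h2 : ∑ n ∈ Ioc 0 Q, TyI_z n = ∑ n ∈ Icc 1 Q, ((n : ℝ))⁻¹ := by
    have h3 : Ioc 0 Q = Icc 1 Q := by
      ext n
      rw [mem_Ioc, mem_Icc]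
      omega
    rw [h3]
    apply sum_congr rfl
    intro n _
    rw [TyI_z_apply, one_div]
  rw [h2]
  exact h1

private theorem TyI_z_nonneg (n : ℕ) : 0 ≤ TyI_z n := by
  rw [TyI_z_apply]
  positivity

private theorem TyI_mul_nonneg (f h : ArithmeticFunction ℝ) (hf : ∀ n, 0 ≤ f n)
    (hh : ∀ n, 0 ≤ h n) (n : ℕ) : 0 ≤ (f * h) n := by
  rw [ArithmeticFunction.mul_apply]
  exact sum_nonneg fun x _ => mul_nonneg (hf _) (hh _)

private theorem TyI_sum3 (Q : ℕ) :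
    ∑ n ∈ (Icc 1 Q).filter (fun n => Squarefree n), (3 : ℝ) ^ n.primeFactors.card / n ≤
      (1 + Real.log Q) ^ 3 := by
  classical
  have hl : 0 ≤ 1 + Real.log Q := by
    have := Real.log_natCast_nonneg Q
    linarith
  have h0 : ∀ n, 0 ≤ (TyI_z * TyI_z) n := TyI_mul_nonneg _ _ TyI_z_nonneg TyI_z_nonneg
  have h1 : ∑ n ∈ (Icc 1 Q).filter (fun n => Squarefree n), (3 : ℝ) ^ n.primeFactors.card / n ≤
      ∑ n ∈ Ioc 0 Q, (TyI_z * (TyI_z * TyI_z)) n := by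
    rw [sum_congr rfl fun n hn => TyI_w_sqf (mem_filter.1 hn).2]
    refine sum_le_sum_of_subset_of_nonneg ?_ fun m _ _ => TyI_mul_nonneg _ _ TyI_z_nonneg h0 m
    intro n hn
    rw [mem_filter, mem_Icc] at hn
    rw [mem_Ioc]
    omega
  have h2 := TyI_conv _ _ TyI_z_nonneg h0 Q
  have h3 := TyI_conv _ _ TyI_z_nonneg TyI_z_nonneg Q
  have h4 := TyI_harm Q
  have h5 : 0 ≤ ∑ n ∈ Ioc 0 Q, TyI_z n := sum_nonneg fun n _ => TyI_z_nonneg n
  have h6 : 0 ≤ ∑ n ∈ Ioc 0 Q, (TyI_z * TyI_z) n := sum_nonneg fun n _ => h0 n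
  calc ∑ n ∈ (Icc 1 Q).filter (fun n => Squarefree n), (3 : ℝ) ^ n.primeFactors.card / n
      ≤ (∑ n ∈ Ioc 0 Q, TyI_z n) * ∑ n ∈ Ioc 0 Q, (TyI_z * TyI_z) n := h1.trans h2
    _ ≤ (1 + Real.log Q) * ((1 + Real.log Q) * (1 + Real.log Q)) := by
        refine mul_le_mul h4 (h3.trans ?_) h6 hl
        exact mul_le_mul h4 h4 h5 hl
    _ = (1 + Real.log Q) ^ 3 := by ring

private theorem TyI_nine : ∀ A ∈ ({2, 3, 5, 7} : Finset ℕ).powerset,
    9 ^ A.card ≤ 36 * ∏ p ∈ A, p := by decide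

private theorem TyI_omega (q : ℕ) (hq : Squarefree q) :
    (3 : ℝ) ^ q.primeFactors.card ≤ 6 * Real.sqrt q := by
  classical
  have h1 : 9 ^ q.primeFactors.card ≤ 36 * q := by
    have h2 := card_filter_add_card_filter_not (s := q.primeFactors)
      (fun p => p ∈ ({2, 3, 5, 7} : Finset ℕ))
    have h3 := prod_filter_mul_prod_filter_not q.primeFactors
      (fun p => p ∈ ({2, 3, 5, 7} : Finset ℕ)) (fun p => p)
    rw [Nat.prod_primeFactors_of_squarefree hq] at h3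
    have h4 := TyI_nine (q.primeFactors.filter (fun p => p ∈ ({2, 3, 5, 7} : Finset ℕ)))
      (by
        rw [mem_powerset]
        intro p hp
        exact (mem_filter.1 hp).2)
    have h5 : 9 ^ (q.primeFactors.filter (fun p => p ∉ ({2, 3, 5, 7} : Finset ℕ))).card ≤
        ∏ p ∈ q.primeFactors.filter (fun p => p ∉ ({2, 3, 5, 7} : Finset ℕ)), p := by
      apply pow_card_le_prod
      intro p hp
      rw [mem_filter] at hp
      have hpp := Nat.prime_of_mem_primeFactors hp.1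
      by_contra hlt
      rw [not_le] at hlt
      have h6 := hp.2
      have h7 := hpp.two_le
      interval_cases p <;> first
        | exact h6 (by decide)
        | exact absurd hpp (by norm_num)
    rw [← h2, pow_add]
    calc 9 ^ (q.primeFactors.filter (fun p => p ∈ ({2, 3, 5, 7} : Finset ℕ))).card *
          9 ^ (q.primeFactors.filter (fun p => p ∉ ({2, 3, 5, 7} : Finset ℕ))).card
        ≤ (36 * ∏ p ∈ q.primeFactors.filter (fun p => p ∈ ({2, 3, 5, 7} : Finset ℕ)), p) *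
          ∏ p ∈ q.primeFactors.filter (fun p => p ∉ ({2, 3, 5, 7} : Finset ℕ)), p :=
          Nat.mul_le_mul h4 h5
      _ = 36 * ((∏ p ∈ q.primeFactors.filter (fun p => p ∈ ({2, 3, 5, 7} : Finset ℕ)), p) *
          ∏ p ∈ q.primeFactors.filter (fun p => p ∉ ({2, 3, 5, 7} : Finset ℕ)), p) := by ring
      _ = 36 * q := by rw [h3]
  have h2 : ((3 : ℝ) ^ q.primeFactors.card) ^ 2 ≤ 36 * q := by
    rw [← pow_mul, mul_comm, pow_mul]
    norm_num
    exact_mod_cast h1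
  have h3 : (6 * Real.sqrt q) ^ 2 = 36 * q := by
    rw [mul_pow, Real.sq_sqrt (Nat.cast_nonneg q)]
    norm_num
  refine le_of_sq_le_sq ?_ (by positivity)
  rw [h3]
  exact h2

private theorem TyI_coef (Q q : ℕ) (g S : ℕ → ℝ) (hg : Adm Q g S) (hq : 1 ≤ q) :
    |∑ n ∈ (Icc 1 Q).filter (fun n => q ∣ n), g n / n| ≤
      6 * (1 + Real.log Q) ^ 3 / Real.sqrt q := by
  classical
  have hl : 0 ≤ 1 + Real.log Q := by
    have := Real.log_natCast_nonneg Q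
    linarith
  have hq0 : (0 : ℝ) < q := by exact_mod_cast hq
  have hsq : 0 < Real.sqrt q := Real.sqrt_pos.2 hq0
  have h1 : |∑ n ∈ (Icc 1 Q).filter (fun n => q ∣ n), g n / n| ≤
      ∑ n ∈ (Icc 1 Q).filter (fun n => q ∣ n ∧ Squarefree n),
        (3 : ℝ) ^ n.primeFactors.card / n := by
    have h2 : ∑ n ∈ (Icc 1 Q).filter (fun n => q ∣ n), g n / n =
        ∑ n ∈ (Icc 1 Q).filter (fun n => q ∣ n ∧ Squarefree n), g n / n := by
      symm
      apply sum_subset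
      · intro n hn
        rw [mem_filter] at hn ⊢
        exact ⟨hn.1, hn.2.1⟩
      · intro n hn hn'
        rw [mem_filter] at hn hn'
        have h3 : ¬ Squarefree n := fun h => hn' ⟨hn.1, hn.2, h⟩
        rw [hg.1 n h3, zero_div]
    rw [h2]
    refine (abs_sum_le_sum_abs _ _).trans (sum_le_sum fun n _ => ?_)
    rw [abs_div, Nat.abs_cast]
    exact div_le_div_of_nonneg_right (hg.2.1 n) (Nat.cast_nonneg n)
  refine h1.trans ?_
  by_cases hsf : Squarefree q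
  · have h2 : ∑ n ∈ (Icc 1 Q).filter (fun n => q ∣ n ∧ Squarefree n),
        (3 : ℝ) ^ n.primeFactors.card / n ≤
        ∑ n ∈ ((Icc 1 Q).filter (fun n => Squarefree n)).image (fun k => q * k),
        (3 : ℝ) ^ n.primeFactors.card / n := by
      refine sum_le_sum_of_subset_of_nonneg ?_ fun m _ _ => by positivity
      intro n hn
      rw [mem_filter, mem_Icc] at hn
      obtain ⟨k, rfl⟩ := hn.2.1
      rw [mem_image]
      refine ⟨k, ?_, rfl⟩
      rw [mem_filter, mem_Icc]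
      have h3 : k ≤ q * k := Nat.le_mul_of_pos_left k hq
      have h4 : 1 ≤ k := by
        rcases Nat.eq_zero_or_pos k with h5 | h5
        · rw [h5, mul_zero] at hn
          omega
        · exact h5
      exact ⟨⟨h4, by omega⟩, hn.2.2.squarefree_of_dvd (Dvd.intro_left q rfl)⟩
    have h3 : ∑ n ∈ ((Icc 1 Q).filter (fun n => Squarefree n)).image (fun k => q * k),
        (3 : ℝ) ^ n.primeFactors.card / n =
        ∑ k ∈ (Icc 1 Q).filter (fun n => Squarefree n),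
        (3 : ℝ) ^ (q * k).primeFactors.card / ((q * k : ℕ) : ℝ) := by
      rw [sum_image]
      intro a _ b _ hab
      exact Nat.eq_of_mul_eq_mul_left hq hab
    have h4 : ∀ k ∈ (Icc 1 Q).filter (fun n => Squarefree n),
        (3 : ℝ) ^ (q * k).primeFactors.card / ((q * k : ℕ) : ℝ) ≤
        (3 : ℝ) ^ q.primeFactors.card / q * ((3 : ℝ) ^ k.primeFactors.card / k) := by
      intro k hk
      rw [mem_filter, mem_Icc] at hk
      have h5 : (q * k).primeFactors.card ≤ q.primeFactors.card + k.primeFactors.card := by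
        rw [Nat.primeFactors_mul (by omega) (by omega)]
        exact card_union_le _ _
      have h6 : (3 : ℝ) ^ (q * k).primeFactors.card ≤
          (3 : ℝ) ^ q.primeFactors.card * (3 : ℝ) ^ k.primeFactors.card := by
        rw [← pow_add]
        exact pow_le_pow_right₀ (by norm_num) h5
      rw [div_mul_div_comm]
      push_cast
      exact div_le_div_of_nonneg_right h6 (by positivity)
    refine h2.trans ?_
    rw [h3]
    refine (sum_le_sum h4).trans ?_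
    rw [← mul_sum]
    have h5 : (3 : ℝ) ^ q.primeFactors.card / q ≤ 6 / Real.sqrt q := by
      rw [div_le_div_iff₀ hq0 hsq]
      have h6 := mul_le_mul_of_nonneg_right (TyI_omega q hsf) hsq.le
      have h7 : 6 * Real.sqrt q * Real.sqrt q = 6 * q := by
        rw [mul_assoc, Real.mul_self_sqrt (Nat.cast_nonneg q)]
      linarith
    calc (3 : ℝ) ^ q.primeFactors.card / q *
          ∑ k ∈ (Icc 1 Q).filter (fun n => Squarefree n), (3 : ℝ) ^ k.primeFactors.card / k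
        ≤ 6 / Real.sqrt q * (1 + Real.log Q) ^ 3 :=
          mul_le_mul h5 (TyI_sum3 Q) (sum_nonneg fun k _ => by positivity) (by positivity)
      _ = 6 * (1 + Real.log Q) ^ 3 / Real.sqrt q := by ring
  · have h2 : (Icc 1 Q).filter (fun n => q ∣ n ∧ Squarefree n) = ∅ := by
      rw [filter_eq_empty_iff]
      rintro n _ ⟨h3, h4⟩
      exact hsf (h4.squarefree_of_dvd h3)
    rw [h2, sum_empty]
    positivity

/-! ### The sum over the fractions -/

/-- the index set -/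
private def TyI_T (Q : ℕ) : Finset (Σ _ : ℕ, ℕ) := (Icc 1 Q).sigma fun d => Pool.Agent.H92.EH.red d

private theorem TyI_memT {Q : ℕ} {x : Σ _ : ℕ, ℕ} (hx : x ∈ TyI_T Q) :
    (1 ≤ x.1 ∧ x.1 ≤ Q) ∧ x.2 ∈ Pool.Agent.H92.EH.red x.1 := by
  unfold TyI_T at hx
  rw [mem_sigma, mem_Icc] at hx
  exact hx

private theorem TyI_cardT (Q : ℕ) : (TyI_T Q).card ≤ Q ^ 2 := by
  unfold TyI_T
  rw [card_sigma]
  calc ∑ d ∈ Icc 1 Q, (Pool.Agent.H92.EH.red d).card ≤ ∑ _d ∈ Icc 1 Q, Q := by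
        refine sum_le_sum fun d hd => ?_
        rw [Pool.Agent.H92.EH.card_red]
        exact (Nat.totient_le d).trans (mem_Icc.1 hd).2
    _ = Q ^ 2 := by
        rw [sum_const, Nat.card_Icc, Nat.add_sub_cancel, smul_eq_mul]
        ring

private theorem TyI_frac (Q H i : ℕ) (hQ : 1 ≤ Q) (α : ℝ) :
    ∑ x ∈ TyI_T Q, ‖∑ m ∈ Ico (i * H) ((i + 1) * H),
      Pool.Agent.H92.EH.e (m * ((x.2 : ℝ) / x.1 - α))‖ ≤ H + (Q : ℝ) ^ 4 := by
  classical
  have hQ0 : (0 : ℝ) < Q := by exact_mod_cast hQ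
  have hQ2 : (0 : ℝ) < 1 / (2 * (Q : ℝ) ^ 2) := by positivity
  have hH0 : (0 : ℝ) ≤ H := Nat.cast_nonneg H
  have hgood : ∀ x ∈ TyI_T Q, (∀ m : ℤ, 1 / (2 * (Q : ℝ) ^ 2) ≤ |(x.2 : ℝ) / x.1 - α - m|) →
      ‖∑ m ∈ Ico (i * H) ((i + 1) * H),
        Pool.Agent.H92.EH.e (m * ((x.2 : ℝ) / x.1 - α))‖ ≤ (Q : ℝ) ^ 2 := by
    intro x _ hx
    refine (TyI_geom H i _ _ hQ2 hx).trans (le_of_eq ?_)
    field_simp
  have htriv : ∀ x : Σ _ : ℕ, ℕ, ‖∑ m ∈ Ico (i * H) ((i + 1) * H),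
        Pool.Agent.H92.EH.e (m * ((x.2 : ℝ) / x.1 - α))‖ ≤ H := by
    intro x
    refine (norm_sum_le _ _).trans ?_
    rw [sum_congr rfl fun m _ => Pool.Agent.H92.EH.norm_e _, sum_const, TyI_card, nsmul_eq_mul,
      mul_one]
  have hcard : ((TyI_T Q).card : ℝ) ≤ (Q : ℝ) ^ 2 := by exact_mod_cast TyI_cardT Q
  by_cases hall : ∀ x ∈ TyI_T Q, ∀ m : ℤ, 1 / (2 * (Q : ℝ) ^ 2) ≤ |(x.2 : ℝ) / x.1 - α - m|
  · calc ∑ x ∈ TyI_T Q, ‖∑ m ∈ Ico (i * H) ((i + 1) * H),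
          Pool.Agent.H92.EH.e (m * ((x.2 : ℝ) / x.1 - α))‖
        ≤ ∑ _x ∈ TyI_T Q, (Q : ℝ) ^ 2 := sum_le_sum fun x hx => hgood x hx (hall x hx)
      _ = (TyI_T Q).card * (Q : ℝ) ^ 2 := by rw [sum_const, nsmul_eq_mul]
      _ ≤ (Q : ℝ) ^ 2 * (Q : ℝ) ^ 2 := mul_le_mul_of_nonneg_right hcard (by positivity)
      _ ≤ H + (Q : ℝ) ^ 4 := by nlinarith
  · push Not at hall
    obtain ⟨x₀, hx₀, m₀, hm₀⟩ := hall
    have hoth : ∀ x ∈ (TyI_T Q).erase x₀, ∀ m : ℤ,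
        1 / (2 * (Q : ℝ) ^ 2) ≤ |(x.2 : ℝ) / x.1 - α - m| := by
      intro x hx m
      rw [mem_erase] at hx
      by_contra hcon
      rw [not_le] at hcon
      obtain ⟨⟨a1, a2⟩, a3⟩ := TyI_memT hx.2
      obtain ⟨⟨b1, b2⟩, b3⟩ := TyI_memT hx₀
      have hne : ¬ (x.1 = x₀.1 ∧ x.2 = x₀.2) := by
        rintro ⟨h1, h2⟩
        exact hx.1 (Sigma.ext h1 (heq_of_eq h2))
      have h1 := Pool.Agent.H92.EH.farey_spacing a1 b1 a3 b3 hne (m - m₀)
      have hx1 : (0 : ℝ) < x.1 := by exact_mod_cast a1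
      have hx2 : (0 : ℝ) < x₀.1 := by exact_mod_cast b1
      have hx3 : (x.1 : ℝ) ≤ Q := by exact_mod_cast a2
      have hx4 : (x₀.1 : ℝ) ≤ Q := by exact_mod_cast b2
      have h2 : 1 / (Q : ℝ) ^ 2 ≤ 1 / ((x.1 : ℝ) * x₀.1) := by
        apply one_div_le_one_div_of_le (by positivity)
        nlinarith
      have h3 : |(x.2 : ℝ) / x.1 - (x₀.2 : ℝ) / x₀.1 - ((m - m₀ : ℤ) : ℝ)| ≤
          |(x.2 : ℝ) / x.1 - α - m| + |(x₀.2 : ℝ) / x₀.1 - α - m₀| := by
        have h4 : (x.2 : ℝ) / x.1 - (x₀.2 : ℝ) / x₀.1 - ((m - m₀ : ℤ) : ℝ) =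
            ((x.2 : ℝ) / x.1 - α - m) - ((x₀.2 : ℝ) / x₀.1 - α - m₀) := by
          push_cast
          ring
        rw [h4]
        exact abs_sub _ _
      have h5 : 1 / (2 * (Q : ℝ) ^ 2) + 1 / (2 * (Q : ℝ) ^ 2) = 1 / (Q : ℝ) ^ 2 := by
        field_simp
        norm_num
      linarith
    rw [← add_sum_erase _ _ hx₀]
    have hc2 : (((TyI_T Q).erase x₀).card : ℝ) ≤ (Q : ℝ) ^ 2 := by
      refine le_trans ?_ hcard
      exact_mod_cast card_le_card (erase_subset _ _)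
    refine add_le_add (htriv x₀) ?_
    calc ∑ x ∈ (TyI_T Q).erase x₀, ‖∑ m ∈ Ico (i * H) ((i + 1) * H),
          Pool.Agent.H92.EH.e (m * ((x.2 : ℝ) / x.1 - α))‖
        ≤ ∑ _x ∈ (TyI_T Q).erase x₀, (Q : ℝ) ^ 2 :=
          sum_le_sum fun x hx => hgood x (mem_of_mem_erase hx) (hoth x hx)
      _ = ((TyI_T Q).erase x₀).card * (Q : ℝ) ^ 2 := by rw [sum_const, nsmul_eq_mul]
      _ ≤ (Q : ℝ) ^ 2 * (Q : ℝ) ^ 2 := mul_le_mul_of_nonneg_right hc2 (by positivity)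
      _ = (Q : ℝ) ^ 4 := by ring

theorem tyI_bs (Q R : ℕ) (g S : ℕ → ℝ) (κ δ : ℝ) (hg : Adm Q g S) (hR : 1 ≤ R) (hRQ : R ≤ Q) (hδ : 0 ≤ δ)
    (hs : ∀ q, 1 ≤ q → q ≤ R → |∑ n ∈ (Icc 1 Q).filter (fun n => q ∣ n), g n / n
      - κ * (ArithmeticFunction.moebius q : ℝ) / (q.totient : ℝ)| ≤ δ) (H i : ℕ) (hi : 1 ≤ i) (hH : 1 ≤ H) (α : ℝ) :
    ‖Bs (fun m => S m - κ * lamR R m) H i α‖ ≤
      H * (δ + 6 * (1 + Real.log Q) ^ 3 / Real.sqrt R) + (Q : ℝ) ^ 4 * (δ + 6 * (1 + Real.log Q) ^ 3) := by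
  classical
  obtain ⟨M, hM⟩ : ∃ M : ℝ, M = δ + 6 * (1 + Real.log Q) ^ 3 / Real.sqrt R := ⟨_, rfl⟩
  have hl : 0 ≤ 1 + Real.log Q := by
    have := Real.log_natCast_nonneg Q
    linarith
  have hR0 : (0 : ℝ) < R := by exact_mod_cast hR
  have hsR : 1 ≤ Real.sqrt R := by
    rw [Real.one_le_sqrt]
    exact_mod_cast hR
  have hL0 : 0 ≤ 6 * (1 + Real.log Q) ^ 3 := by positivity
  have hM0 : 0 ≤ M := by
    rw [hM]
    positivity
  -- the coefficients
  obtain ⟨b, hb⟩ : ∃ b : ℕ → ℝ, b = fun q => (∑ n ∈ (Icc 1 Q).filter (fun n => q ∣ n), g n / n)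
      - (if q ≤ R then κ * (ArithmeticFunction.moebius q : ℝ) / (q.totient : ℝ) else 0) :=
    ⟨_, rfl⟩
  have hbM : ∀ q, 1 ≤ q → |b q| ≤ M := by
    intro q hq
    rw [hb, hM]
    simp only
    by_cases hqR : q ≤ R
    · rw [if_pos hqR]
      have h1 := hs q hq hqR
      have h2 : 0 ≤ 6 * (1 + Real.log Q) ^ 3 / Real.sqrt R := by positivity
      linarith
    · rw [if_neg hqR, sub_zero]
      refine (TyI_coef Q q g S hg hq).trans ?_
      have h1 : Real.sqrt R ≤ Real.sqrt q := Real.sqrt_le_sqrt (by exact_mod_cast (by omega : R ≤ q))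
      have h2 : 6 * (1 + Real.log Q) ^ 3 / Real.sqrt q ≤ 6 * (1 + Real.log Q) ^ 3 / Real.sqrt R :=
        div_le_div_of_nonneg_left hL0 (by linarith) h1
      linarith
  have hexp : ∀ m, 1 ≤ m → S m - κ * lamR R m = ∑ q ∈ Icc 1 Q, b q * ramS q m := by
    intro m hm
    have h1 : κ * lamR R m = ∑ q ∈ Icc 1 Q, (if q ≤ R then
        κ * (ArithmeticFunction.moebius q : ℝ) / (q.totient : ℝ) else 0) * ramS q m := by
      unfold lamR
      rw [mul_sum]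
      have h2 : ∑ q ∈ Icc 1 Q, (if q ≤ R then
          κ * (ArithmeticFunction.moebius q : ℝ) / (q.totient : ℝ) else 0) * ramS q m =
          ∑ q ∈ Icc 1 R, (if q ≤ R then
          κ * (ArithmeticFunction.moebius q : ℝ) / (q.totient : ℝ) else 0) * ramS q m := by
        symm
        apply sum_subset
        · exact Icc_subset_Icc_right hRQ
        · intro q hq hq'
          rw [mem_Icc] at hq hq'
          rw [if_neg (by omega), zero_mul]
      rw [h2]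
      apply sum_congr rfl
      intro q hq
      rw [if_pos (mem_Icc.1 hq).2]
      ring
    rw [hg.2.2 m hm, TyI_expand Q g m hm, h1, ← sum_sub_distrib]
    apply sum_congr rfl
    intro q _
    rw [hb]
    ring
  have hBs : Bs (fun m => S m - κ * lamR R m) H i α = ∑ x ∈ TyI_T Q, ((b x.1 : ℝ) : ℂ) *
      ∑ m ∈ Ico (i * H) ((i + 1) * H), Pool.Agent.H92.EH.e (m * ((x.2 : ℝ) / x.1 - α)) := by
    unfold Bs
    have h1 : ∀ m ∈ Ico (i * H) ((i + 1) * H),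
        ((S m - κ * lamR R m : ℝ) : ℂ) * ee (-(m * α)) =
        ∑ x ∈ TyI_T Q, ((b x.1 : ℝ) : ℂ) *
          Pool.Agent.H92.EH.e (m * ((x.2 : ℝ) / x.1 - α)) := by
      intro m hm
      rw [mem_Ico] at hm
      have hm1 : 1 ≤ m := by
        have : 1 * 1 ≤ i * H := Nat.mul_le_mul hi hH
        omega
      rw [hexp m hm1, Complex.ofReal_sum, sum_mul]
      unfold TyI_T
      rw [sum_sigma]
      apply sum_congr rfl
      intro q hq
      rw [mem_Icc] at hq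
      rw [Complex.ofReal_mul, TyI_ram q m hq.1, mul_assoc, sum_mul, mul_sum]
      apply sum_congr rfl
      intro a _
      rw [TyI_ee, ← Pool.Agent.H92.EH.e_add]
      congr 2
      ring
    rw [sum_congr rfl h1, sum_comm]
    apply sum_congr rfl
    intro x _
    rw [mul_sum]
  have hQ1 : 1 ≤ Q := hR.trans hRQ
  rw [hBs]
  have h1 : ‖∑ x ∈ TyI_T Q, ((b x.1 : ℝ) : ℂ) *
      ∑ m ∈ Ico (i * H) ((i + 1) * H), Pool.Agent.H92.EH.e (m * ((x.2 : ℝ) / x.1 - α))‖ ≤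
      ∑ x ∈ TyI_T Q, M * ‖∑ m ∈ Ico (i * H) ((i + 1) * H),
        Pool.Agent.H92.EH.e (m * ((x.2 : ℝ) / x.1 - α))‖ := by
    refine norm_sum_le_of_le _ fun x hx => ?_
    rw [norm_mul, Complex.norm_real, Real.norm_eq_abs]
    exact mul_le_mul_of_nonneg_right (hbM x.1 (TyI_memT hx).1.1) (norm_nonneg _)
  refine h1.trans ?_
  rw [← mul_sum]
  refine (mul_le_mul_of_nonneg_left (TyI_frac Q H i hQ1 α) hM0).trans ?_
  have h2 : M ≤ δ + 6 * (1 + Real.log Q) ^ 3 := by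
    rw [hM]
    have h3 : 6 * (1 + Real.log Q) ^ 3 / Real.sqrt R ≤ 6 * (1 + Real.log Q) ^ 3 :=
      div_le_self hL0 hsR
    linarith
  have h3 : (Q : ℝ) ^ 4 * M ≤ (Q : ℝ) ^ 4 * (δ + 6 * (1 + Real.log Q) ^ 3) :=
    mul_le_mul_of_nonneg_left h2 (by positivity)
  calc M * (H + (Q : ℝ) ^ 4) = H * M + (Q : ℝ) ^ 4 * M := by ring
    _ ≤ H * M + (Q : ℝ) ^ 4 * (δ + 6 * (1 + Real.log Q) ^ 3) := by linarith
    _ = _ := by rw [hM]

end Pool.Agent.H76.TP
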