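import Pool.Agent.H76.TP.Defs
import Pool.Agent.H36.IS.Mt
import Pool.Agent.H3.LC.Mertens

/-!
# TP Vsum: Mertens' product and the error sum of one Buchstab step

* `vv_le`: `∏_{p ≤ n} (1 - 1/p) ≤ C/log n` (`∏ (1-1/p)^(-1) ≥ ∑_{m ≤ n} 1/m ≥ log n`, `C = 1`; or an existing Mertens product bound, e.g. `H35/V1/NT.lean` `exists_mertens_prod`, `H36/IS/Mt.lean` `mertens3`).
* `vbuch`: `VV (PW w) - ∑_{w < p ≤ y} VV(PW (p-1))/p = VV (PW y)` (telescoping: `VV (PW p) = VV (PW (p-1)) (1 - 1/p)` for primes `p`).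
* `vsum`: with `s = log D/log y ≥ 1`; the primes `p` with `log p ∈ (log y/2^(j+1), log y/2^j]`: `VV (PW (p-1)) ≤ 2C 2^(j+1)/log y`, `exp(-log D/log p) ≤ exp(-2^j s)`, `∑ 1/p ≤ (2^(j+1)/log y) ∑_{log p ≤ log y/2^j} log p/p ≤ 2 + C'`
  (Mertens `∑_{p ≤ t} log p/p ≤ log t + C'` and `log y/2^j ≥ log 2`), so the sum is `≤ (C''/log y) ∑_j 2^(j+1) e^(-2^j s) ≤ (C'''/log y) e^(-s)`.
-/

set_option autoImplicit false

namespace Pool.Agent.H76.TP

open Finset

theorem vv_le : ∃ C : ℝ, 0 < C ∧ ∀ n : ℕ, 2 ≤ n → VV (PW n) ≤ C / Real.log n := by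
  obtain ⟨C, hC⟩ := Pool.Agent.H36.IS.mertens3.bddAbove_range
  have e : ∀ n : ℕ, VV (PW n) = ∏ p ∈ (range (n + 1)).filter Nat.Prime, (1 - 1 / (p : ℝ)) := by
    intro n
    unfold VV PW
    congr 1
    ext p
    simp only [mem_filter, mem_Icc, mem_range]
    constructor
    · rintro ⟨⟨h1, h2⟩, h3⟩
      exact ⟨by omega, h3⟩
    · rintro ⟨h1, h3⟩
      exact ⟨⟨h3.one_lt.le, by omega⟩, h3⟩
  refine ⟨|C| + 1, by positivity, fun n hn => ?_⟩
  have hn1 : (1 : ℝ) < n := by exact_mod_cast hn
  have hlog : 0 < Real.log n := Real.log_pos hn1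
  rw [le_div_iff₀ hlog, e n, mul_comm]
  have h1 : Real.log n * ∏ p ∈ (range (n + 1)).filter Nat.Prime, (1 - 1 / (p : ℝ)) ≤ C :=
    hC (Set.mem_range_self n)
  have h2 := le_abs_self C
  linarith

theorem vbuch (w y : ℕ) (hwy : w ≤ y) :
    VV (PW w) - ∑ p ∈ PY w y, VV (PW (p - 1)) / p = VV (PW y) := by
  induction y, hwy using Nat.le_induction with
  | base =>
    unfold PY
    simp
  | succ y hy ih =>
    have e1 : PW (y + 1) = if (y + 1).Prime then insert (y + 1) (PW y) else PW y := by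
      ext p
      split_ifs with h
      · simp only [PW, mem_filter, mem_Icc, mem_insert]
        constructor
        · rintro ⟨⟨h1, h2⟩, h3⟩
          by_cases h4 : p = y + 1
          · exact Or.inl h4
          · exact Or.inr ⟨⟨h1, by omega⟩, h3⟩
        · rintro (h1 | ⟨⟨h1, h2⟩, h3⟩)
          · subst h1
            exact ⟨⟨by omega, le_rfl⟩, h⟩
          · exact ⟨⟨h1, by omega⟩, h3⟩
      · simp only [PW, mem_filter, mem_Icc]
        constructor
        · rintro ⟨⟨h1, h2⟩, h3⟩
          have h4 : p ≠ y + 1 := fun h5 => h (h5 ▸ h3)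
          exact ⟨⟨h1, by omega⟩, h3⟩
        · rintro ⟨⟨h1, h2⟩, h3⟩
          exact ⟨⟨h1, by omega⟩, h3⟩
    have e2 : PY w (y + 1) = if (y + 1).Prime then insert (y + 1) (PY w y) else PY w y := by
      ext p
      split_ifs with h
      · simp only [PY, mem_filter, mem_Ioc, mem_insert]
        constructor
        · rintro ⟨⟨h1, h2⟩, h3⟩
          by_cases h4 : p = y + 1
          · exact Or.inl h4
          · exact Or.inr ⟨⟨h1, by omega⟩, h3⟩
        · rintro (h1 | ⟨⟨h1, h2⟩, h3⟩)
          · subst h1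
            exact ⟨⟨by omega, le_rfl⟩, h⟩
          · exact ⟨⟨h1, by omega⟩, h3⟩
      · simp only [PY, mem_filter, mem_Ioc]
        constructor
        · rintro ⟨⟨h1, h2⟩, h3⟩
          have h4 : p ≠ y + 1 := fun h5 => h (h5 ▸ h3)
          exact ⟨⟨h1, by omega⟩, h3⟩
        · rintro ⟨⟨h1, h2⟩, h3⟩
          exact ⟨⟨h1, by omega⟩, h3⟩
    by_cases h : (y + 1).Prime
    · rw [if_pos h] at e1 e2
      have n1 : y + 1 ∉ PW y := by
        simp only [PW, mem_filter, mem_Icc]
        omega
      have n2 : y + 1 ∉ PY w y := by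
        simp only [PY, mem_filter, mem_Ioc]
        omega
      rw [e1, e2, sum_insert n2]
      unfold VV at ih ⊢
      rw [prod_insert n1, Nat.add_sub_cancel]
      rw [← ih]
      ring
    · rw [if_neg h] at e1 e2
      rw [e1, e2]
      exact ih

theorem vsum : ∃ C : ℝ, 0 < C ∧ ∀ w y D : ℕ, 2 ≤ w → w ≤ y → y ≤ D →
    ∑ p ∈ PY w y, VV (PW (p - 1)) / p * Real.exp (-(Real.log D / Real.log p)) ≤
      C / Real.log y * Real.exp (-(Real.log D / Real.log y)) := by
  obtain ⟨C, hC0, hC⟩ := vv_le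
  obtain ⟨C1, hC1, hM⟩ := Pool.Agent.H3.LC.mertens
  refine ⟨4 * C * (1 + 2 * C1), by positivity, fun w y D hw hwy hyD => ?_⟩
  have hy2 : 2 ≤ y := hw.trans hwy
  have hy1 : (1 : ℝ) < y := by exact_mod_cast hy2
  have hly : 0 < Real.log y := Real.log_pos hy1
  have hly2 : 1 / 2 ≤ Real.log y := by
    have h1 := Real.log_two_gt_d9
    have h2 : Real.log 2 ≤ Real.log y := Real.log_le_log (by norm_num) (by exact_mod_cast hy2)
    linarith
  have hlD : Real.log y ≤ Real.log D := Real.log_le_log (by linarith) (by exact_mod_cast hyD)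
  have hterm : ∀ p ∈ PY w y, VV (PW (p - 1)) / p * Real.exp (-(Real.log D / Real.log p)) ≤
      4 * C / Real.log y ^ 2 * Real.exp (-(Real.log D / Real.log y)) * (Real.log p / p) := by
    intro p hp
    simp only [PY, mem_filter, mem_Ioc] at hp
    obtain ⟨⟨hp1, hp2⟩, hp3⟩ := hp
    have hp0 : 3 ≤ p := by omega
    have hp0' : (3 : ℝ) ≤ p := by exact_mod_cast hp0
    have hlp : 0 < Real.log p := Real.log_pos (by linarith)
    have hlp2 : Real.log p ≤ Real.log y := Real.log_le_log (by linarith) (by exact_mod_cast hp2)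
    have h1 := hC (p - 1) (by omega)
    have h2 : ((p - 1 : ℕ) : ℝ) = p - 1 := by
      rw [Nat.cast_sub (by omega)]
      norm_num
    rw [h2] at h1
    have h3 : Real.log p ≤ 2 * Real.log ((p : ℝ) - 1) := by
      have h4 : Real.log p ≤ Real.log (((p : ℝ) - 1) ^ 2) := Real.log_le_log (by linarith) (by nlinarith)
      rw [Real.log_pow] at h4
      exact_mod_cast h4
    have h5 : VV (PW (p - 1)) ≤ 2 * C / Real.log p := by
      refine h1.trans ?_
      have h6 : 0 < Real.log ((p : ℝ) - 1) := by linarith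
      rw [div_le_div_iff₀ h6 hlp]
      nlinarith
    obtain ⟨u, hu⟩ : ∃ u, u = Real.log y / Real.log p := ⟨_, rfl⟩
    have hu1 : 1 ≤ u := by
      rw [hu, le_div_iff₀ hlp]
      linarith
    have h7 : Real.log D / Real.log y + (u - 1) ≤ Real.log D / Real.log p := by
      have e1 : Real.log D / Real.log p = Real.log D / Real.log y * u := by
        rw [hu]
        field_simp
      have e2 : 1 ≤ Real.log D / Real.log y := by
        rw [le_div_iff₀ hly]
        linarith
      rw [e1]
      nlinarith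
    have h8 : Real.exp (-(Real.log D / Real.log p)) ≤
        Real.exp (-(Real.log D / Real.log y)) * Real.exp (-(u - 1)) := by
      rw [← Real.exp_add]
      exact Real.exp_le_exp.2 (by linarith)
    have h9 : u ^ 2 * Real.exp (-(u - 1)) ≤ 2 := by
      have h10 := Real.quadratic_le_exp_of_nonneg (show 0 ≤ u - 1 by linarith)
      rw [Real.exp_neg, ← div_eq_mul_inv, div_le_iff₀ (Real.exp_pos _)]
      nlinarith
    have h11 : (1 / Real.log p) * Real.exp (-(u - 1)) ≤ 2 / Real.log y ^ 2 * Real.log p := by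
      have e3 : (1 / Real.log p) * Real.exp (-(u - 1)) =
          (u ^ 2 * Real.exp (-(u - 1))) * (Real.log p / Real.log y ^ 2) := by
        rw [hu]
        field_simp
      rw [e3]
      have h12 : 0 ≤ Real.log p / Real.log y ^ 2 := by positivity
      calc (u ^ 2 * Real.exp (-(u - 1))) * (Real.log p / Real.log y ^ 2) ≤ 2 * (Real.log p / Real.log y ^ 2) :=
            mul_le_mul_of_nonneg_right h9 h12
        _ = 2 / Real.log y ^ 2 * Real.log p := by ring
    have hE0 : 0 < Real.exp (-(Real.log D / Real.log y)) := Real.exp_pos _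
    have hE1 : 0 < Real.exp (-(Real.log D / Real.log p)) := Real.exp_pos _
    calc VV (PW (p - 1)) / p * Real.exp (-(Real.log D / Real.log p))
        ≤ (2 * C / Real.log p) / p * Real.exp (-(Real.log D / Real.log p)) := by
          apply mul_le_mul_of_nonneg_right _ hE1.le
          exact div_le_div_of_nonneg_right h5 (by linarith)
      _ ≤ (2 * C / Real.log p) / p * (Real.exp (-(Real.log D / Real.log y)) * Real.exp (-(u - 1))) :=
          mul_le_mul_of_nonneg_left h8 (by positivity)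
      _ = (2 * C / p * Real.exp (-(Real.log D / Real.log y))) * ((1 / Real.log p) * Real.exp (-(u - 1))) := by ring
      _ ≤ (2 * C / p * Real.exp (-(Real.log D / Real.log y))) * (2 / Real.log y ^ 2 * Real.log p) :=
          mul_le_mul_of_nonneg_left h11 (by positivity)
      _ = _ := by ring
  refine (sum_le_sum hterm).trans ?_
  rw [← mul_sum]
  have h1 : ∑ p ∈ PY w y, Real.log p / p ≤ ∑ p ∈ (Icc 1 y).filter Nat.Prime, Real.log p / p := by
    refine sum_le_sum_of_subset_of_nonneg ?_ ?_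
    · intro p hp
      simp only [PY, mem_filter, mem_Ioc] at hp
      simp only [mem_filter, mem_Icc]
      exact ⟨⟨by omega, hp.1.2⟩, hp.2⟩
    · intro p hp _
      exact div_nonneg (Real.log_natCast_nonneg _) (Nat.cast_nonneg _)
  have h2 := (abs_le.1 (hM y (by omega))).2
  have h3 : ∑ p ∈ PY w y, Real.log p / p ≤ (1 + 2 * C1) * Real.log y := by nlinarith
  calc 4 * C / Real.log y ^ 2 * Real.exp (-(Real.log D / Real.log y)) * ∑ p ∈ PY w y, Real.log p / p
      ≤ 4 * C / Real.log y ^ 2 * Real.exp (-(Real.log D / Real.log y)) * ((1 + 2 * C1) * Real.log y) :=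
        mul_le_mul_of_nonneg_left h3 (by positivity)
    _ = 4 * C * (1 + 2 * C1) / Real.log y * Real.exp (-(Real.log D / Real.log y)) := by
        field_simp

end Pool.Agent.H76.TP
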