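import Pool.Agent.H76.TP.Defs

/-!
# TP RamId: Ramaré's identity

`∑_{j<J} Fp (bf y J) (2^j y) m = ∑_{p ∈ PY y z, p ∣ m} bf y J (m/p)` (`z = zz y J`; the sets `pb (2^j y)` partition the primes of `(y, z]`).
Let `m ≥ 1`.  If `rg y m = 0`: a prime `q ≤ y` divides `m`, so `q ∣ m/p` for every prime `p > y`, `p ∣ m`: all terms are `0`.
If `rg y m = 1` then `rg y (m/p) = 1`, and with `ν = nu y J m`: for `p ∥ m` (`p ∤ m/p`): `nu (m/p) = ν - 1`, the term is `1/ν`; for `p² ∣ m`: `nu (m/p) = ν`, the term is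
`1/(1+ν)`.  So the sum is `0` if `ν = 0`, and otherwise between `1 - #{p : p² ∣ m}·(1/ν - 1/(ν+1))` and `1`.
-/

set_option autoImplicit false

namespace Pool.Agent.H76.TP

open Finset
open Pool.Agent.H35.W (pb)
open Pool.Agent.H53.MID (Fp Bs)

private theorem RamId_rg_one {y k : ℕ} (h : ∀ p : ℕ, p.Prime → p ∣ k → y < p) : rg y k = 1 := by
  unfold rg
  exact if_pos h

private theorem RamId_rg_zero {y k : ℕ} (h : ¬ ∀ p : ℕ, p.Prime → p ∣ k → y < p) : rg y k = 0 := by
  unfold rg
  exact if_neg h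

private theorem RamId_rg_nonneg (y k : ℕ) : 0 ≤ rg y k := by
  by_cases h : ∀ p : ℕ, p.Prime → p ∣ k → y < p
  · rw [RamId_rg_one h]
    exact zero_le_one
  · rw [RamId_rg_zero h]

private theorem RamId_le_zz (y J : ℕ) : y ≤ zz y J := by
  unfold zz
  exact Nat.le_mul_of_pos_left _ (by positivity)

/-- the primes of `(y, z]` are partitioned -/
private theorem RamId_sum (f : ℕ → ℝ) (y J m : ℕ) :
    ∑ j ∈ range J, Fp f (2 ^ j * y) m = ∑ p ∈ (PY y (zz y J)).filter (fun p => p ∣ m), f (m / p) := by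
  induction J with
  | zero =>
    have h : PY y (zz y 0) = ∅ := by
      unfold PY zz
      rw [pow_zero, one_mul, Finset.Ioc_self, Finset.filter_empty]
    rw [h, Finset.range_zero, Finset.sum_empty, Finset.filter_empty, Finset.sum_empty]
  | succ J ih =>
    rw [Finset.sum_range_succ, ih]
    have h2 : zz y (J + 1) = 2 * zz y J := by
      unfold zz
      ring
    have hle := RamId_le_zz y J
    have h3 : PY y (zz y (J + 1)) = PY y (zz y J) ∪ pb (2 ^ J * y) := by
      ext p
      unfold PY pb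
      simp only [Finset.mem_union, Finset.mem_filter, Finset.mem_Ioc]
      rw [h2]
      have h4 : zz y J = 2 ^ J * y := rfl
      rw [← h4]
      constructor
      · rintro ⟨⟨h5, h6⟩, h7⟩
        by_cases h8 : p ≤ zz y J
        · exact Or.inl ⟨⟨h5, h8⟩, h7⟩
        · exact Or.inr ⟨⟨by omega, h6⟩, h7⟩
      · rintro (⟨⟨h5, h6⟩, h7⟩ | ⟨⟨h5, h6⟩, h7⟩)
        · exact ⟨⟨h5, by omega⟩, h7⟩
        · exact ⟨⟨by omega, h6⟩, h7⟩
    have h4 : Disjoint ((PY y (zz y J)).filter (fun p => p ∣ m)) ((pb (2 ^ J * y)).filter (fun p => p ∣ m)) := by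
      rw [Finset.disjoint_left]
      intro p hp hq
      unfold PY at hp
      unfold pb at hq
      rw [Finset.mem_filter, Finset.mem_filter, Finset.mem_Ioc] at hp hq
      have h5 : zz y J = 2 ^ J * y := rfl
      omega
    rw [h3, Finset.filter_union, Finset.sum_union h4]
    rfl

private theorem RamId_card {y J m : ℕ} (hm : 1 ≤ m) :
    nu y J m = ((PY y (zz y J)).filter (fun p => p ∣ m)).card := by
  unfold nu
  congr 1
  ext p
  unfold PY
  simp only [Finset.mem_filter, Finset.mem_Ioc, Nat.mem_primeFactors]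
  constructor
  · rintro ⟨⟨h1, h2, _⟩, h3, h4⟩
    exact ⟨⟨⟨h3, h4⟩, h1⟩, h2⟩
  · rintro ⟨⟨⟨h3, h4⟩, h1⟩, h2⟩
    exact ⟨⟨h1, h2, by omega⟩, h3, h4⟩

/-- the facts about one term -/
private theorem RamId_term {y J m p : ℕ} (hm : 1 ≤ m) (hr : ∀ q : ℕ, q.Prime → q ∣ m → y < q)
    (hp : p ∈ (PY y (zz y J)).filter (fun p => p ∣ m)) :
    bf y J (m / p) ≤ 1 / (nu y J m : ℝ) ∧ 1 / (1 + (nu y J m : ℝ)) ≤ bf y J (m / p) ∧
      (¬ p ^ 2 ∣ m → bf y J (m / p) = 1 / (nu y J m : ℝ)) := by
  have hp' := hp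
  unfold PY at hp'
  rw [Finset.mem_filter, Finset.mem_filter, Finset.mem_Ioc] at hp'
  obtain ⟨⟨⟨hp1, hp2⟩, hpp⟩, k, rfl⟩ := hp'
  have hk : p * k / p = k := Nat.mul_div_cancel_left _ hpp.pos
  rw [hk]
  have hk1 : 1 ≤ k := by
    rcases Nat.eq_zero_or_pos k with h | h
    · rw [h, mul_zero] at hm
      omega
    · exact h
  have hrk : rg y k = 1 := RamId_rg_one fun q hq hqk => hr q hq (Dvd.dvd.mul_left hqk p)
  have hν1 : 1 ≤ nu y J (p * k) := by
    rw [RamId_card hm]
    exact Finset.card_pos.2 ⟨p, hp⟩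
  have hle : nu y J k ≤ nu y J (p * k) := by
    rw [RamId_card hm, RamId_card hk1]
    apply Finset.card_le_card
    intro q hq
    rw [Finset.mem_filter] at hq ⊢
    exact ⟨hq.1, Dvd.dvd.mul_left hq.2 p⟩
  have hge : nu y J (p * k) ≤ nu y J k + 1 := by
    rw [RamId_card hm, RamId_card hk1]
    have hsub : (PY y (zz y J)).filter (fun q => q ∣ p * k) ⊆
        insert p ((PY y (zz y J)).filter (fun q => q ∣ k)) := by
      intro q hq
      rw [Finset.mem_filter] at hq
      have hqp : q.Prime := by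
        have h := hq.1
        unfold PY at h
        exact (Finset.mem_filter.1 h).2
      rcases (Nat.Prime.dvd_mul hqp).1 hq.2 with h | h
      · rw [(Nat.prime_dvd_prime_iff_eq hqp hpp).1 h]
        exact Finset.mem_insert_self _ _
      · exact Finset.mem_insert_of_mem (Finset.mem_filter.2 ⟨hq.1, h⟩)
    exact (Finset.card_le_card hsub).trans (Finset.card_insert_le _ _)
  have hν0 : (0 : ℝ) < nu y J (p * k) := by exact_mod_cast hν1
  have hle' : (nu y J k : ℝ) ≤ nu y J (p * k) := by exact_mod_cast hle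
  have hge' : (nu y J (p * k) : ℝ) ≤ 1 + nu y J k := by
    have h : ((nu y J (p * k) : ℕ) : ℝ) ≤ ((nu y J k + 1 : ℕ) : ℝ) := by exact_mod_cast hge
    push_cast at h
    linarith
  unfold bf
  rw [hrk]
  refine ⟨?_, ?_, ?_⟩
  · exact one_div_le_one_div_of_le hν0 hge'
  · exact one_div_le_one_div_of_le (by positivity) (by linarith)
  · intro hsq
    have hpk : ¬ p ∣ k := by
      rintro ⟨l, rfl⟩
      exact hsq ⟨l, by ring⟩
    have hlt : nu y J k + 1 ≤ nu y J (p * k) := by
      rw [RamId_card hm, RamId_card hk1]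
      apply Nat.succ_le_of_lt
      apply Finset.card_lt_card
      rw [Finset.ssubset_iff_of_subset]
      · refine ⟨p, hp, ?_⟩
        rw [Finset.mem_filter]
        exact fun h => hpk h.2
      · intro q hq
        rw [Finset.mem_filter] at hq ⊢
        exact ⟨hq.1, Dvd.dvd.mul_left hq.2 p⟩
    have heq : nu y J (p * k) = nu y J k + 1 := le_antisymm hge hlt
    rw [heq]
    push_cast
    rw [add_comm]

/-- if `m` is not rough all terms vanish -/
private theorem RamId_zero {y J m : ℕ} (hr : ¬ ∀ q : ℕ, q.Prime → q ∣ m → y < q) : AA y J m = 0 := by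
  have h := hr
  push Not at h
  obtain ⟨q, hq, hqm, hqy⟩ := h
  unfold AA
  rw [RamId_sum, RamId_rg_zero hr, zero_sub, neg_eq_zero]
  apply Finset.sum_eq_zero
  intro p hp
  unfold PY at hp
  rw [Finset.mem_filter, Finset.mem_filter, Finset.mem_Ioc] at hp
  obtain ⟨⟨⟨hp1, _⟩, hpp⟩, k, rfl⟩ := hp
  rw [Nat.mul_div_cancel_left _ hpp.pos]
  have hqk : q ∣ k := by
    rcases (Nat.Prime.dvd_mul hq).1 hqm with h | h
    · have h2 := (Nat.prime_dvd_prime_iff_eq hq hpp).1 h
      omega
    · exact h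
  unfold bf
  rw [RamId_rg_zero fun h => absurd (h q hq hqk) (by omega), zero_div]

private theorem RamId_eq {y J m : ℕ} (hr : ∀ q : ℕ, q.Prime → q ∣ m → y < q) :
    AA y J m = 1 - ∑ p ∈ (PY y (zz y J)).filter (fun p => p ∣ m), bf y J (m / p) := by
  unfold AA
  rw [RamId_sum, RamId_rg_one hr]

theorem aa_nonneg (y J m : ℕ) (hm : 1 ≤ m) : 0 ≤ AA y J m := by
  by_cases hr : ∀ q : ℕ, q.Prime → q ∣ m → y < q
  · rw [RamId_eq hr, sub_nonneg]
    refine (Finset.sum_le_sum fun p hp => (RamId_term hm hr hp).1).trans ?_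
    rw [Finset.sum_const, nsmul_eq_mul, ← RamId_card hm]
    rcases Nat.eq_zero_or_pos (nu y J m) with h | h
    · rw [h]
      simp
    · have h' : (nu y J m : ℝ) ≠ 0 := by
        have : 0 < (nu y J m : ℝ) := by exact_mod_cast h
        exact this.ne'
      rw [mul_one_div, div_self h']
  · rw [RamId_zero hr]

theorem aa_one (y J m : ℕ) (hm : 1 ≤ m) (h : ∀ p : ℕ, p.Prime → p ∣ m → zz y J < p) :
    AA y J m = 1 := by
  have hle := RamId_le_zz y J
  have hr : ∀ q : ℕ, q.Prime → q ∣ m → y < q := fun q hq hqm => lt_of_le_of_lt hle (h q hq hqm)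
  rw [RamId_eq hr, sub_eq_self]
  have hempty : (PY y (zz y J)).filter (fun p => p ∣ m) = ∅ := by
    rw [Finset.eq_empty_iff_forall_notMem]
    intro p hp
    unfold PY at hp
    rw [Finset.mem_filter, Finset.mem_filter, Finset.mem_Ioc] at hp
    have h2 := h p hp.1.2 hp.2
    omega
  rw [hempty, Finset.sum_empty]

theorem aa_le (y J m : ℕ) (hm : 1 ≤ m) :
    AA y J m ≤ rg (zz y J) m + ((PY y (zz y J)).filter (fun p => p ^ 2 ∣ m)).card := by
  have hrz := RamId_rg_nonneg (zz y J) m
  by_cases hr : ∀ q : ℕ, q.Prime → q ∣ m → y < q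
  · rcases Nat.eq_zero_or_pos (nu y J m) with h | h
    · have hempty : (PY y (zz y J)).filter (fun p => p ∣ m) = ∅ := by
        rw [← Finset.card_eq_zero, ← RamId_card hm, h]
      have hz : rg (zz y J) m = 1 := by
        refine RamId_rg_one fun q hq hqm => ?_
        by_contra hcon
        have hmem : q ∈ (PY y (zz y J)).filter (fun p => p ∣ m) := by
          unfold PY
          rw [Finset.mem_filter, Finset.mem_filter, Finset.mem_Ioc]
          exact ⟨⟨⟨hr q hq hqm, by omega⟩, hq⟩, hqm⟩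
        rw [hempty] at hmem
        exact absurd hmem (Finset.notMem_empty _)
      rw [RamId_eq hr, hempty, Finset.sum_empty, hz, sub_zero]
      exact le_add_of_nonneg_right (Nat.cast_nonneg _)
    · have hν : (0 : ℝ) < nu y J m := by exact_mod_cast h
      have hν1 : (1 : ℝ) ≤ nu y J m := by exact_mod_cast h
      have h1 : (1 : ℝ) = ∑ _p ∈ (PY y (zz y J)).filter (fun p => p ∣ m), 1 / (nu y J m : ℝ) := by
        rw [Finset.sum_const, nsmul_eq_mul, ← RamId_card hm, mul_one_div, div_self hν.ne']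
      have h2 : AA y J m = ∑ p ∈ (PY y (zz y J)).filter (fun p => p ∣ m),
          (1 / (nu y J m : ℝ) - bf y J (m / p)) := by
        rw [RamId_eq hr, Finset.sum_sub_distrib, ← h1]
      rw [h2]
      have h3 : ∀ p ∈ (PY y (zz y J)).filter (fun p => p ∣ m),
          1 / (nu y J m : ℝ) - bf y J (m / p) ≤ if p ^ 2 ∣ m then 1 else 0 := by
        intro p hp
        obtain ⟨_, hb, hc⟩ := RamId_term hm hr hp
        split_ifs with hsq
        · have h4 : 1 / (nu y J m : ℝ) ≤ 1 := by
            rw [div_le_one hν]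
            exact hν1
          have h5 : 0 ≤ 1 / (1 + (nu y J m : ℝ)) := by positivity
          linarith
        · rw [hc hsq, sub_self]
      refine (Finset.sum_le_sum h3).trans ?_
      rw [← Finset.sum_filter, Finset.sum_const, nsmul_eq_mul, mul_one]
      have h6 : (((PY y (zz y J)).filter (fun p => p ∣ m)).filter (fun p => p ^ 2 ∣ m)).card ≤
          ((PY y (zz y J)).filter (fun p => p ^ 2 ∣ m)).card := by
        apply Finset.card_le_card
        intro p hp
        rw [Finset.mem_filter, Finset.mem_filter] at hp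
        exact Finset.mem_filter.2 ⟨hp.1.1, hp.2⟩
      have h7 : ((((PY y (zz y J)).filter (fun p => p ∣ m)).filter (fun p => p ^ 2 ∣ m)).card : ℝ) ≤
          ((PY y (zz y J)).filter (fun p => p ^ 2 ∣ m)).card := by exact_mod_cast h6
      linarith
  · rw [RamId_zero hr]
    positivity

theorem bf_nonneg (y J k : ℕ) : 0 ≤ bf y J k := by
  unfold bf
  exact div_nonneg (RamId_rg_nonneg _ _) (by positivity)

theorem bf_le (y J k : ℕ) : bf y J k ≤ rg y k := by
  unfold bf
  refine div_le_self (RamId_rg_nonneg _ _) ?_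
  have h : (0 : ℝ) ≤ nu y J k := Nat.cast_nonneg _
  linarith

end Pool.Agent.H76.TP
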