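import Pool.Agent.H76.TP.Defs

/-!
# TP KapL: the density `kap` is bounded and slowly varying

Write `z = zz y J`, `G x` = the numerator of `kap y J x`.  `0 ≤ G x ≤ ∑_{k ≤ x} 1/k ≤ 1 + log x`, so `0 ≤ kap ≤ 2` (`log x ≥ 1`).
For `x ≤ x'`: `|G x' - G x| ≤ ∑_{x/y < k ≤ x'/y} 1/k + ∑_{k : x < k z ≤ x'} 1/k ≤ 2((x' - x)/x + y/x) + 2((x' - x)/x + z/x)` (the terms with `x < kz`, `x' ≥ kz` are those whose weight changes;
the `k` of the first sum are `≥ x/y`, at most `(x'-x)/y + 1` of them), and `|1/log x' - 1/log x| ≤ (x'-x)/(x log x log x')`.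
-/

set_option autoImplicit false

namespace Pool.Agent.H76.TP

open Finset

private theorem KapL_rg (y k : ℕ) : 0 ≤ rg y k ∧ rg y k ≤ 1 := by
  unfold rg
  split_ifs <;> norm_num

/-- the terms of the numerator -/
private noncomputable def KapL_t (y J x k : ℕ) : ℝ :=
  rg y k / ((1 + nu y J k + if x < k * zz y J then 1 else 0) * k)

private theorem KapL_t_nonneg (y J x k : ℕ) : 0 ≤ KapL_t y J x k := by
  unfold KapL_t
  refine div_nonneg (KapL_rg y k).1 (mul_nonneg ?_ (Nat.cast_nonneg _))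
  split_ifs <;> positivity

private theorem KapL_t_le (y J x : ℕ) {k : ℕ} (hk : 1 ≤ k) : KapL_t y J x k ≤ 1 / k := by
  unfold KapL_t
  have hk0 : (0 : ℝ) < k := by exact_mod_cast hk
  have h1 : (k : ℝ) ≤ (1 + (nu y J k : ℝ) + if x < k * zz y J then 1 else 0) * k := by
    have h2 : (0 : ℝ) ≤ nu y J k := Nat.cast_nonneg _
    have h3 : (0 : ℝ) ≤ (if x < k * zz y J then (1 : ℝ) else 0) := by split_ifs <;> norm_num
    nlinarith [mul_nonneg h2 hk0.le, mul_nonneg h3 hk0.le]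
  exact div_le_div₀ zero_le_one (KapL_rg y k).2 hk0 h1

private theorem KapL_kap (y J x : ℕ) :
    kap y J x = (∑ k ∈ Icc 1 (x / y), KapL_t y J x k) / Real.log x := rfl

private theorem KapL_harm (n : ℕ) : ∑ k ∈ Icc 1 n, 1 / (k : ℝ) ≤ 1 + Real.log n := by
  have h := harmonic_le_one_add_log n
  rw [harmonic_eq_sum_Icc] at h
  push_cast at h
  refine le_trans (le_of_eq ?_) h
  refine Finset.sum_congr rfl fun k _ => ?_
  rw [one_div]

private theorem KapL_G_le (y J x : ℕ) (hx : 1 ≤ x) :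
    ∑ k ∈ Icc 1 (x / y), KapL_t y J x k ≤ 1 + Real.log x := by
  calc ∑ k ∈ Icc 1 (x / y), KapL_t y J x k ≤ ∑ k ∈ Icc 1 (x / y), 1 / (k : ℝ) :=
        Finset.sum_le_sum fun k hk => KapL_t_le y J x (mem_Icc.mp hk).1
    _ ≤ ∑ k ∈ Icc 1 x, 1 / (k : ℝ) := by
        refine Finset.sum_le_sum_of_subset_of_nonneg ?_ fun k _ _ => by positivity
        exact Finset.Icc_subset_Icc le_rfl (Nat.div_le_self x y)
    _ ≤ 1 + Real.log x := KapL_harm x

private theorem KapL_log {x : ℕ} (hx : 3 ≤ x) : 1 ≤ Real.log x := by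
  have h1 : Real.exp 1 ≤ x := by
    have := Real.exp_one_lt_d9
    have h2 : (3 : ℝ) ≤ x := by exact_mod_cast hx
    linarith
  calc (1 : ℝ) = Real.log (Real.exp 1) := (Real.log_exp 1).symm
    _ ≤ Real.log x := Real.log_le_log (Real.exp_pos 1) h1

/-- the reciprocals between `x/m` and `x'/m` -/
private theorem KapL_win {x x' m : ℕ} (hm : 1 ≤ m) (hx : 1 ≤ x) (hxx : x ≤ x') :
    ∑ k ∈ Ioc (x / m) (x' / m), 1 / (k : ℝ) ≤ (((x' : ℝ) - x) + m) / x := by
  have hm0 : (0 : ℝ) < m := by exact_mod_cast hm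
  have hx0 : (0 : ℝ) < x := by exact_mod_cast hx
  have h1 : ∀ k ∈ Ioc (x / m) (x' / m), 1 / (k : ℝ) ≤ m / x := by
    intro k hk
    rw [mem_Ioc] at hk
    have h2 : x < k * m := (Nat.div_lt_iff_lt_mul (by omega)).mp hk.1
    have h3 : (x : ℝ) ≤ k * m := by exact_mod_cast h2.le
    have hk0 : (0 : ℝ) < k := by
      have : 0 < k := lt_of_le_of_lt (Nat.zero_le _) hk.1
      exact_mod_cast this
    rw [div_le_div_iff₀ hk0 hx0]
    linarith
  have h4 : (((Ioc (x / m) (x' / m)).card : ℕ) : ℝ) ≤ ((x' : ℝ) - x) / m + 1 := by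
    rw [Nat.card_Ioc, Nat.cast_sub (Nat.div_le_div_right hxx)]
    have h5 : ((x' / m : ℕ) : ℝ) ≤ (x' : ℝ) / m := Nat.cast_div_le
    have h6 : x < x / m * m + m := Nat.lt_div_mul_add (by omega)
    have h7 : (x : ℝ) ≤ ((x / m : ℕ) : ℝ) * m + m := by exact_mod_cast h6.le
    have h8 : (x : ℝ) / m ≤ ((x / m : ℕ) : ℝ) + 1 := by
      rw [div_le_iff₀ hm0]
      linarith
    have h9 : ((x' : ℝ) - x) / m = (x' : ℝ) / m - (x : ℝ) / m := by ring
    rw [h9]
    linarith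
  calc ∑ k ∈ Ioc (x / m) (x' / m), 1 / (k : ℝ) ≤ ∑ _k ∈ Ioc (x / m) (x' / m), (m : ℝ) / x :=
        Finset.sum_le_sum h1
    _ = ((Ioc (x / m) (x' / m)).card : ℝ) * ((m : ℝ) / x) := by
        rw [Finset.sum_const, nsmul_eq_mul]
    _ ≤ (((x' : ℝ) - x) / m + 1) * ((m : ℝ) / x) :=
        mul_le_mul_of_nonneg_right h4 (by positivity)
    _ = (((x' : ℝ) - x) + m) / x := by
        field_simp

private theorem KapL_diff (y J x x' : ℕ) {k : ℕ} (hk : 1 ≤ k) (hxx : x ≤ x') :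
    0 ≤ KapL_t y J x' k - KapL_t y J x k ∧
      (KapL_t y J x' k - KapL_t y J x k ≤ if x < k * zz y J ∧ k * zz y J ≤ x' then 1 / (k : ℝ) else 0) := by
  have hk0 : (0 : ℝ) < k := by exact_mod_cast hk
  by_cases h1 : x < k * zz y J
  · by_cases h2 : x' < k * zz y J
    · have e : KapL_t y J x' k = KapL_t y J x k := by
        unfold KapL_t
        rw [if_pos h1, if_pos h2]
      rw [e, sub_self, if_neg (by omega)]
      exact ⟨le_rfl, le_rfl⟩
    · rw [if_pos ⟨h1, by omega⟩]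
      constructor
      · have h3 : (0 : ℝ) ≤ nu y J k := Nat.cast_nonneg _
        unfold KapL_t
        rw [if_pos h1, if_neg h2, sub_nonneg]
        refine div_le_div_of_nonneg_left (KapL_rg y k).1 (by positivity) ?_
        nlinarith
      · have h4 := KapL_t_le y J x' hk
        have h5 := KapL_t_nonneg y J x k
        linarith
  · have h2 : ¬ x' < k * zz y J := by omega
    have e : KapL_t y J x' k = KapL_t y J x k := by
      unfold KapL_t
      rw [if_neg h1, if_neg h2]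
    rw [e, sub_self, if_neg (by omega)]
    exact ⟨le_rfl, le_rfl⟩

private theorem KapL_zz_ge (y J : ℕ) : y ≤ zz y J := by
  unfold zz
  exact Nat.le_mul_of_pos_left y (by positivity)

private theorem KapL_G (y J x x' : ℕ) (hy : 1 ≤ y) (hx : 1 ≤ x) (hxx : x ≤ x') :
    0 ≤ ∑ k ∈ Icc 1 (x' / y), KapL_t y J x' k - ∑ k ∈ Icc 1 (x / y), KapL_t y J x k ∧
    ∑ k ∈ Icc 1 (x' / y), KapL_t y J x' k - ∑ k ∈ Icc 1 (x / y), KapL_t y J x k ≤
      2 * ((((x' : ℝ) - x) + zz y J) / x) := by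
  have hdiv : x / y ≤ x' / y := Nat.div_le_div_right hxx
  have hx0 : (0 : ℝ) < x := by exact_mod_cast hx
  have hsplit : ∑ k ∈ Icc 1 (x' / y), KapL_t y J x' k =
      ∑ k ∈ Icc 1 (x / y), KapL_t y J x' k + ∑ k ∈ Ioc (x / y) (x' / y), KapL_t y J x' k := by
    have e1 : ∀ n : ℕ, Icc 1 n = Ioc 0 n := by
      intro n
      ext k
      simp only [mem_Icc, mem_Ioc]
      omega
    rw [e1, e1]
    exact (Finset.sum_Ioc_consecutive _ (Nat.zero_le _) hdiv).symm
  have e2 : ∑ k ∈ Icc 1 (x' / y), KapL_t y J x' k - ∑ k ∈ Icc 1 (x / y), KapL_t y J x k =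
      ∑ k ∈ Icc 1 (x / y), (KapL_t y J x' k - KapL_t y J x k) +
        ∑ k ∈ Ioc (x / y) (x' / y), KapL_t y J x' k := by
    rw [hsplit, Finset.sum_sub_distrib]
    ring
  rw [e2]
  have a1 : 0 ≤ ∑ k ∈ Icc 1 (x / y), (KapL_t y J x' k - KapL_t y J x k) :=
    Finset.sum_nonneg fun k hk => (KapL_diff y J x x' (mem_Icc.mp hk).1 hxx).1
  have a2 : 0 ≤ ∑ k ∈ Ioc (x / y) (x' / y), KapL_t y J x' k :=
    Finset.sum_nonneg fun k _ => KapL_t_nonneg y J x' k
  have hzy : (y : ℝ) ≤ zz y J := by exact_mod_cast KapL_zz_ge y J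
  have hz1 : 1 ≤ zz y J := hy.trans (KapL_zz_ge y J)
  have b1 : ∑ k ∈ Icc 1 (x / y), (KapL_t y J x' k - KapL_t y J x k) ≤
      (((x' : ℝ) - x) + zz y J) / x := by
    calc ∑ k ∈ Icc 1 (x / y), (KapL_t y J x' k - KapL_t y J x k)
        ≤ ∑ k ∈ Icc 1 (x / y), (if x < k * zz y J ∧ k * zz y J ≤ x' then 1 / (k : ℝ) else 0) :=
          Finset.sum_le_sum fun k hk => (KapL_diff y J x x' (mem_Icc.mp hk).1 hxx).2
      _ = ∑ k ∈ (Icc 1 (x / y)).filter (fun k => x < k * zz y J ∧ k * zz y J ≤ x'), 1 / (k : ℝ) := by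
          rw [Finset.sum_filter]
      _ ≤ ∑ k ∈ Ioc (x / zz y J) (x' / zz y J), 1 / (k : ℝ) := by
          refine Finset.sum_le_sum_of_subset_of_nonneg ?_ fun k _ _ => by positivity
          intro k hk
          obtain ⟨_, h1, h2⟩ := Finset.mem_filter.mp hk
          rw [mem_Ioc]
          exact ⟨(Nat.div_lt_iff_lt_mul (by omega)).mpr h1, (Nat.le_div_iff_mul_le (by omega)).mpr h2⟩
      _ ≤ _ := KapL_win hz1 hx hxx
  have b2 : ∑ k ∈ Ioc (x / y) (x' / y), KapL_t y J x' k ≤ (((x' : ℝ) - x) + zz y J) / x := by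
    calc ∑ k ∈ Ioc (x / y) (x' / y), KapL_t y J x' k ≤ ∑ k ∈ Ioc (x / y) (x' / y), 1 / (k : ℝ) :=
          Finset.sum_le_sum fun k hk => KapL_t_le y J x'
            (lt_of_le_of_lt (Nat.zero_le _) (mem_Ioc.mp hk).1)
      _ ≤ (((x' : ℝ) - x) + y) / x := KapL_win hy hx hxx
      _ ≤ _ := by
          refine div_le_div_of_nonneg_right ?_ hx0.le
          linarith
  exact ⟨by linarith, by linarith⟩

theorem kap_nonneg (y J x : ℕ) (hx : 1 ≤ x) : 0 ≤ kap y J x := by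
  rw [KapL_kap]
  refine div_nonneg (Finset.sum_nonneg fun k _ => KapL_t_nonneg y J x k) ?_
  exact Real.log_natCast_nonneg x

theorem kap_le (y J x : ℕ) (hx : 3 ≤ x) : kap y J x ≤ 2 := by
  rw [KapL_kap]
  have h1 := KapL_G_le y J x (by omega)
  have h2 := KapL_log hx
  rw [div_le_iff₀ (by linarith)]
  linarith

/-- `z = zz y J ≤ x` and `1 ≤ y` -/
theorem kap_lip (y J x x' : ℕ) (hy : 1 ≤ y) (hx : 3 ≤ x) (hz : zz y J ≤ x) (hxx : x ≤ x') :
    |kap y J x' - kap y J x| ≤ 10 * (((x' : ℝ) - x) + zz y J) / x := by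
  obtain ⟨g1, g2⟩ := KapL_G y J x x' hy (by omega) hxx
  have hG := KapL_G_le y J x (by omega)
  have hG0 : 0 ≤ ∑ k ∈ Icc 1 (x / y), KapL_t y J x k :=
    Finset.sum_nonneg fun k _ => KapL_t_nonneg y J x k
  have hx' : 3 ≤ x' := by omega
  have l1 := KapL_log hx
  have l2 := KapL_log hx'
  rw [KapL_kap, KapL_kap]
  set G := ∑ k ∈ Icc 1 (x / y), KapL_t y J x k with hGdef
  set G' := ∑ k ∈ Icc 1 (x' / y), KapL_t y J x' k with hG'def
  set D := (((x' : ℝ) - x) + zz y J) / x with hD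
  have hx0 : (0 : ℝ) < x := by
    have : 0 < x := by omega
    exact_mod_cast this
  have hxr : (x : ℝ) ≤ x' := by exact_mod_cast hxx
  have hx0' : (0 : ℝ) < x' := by linarith
  have hlog : Real.log x ≤ Real.log x' := Real.log_le_log hx0 hxr
  have hlog2 : Real.log x' - Real.log x ≤ D := by
    rw [← Real.log_div hx0'.ne' hx0.ne']
    have h3 := Real.log_le_sub_one_of_pos (show 0 < (x' : ℝ) / x by positivity)
    refine h3.trans ?_
    rw [hD, le_div_iff₀ hx0, sub_mul, div_mul_cancel₀ _ hx0.ne', one_mul]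
    have : (0 : ℝ) ≤ zz y J := Nat.cast_nonneg _
    linarith
  have hD0 : 0 ≤ D := by
    have : (0 : ℝ) ≤ zz y J := Nat.cast_nonneg _
    rw [hD]
    refine div_nonneg ?_ hx0.le
    linarith
  have e : G' / Real.log x' - G / Real.log x =
      (G' - G) / Real.log x' - G / Real.log x * ((Real.log x' - Real.log x) / Real.log x') := by
    field_simp
    ring
  have b1 : (G' - G) / Real.log x' ≤ 2 * D := by
    rw [div_le_iff₀ (by linarith)]
    nlinarith
  have b1' : 0 ≤ (G' - G) / Real.log x' := div_nonneg g1 (by linarith)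
  have b2 : G / Real.log x ≤ 2 := by
    rw [div_le_iff₀ (by linarith)]
    linarith
  have b2' : 0 ≤ G / Real.log x := div_nonneg hG0 (by linarith)
  have b3 : (Real.log x' - Real.log x) / Real.log x' ≤ D := by
    rw [div_le_iff₀ (by linarith)]
    nlinarith
  have b3' : 0 ≤ (Real.log x' - Real.log x) / Real.log x' := div_nonneg (by linarith) (by linarith)
  have b4 : G / Real.log x * ((Real.log x' - Real.log x) / Real.log x') ≤ 2 * D :=
    mul_le_mul b2 b3 b3' (by norm_num)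
  have b4' : 0 ≤ G / Real.log x * ((Real.log x' - Real.log x) / Real.log x') := mul_nonneg b2' b3'
  have eD : 10 * (((x' : ℝ) - x) + zz y J) / x = 10 * D := by
    rw [hD]
    ring
  rw [eD, e, abs_le]
  constructor <;> linarith

end Pool.Agent.H76.TP
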