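import Pool.Agent.H76.TP.KapL

/-!
# TP KStep: the density of `Ap` is slowly varying

`kap_lip` with `x/p ≤ x'/p` (natural division, `x'/p - x/p ≤ (x'-x)/p + 1`, `x/p ≥ x/(2p)`, `p ≤ z ≤ N^ζ`): `|kapA(x') - kapA(x)| ≤ ∑_{y < p ≤ z} (1/p) · 10 ((x'-x)/p + 1 + z)/(x/(2p)) ≤ 20 z (N^(1/2)/y + 1 + z)/x`
(at most `z` primes, `x ≥ N/8`, `z ≤ N^(1/3)`), `≤ 1/L^A`.
-/

set_option autoImplicit false

namespace Pool.Agent.H76.TP

open Finset

/-- the bound of one term -/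
private theorem kStep_term (y J x x' p : ℕ) (D : ℝ) (hy : 1 ≤ y) (hp : 1 ≤ p) (h3 : 3 * p ≤ x)
    (hz : zz y J * p ≤ x) (hxx : x ≤ x') (hD : (x' : ℝ) ≤ x + D) :
    |kap y J (x' / p) / p - kap y J (x / p) / p| ≤ 20 * (D + 1 + zz y J) / x := by
  have hx0 : (0 : ℝ) < x := by
    have : 0 < x := by omega
    exact_mod_cast this
  have hp0 : (0 : ℝ) < p := by exact_mod_cast hp
  have hp1 : (1 : ℝ) ≤ p := by exact_mod_cast hp
  have h3' : 3 ≤ x / p := by
    rw [Nat.le_div_iff_mul_le (by omega)]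
    exact h3
  have hz' : zz y J ≤ x / p := by
    rw [Nat.le_div_iff_mul_le (by omega)]
    exact hz
  have hdd : x / p ≤ x' / p := Nat.div_le_div_right hxx
  have hl := kap_lip y J (x / p) (x' / p) hy h3' hz' hdd
  have hD0 : 0 ≤ D := by
    have : (x : ℝ) ≤ x' := by exact_mod_cast hxx
    linarith
  -- natural division against real division
  have e1 : ((x' / p : ℕ) : ℝ) ≤ (x' : ℝ) / p := Nat.cast_div_le
  have e2 : (x : ℝ) / p ≤ ((x / p : ℕ) : ℝ) + 1 := by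
    have := Nat.lt_floor_add_one ((x : ℝ) / (p : ℝ))
    rw [Nat.floor_div_eq_div] at this
    exact this.le
  have e3 : (x : ℝ) / (2 * p) ≤ ((x / p : ℕ) : ℝ) := by
    have h1 : (1 : ℝ) ≤ ((x / p : ℕ) : ℝ) := by
      have : 1 ≤ x / p := by omega
      exact_mod_cast this
    have h2 : (x : ℝ) / (2 * p) = ((x : ℝ) / p) / 2 := by
      field_simp
    rw [h2]
    linarith
  have e4 : ((x' / p : ℕ) : ℝ) - ((x / p : ℕ) : ℝ) ≤ D + 1 := by
    have h1 : (x' : ℝ) / p ≤ (x : ℝ) / p + D := by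
      rw [div_le_iff₀ hp0]
      have h2 : ((x : ℝ) / p + D) * p = x + D * p := by
        field_simp
      rw [h2]
      nlinarith
    linarith
  have e5 : (0 : ℝ) ≤ (zz y J : ℝ) := Nat.cast_nonneg _
  have e6 : 10 * ((((x' / p : ℕ) : ℝ) - ((x / p : ℕ) : ℝ)) + zz y J) / ((x / p : ℕ) : ℝ)
      ≤ 10 * (D + 1 + zz y J) / ((x : ℝ) / (2 * p)) := by
    have hpos : (0 : ℝ) < (x : ℝ) / (2 * p) := by positivity
    gcongr
  have e7 : 10 * (D + 1 + zz y J) / ((x : ℝ) / (2 * p)) = 20 * (D + 1 + zz y J) / x * p := by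
    field_simp
    ring
  have e8 : |kap y J (x' / p) - kap y J (x / p)| ≤ 20 * (D + 1 + zz y J) / x * p :=
    (hl.trans e6).trans e7.le
  rw [← sub_div, abs_div, abs_of_pos hp0, div_le_iff₀ hp0]
  exact e8

/-- the sum of the lengths of the blocks -/
private theorem kStep_geom (J y : ℕ) : ∑ j ∈ range J, 2 ^ j * y ≤ 2 ^ J * y := by
  induction J with
  | zero => simp
  | succ n ih =>
      rw [sum_range_succ, pow_succ]
      have : 2 ^ n * 2 * y = 2 ^ n * y + 2 ^ n * y := by ring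
      omega

private theorem kStep_bound (y J x x' : ℕ) (kS D : ℝ) (hy : 1 ≤ y) (h3 : 3 * zz y J ≤ x)
    (hz : zz y J * zz y J ≤ x) (hxx : x ≤ x') (hD : (x' : ℝ) ≤ x + D) :
    |kapA kS y J x' - kapA kS y J x| ≤ zz y J * (20 * (D + 1 + zz y J) / x) := by
  have hD0 : 0 ≤ D := by
    have : (x : ℝ) ≤ x' := by exact_mod_cast hxx
    linarith
  have e0 : kapA kS y J x' - kapA kS y J x
      = -∑ j ∈ range J, ∑ p ∈ Pool.Agent.H35.W.pb (2 ^ j * y),
        (kap y J (x' / p) / p - kap y J (x / p) / p) := by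
    unfold kapA WK
    simp only [sum_sub_distrib]
    ring
  rw [e0, abs_neg]
  set K : ℝ := 20 * (D + 1 + zz y J) / x with hK
  have hK0 : 0 ≤ K := by
    rw [hK]
    positivity
  have e1 : ∀ j ∈ range J, |∑ p ∈ Pool.Agent.H35.W.pb (2 ^ j * y),
        (kap y J (x' / p) / p - kap y J (x / p) / p)| ≤ ((2 ^ j * y : ℕ) : ℝ) * K := by
    intro j hj
    rw [mem_range] at hj
    have hsub : Pool.Agent.H35.W.pb (2 ^ j * y) ⊆ Ioc (2 ^ j * y) (2 * (2 ^ j * y)) := by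
      intro p hp
      unfold Pool.Agent.H35.W.pb at hp
      simp only [mem_filter, mem_Ioc] at hp ⊢
      exact hp.1
    have hcard : (Pool.Agent.H35.W.pb (2 ^ j * y)).card ≤ 2 ^ j * y := by
      refine (card_le_card hsub).trans ?_
      rw [Nat.card_Ioc]
      omega
    have hle : 2 * (2 ^ j * y) ≤ zz y J := by
      unfold zz
      have h1 : 2 ^ (j + 1) ≤ 2 ^ J := Nat.pow_le_pow_right (by norm_num) hj
      calc 2 * (2 ^ j * y) = 2 ^ (j + 1) * y := by ring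
        _ ≤ 2 ^ J * y := Nat.mul_le_mul_right _ h1
    refine (abs_sum_le_sum_abs _ _).trans ?_
    have hterm : ∀ p ∈ Pool.Agent.H35.W.pb (2 ^ j * y),
        |kap y J (x' / p) / p - kap y J (x / p) / p| ≤ K := by
      intro p hp
      have h1 := hsub hp
      rw [mem_Ioc] at h1
      have hpz : p ≤ zz y J := h1.2.trans hle
      refine kStep_term y J x x' p D hy (by omega) ?_ ?_ hxx hD
      · exact (Nat.mul_le_mul_left 3 hpz).trans h3
      · exact (Nat.mul_le_mul_left _ hpz).trans hz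
    refine (sum_le_card_nsmul _ _ _ hterm).trans ?_
    rw [nsmul_eq_mul]
    have : ((Pool.Agent.H35.W.pb (2 ^ j * y)).card : ℝ) ≤ ((2 ^ j * y : ℕ) : ℝ) := by
      exact_mod_cast hcard
    gcongr
  refine (abs_sum_le_sum_abs _ _).trans ?_
  refine (sum_le_sum e1).trans ?_
  rw [← sum_mul]
  have h2 : (∑ j ∈ range J, ((2 ^ j * y : ℕ) : ℝ)) ≤ (zz y J : ℝ) := by
    unfold zz
    have := kStep_geom J y
    exact_mod_cast this
  gcongr

theorem kap_step (e1 ζ : ℝ) (he1 : 0 < e1) (he : e1 < ζ) (hζ2 : ζ < 1 / 3) (A : ℕ) :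
    ∃ N0 : ℕ, ∀ N : ℕ, N0 ≤ N → ∀ (J x x' : ℕ) (kS : ℝ), (zz (yN e1 N) J : ℝ) ≤ (N : ℝ) ^ ζ →
      N ≤ 8 * x → x ≤ x' → (x' : ℝ) ≤ x + (N : ℝ) ^ (1 / 2 : ℝ) →
      |kapA kS (yN e1 N) J x' - kapA kS (yN e1 N) J x| ≤ 1 / Real.log N ^ A := by
  -- the threshold
  have hlo : (fun t : ℝ => Real.log t ^ (A : ℝ)) =o[Filter.atTop] fun t => t ^ (1 / 6 : ℝ) :=
    isLittleO_log_rpow_rpow_atTop (A : ℝ) (by norm_num)
  have hev := (hlo.bound (show (0 : ℝ) < 1 / 480 by norm_num)).and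
    (Filter.eventually_ge_atTop (1000 : ℝ))
  obtain ⟨T, hT⟩ := Filter.eventually_atTop.1 hev
  refine ⟨⌈T⌉₊ + 1000, ?_⟩
  intro N hN J x x' kS hz hx hxx hD
  have hNT : T ≤ (N : ℝ) := by
    refine (Nat.le_ceil T).trans ?_
    exact_mod_cast (by omega : ⌈T⌉₊ ≤ N)
  obtain ⟨hlog, hN1000⟩ := hT N hNT
  have hN0 : (0 : ℝ) < N := by linarith
  have hN1 : (1 : ℝ) ≤ N := by linarith
  have hlogpos : 0 < Real.log N := Real.log_pos (by linarith)
  have hy : 1 ≤ yN e1 N := by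
    unfold yN
    apply Nat.le_floor
    simp only [Nat.cast_one]
    exact Real.one_le_rpow hN1 he1.le
  set y := yN e1 N with hydef
  set z := zz y J with hzdef
  have hz3 : (z : ℝ) ≤ (N : ℝ) ^ (1 / 3 : ℝ) :=
    hz.trans (Real.rpow_le_rpow_of_exponent_le hN1 hζ2.le)
  set c : ℝ := (N : ℝ) ^ (1 / 3 : ℝ) with hc
  have hc3 : c * c * c = N := by
    rw [hc, ← Real.rpow_add hN0, ← Real.rpow_add hN0]
    norm_num
  have hc0 : 0 < c := Real.rpow_pos_of_pos hN0 _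
  have hc10 : 10 ≤ c := by
    by_contra hcon
    push Not at hcon
    have h1 : c * c < 10 * 10 := by nlinarith
    have h2 : c * c * c < 10 * 10 * 10 := by nlinarith
    rw [hc3] at h2
    linarith
  have hx8 : (N : ℝ) ≤ 8 * x := by exact_mod_cast hx
  have hz0 : (0 : ℝ) ≤ z := Nat.cast_nonneg _
  have h3 : 3 * z ≤ x := by
    have h : (3 * z : ℝ) ≤ x := by
      nlinarith [mul_nonneg hc0.le hc0.le]
    exact_mod_cast h
  have hzz : z * z ≤ x := by
    have h : ((z : ℝ) * z) ≤ x := by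
      nlinarith [mul_nonneg hc0.le hc0.le, mul_le_mul hz3 hz3 hz0 hc0.le]
    exact_mod_cast h
  have hb := kStep_bound y J x x' kS ((N : ℝ) ^ (1 / 2 : ℝ)) hy h3 hzz hxx hD
  refine hb.trans ?_
  -- the final numerical comparison
  set s : ℝ := (N : ℝ) ^ (1 / 2 : ℝ) with hs
  have hs0 : 0 < s := Real.rpow_pos_of_pos hN0 _
  have hcs : c ≤ s := Real.rpow_le_rpow_of_exponent_le hN1 (by norm_num)
  have h1s : 1 ≤ s := Real.one_le_rpow hN1 (by norm_num)
  set w : ℝ := (N : ℝ) ^ (1 / 6 : ℝ) with hw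
  have hw0 : 0 < w := Real.rpow_pos_of_pos hN0 _
  have hcsw : c * s * w = N := by
    rw [hc, hs, hw, ← Real.rpow_add hN0, ← Real.rpow_add hN0]
    norm_num
  have hx0 : (0 : ℝ) < x := by linarith
  have hL : Real.log N ^ A ≤ 1 / 480 * w := by
    have h1 : Real.log N ^ (A : ℝ) = Real.log N ^ A := Real.rpow_natCast _ _
    rw [h1] at hlog
    rw [Real.norm_of_nonneg (by positivity), Real.norm_of_nonneg hw0.le] at hlog
    exact hlog
  have hLp : 0 < Real.log N ^ A := by positivity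
  have step1 : (z : ℝ) * (20 * (s + 1 + z) / x) ≤ c * (20 * (3 * s) / (N / 8)) := by
    have ha : (N : ℝ) / 8 ≤ x := by linarith
    have hb' : s + 1 + (z : ℝ) ≤ 3 * s := by linarith
    have hN8 : (0 : ℝ) < N / 8 := by linarith
    gcongr
  refine step1.trans ?_
  rw [show c * (20 * (3 * s) / ((N : ℝ) / 8)) = 480 * (c * s) / N by field_simp; ring]
  rw [div_le_div_iff₀ hN0 hLp]
  rw [← hcsw]
  have : 480 * (c * s) * Real.log (c * s * w) ^ A ≤ 480 * (c * s) * (1 / 480 * w) := by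
    rw [hcsw]
    gcongr
  linarith

end Pool.Agent.H76.TP
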