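import Pool.Agent.H76.TP.KapL
import Pool.Agent.H53.MID.OmW

/-!
# TP Om2: the twisted main term of type II

Fix the block `I = [iH, (i+1)H)`, `i ≥ N/(2H)`, `P ≥ N^e1`, `P N^e ≤ H`, `H² ≤ N`.  For `m ∈ I`, `p ∣ m`, `p ∈ pb P`: `|m/p - iH/p| ≤ H/p + 1` (natural division), so `|kap(m/p) - kap(iH/p)| ≤ 10 (H/P + 1 + z)/(iH/(2P)) ≤ N^(-c)`
(`kap_lip`; `z P ≤ z H N^(-e) ≤ N^(ζ + 1/2 - e)`, `iH ≥ N/3`; `ζ < 1/2`); total error `≤ N^(-c) ∑_{m ∈ I} |lamR R m| #{p ∣ m} ≤ H/(2 L^A)`, (`|lamR R m| ≤ R^2`, `#{p ∈ pb P : p ∣ m} ≤ 2/e1` or `≤ 2L`).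
The rest: `∑_{p ∈ pb P} kap(iH/p) ∑_{m ∈ I} (1[p ∣ m] - 1/p) lamR R m ee(-m α)`.  As in `H53/MID/OmW.lean`: `1[p ∣ m] - 1/p = (1/p) ∑_{c=1}^{p-1} ee(mc/p)`, `lamR R m = ∑_{q ≤ R} μ(q)/φ(q) ∑*_b ee(mb/q)`, so with
`0 ≤ kap ≤ 2` it is `≤ R max_β (2/P) ∑_p ∑_{c=1}^{p-1} min(H, 1/(2 nz(β + c/p))) ≤ R (2/P) (2H + 16 P² (1 + log(8P²)))` (points with mutual distance `≥ 1/(4P²)`, see `OmW.lean`) `≤ H/(2 L^A)`:
here `P N^e ≤ H` is enough.
-/

set_option autoImplicit false

namespace Pool.Agent.H76.TP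

open Finset
open Pool.Agent.H91.PK (ee)
open Pool.Agent.H91.EHA (Lam hR lamR ramS)
open Pool.Agent.H35.W (pb)
open Pool.Agent.H53.MID (Fp Bs)
open Pool.Agent.H92.EH (red D)

private theorem Om2_e (t : ℝ) : Pool.Agent.H92.EH.e t = ee t := by
  unfold Pool.Agent.H91.PK.ee Pool.Agent.H92.EH.e
  congr 1
  push_cast
  ring

private theorem Om2_harm (n : ℕ) : ∑ k ∈ Icc 1 n, 1 / (k : ℝ) ≤ 1 + Real.log n := by
  have h := harmonic_le_one_add_log n
  rw [harmonic_eq_sum_Icc] at h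
  push_cast at h
  refine le_trans (le_of_eq ?_) h
  refine Finset.sum_congr rfl fun k _ => ?_
  rw [one_div]

private theorem Om2_row {ι : Type*} (S : Finset ι) (β : ι → ℝ) (M : ℕ) (hM : 0 < M)
    (hsp : ∀ i ∈ S, ∀ j ∈ S, i ≠ j → ∀ m : ℤ, (1 : ℝ) / M ≤ |β i - β j - m|)
    (hhalf : ∀ j ∈ S, Int.fract (β j) ≤ 1 / 2) (K : ℕ) :
    ∑ j ∈ S, ‖D K (β j)‖ ≤ K + (M : ℝ) / 2 * (1 + Real.log M) := by
  classical
  have hM' : (0 : ℝ) < M := by exact_mod_cast hM
  set m : ι → ℕ := fun j => ⌊(M : ℝ) * Int.fract (β j)⌋₊ with hmdef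
  have hmle : ∀ j ∈ S, (m j : ℝ) ≤ M * Int.fract (β j) := by
    intro j _
    exact Nat.floor_le (by have := Int.fract_nonneg (β j); positivity)
  have hmlt : ∀ j ∈ S, (M : ℝ) * Int.fract (β j) < m j + 1 := by
    intro j _
    exact Nat.lt_floor_add_one _
  have hinj : Set.InjOn m S := by
    intro i hi j hj hij
    by_contra hne
    have h1 := hmle i hi
    have h2 := hmlt i hi
    have h3 := hmle j hj
    have h4 := hmlt j hj
    have h5 : (m i : ℝ) = m j := by exact_mod_cast hij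
    have h6 := hsp i hi j hj hne (⌊β i⌋ - ⌊β j⌋)
    have h7 : β i - β j - ((⌊β i⌋ - ⌊β j⌋ : ℤ) : ℝ) = Int.fract (β i) - Int.fract (β j) := by
      simp only [Int.fract]
      push_cast
      ring
    rw [h7, div_le_iff₀ hM'] at h6
    have h8 : |Int.fract (β i) - Int.fract (β j)| * M < 1 := by
      rw [← abs_of_pos hM', ← abs_mul, abs_lt]
      constructor <;> nlinarith
    linarith
  have hbound : ∀ j ∈ S, ‖D K (β j)‖ ≤ (fun k : ℕ => if k = 0 then (K : ℝ) else (M : ℝ) / 2 * (1 / (k : ℝ))) (m j) := by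
    intro j hj
    simp only
    split_ifs with h0
    · exact Pool.Agent.H92.EH.norm_D_le_nat K _
    · have hmpos : (0 : ℝ) < m j := by exact_mod_cast Nat.pos_of_ne_zero h0
      have hdist : ∀ k : ℤ, (m j : ℝ) / M ≤ |β j - k| := by
        intro k
        have h1 : Int.fract (β j) ≤ |β j - k| := by
          have hf := hhalf j hj
          have hf0 := Int.fract_nonneg (β j)
          have hβ : β j = ⌊β j⌋ + Int.fract (β j) := (Int.floor_add_fract _).symm
          rcases le_or_gt k ⌊β j⌋ with hk | hk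
          · have hk' : (k : ℝ) ≤ ⌊β j⌋ := by exact_mod_cast hk
            rw [le_abs]
            left
            linarith
          · have hk' : (⌊β j⌋ : ℝ) + 1 ≤ k := by exact_mod_cast hk
            rw [le_abs]
            right
            linarith
        refine le_trans ?_ h1
        rw [div_le_iff₀ hM']
        have := hmle j hj
        linarith
      have h1 := Pool.Agent.H92.EH.norm_D_le K (t := β j) (δ := (m j : ℝ) / M) (by positivity) hdist
      refine h1.trans (le_of_eq ?_)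
      field_simp
  have hmM : ∀ j ∈ S, m j ≤ M := by
    intro j hj
    have h1 := hmle j hj
    have h2 : (m j : ℝ) ≤ M := by
      have := (Int.fract_lt_one (β j)).le
      nlinarith
    exact_mod_cast h2
  calc ∑ j ∈ S, ‖D K (β j)‖
      ≤ ∑ j ∈ S, (fun k : ℕ => if k = 0 then (K : ℝ) else (M : ℝ) / 2 * (1 / (k : ℝ))) (m j) :=
        Finset.sum_le_sum hbound
    _ = ∑ k ∈ S.image m, (fun k : ℕ => if k = 0 then (K : ℝ) else (M : ℝ) / 2 * (1 / (k : ℝ))) k :=
        (Finset.sum_image (f := fun k : ℕ => if k = 0 then (K : ℝ) else (M : ℝ) / 2 * (1 / (k : ℝ))) (g := m) hinj).symm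
    _ ≤ ∑ k ∈ range (M + 1), (fun k : ℕ => if k = 0 then (K : ℝ) else (M : ℝ) / 2 * (1 / (k : ℝ))) k := by
        refine Finset.sum_le_sum_of_subset_of_nonneg ?_ ?_
        · intro k hk
          obtain ⟨j, hj, rfl⟩ := Finset.mem_image.1 hk
          rw [Finset.mem_range]
          have := hmM j hj
          omega
        · intro k _ _
          split_ifs <;> positivity
    _ = K + (M : ℝ) / 2 * ∑ k ∈ Icc 1 M, 1 / (k : ℝ) := by
        rw [Finset.range_eq_Ico, Finset.sum_eq_sum_Ico_succ_bot (by omega : 0 < M + 1)]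
        congr 1
        rw [Finset.mul_sum]
        have e1 : Ico (0 + 1) (M + 1) = Icc 1 M := by
          ext k
          simp only [mem_Ico, mem_Icc]
          omega
        rw [e1]
        refine Finset.sum_congr rfl fun k hk => ?_
        have : k ≠ 0 := by
          rw [mem_Icc] at hk
          omega
        simp only [if_neg this]
    _ ≤ K + (M : ℝ) / 2 * (1 + Real.log M) := by
        have := Om2_harm M
        gcongr

/-- the exponential sum over well spaced points -/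
private theorem Om2_pts {ι : Type*} (S : Finset ι) (β : ι → ℝ) (M H : ℕ) (hM : 0 < M)
    (hsp : ∀ i ∈ S, ∀ j ∈ S, i ≠ j → ∀ m : ℤ, (1 : ℝ) / M ≤ |β i - β j - m|) :
    ∑ j ∈ S, ‖D H (β j)‖ ≤ 2 * H + M * (1 + Real.log M) := by
  classical
  rw [← Finset.sum_filter_add_sum_filter_not S (fun j => Int.fract (β j) ≤ 1 / 2)]
  have h1 := Om2_row (S.filter (fun j => Int.fract (β j) ≤ 1 / 2)) β M hM
    (fun i hi j hj hne m => hsp i (Finset.mem_filter.1 hi).1 j (Finset.mem_filter.1 hj).1 hne m)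
    (fun j hj => (Finset.mem_filter.1 hj).2) H
  have h2 := Om2_row (S.filter (fun j => ¬ Int.fract (β j) ≤ 1 / 2)) (fun j => -β j) M hM
    (fun i hi j hj hne m => by
      have h9 := hsp i (Finset.mem_filter.1 hi).1 j (Finset.mem_filter.1 hj).1 hne (-m)
      have h8 : β i - β j - ((-m : ℤ) : ℝ) = -(-β i - -β j - m) := by
        push_cast
        ring
      rw [h8, abs_neg] at h9
      exact h9)
    (fun j hj => by
      have h3 := (Finset.mem_filter.1 hj).2
      push Not at h3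
      have h4 : Int.fract (β j) ≠ 0 := by
        intro h5
        rw [h5] at h3
        norm_num at h3
      rw [Int.fract_neg h4]
      linarith) H
  simp_rw [Pool.Agent.H92.EH.norm_D_neg] at h2
  linarith

/-- detection of the multiples of `p` -/
private theorem Om2_det (p m : ℕ) (hp : 1 ≤ p) :
    ((((if p ∣ m then (1 : ℝ) else 0) - 1 / p : ℝ)) : ℂ) = (1 / p : ℂ) * ∑ k ∈ Ico 1 p, ee (m * ((k : ℝ) / p)) := by
  have hp0 : (p : ℂ) ≠ 0 := by
    have : p ≠ 0 := by omega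
    exact_mod_cast this
  have hpr : (0 : ℝ) < p := by exact_mod_cast hp
  have h1 : ∑ k ∈ range p, ee (m * ((k : ℝ) / p)) = if p ∣ m then (p : ℂ) else 0 := by
    by_cases h : p ∣ m
    · rw [if_pos h]
      obtain ⟨q, rfl⟩ := h
      have h2 : ∀ k ∈ range p, ee (((p * q : ℕ) : ℝ) * ((k : ℝ) / p)) = 1 := by
        intro k _
        have h3 : ((p * q : ℕ) : ℝ) * ((k : ℝ) / p) = (((q * k : ℕ) : ℤ) : ℝ) := by
          push_cast
          field_simp
        rw [h3, Pool.Agent.H76.EHB.ee_int]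
      rw [Finset.sum_congr rfl h2]
      simp
    · rw [if_neg h]
      have h2 : ∑ k ∈ range p, ee (m * ((k : ℝ) / p)) = D p ((m : ℝ) / p) := by
        unfold Pool.Agent.H92.EH.D
        refine Finset.sum_congr rfl fun k _ => ?_
        rw [Om2_e]
        congr 1
        ring
      rw [h2]
      have h3 : D p ((m : ℝ) / p) * (Pool.Agent.H92.EH.e ((m : ℝ) / p) - 1) =
          Pool.Agent.H92.EH.e ((m : ℝ) / p) ^ p - 1 := by
        unfold Pool.Agent.H92.EH.D
        rw [← geom_sum_mul]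
        congr 1
        refine sum_congr rfl fun m _ => ?_
        rw [Pool.Agent.H92.EH.e_nat_mul]
      have h4 : Pool.Agent.H92.EH.e ((m : ℝ) / p) ^ p = 1 := by
        rw [← Pool.Agent.H92.EH.e_nat_mul]
        have : (p : ℝ) * ((m : ℝ) / p) = m := by field_simp
        rw [this, Pool.Agent.H92.EH.e_nat]
      rw [h4, sub_self] at h3
      rcases mul_eq_zero.1 h3 with h5 | h5
      · exact h5
      · exfalso
        have h6 : ∀ j : ℤ, 1 / (p : ℝ) ≤ |(m : ℝ) / p - j| := by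
          intro j
          have h7 : (m : ℝ) / p - j = (((m : ℤ) - p * j : ℤ) : ℝ) / p := by
            push_cast
            field_simp
          rw [h7, abs_div, abs_of_pos hpr]
          apply div_le_div_of_nonneg_right _ hpr.le
          have h8 : (m : ℤ) - p * j ≠ 0 := by
            intro h9
            apply h
            have h10 : (p : ℤ) ∣ m := ⟨j, by linarith⟩
            exact_mod_cast h10
          have h9 := Int.one_le_abs h8
          exact_mod_cast h9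
        have h7 := Pool.Agent.H92.EH.le_norm_e_sub_one h6
        rw [h5, norm_zero] at h7
        have : (0 : ℝ) < 1 / p := by positivity
        linarith
  have h2 : ∑ k ∈ range p, ee (m * ((k : ℝ) / p)) = 1 + ∑ k ∈ Ico 1 p, ee (m * ((k : ℝ) / p)) := by
    rw [Finset.range_eq_Ico, Finset.sum_eq_sum_Ico_succ_bot (by omega : 0 < p)]
    congr 1
    simp [Pool.Agent.H91.PK.ee]
  rw [h1] at h2
  have h3 : ∑ k ∈ Ico 1 p, ee (m * ((k : ℝ) / p)) = (if p ∣ m then (p : ℂ) else 0) - 1 := by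
    rw [h2]
    ring
  rw [h3]
  by_cases h : p ∣ m
  · rw [if_pos h, if_pos h]
    push_cast
    field_simp
  · rw [if_neg h, if_neg h]
    push_cast
    ring

private theorem Om2_shift (a H : ℕ) (γ : ℝ) : ‖∑ m ∈ Ico a (a + H), ee (m * γ)‖ = ‖D H γ‖ := by
  have h : ∑ m ∈ Ico a (a + H), ee (m * γ) = ee (a * γ) * D H γ := by
    rw [Finset.sum_Ico_eq_sum_range]
    have h1 : a + H - a = H := by omega
    rw [h1]
    unfold Pool.Agent.H92.EH.D
    rw [Finset.mul_sum]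
    refine Finset.sum_congr rfl fun i _ => ?_
    rw [Om2_e, ← Pool.Agent.H91.PK.LSa_ee_add]
    congr 1
    push_cast
    ring
  rw [h, norm_mul, Pool.Agent.H91.PK.LSa_norm_ee, one_mul]


private theorem Om2_pb {P p : ℕ} (hp : p ∈ pb P) : p.Prime ∧ P < p ∧ p ≤ 2 * P := by
  unfold pb at hp
  rw [Finset.mem_filter, Finset.mem_Ioc] at hp
  exact ⟨hp.2, hp.1⟩

/-- the bound of the sums over `p` -/
private noncomputable def Om2_W (P H : ℕ) : ℝ := 2 / P * (2 * H + 4 * P ^ 2 * (1 + Real.log (4 * P ^ 2)))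

private theorem Om2_T (P H a : ℕ) (hP : 1 ≤ P) (β : ℝ) (κ : ℕ → ℝ) (hκ : ∀ p ∈ pb P, |κ p| ≤ 2) :
    ∑ p ∈ pb P, ‖∑ m ∈ Ico a (a + H), (((κ p * ((if p ∣ m then (1 : ℝ) else 0) - 1 / p) : ℝ)) : ℂ) * ee (m * β)‖
      ≤ Om2_W P H := by
  have hP0 : (0 : ℝ) < P := by exact_mod_cast hP
  have h1 : ∀ p ∈ pb P,
      ‖∑ m ∈ Ico a (a + H), (((κ p * ((if p ∣ m then (1 : ℝ) else 0) - 1 / p) : ℝ)) : ℂ) * ee (m * β)‖ ≤
      2 / P * ∑ k ∈ Ico 1 p, ‖D H (β + (k : ℝ) / p)‖ := by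
    intro p hp
    obtain ⟨hp1, hp2, hp3⟩ := Om2_pb hp
    have hp0 : (0 : ℝ) < p := by
      have : 0 < p := hp1.pos
      exact_mod_cast this
    have e1 : ∑ m ∈ Ico a (a + H), (((κ p * ((if p ∣ m then (1 : ℝ) else 0) - 1 / p) : ℝ)) : ℂ) * ee (m * β) =
        ((κ p : ℝ) : ℂ) * ((1 / p : ℂ) * ∑ k ∈ Ico 1 p, ∑ m ∈ Ico a (a + H), ee (m * (β + (k : ℝ) / p))) := by
      rw [Finset.sum_comm, Finset.mul_sum, Finset.mul_sum]
      refine Finset.sum_congr rfl fun m _ => ?_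
      rw [Complex.ofReal_mul, Om2_det p m hp1.one_le, mul_assoc, mul_assoc, Finset.sum_mul]
      congr 2
      refine Finset.sum_congr rfl fun k _ => ?_
      rw [← Pool.Agent.H91.PK.LSa_ee_add]
      congr 1
      ring
    rw [e1, norm_mul, norm_mul]
    have e2 : ‖(1 / p : ℂ)‖ = 1 / p := by
      rw [norm_div, norm_one, Complex.norm_natCast]
    rw [e2, Complex.norm_real, Real.norm_eq_abs]
    have e3 : ‖∑ k ∈ Ico 1 p, ∑ m ∈ Ico a (a + H), ee (m * (β + (k : ℝ) / p))‖ ≤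
        ∑ k ∈ Ico 1 p, ‖D H (β + (k : ℝ) / p)‖ := by
      refine (norm_sum_le _ _).trans (Finset.sum_le_sum fun k _ => ?_)
      rw [Om2_shift]
    have e4 : 1 / (p : ℝ) ≤ 1 / P := one_div_le_one_div_of_le hP0 (by exact_mod_cast hp2.le)
    calc |κ p| * (1 / (p : ℝ) * ‖∑ k ∈ Ico 1 p, ∑ m ∈ Ico a (a + H), ee (m * (β + (k : ℝ) / p))‖)
        ≤ 2 * (1 / (P : ℝ) * ∑ k ∈ Ico 1 p, ‖D H (β + (k : ℝ) / p)‖) := by
          refine mul_le_mul (hκ p hp) ?_ (by positivity) (by norm_num)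
          exact mul_le_mul e4 e3 (norm_nonneg _) (by positivity)
      _ = 2 / P * ∑ k ∈ Ico 1 p, ‖D H (β + (k : ℝ) / p)‖ := by ring
  refine (Finset.sum_le_sum h1).trans ?_
  rw [← Finset.mul_sum, ← Finset.sum_sigma (pb P) (fun p => Ico 1 p) (fun j => ‖D H (β + (j.2 : ℝ) / j.1)‖)]
  have h2 := Om2_pts ((pb P).sigma (fun p => Ico 1 p)) (fun j => β + (j.2 : ℝ) / j.1) (4 * P ^ 2) H
    (by positivity) ?_
  · unfold Om2_W
    refine mul_le_mul_of_nonneg_left (h2.trans (le_of_eq ?_)) (by positivity)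
    push_cast
    ring
  · rintro ⟨p, k⟩ hi ⟨p', k'⟩ hj hne m
    rw [Finset.mem_sigma, Finset.mem_Ico] at hi hj
    obtain ⟨hp, hk⟩ := hi
    obtain ⟨hp', hk'⟩ := hj
    simp only at hp hk hp' hk' ⊢
    obtain ⟨q1, q2, q3⟩ := Om2_pb hp
    obtain ⟨q1', q2', q3'⟩ := Om2_pb hp'
    have hc : k ∈ red p := by
      rw [Pool.Agent.H92.EH.mem_red]
      refine ⟨hk.2, Nat.Coprime.symm ((Nat.Prime.coprime_iff_not_dvd q1).2 fun hd => ?_)⟩
      exact absurd (Nat.le_of_dvd (by omega) hd) (by omega)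
    have hc' : k' ∈ red p' := by
      rw [Pool.Agent.H92.EH.mem_red]
      refine ⟨hk'.2, Nat.Coprime.symm ((Nat.Prime.coprime_iff_not_dvd q1').2 fun hd => ?_)⟩
      exact absurd (Nat.le_of_dvd (by omega) hd) (by omega)
    have hne' : ¬ (p = p' ∧ k = k') := by
      rintro ⟨rfl, rfl⟩
      exact hne rfl
    have h3 := Pool.Agent.H92.EH.farey_spacing q1.pos q1'.pos hc hc' hne' m
    have h4 : β + (k : ℝ) / p - (β + (k' : ℝ) / p') - m = (k : ℝ) / p - (k' : ℝ) / p' - m := by ring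
    rw [h4]
    refine le_trans ?_ h3
    have q4 : (0 : ℝ) < p := by exact_mod_cast q1.pos
    have q5 : (0 : ℝ) < p' := by exact_mod_cast q1'.pos
    have q6 : (p : ℝ) ≤ 2 * P := by exact_mod_cast q3
    have q7 : (p' : ℝ) ≤ 2 * P := by exact_mod_cast q3'
    apply one_div_le_one_div_of_le (by positivity)
    push_cast
    calc (p : ℝ) * p' ≤ (2 * P) * (2 * P) := mul_le_mul q6 q7 q5.le (by positivity)
      _ = 4 * (P : ℝ) ^ 2 := by ring

private theorem Om2_main (P R H i : ℕ) (α : ℝ) (κ : ℕ → ℝ) (hκ : ∀ p ∈ pb P, |κ p| ≤ 2) (hP : 1 ≤ P)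
    (hH0 : 1 ≤ H) (hi : 1 ≤ i) :
    ‖Bs (fun m => lamR R m * ∑ p ∈ pb P, κ p * ((if p ∣ m then (1 : ℝ) else 0) - 1 / p)) H i α‖ ≤
      R * Om2_W P H := by
  have h2 : Bs (fun m => lamR R m * ∑ p ∈ pb P, κ p * ((if p ∣ m then (1 : ℝ) else 0) - 1 / p)) H i α =
      ∑ c ∈ Icc 1 R, ((((ArithmeticFunction.moebius c : ℤ) : ℝ) / (c.totient : ℝ) : ℝ) : ℂ) * ∑ b ∈ red c,
        ∑ p ∈ pb P, ∑ m ∈ Ico (i * H) (i * H + H),
          (((κ p * ((if p ∣ m then (1 : ℝ) else 0) - 1 / p) : ℝ)) : ℂ) * ee (m * ((b : ℝ) / c - α)) := by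
    unfold Bs
    have e1 : (i + 1) * H = i * H + H := by ring
    rw [e1]
    have e2 : ∀ m ∈ Ico (i * H) (i * H + H),
        ((lamR R m * ∑ p ∈ pb P, κ p * ((if p ∣ m then (1 : ℝ) else 0) - 1 / p) : ℝ) : ℂ) * ee (-(m * α)) =
        ∑ c ∈ Icc 1 R, ((((ArithmeticFunction.moebius c : ℤ) : ℝ) / (c.totient : ℝ) : ℝ) : ℂ) * ∑ b ∈ red c,
          ∑ p ∈ pb P, (((κ p * ((if p ∣ m then (1 : ℝ) else 0) - 1 / p) : ℝ)) : ℂ) *
            ee (m * ((b : ℝ) / c - α)) := by
      intro m hm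
      rw [Finset.mem_Ico] at hm
      have hm1 : 1 ≤ m := le_trans (Nat.mul_le_mul hi hH0) hm.1
      rw [Complex.ofReal_mul, Pool.Agent.H76.EHB.lamR_eq R m hm1, Complex.ofReal_sum, Finset.sum_mul,
        Finset.sum_mul]
      refine Finset.sum_congr rfl fun c _ => ?_
      rw [mul_assoc, mul_assoc]
      congr 1
      rw [Finset.sum_mul]
      refine Finset.sum_congr rfl fun b _ => ?_
      rw [Finset.sum_mul, Finset.mul_sum]
      refine Finset.sum_congr rfl fun p _ => ?_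
      have e3 : ee (m * ((b : ℝ) / c - α)) = ee (m * ((b : ℝ) / c)) * ee (-(m * α)) := by
        rw [← Pool.Agent.H91.PK.LSa_ee_add]
        congr 1
        ring
      rw [e3]
      ring
    rw [Finset.sum_congr rfl e2, Finset.sum_comm]
    refine Finset.sum_congr rfl fun c _ => ?_
    rw [← Finset.mul_sum, Finset.sum_comm]
    congr 1
    refine Finset.sum_congr rfl fun b _ => ?_
    rw [Finset.sum_comm]
  rw [h2]
  have h3 : ∀ c ∈ Icc 1 R, ‖((((ArithmeticFunction.moebius c : ℤ) : ℝ) / (c.totient : ℝ) : ℝ) : ℂ) * ∑ b ∈ red c,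
        ∑ p ∈ pb P, ∑ m ∈ Ico (i * H) (i * H + H),
          (((κ p * ((if p ∣ m then (1 : ℝ) else 0) - 1 / p) : ℝ)) : ℂ) * ee (m * ((b : ℝ) / c - α))‖ ≤
            Om2_W P H := by
    intro c hc
    rw [Finset.mem_Icc] at hc
    have hφ : (0 : ℝ) < (c.totient : ℝ) := by
      have := Nat.totient_pos.2 (show 0 < c by omega)
      exact_mod_cast this
    rw [norm_mul, Complex.norm_real, Real.norm_eq_abs, abs_div, abs_of_pos hφ]
    have hμ : |((ArithmeticFunction.moebius c : ℤ) : ℝ)| ≤ 1 := by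
      have := ArithmeticFunction.abs_moebius_le_one (n := c)
      exact_mod_cast this
    have h4 : ‖∑ b ∈ red c, ∑ p ∈ pb P, ∑ m ∈ Ico (i * H) (i * H + H),
          (((κ p * ((if p ∣ m then (1 : ℝ) else 0) - 1 / p) : ℝ)) : ℂ) * ee (m * ((b : ℝ) / c - α))‖ ≤
        (c.totient : ℝ) * Om2_W P H := by
      refine (norm_sum_le _ _).trans ?_
      calc ∑ b ∈ red c, ‖∑ p ∈ pb P, ∑ m ∈ Ico (i * H) (i * H + H),
            (((κ p * ((if p ∣ m then (1 : ℝ) else 0) - 1 / p) : ℝ)) : ℂ) * ee (m * ((b : ℝ) / c - α))‖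
          ≤ ∑ _b ∈ red c, Om2_W P H := by
            refine Finset.sum_le_sum fun b _ => ?_
            exact (norm_sum_le _ _).trans (Om2_T P H (i * H) hP _ κ hκ)
        _ = (c.totient : ℝ) * Om2_W P H := by
            rw [Finset.sum_const, nsmul_eq_mul, Pool.Agent.H92.EH.card_red]
    calc |((ArithmeticFunction.moebius c : ℤ) : ℝ)| / (c.totient : ℝ) * _
        ≤ 1 / (c.totient : ℝ) * ((c.totient : ℝ) * Om2_W P H) := by
          refine mul_le_mul ?_ h4 (norm_nonneg _) (by positivity)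
          exact div_le_div_of_nonneg_right hμ hφ.le
      _ = Om2_W P H := by
          field_simp
  calc ‖_‖ ≤ ∑ _c ∈ Icc 1 R, Om2_W P H := (norm_sum_le _ _).trans (Finset.sum_le_sum h3)
    _ = R * Om2_W P H := by
        rw [Finset.sum_const, nsmul_eq_mul, Nat.card_Icc, Nat.add_sub_cancel]

private theorem Om2_lam (R n : ℕ) (hn : 1 ≤ n) : |lamR R n| ≤ R := by
  have h3 : |lamR R n| = ‖((lamR R n : ℝ) : ℂ)‖ := by
    rw [Complex.norm_real]; rfl
  rw [h3, Pool.Agent.H76.EHB.lamR_eq R n hn]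
  refine (norm_sum_le _ _).trans ?_
  calc ∑ c ∈ Icc 1 R, ‖((((ArithmeticFunction.moebius c : ℤ) : ℝ) / (c.totient : ℝ) : ℝ) : ℂ)
        * ∑ b ∈ red c, ee (n * ((b : ℝ) / c))‖
      ≤ ∑ _c ∈ Icc 1 R, (1 : ℝ) := by
        refine Finset.sum_le_sum fun c hc => ?_
        rw [Finset.mem_Icc] at hc
        have hφ : (0 : ℝ) < (c.totient : ℝ) := by
          have := Nat.totient_pos.2 (show 0 < c by omega)
          exact_mod_cast this
        rw [norm_mul, Complex.norm_real, Real.norm_eq_abs, abs_div, abs_of_pos hφ]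
        have hμ : |((ArithmeticFunction.moebius c : ℤ) : ℝ)| ≤ 1 := by
          have := ArithmeticFunction.abs_moebius_le_one (n := c)
          exact_mod_cast this
        have h4 : ‖∑ b ∈ red c, ee (n * ((b : ℝ) / c))‖ ≤ c.totient := by
          refine (norm_sum_le _ _).trans ?_
          calc ∑ b ∈ red c, ‖ee (n * ((b : ℝ) / c))‖ = ∑ _b ∈ red c, (1 : ℝ) := by
                refine Finset.sum_congr rfl fun b _ => ?_
                rw [Pool.Agent.H91.PK.LSa_norm_ee]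
            _ = (c.totient : ℝ) := by
                rw [Finset.sum_const, nsmul_eq_mul, Pool.Agent.H92.EH.card_red, mul_one]
            _ ≤ c.totient := le_rfl
        calc |((ArithmeticFunction.moebius c : ℤ) : ℝ)| / (c.totient : ℝ) * ‖∑ b ∈ red c, ee (n * ((b : ℝ) / c))‖
            ≤ 1 / (c.totient : ℝ) * (c.totient : ℝ) := by
              refine mul_le_mul ?_ h4 (norm_nonneg _) (by positivity)
              exact div_le_div_of_nonneg_right hμ hφ.le
          _ = 1 := by field_simp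
    _ = R := by
        rw [Finset.sum_const, nsmul_eq_mul, Nat.card_Icc, Nat.add_sub_cancel, mul_one]

private theorem Om2_card (P m : ℕ) (hm : 1 ≤ m) :
    ((((pb P).filter (fun p => p ∣ m)).card : ℕ) : ℝ) ≤ 2 * Real.log m := by
  have h1 : 2 ^ ((pb P).filter (fun p => p ∣ m)).card ≤ m := by
    have h2 : ∏ p ∈ (pb P).filter (fun p => p ∣ m), p ∣ m := by
      refine Finset.prod_primes_dvd m ?_ ?_
      · intro p hp
        exact (Om2_pb (Finset.mem_filter.1 hp).1).1.prime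
      · intro p hp
        exact (Finset.mem_filter.1 hp).2
    refine le_trans ?_ (Nat.le_of_dvd (by omega) h2)
    rw [← Finset.prod_const]
    refine Finset.prod_le_prod' fun p hp => ?_
    exact (Om2_pb (Finset.mem_filter.1 hp).1).1.two_le
  have h3 : (2 : ℝ) ^ ((pb P).filter (fun p => p ∣ m)).card ≤ m := by exact_mod_cast h1
  have h4 := Real.log_le_log (by positivity) h3
  rw [Real.log_pow] at h4
  have h5 : (1 : ℝ) / 2 ≤ Real.log 2 := by
    have := Real.log_two_gt_d9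
    linarith
  have h6 : (0 : ℝ) ≤ ((((pb P).filter (fun p => p ∣ m)).card : ℕ) : ℝ) := Nat.cast_nonneg _
  nlinarith

private theorem Om2_ev (C c : ℝ) (hc : 0 < c) (k : ℕ) :
    ∃ N0 : ℕ, ∀ N : ℕ, N0 ≤ N → C * Real.log N ^ k ≤ (N : ℝ) ^ c := by
  have h := isLittleO_log_rpow_rpow_atTop (k : ℝ) hc
  have h2 : ∀ᶠ x : ℝ in Filter.atTop, ‖Real.log x ^ (k : ℝ)‖ ≤ 1 / (|C| + 1) * ‖x ^ c‖ :=
    h.bound (by positivity)
  have h3 := tendsto_natCast_atTop_atTop (R := ℝ) |>.eventually h2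
  obtain ⟨N0, hN0⟩ := Filter.eventually_atTop.1 h3
  refine ⟨max N0 1, fun N hN => ?_⟩
  have hN1 : 1 ≤ N := le_trans (le_max_right _ _) hN
  have h4 := hN0 N (le_trans (le_max_left _ _) hN)
  have h5 : (0 : ℝ) ≤ Real.log N := Real.log_natCast_nonneg N
  rw [Real.rpow_natCast, Real.norm_eq_abs, Real.norm_eq_abs, abs_of_nonneg (pow_nonneg h5 k),
    abs_of_nonneg (Real.rpow_nonneg (Nat.cast_nonneg N) c)] at h4
  have h6 : (0 : ℝ) < |C| + 1 := by positivity
  rw [one_div, inv_mul_eq_div, le_div_iff₀ h6] at h4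
  have h7 : C * Real.log N ^ k ≤ Real.log N ^ k * (|C| + 1) := by
    have := le_abs_self C
    have h8 : 0 ≤ Real.log N ^ k := by positivity
    nlinarith
  linarith

/-- the natural quotients `i H / p` -/
private theorem Om2_quot (N P H i p : ℕ) (h1000 : (1000 : ℝ) ≤ N) (hp : p ∈ pb P) (hP1 : (1 : ℝ) ≤ P)
    (hHP : (24 : ℝ) * P ≤ H) (hHs : (H : ℝ) ≤ (N : ℝ) ^ (1 / 2 : ℝ)) (hiH : (N : ℝ) / 3 ≤ (i : ℝ) * H) :
    (N : ℝ) / (12 * P) ≤ ((i * H / p : ℕ) : ℝ) ∧ (N : ℝ) ^ (1 / 2 : ℝ) ≤ ((i * H / p : ℕ) : ℝ) := by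
  have hN00 : (0 : ℝ) < N := by linarith
  have hP0 : (0 : ℝ) < P := by linarith
  obtain ⟨p1, p2, p3⟩ := Om2_pb hp
  have hp0 : (0 : ℝ) < p := by exact_mod_cast p1.pos
  have p3' : (p : ℝ) ≤ 2 * P := by exact_mod_cast p3
  have h1 : (i * H : ℕ) < i * H / p * p + p := Nat.lt_div_mul_add p1.pos
  have h2 : (i : ℝ) * H < ((i * H / p : ℕ) : ℝ) * p + p := by exact_mod_cast h1
  have h4 : (0 : ℝ) ≤ ((i * H / p : ℕ) : ℝ) + 1 := by positivity
  have h3 : (i : ℝ) * H < (((i * H / p : ℕ) : ℝ) + 1) * (2 * P) := by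
    calc (i : ℝ) * H < (((i * H / p : ℕ) : ℝ) + 1) * p := by linarith
      _ ≤ _ := mul_le_mul_of_nonneg_left p3' h4
  have h5 : (N : ℝ) < (((i * H / p : ℕ) : ℝ) + 1) * (6 * P) := by linarith
  set x := ((i * H / p : ℕ) : ℝ) with hx
  set s := (N : ℝ) ^ (1 / 2 : ℝ) with hs
  have h7 : s * s = N := by
    rw [hs, ← Real.rpow_add hN00]
    norm_num
  have h8 : (24 : ℝ) * P ≤ s := le_trans hHP hHs
  have h9 : (0 : ℝ) < s := by positivity
  have h6 : s * (24 * P) ≤ N := by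
    rw [← h7]
    exact mul_le_mul_of_nonneg_left h8 h9.le
  have hs1 : (24 : ℝ) ≤ s := by linarith
  have h11 : (1 : ℝ) ≤ N / (12 * P) := by
    rw [le_div_iff₀ (by positivity)]
    have h12 : 24 * (24 * (P : ℝ)) ≤ s * (24 * P) := mul_le_mul_of_nonneg_right hs1 (by positivity)
    linarith
  have h13 : (N : ℝ) / (6 * P) ≤ x + 1 := by
    rw [div_le_iff₀ (by positivity)]
    exact h5.le
  have h10 : (N : ℝ) / (6 * P) = N / (12 * P) + N / (12 * P) := by
    field_simp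
    norm_num
  have h9' : (N : ℝ) / (12 * P) ≤ x := by linarith
  refine ⟨h9', le_trans ?_ h9'⟩
  rw [le_div_iff₀ (by positivity)]
  have : s * (12 * (P : ℝ)) ≤ s * (24 * P) := mul_le_mul_of_nonneg_left (by linarith) h9.le
  linarith

/-- the densities inside a block -/
private theorem Om2_lip (N P H i p m y J : ℕ) (e ζ : ℝ) (hN00 : (0 : ℝ) < N) (hp : p ∈ pb P) (hP1 : (1 : ℝ) ≤ P)
    (hy : 1 ≤ y) (hx12 : (N : ℝ) / (12 * P) ≤ ((i * H / p : ℕ) : ℝ)) (hx3 : 3 ≤ i * H / p)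
    (hzx : zz y J ≤ i * H / p) (hz : (zz y J : ℝ) ≤ (N : ℝ) ^ ζ) (hζ2 : ζ < 1 / 2)
    (hPH : (P : ℝ) * (N : ℝ) ^ e ≤ H) (hN1 : 1 ≤ (N : ℝ) ^ e)
    (hHs : (H : ℝ) ≤ (N : ℝ) ^ (1 / 2 : ℝ)) (hm : m ∈ Ico (i * H) (i * H + H)) (hpm : p ∣ m) (hN1' : (1 : ℝ) ≤ N) :
    |kap y J (m / p) - kap y J (i * H / p)| ≤ 360 / (N : ℝ) ^ e := by
  obtain ⟨p1, p2, p3⟩ := Om2_pb hp
  have hP0 : (0 : ℝ) < P := by linarith
  have hp0 : (0 : ℝ) < p := by exact_mod_cast p1.pos
  have p2' : (P : ℝ) ≤ p := by exact_mod_cast p2.le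
  rw [Finset.mem_Ico] at hm
  have hxx : i * H / p ≤ m / p := Nat.div_le_div_right hm.1
  have h1 := kap_lip y J (i * H / p) (m / p) hy hx3 hzx hxx
  refine h1.trans ?_
  -- the difference
  have h2 : ((m / p : ℕ) : ℝ) - ((i * H / p : ℕ) : ℝ) ≤ H / P + 1 := by
    have a1 : ((m / p : ℕ) : ℝ) * p = m := by
      have := Nat.div_mul_cancel hpm
      exact_mod_cast this
    have a2 : (i * H : ℕ) < i * H / p * p + p := Nat.lt_div_mul_add p1.pos
    have a3 : (i : ℝ) * H < ((i * H / p : ℕ) : ℝ) * p + p := by exact_mod_cast a2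
    have a4 : (m : ℝ) < (i : ℝ) * H + H := by exact_mod_cast hm.2
    have a5 : (((m / p : ℕ) : ℝ) - ((i * H / p : ℕ) : ℝ) - 1) * p ≤ H := by linarith
    have a6 : ((m / p : ℕ) : ℝ) - ((i * H / p : ℕ) : ℝ) - 1 ≤ H / p := by
      rw [le_div_iff₀ hp0]
      exact a5
    have a7 : (H : ℝ) / p ≤ H / P := div_le_div_of_nonneg_left (Nat.cast_nonneg _) hP0 p2'
    linarith
  set X := ((i * H / p : ℕ) : ℝ) with hX
  have hX0 : 0 < X := lt_of_lt_of_le (by positivity) hx12
  set s := (N : ℝ) ^ (1 / 2 : ℝ) with hs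
  have h7 : s * s = N := by
    rw [hs, ← Real.rpow_add hN00]
    norm_num
  have hs0 : 0 < s := by positivity
  have hz2 : (zz y J : ℝ) ≤ s := hz.trans (Real.rpow_le_rpow_of_exponent_le hN1' hζ2.le)
  set E := (N : ℝ) ^ e with hE
  have hE0 : 0 < E := by linarith
  have hXP : (N : ℝ) ≤ X * (12 * P) := by
    rwa [div_le_iff₀ (by positivity)] at hx12
  rw [div_le_div_iff₀ hX0 hE0]
  have b1 : (((m / p : ℕ) : ℝ) - X + zz y J) * P ≤ H + P + s * P := by
    have c1 : (((m / p : ℕ) : ℝ) - X + zz y J) ≤ H / P + 1 + s := by linarith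
    calc (((m / p : ℕ) : ℝ) - X + zz y J) * P ≤ (H / P + 1 + s) * P := mul_le_mul_of_nonneg_right c1 hP0.le
      _ = H + P + s * P := by field_simp
  have hPE : (P : ℝ) ≤ s / E := by
    rw [le_div_iff₀ hE0]
    linarith
  have hEs : E ≤ s := by
    have : 1 * E ≤ P * E := mul_le_mul_of_nonneg_right hP1 hE0.le
    linarith
  have b2 : (H + P + s * P) * E ≤ 3 * N := by
    have c1 : (H : ℝ) * E ≤ s * s := mul_le_mul hHs hEs hE0.le hs0.le
    have c2 : (P : ℝ) * E ≤ s := by linarith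
    have c3 : s * P * E ≤ s * s := by
      rw [mul_assoc]
      exact mul_le_mul_of_nonneg_left c2 hs0.le
    have c4 : s ≤ s * s := by
      have : (1 : ℝ) ≤ s := le_trans hN1 hEs
      nlinarith
    rw [← h7]
    linarith
  have b3 : (((m / p : ℕ) : ℝ) - X + zz y J) * P * E ≤ 3 * (X * (12 * P)) := by
    have := mul_le_mul_of_nonneg_right b1 hE0.le
    linarith
  have b4 : ((((m / p : ℕ) : ℝ) - X + zz y J) * E) * P ≤ (36 * X) * P := by linarith
  have b5 : (((m / p : ℕ) : ℝ) - X + zz y J) * E ≤ 36 * X := le_of_mul_le_mul_right b4 hP0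
  linarith

theorem omw2 (e1 ζ e : ℝ) (he1 : 0 < e1) (hζ : e1 < ζ) (hζ2 : ζ < 1 / 2) (he : 0 < e) (A B : ℕ) :
    ∃ N0 : ℕ, ∀ N : ℕ, N0 ≤ N → ∀ (J R P H i : ℕ) (α : ℝ), (zz (yN e1 N) J : ℝ) ≤ (N : ℝ) ^ ζ →
      1 ≤ R → (R : ℝ) ≤ Real.log N ^ B → (N : ℝ) ^ e1 ≤ 2 * P → (P : ℝ) * (N : ℝ) ^ e ≤ H → H ^ 2 ≤ N →
      i ∈ Icc (N / (2 * H)) (4 * N / H) →
      ‖Bs (fun m => ∑ p ∈ (pb P).filter (fun p => p ∣ m), kap (yN e1 N) J (m / p) * lamR R (m / p)
        - WK (yN e1 N) J P (i * H) * lamR R m) H i α‖ ≤ H / Real.log N ^ A := by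
  classical
  obtain ⟨N1, hN1⟩ := Om2_ev 2 e1 he1 0
  obtain ⟨N2, hN2⟩ := Om2_ev 24 e he 0
  obtain ⟨N3, hN3⟩ := Om2_ev 8640 e he (A + B + 1)
  obtain ⟨N4, hN4⟩ := Om2_ev 64 e1 he1 (A + B)
  obtain ⟨N5, hN5⟩ := Om2_ev 128 e he (A + B + 1)
  refine ⟨max 1000 (max N1 (max N2 (max N3 (max N4 N5)))), fun N hN J R P H i α hz hR hRB hP hH hHN hi => ?_⟩
  have hN0 : 1000 ≤ N := le_trans (le_max_left _ _) hN
  have hNr : (1000 : ℝ) ≤ N := by exact_mod_cast hN0
  have hN' := le_trans (le_max_right _ _) hN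
  have c1 := hN1 N (le_trans (le_max_left _ _) hN')
  have hN' := le_trans (le_max_right _ _) hN'
  have c2 := hN2 N (le_trans (le_max_left _ _) hN')
  have hN' := le_trans (le_max_right _ _) hN'
  have c3 := hN3 N (le_trans (le_max_left _ _) hN')
  have hN' := le_trans (le_max_right _ _) hN'
  have c4 := hN4 N (le_trans (le_max_left _ _) hN')
  have c5 := hN5 N (le_trans (le_max_right _ _) hN')
  rw [pow_zero, mul_one] at c1 c2
  clear hN' hN1 hN2 hN3 hN4 hN5
  set L := Real.log N with hL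
  have hL1 : 1 ≤ L := by
    have h1 : Real.exp 1 ≤ N := by
      have := Real.exp_one_lt_d9
      linarith
    calc (1 : ℝ) = Real.log (Real.exp 1) := (Real.log_exp 1).symm
      _ ≤ L := Real.log_le_log (Real.exp_pos 1) h1
  have hL0 : 0 < L := by linarith
  have hN00 : (0 : ℝ) < N := by linarith
  -- `P ≥ 1`
  have hP1 : (1 : ℝ) ≤ P := by linarith
  have hPn : 1 ≤ P := by exact_mod_cast hP1
  have hP0 : (0 : ℝ) < P := by linarith
  have hy : 1 ≤ yN e1 N := by
    unfold yN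
    exact Nat.le_floor (by push_cast; linarith)
  -- `H`
  have hsq : (H : ℝ) ^ 2 ≤ N := by exact_mod_cast hHN
  have hHs : (H : ℝ) ≤ (N : ℝ) ^ (1 / 2 : ℝ) := by
    rw [← Real.sqrt_eq_rpow]
    exact Real.le_sqrt_of_sq_le hsq
  have hNe : (0 : ℝ) < (N : ℝ) ^ e := by positivity
  have hHP : (24 : ℝ) * P ≤ H := by
    refine le_trans ?_ hH
    nlinarith
  have hH1r : (1 : ℝ) ≤ H := by linarith
  have hH1 : 1 ≤ H := by exact_mod_cast hH1r
  have hH0 : (0 : ℝ) < H := by linarith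
  have hH32 : (32 : ℝ) * H ≤ N ∨ (H : ℝ) < 32 := by
    rcases lt_or_ge (H : ℝ) 32 with h | h
    · exact Or.inr h
    · left
      nlinarith
  have hH30 : (30 : ℝ) * H ≤ N := by
    rcases hH32 with h | h
    · linarith
    · linarith
  have hH6 : 30 * H ≤ N := by exact_mod_cast hH30
  rw [Finset.mem_Icc] at hi
  -- `i H ≥ N/3`
  have hiH : (N : ℝ) / 3 ≤ (i : ℝ) * H := by
    have h1 : N < (N / (2 * H) + 1) * (2 * H) := by
      have := Nat.lt_div_mul_add (a := N) (show 0 < 2 * H by omega)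
      rw [add_mul, one_mul]
      exact this
    have h2 : N < (i + 1) * (2 * H) := lt_of_lt_of_le h1 (Nat.mul_le_mul_right _ (by omega))
    have h3 : (N : ℝ) < ((i : ℝ) + 1) * (2 * H) := by exact_mod_cast h2
    linarith
  have hi1 : 1 ≤ i := by
    rcases Nat.eq_zero_or_pos i with h | h
    · exfalso
      rw [h, Nat.cast_zero, zero_mul] at hiH
      linarith
    · exact h
  have hiH4 : i * H ≤ 4 * N := le_trans (Nat.mul_le_mul_right _ hi.2) (Nat.div_mul_le_self _ _)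
  -- the density at `iH/p`
  have hx : ∀ p ∈ pb P, (N : ℝ) / (12 * P) ≤ ((i * H / p : ℕ) : ℝ) ∧ (N : ℝ) ^ (1 / 2 : ℝ) ≤ ((i * H / p : ℕ) : ℝ) :=
    fun p hp => Om2_quot N P H i p hNr hp hP1 hHP hHs hiH
  have hs30 : (30 : ℝ) ≤ (N : ℝ) ^ (1 / 2 : ℝ) := by
    rw [← Real.sqrt_eq_rpow]
    exact Real.le_sqrt_of_sq_le (by linarith)
  have hx3 : ∀ p ∈ pb P, 3 ≤ i * H / p := by
    intro p hp
    have h1 := (hx p hp).2
    have h2 : (3 : ℝ) ≤ ((i * H / p : ℕ) : ℝ) := by linarith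
    exact_mod_cast h2
  have hzx : ∀ p ∈ pb P, zz (yN e1 N) J ≤ i * H / p := by
    intro p hp
    have h1 := (hx p hp).2
    have h2 : (N : ℝ) ^ ζ ≤ (N : ℝ) ^ (1 / 2 : ℝ) := Real.rpow_le_rpow_of_exponent_le (by linarith) hζ2.le
    have h3 : (zz (yN e1 N) J : ℝ) ≤ ((i * H / p : ℕ) : ℝ) := by linarith
    exact_mod_cast h3
  have hκ : ∀ p ∈ pb P, |kap (yN e1 N) J (i * H / p)| ≤ 2 := by
    intro p hp
    rw [abs_of_nonneg (kap_nonneg _ _ _ (by have := hx3 p hp; omega))]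
    exact kap_le _ _ _ (hx3 p hp)
  -- the two parts
  have hRP : R < P := by
    have h1 : (R : ℝ) < P := by
      have h2 : (64 : ℝ) * L ^ B ≤ 64 * L ^ (A + B) := by
        have := pow_le_pow_right₀ hL1 (show B ≤ A + B by omega)
        linarith
      have h3 : (0 : ℝ) < L ^ B := by positivity
      linarith
    exact_mod_cast h1
  have hN1' : (1 : ℝ) ≤ N := by linarith
  have hE1 : (1 : ℝ) ≤ (N : ℝ) ^ e := Real.one_le_rpow hN1' he.le
  set E := (N : ℝ) ^ e with hE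
  set κ : ℕ → ℝ := fun p => kap (yN e1 N) J (i * H / p) with hκdef
  set F1 : ℕ → ℝ := fun m => ∑ p ∈ (pb P).filter (fun p => p ∣ m),
    (kap (yN e1 N) J (m / p) - κ p) * lamR R (m / p) with hF1
  set F2 : ℕ → ℝ := fun m => lamR R m * ∑ p ∈ pb P, κ p * ((if p ∣ m then (1 : ℝ) else 0) - 1 / p) with hF2
  have hsplit : ∀ m : ℕ, ∑ p ∈ (pb P).filter (fun p => p ∣ m), kap (yN e1 N) J (m / p) * lamR R (m / p)
        - WK (yN e1 N) J P (i * H) * lamR R m = F1 m + F2 m := by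
    intro m
    have s1 : F2 m = ∑ p ∈ (pb P).filter (fun p => p ∣ m), κ p * lamR R (m / p) -
        WK (yN e1 N) J P (i * H) * lamR R m := by
      rw [hF2]
      simp only
      unfold WK
      rw [Finset.sum_filter, Finset.sum_mul, ← Finset.sum_sub_distrib, Finset.mul_sum]
      refine Finset.sum_congr rfl fun p hp => ?_
      obtain ⟨p1, p2, p3⟩ := Om2_pb hp
      by_cases hd : p ∣ m
      · rw [if_pos hd, if_pos hd]
        obtain ⟨q, rfl⟩ := hd
        rw [Nat.mul_div_cancel_left _ p1.pos, Pool.Agent.H76.SP.lamR_mul R p q p1 (by omega)]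
        ring
      · rw [if_neg hd, if_neg hd]
        ring
    rw [s1, hF1]
    simp only
    rw [add_sub, ← Finset.sum_add_distrib]
    congr 1
    refine Finset.sum_congr rfl fun p _ => ?_
    ring
  have hBs : Bs (fun m => ∑ p ∈ (pb P).filter (fun p => p ∣ m), kap (yN e1 N) J (m / p) * lamR R (m / p)
        - WK (yN e1 N) J P (i * H) * lamR R m) H i α = Bs F1 H i α + Bs F2 H i α := by
    unfold Bs
    rw [← Finset.sum_add_distrib]
    refine Finset.sum_congr rfl fun m _ => ?_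
    have := hsplit m
    beta_reduce
    rw [this, Complex.ofReal_add]
    ring
  rw [hBs]
  have hRB0 : (0 : ℝ) ≤ R := Nat.cast_nonneg _
  have hLA : (0 : ℝ) < L ^ A := by positivity
  have hLAB : L ^ A * L ^ B = L ^ (A + B) := (pow_add L A B).symm
  -- the error
  have hb1 : ‖Bs F1 H i α‖ ≤ H / (2 * L ^ A) := by
    have t1 : ∀ m ∈ Ico (i * H) ((i + 1) * H), ‖((F1 m : ℝ) : ℂ) * ee (-(m * α))‖ ≤ 1 / (2 * L ^ A) := by
      intro m hm
      have hm' : m ∈ Ico (i * H) (i * H + H) := by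
        have : (i + 1) * H = i * H + H := by ring
        rwa [this] at hm
      have hm2 := Finset.mem_Ico.1 hm'
      have hm1 : 1 ≤ m := le_trans (Nat.mul_le_mul hi1 hH1) hm2.1
      rw [norm_mul, Pool.Agent.H91.PK.LSa_norm_ee, mul_one, Complex.norm_real, Real.norm_eq_abs]
      have hm5 : (m : ℝ) ≤ (N : ℝ) ^ 2 := by
        have u1 : m ≤ 5 * N := by omega
        have u2 : (m : ℝ) ≤ 5 * N := by exact_mod_cast u1
        nlinarith
      have hlog : Real.log m ≤ 2 * L := by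
        have u1 := Real.log_le_log (by exact_mod_cast hm1) hm5
        rw [Real.log_pow] at u1
        push_cast at u1
        exact u1
      have hcard := Om2_card P m hm1
      calc |F1 m| ≤ ∑ p ∈ (pb P).filter (fun p => p ∣ m), |(kap (yN e1 N) J (m / p) - κ p) * lamR R (m / p)| :=
            Finset.abs_sum_le_sum_abs _ _
        _ ≤ ∑ _p ∈ (pb P).filter (fun p => p ∣ m), 360 / E * L ^ B := by
            refine Finset.sum_le_sum fun p hp => ?_
            rw [Finset.mem_filter] at hp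
            rw [abs_mul]
            refine mul_le_mul ?_ ?_ (abs_nonneg _) (by positivity)
            · exact Om2_lip N P H i p m (yN e1 N) J e ζ hN00 hp.1 hP1 hy (hx p hp.1).1 (hx3 p hp.1) (hzx p hp.1)
                hz hζ2 hH hE1 hHs hm' hp.2 hN1'
            · refine (Om2_lam R _ ?_).trans hRB
              exact Nat.div_pos (Nat.le_of_dvd (by omega) hp.2) (Om2_pb hp.1).1.pos
        _ = ((((pb P).filter (fun p => p ∣ m)).card : ℕ) : ℝ) * (360 / E * L ^ B) := by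
            rw [Finset.sum_const, nsmul_eq_mul]
        _ ≤ (4 * L) * (360 / E * L ^ B) := by
            refine mul_le_mul_of_nonneg_right ?_ (by positivity)
            linarith
        _ ≤ 1 / (2 * L ^ A) := by
            rw [le_div_iff₀ (by positivity)]
            have u1 : (4 * L) * (360 / E * L ^ B) * (2 * L ^ A) = 2880 * L ^ (A + B + 1) / E := by
              rw [pow_succ, ← hLAB]
              field_simp
              ring
            rw [u1, div_le_one (by positivity)]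
            have u2 : (0 : ℝ) < L ^ (A + B + 1) := by positivity
            linarith
    unfold Bs
    refine (norm_sum_le _ _).trans ((Finset.sum_le_sum t1).trans (le_of_eq ?_))
    rw [Finset.sum_const, nsmul_eq_mul, Nat.card_Ico]
    have : (i + 1) * H - i * H = H := by
      have : (i + 1) * H = i * H + H := by ring
      omega
    rw [this]
    ring
  -- the main part
  have hb2 : ‖Bs F2 H i α‖ ≤ H / (2 * L ^ A) := by
    refine (Om2_main P R H i α κ hκ hPn hH1 hi1).trans ?_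
    have hlog4 : Real.log (4 * (P : ℝ) ^ 2) ≤ L := by
      refine Real.log_le_log (by positivity) ?_
      nlinarith
    have hW : Om2_W P H ≤ 4 * H / P + 16 * L * P := by
      unfold Om2_W
      have u1 : 4 * (P : ℝ) ^ 2 * (1 + Real.log (4 * P ^ 2)) ≤ 4 * (P : ℝ) ^ 2 * (2 * L) :=
        mul_le_mul_of_nonneg_left (by linarith) (by positivity)
      calc 2 / (P : ℝ) * (2 * H + 4 * P ^ 2 * (1 + Real.log (4 * P ^ 2)))
          ≤ 2 / (P : ℝ) * (2 * H + 4 * (P : ℝ) ^ 2 * (2 * L)) :=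
            mul_le_mul_of_nonneg_left (by linarith) (by positivity)
        _ = 4 * H / P + 16 * L * P := by
            field_simp
            ring
    have hLB0 : (0 : ℝ) ≤ L ^ B := by positivity
    have hW0 : 0 ≤ 4 * (H : ℝ) / P + 16 * L * P := by positivity
    have v1 : (R : ℝ) * Om2_W P H ≤ L ^ B * (4 * H / P + 16 * L * P) :=
      (mul_le_mul_of_nonneg_left hW hRB0).trans (mul_le_mul_of_nonneg_right hRB hW0)
    refine v1.trans ?_
    have w1 : L ^ B * (4 * H / P) ≤ H / (4 * L ^ A) := by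
      rw [← mul_div_assoc, div_le_div_iff₀ hP0 (by positivity)]
      have u1 : 16 * L ^ (A + B) ≤ P := by
        have : (0 : ℝ) < L ^ (A + B) := by positivity
        linarith
      calc L ^ B * (4 * H) * (4 * L ^ A) = H * (16 * (L ^ A * L ^ B)) := by ring
        _ = H * (16 * L ^ (A + B)) := by rw [hLAB]
        _ ≤ H * P := mul_le_mul_of_nonneg_left u1 hH0.le
    have w2 : L ^ B * (16 * L * P) ≤ H / (4 * L ^ A) := by
      rw [le_div_iff₀ (by positivity)]
      calc L ^ B * (16 * L * P) * (4 * L ^ A) = P * (64 * (L ^ A * L ^ B * L)) := by ring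
        _ = P * (64 * L ^ (A + B + 1)) := by rw [hLAB, ← pow_succ]
        _ ≤ P * E := by
            refine mul_le_mul_of_nonneg_left ?_ hP0.le
            have : (0 : ℝ) < L ^ (A + B + 1) := by positivity
            linarith
        _ ≤ H := hH
    have w3 : (H : ℝ) / (4 * L ^ A) + H / (4 * L ^ A) = H / (2 * L ^ A) := by
      field_simp
      norm_num
    rw [mul_add, ← w3]
    exact add_le_add w1 w2
  calc ‖Bs F1 H i α + Bs F2 H i α‖ ≤ ‖Bs F1 H i α‖ + ‖Bs F2 H i α‖ := norm_add_le _ _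
    _ ≤ H / (2 * L ^ A) + H / (2 * L ^ A) := add_le_add hb1 hb2
    _ = H / L ^ A := by
        field_simp
        norm_num

end Pool.Agent.H76.TP
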