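import Pool.Agent.H76.TP.SwB
import Pool.Agent.H76.TP.Om2
import Pool.Agent.H53.TPS.Lfu2
import Pool.Agent.H76.GB.Defs

/-!
# TP LfuA: local Fourier uniformity of `Ap - kapA lamR`

`H = Hn θ N = ⌊N^θ⌋`, `θ ≤ 1/2`, `y = yN e1 N`, `R = ⌊L^B⌋`, `P_j = 2^j y ≤ N^ζ` (`j < J`), `J ≤ 2L`.  For the block `i`:
`Ap - kapA(iH) lamR = (S - kS lamR) - ∑_j (Fp bf P_j - WK P_j (iH) lamR)` and `Fp bf P m = Fp bs P m + ∑_{p ∣ m} kap(m/p) lamR R (m/p)`.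
`Fp bs P_j`: `lfu2` (exponent `A + 3`, `e1/2` for `e1` as `P_j ≥ y ≥ N^e1 - 1 ≥ N^(e1/2)`, `e2 = (θ - ζ)/2`) with `f = bs y J R`: `SqB` is `sq_b`, `SWf` is `sw_b` (reduce `b/c` to lowest terms); the union of the `J`
bad sets has `≤ 2L (N/H)/L^(A+3)` members; the rest is `omw2`; the sum of `J + 1` errors `≤ (2L + 1) H/L^(A+3)`.
-/

set_option autoImplicit false

namespace Pool.Agent.H76.TP

open Finset
open Pool.Agent.H91.PK (ee)
open Pool.Agent.H91.EHA (Lam hR lamR ramS)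
open Pool.Agent.H35.W (pb)
open Pool.Agent.H53.MID (Fp Bs VKp SqB badB)
open Pool.Agent.H53.TPS (SWf)

open Classical in
/-- the bad blocks of the majorant -/
noncomputable def badA (S : ℕ → ℝ) (kS : ℝ) (y J R N H A : ℕ) : Finset ℕ :=
  (Icc (N / (2 * H)) (4 * N / H)).filter (fun i => ∃ α : ℝ, (H : ℝ) / Real.log N ^ A <
    ‖Bs (fun m => Ap S y J m - kapA kS y J (i * H) * lamR R m) H i α‖)

private theorem lfuA_fp (y J R P m : ℕ) : Fp (bf y J) P m = Fp (bs y J R) P m +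
    ∑ p ∈ (pb P).filter (fun p => p ∣ m), kap y J (m / p) * lamR R (m / p) := by
  unfold Fp
  rw [← sum_add_distrib]
  refine sum_congr rfl fun p _ => ?_
  unfold bs
  ring

private theorem lfuA_Bs_add (f g : ℕ → ℝ) (H i : ℕ) (α : ℝ) :
    Bs (fun m => f m + g m) H i α = Bs f H i α + Bs g H i α := by
  unfold Bs
  rw [← sum_add_distrib]
  refine sum_congr rfl fun m _ => ?_
  push_cast
  ring

private theorem lfuA_Bs_sub (f g : ℕ → ℝ) (H i : ℕ) (α : ℝ) :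
    Bs (fun m => f m - g m) H i α = Bs f H i α - Bs g H i α := by
  unfold Bs
  rw [← sum_sub_distrib]
  refine sum_congr rfl fun m _ => ?_
  push_cast
  ring

private theorem lfuA_Bs_sum (g : ℕ → ℕ → ℝ) (J H i : ℕ) (α : ℝ) :
    Bs (fun m => ∑ j ∈ range J, g j m) H i α = ∑ j ∈ range J, Bs (g j) H i α := by
  unfold Bs
  rw [sum_comm]
  refine sum_congr rfl fun m _ => ?_
  push_cast
  rw [sum_mul]

private theorem lfuA_split (S : ℕ → ℝ) (kS : ℝ) (y J R H i : ℕ) (α : ℝ) :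
    Bs (fun m => Ap S y J m - kapA kS y J (i * H) * lamR R m) H i α =
      Bs (fun m => S m - kS * lamR R m) H i α - ∑ j ∈ range J, (Bs (Fp (bs y J R) (2 ^ j * y)) H i α +
        Bs (fun m => ∑ p ∈ (pb (2 ^ j * y)).filter (fun p => p ∣ m), kap y J (m / p) * lamR R (m / p)
          - WK y J (2 ^ j * y) (i * H) * lamR R m) H i α) := by
  have e1 : ∀ j, Bs (Fp (bs y J R) (2 ^ j * y)) H i α +
        Bs (fun m => ∑ p ∈ (pb (2 ^ j * y)).filter (fun p => p ∣ m), kap y J (m / p) * lamR R (m / p)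
          - WK y J (2 ^ j * y) (i * H) * lamR R m) H i α =
      Bs (fun m => Fp (bf y J) (2 ^ j * y) m - WK y J (2 ^ j * y) (i * H) * lamR R m) H i α := by
    intro j
    rw [← lfuA_Bs_add]
    congr 1
    funext m
    rw [lfuA_fp y J R (2 ^ j * y) m]
    ring
  rw [sum_congr rfl fun j _ => e1 j, ← lfuA_Bs_sum, ← lfuA_Bs_sub]
  congr 1
  funext m
  unfold Ap kapA
  rw [sum_sub_distrib, ← sum_mul]
  ring

/-- facts for large `N` -/
private theorem lfuA_large (θ ζ e1 : ℝ) (B : ℕ) (he1 : 0 < e1) (he : e1 < ζ) (hζ : ζ < θ) (hθ : θ < 1 / 2) :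
    ∃ N0 : ℕ, ∀ N : ℕ, N0 ≤ N → 12 ≤ Real.log N ∧ (2 : ℝ) ≤ (N : ℝ) ^ (e1 / 2) ∧
      (N : ℝ) ^ ((θ - ζ) / 2) * (N : ℝ) ^ ζ ≤ ⌊(N : ℝ) ^ θ⌋₊ ∧ ⌊(N : ℝ) ^ θ⌋₊ ^ 2 ≤ N ∧
      (⌊Real.log N ^ B⌋₊ : ℕ) ^ 4 + 2 ≤ ⌊(N : ℝ) ^ ((θ - ζ) / 2 / 2)⌋₊ ∧
      32 * (N : ℝ) ^ (1 / 2 : ℝ) * (N : ℝ) ^ ζ ≤ N ∧ 8 * ⌊(N : ℝ) ^ θ⌋₊ ≤ N ∧ 100 ≤ N := by
  obtain ⟨x1, hx1⟩ := Pool.Agent.H76.GB.log_ge 12
  obtain ⟨x2, hx2⟩ := Pool.Agent.H76.GB.log_pow_le (e1 / 2) 2 (by linarith) (by norm_num) 0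
  obtain ⟨x3, hx3⟩ := Pool.Agent.H76.GB.log_pow_le ((θ - ζ) / 2) 2 (by linarith) (by norm_num) 0
  obtain ⟨x4, hx4⟩ := Pool.Agent.H76.GB.log_pow_le ((θ - ζ) / 2 / 2) 4 (by linarith) (by norm_num) (4 * B)
  obtain ⟨x5, hx5⟩ := Pool.Agent.H76.GB.log_pow_le (1 / 2 - ζ) 32 (by linarith) (by norm_num) 0
  obtain ⟨x6, hx6⟩ := Pool.Agent.H76.GB.log_pow_le (1 - θ) 8 (by linarith) (by norm_num) 0
  refine ⟨x1 + x2 + x3 + x4 + x5 + x6 + 100, fun N hN => ?_⟩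
  have g1 := hx1 N (by omega)
  have g2 := hx2 N (by omega)
  have g3 := hx3 N (by omega)
  have g4 := hx4 N (by omega)
  have g5 := hx5 N (by omega)
  have g6 := hx6 N (by omega)
  rw [pow_zero, mul_one] at g2 g3 g5 g6
  set L := Real.log N with hL
  have hN0 : 0 < N := by omega
  have hNpos : (0 : ℝ) < N := by exact_mod_cast hN0
  have hN1 : (1 : ℝ) ≤ N := by exact_mod_cast hN0
  have hadd : ∀ a b : ℝ, (N : ℝ) ^ (a + b) = (N : ℝ) ^ a * (N : ℝ) ^ b := fun a b => Real.rpow_add hNpos a b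
  have hfl : ∀ t : ℝ, 1 ≤ t → t / 2 ≤ (⌊t⌋₊ : ℝ) := by
    intro t ht
    have h6 := Nat.lt_floor_add_one t
    have h7 : (1 : ℝ) ≤ (⌊t⌋₊ : ℝ) := by
      exact_mod_cast (Nat.one_le_floor_iff t).2 ht
    linarith
  have hHle : ((⌊(N : ℝ) ^ θ⌋₊ : ℕ) : ℝ) ≤ (N : ℝ) ^ θ := Nat.floor_le (by positivity)
  refine ⟨g1, g2, ?_, ?_, ?_, ?_, ?_, by omega⟩
  · have h1 : (N : ℝ) ^ θ = (N : ℝ) ^ ((θ - ζ) / 2) * ((N : ℝ) ^ ((θ - ζ) / 2) * (N : ℝ) ^ ζ) := by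
      rw [← hadd, ← hadd]
      congr 1
      ring
    have h2 := hfl ((N : ℝ) ^ θ) (Real.one_le_rpow hN1 (by linarith))
    have h3 : 2 * ((N : ℝ) ^ ((θ - ζ) / 2) * (N : ℝ) ^ ζ) ≤
        (N : ℝ) ^ ((θ - ζ) / 2) * ((N : ℝ) ^ ((θ - ζ) / 2) * (N : ℝ) ^ ζ) :=
      mul_le_mul_of_nonneg_right g3 (by positivity)
    linarith
  · have h1 : ((⌊(N : ℝ) ^ θ⌋₊ ^ 2 : ℕ) : ℝ) ≤ N := by
      push_cast
      calc ((⌊(N : ℝ) ^ θ⌋₊ : ℕ) : ℝ) ^ 2 ≤ ((N : ℝ) ^ θ) ^ 2 := pow_le_pow_left₀ (Nat.cast_nonneg _) hHle 2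
        _ = (N : ℝ) ^ (θ + θ) := by rw [hadd]; ring
        _ ≤ (N : ℝ) ^ (1 : ℝ) := Real.rpow_le_rpow_of_exponent_le hN1 (by linarith)
        _ = N := Real.rpow_one _
    exact_mod_cast h1
  · have h1 : ((⌊L ^ B⌋₊ : ℕ) : ℝ) ≤ L ^ B := Nat.floor_le (by positivity)
    have h2 : (((⌊L ^ B⌋₊ : ℕ) ^ 4 + 2 : ℕ) : ℝ) ≤ (⌊(N : ℝ) ^ ((θ - ζ) / 2 / 2)⌋₊ : ℝ) := by
      have h3 : ((⌊L ^ B⌋₊ : ℕ) : ℝ) ^ 4 ≤ (L ^ B) ^ 4 := pow_le_pow_left₀ (Nat.cast_nonneg _) h1 4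
      rw [← pow_mul, mul_comm B 4] at h3
      have h4 := Nat.lt_floor_add_one ((N : ℝ) ^ ((θ - ζ) / 2 / 2))
      have h5 : 1 ≤ L ^ (4 * B) := one_le_pow₀ (by linarith)
      push_cast
      linarith
    exact_mod_cast h2
  · have h6 : (N : ℝ) = (N : ℝ) ^ (1 / 2 - ζ) * (N : ℝ) ^ (1 / 2 : ℝ) * (N : ℝ) ^ ζ := by
      rw [← hadd, ← hadd]
      have : 1 / 2 - ζ + 1 / 2 + ζ = 1 := by ring
      rw [this, Real.rpow_one]
    calc 32 * (N : ℝ) ^ (1 / 2 : ℝ) * (N : ℝ) ^ ζ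
        ≤ (N : ℝ) ^ (1 / 2 - ζ) * (N : ℝ) ^ (1 / 2 : ℝ) * (N : ℝ) ^ ζ := by
          gcongr
      _ = N := h6.symm
  · have h6 : (N : ℝ) = (N : ℝ) ^ (1 - θ) * (N : ℝ) ^ θ := by
      rw [← hadd, sub_add_cancel, Real.rpow_one]
    have h8 : 8 * ((⌊(N : ℝ) ^ θ⌋₊ : ℕ) : ℝ) ≤ N := by
      have h9 : 8 * (N : ℝ) ^ θ ≤ (N : ℝ) ^ (1 - θ) * (N : ℝ) ^ θ :=
        mul_le_mul_of_nonneg_right g6 (by positivity)
      linarith
    exact_mod_cast h8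

/-- the twisted sums of `bs` -/
private theorem lfuA_sw (N P R C' m k B : ℕ) (f : ℕ → ℝ) (hN : 100 ≤ N) (hL : 12 ≤ Real.log N) (hP : 1 ≤ P)
    (hC : C' ≤ B) (hR : R = ⌊Real.log N ^ B⌋₊)
    (hPN : 32 * (N : ℝ) ^ (1 / 2 : ℝ) * P ≤ N)
    (h : ∀ (c b K1 K2 : ℕ) (t : ℝ), 1 ≤ c → c ≤ R → Nat.Coprime b c → (N : ℝ) ^ (1 / 2 : ℝ) ≤ K1 →
      K1 ≤ K2 → K2 ≤ N ^ 2 → |t| ≤ Real.log N ^ m →
      ‖∑ n ∈ Ioc K1 K2, ((f n : ℝ) : ℂ) * ee (-((n : ℝ) * b / c)) * ee (-(t * Real.log n))‖ ≤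
        K2 / Real.log N ^ (k + 2)) : SWf f N P C' m k := by
  intro c b t hc hcL ht
  set L := Real.log N with hLdef
  have hP0 : (0 : ℝ) < P := by exact_mod_cast hP
  have hNpos : (0 : ℝ) < N := by
    have : 0 < N := by omega
    exact_mod_cast this
  have hN1 : (1 : ℝ) ≤ N := by
    have : 1 ≤ N := by omega
    exact_mod_cast this
  set g := Nat.gcd b c with hg
  have hg0 : 0 < g := Nat.gcd_pos_of_pos_right b (by omega)
  obtain ⟨b', hb'⟩ := Nat.gcd_dvd_left b c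
  obtain ⟨c', hc'⟩ := Nat.gcd_dvd_right b c
  rw [← hg] at hb' hc'
  have hcop : Nat.Coprime b' c' := by
    have h1 := Nat.coprime_div_gcd_div_gcd (m := b) (n := c) hg0
    rw [← hg] at h1
    have h2 : b / g = b' := by
      rw [hb']
      exact Nat.mul_div_cancel_left b' hg0
    have h3 : c / g = c' := by
      rw [hc']
      exact Nat.mul_div_cancel_left c' hg0
    rwa [h2, h3] at h1
  have hc'1 : 1 ≤ c' := by
    rcases Nat.eq_zero_or_pos c' with h0 | h0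
    · rw [h0, mul_zero] at hc'
      omega
    · exact h0
  have hc'c : c' ≤ c := by
    rw [hc']
    exact Nat.le_mul_of_pos_left _ hg0
  have hcR : c' ≤ R := by
    rw [hR]
    apply Nat.le_floor
    calc (c' : ℝ) ≤ c := by exact_mod_cast hc'c
      _ ≤ L ^ C' := hcL
      _ ≤ L ^ B := pow_le_pow_right₀ (by linarith) hC
  have hK1 : (N : ℝ) ^ (1 / 2 : ℝ) ≤ ((N / (16 * P) : ℕ) : ℝ) := by
    have h1 := Nat.lt_floor_add_one ((N : ℝ) / ((16 * P : ℕ) : ℝ))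
    rw [Nat.floor_div_eq_div] at h1
    have h2 : 2 * (N : ℝ) ^ (1 / 2 : ℝ) ≤ (N : ℝ) / ((16 * P : ℕ) : ℝ) := by
      rw [le_div_iff₀ (by push_cast; positivity)]
      push_cast
      linarith
    have h3 : (1 : ℝ) ≤ (N : ℝ) ^ (1 / 2 : ℝ) := Real.one_le_rpow hN1 (by norm_num)
    linarith
  have hK12 : N / (16 * P) ≤ 12 * N / P := by
    calc N / (16 * P) ≤ N / P := Nat.div_le_div_left (by omega) (by omega)
      _ ≤ 12 * N / P := Nat.div_le_div_right (by omega)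
  have hK2 : 12 * N / P ≤ N ^ 2 := by
    refine (Nat.div_le_self _ _).trans ?_
    nlinarith
  have h1 := h c' b' (N / (16 * P)) (12 * N / P) t hc'1 hcR hcop hK1 hK12 hK2 ht
  have e1 : ∀ n : ℕ, (n : ℝ) * b' / c' = (n : ℝ) * ((b : ℝ) / c) := by
    intro n
    have hc'0 : (0 : ℝ) < c' := by exact_mod_cast hc'1
    have hg0' : (0 : ℝ) < g := by exact_mod_cast hg0
    have h2 : (b : ℝ) = g * b' := by exact_mod_cast hb'
    have h3 : (c : ℝ) = g * c' := by exact_mod_cast hc'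
    rw [h2, h3]
    field_simp
  simp_rw [e1] at h1
  refine h1.trans ?_
  have h2 : ((12 * N / P : ℕ) : ℝ) ≤ 12 * (N / P) := by
    have : ((12 * N / P : ℕ) : ℝ) ≤ ((12 * N : ℕ) : ℝ) / P := Nat.cast_div_le
    push_cast at this
    rw [mul_div_assoc] at this
    exact this
  have hL0 : 0 < L := by linarith
  have h3 : (12 : ℝ) ≤ L ^ 2 := by nlinarith
  calc ((12 * N / P : ℕ) : ℝ) / L ^ (k + 2) ≤ 12 * (N / P) / L ^ (k + 2) := by gcongr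
    _ = (N / P : ℝ) / L ^ k * (12 / L ^ 2) := by
        rw [pow_add]
        field_simp
    _ ≤ (N / P : ℝ) / L ^ k * 1 := by
        apply mul_le_mul_of_nonneg_left _ (by positivity)
        rw [div_le_one (by positivity)]
        exact h3
    _ = (N / P : ℝ) / L ^ k := mul_one _

theorem lfuA (hVK : VKp) (θ ζ e1 : ℝ) (he1 : 0 < e1) (he : e1 < ζ) (hζ : ζ < θ) (hθ : θ < 1 / 2) (A : ℕ) :
    ∃ B0 : ℕ, ∀ B : ℕ, B0 ≤ B → ∃ N0 : ℕ, ∀ N : ℕ, N0 ≤ N → ∀ (J : ℕ) (S : ℕ → ℝ) (kS : ℝ),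
      (zz (yN e1 N) J : ℝ) ≤ (N : ℝ) ^ ζ →
      (∀ (i : ℕ) (α : ℝ), 1 ≤ i → ‖Bs (fun m => S m - kS * lamR ⌊Real.log N ^ B⌋₊ m) ⌊(N : ℝ) ^ θ⌋₊ i α‖ ≤
        ⌊(N : ℝ) ^ θ⌋₊ / Real.log N ^ (A + 1)) →
      ((badA S kS (yN e1 N) J ⌊Real.log N ^ B⌋₊ N ⌊(N : ℝ) ^ θ⌋₊ A).card : ℝ) ≤
        (N : ℝ) / ⌊(N : ℝ) ^ θ⌋₊ / Real.log N ^ A := by
  classical
  obtain ⟨C', m, k, N1, hN1⟩ := Pool.Agent.H53.TPS.lfu2 hVK (e1 / 2) ((θ - ζ) / 2) (by linarith) (by linarith) (A + 3)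
  refine ⟨C', fun B hB => ?_⟩
  obtain ⟨N2, hN2⟩ := sw_b e1 ζ he1 he (by linarith) B m (k + 2)
  obtain ⟨N3, hN3⟩ := sq_b B
  obtain ⟨N4, hN4⟩ := omw2 e1 ζ ((θ - ζ) / 2) he1 he (by linarith) (by linarith) (A + 3) B
  obtain ⟨N5, hN5⟩ := lfuA_large θ ζ e1 B he1 he hζ hθ
  refine ⟨N1 + N2 + N3 + N4 + N5, fun N hN J S kS hz hS => ?_⟩
  obtain ⟨g1, g2, g3, g4, g5, g6, g7, g8⟩ := hN5 N (by omega)
  have m1 := hN1 N (by omega)
  have m2 := hN2 N (by omega)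
  have m3 := hN3 N (by omega)
  have m4 := hN4 N (by omega)
  set L := Real.log N with hL
  set H := ⌊(N : ℝ) ^ θ⌋₊ with hH
  set R := ⌊L ^ B⌋₊ with hR
  set y := yN e1 N with hy
  have hL0 : 0 < L := by linarith
  have hNpos : (0 : ℝ) < N := by
    have : 0 < N := by omega
    exact_mod_cast this
  have hN1r : (1 : ℝ) ≤ N := by
    have : 1 ≤ N := by omega
    exact_mod_cast this
  have hR1 : 1 ≤ R := by
    rw [hR]
    exact (Nat.one_le_floor_iff _).2 (one_le_pow₀ (by linarith))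
  have hRL : (R : ℝ) ≤ L ^ B := Nat.floor_le (by positivity)
  have he1half : (N : ℝ) ^ e1 = (N : ℝ) ^ (e1 / 2) * (N : ℝ) ^ (e1 / 2) := by
    rw [← Real.rpow_add hNpos]
    congr 1
    ring
  have hyfl : (N : ℝ) ^ e1 < y + 1 := Nat.lt_floor_add_one _
  have hyge : (N : ℝ) ^ (e1 / 2) ≤ y := by nlinarith
  have hy1 : 1 ≤ y := by
    have : (0 : ℝ) < y := by linarith
    have : 0 < y := by exact_mod_cast this
    omega
  have hHpos : (0 : ℝ) < H := by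
    have : 0 < (N : ℝ) ^ ((θ - ζ) / 2) * (N : ℝ) ^ ζ := by positivity
    linarith
  have hH1 : 1 ≤ H := by
    have : 0 < H := by exact_mod_cast hHpos
    omega
  -- the number of ranges
  have hJL : (J : ℝ) ≤ 2 * L := by
    have h1 : ((2 ^ J : ℕ) : ℝ) ≤ N := by
      have h2 : 2 ^ J ≤ zz y J := by
        unfold zz
        exact Nat.le_mul_of_pos_right _ (by omega)
      calc ((2 ^ J : ℕ) : ℝ) ≤ (zz y J : ℝ) := by exact_mod_cast h2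
        _ ≤ (N : ℝ) ^ ζ := hz
        _ ≤ (N : ℝ) ^ (1 : ℝ) := Real.rpow_le_rpow_of_exponent_le hN1r (by linarith)
        _ = N := Real.rpow_one _
    have h2 : Real.log ((2 ^ J : ℕ) : ℝ) ≤ L := Real.log_le_log (by positivity) h1
    push_cast at h2
    rw [Real.log_pow] at h2
    have h3 : 1 / 2 < Real.log 2 := by
      have := Real.log_two_gt_d9
      linarith
    nlinarith [Nat.cast_nonneg (α := ℝ) J]
  -- the ranges
  have hPj : ∀ j ∈ range J, (N : ℝ) ^ e1 ≤ 2 * ((2 ^ j * y : ℕ) : ℝ) ∧ (N : ℝ) ^ (e1 / 2) ≤ ((2 ^ j * y : ℕ) : ℝ) ∧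
      ((2 ^ j * y : ℕ) : ℝ) ≤ (N : ℝ) ^ ζ ∧ ((2 ^ j * y : ℕ) : ℝ) * (N : ℝ) ^ ((θ - ζ) / 2) ≤ H := by
    intro j hj
    rw [mem_range] at hj
    have h1 : y ≤ 2 ^ j * y := Nat.le_mul_of_pos_left _ (by positivity)
    have h1r : (y : ℝ) ≤ ((2 ^ j * y : ℕ) : ℝ) := by exact_mod_cast h1
    have h2 : 2 ^ j * y ≤ zz y J := by
      unfold zz
      exact Nat.mul_le_mul_right y (Nat.pow_le_pow_right (by norm_num) hj.le)
    have h2r : ((2 ^ j * y : ℕ) : ℝ) ≤ (N : ℝ) ^ ζ := by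
      have : ((2 ^ j * y : ℕ) : ℝ) ≤ (zz y J : ℝ) := by exact_mod_cast h2
      linarith
    refine ⟨?_, hyge.trans h1r, h2r, ?_⟩
    · have h3 : (1 : ℝ) ≤ y := by exact_mod_cast hy1
      linarith
    · calc ((2 ^ j * y : ℕ) : ℝ) * (N : ℝ) ^ ((θ - ζ) / 2) ≤ (N : ℝ) ^ ζ * (N : ℝ) ^ ((θ - ζ) / 2) := by gcongr
        _ = (N : ℝ) ^ ((θ - ζ) / 2) * (N : ℝ) ^ ζ := mul_comm _ _
        _ ≤ H := g3
  have hSq : SqB (bs y J R) ⌊(N : ℝ) ^ ((θ - ζ) / 2 / 2)⌋₊ (N ^ 4) L := by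
    intro u w hw huw
    exact m3 y J R hR1 hRL u w (g5.trans hw) huw
  have hbad : ∀ j ∈ range J, ((badB (Fp (bs y J R) (2 ^ j * y)) N H (H / L ^ (A + 3))).card : ℝ) ≤
      (N / H : ℝ) / L ^ (A + 3) := by
    intro j hj
    obtain ⟨p1, p2, p3, p4⟩ := hPj j hj
    have hP1 : 1 ≤ 2 ^ j * y := by
      have : 0 < 2 ^ j * y := Nat.mul_pos (by positivity) (by omega)
      omega
    refine m1 H (2 ^ j * y) (bs y J R) p2 p4 g4 hSq ?_
    refine lfuA_sw N (2 ^ j * y) R C' m k B (bs y J R) g8 g1 hP1 hB hR ?_ ?_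
    · calc 32 * (N : ℝ) ^ (1 / 2 : ℝ) * ((2 ^ j * y : ℕ) : ℝ) ≤ 32 * (N : ℝ) ^ (1 / 2 : ℝ) * (N : ℝ) ^ ζ := by
            gcongr
        _ ≤ N := g6
    · intro c b K1 K2 t hc hcR hcop hK1 hK12 hK2 ht
      exact m2 J R c b K1 K2 t hz hRL hc hcR hcop hK1 hK12 hK2 ht
  -- the bad blocks
  have hsub : badA S kS y J R N H A ⊆
      (range J).biUnion (fun j => badB (Fp (bs y J R) (2 ^ j * y)) N H (H / L ^ (A + 3))) := by
    intro i hi
    unfold badA at hi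
    rw [mem_filter] at hi
    obtain ⟨hi1, α, hα⟩ := hi
    by_contra hcon
    rw [mem_biUnion] at hcon
    push Not at hcon
    have hi0 : 1 ≤ i := by
      rw [mem_Icc] at hi1
      have h1 : 1 ≤ N / (2 * H) := by
        rw [Nat.le_div_iff_mul_le (by omega)]
        omega
      omega
    have hgood : ∀ j ∈ range J, ‖Bs (Fp (bs y J R) (2 ^ j * y)) H i α‖ ≤ H / L ^ (A + 3) := by
      intro j hj
      have h1 := hcon j hj
      unfold badB at h1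
      rw [mem_filter] at h1
      push Not at h1
      exact h1 hi1 α
    have hom : ∀ j ∈ range J, ‖Bs (fun m => ∑ p ∈ (pb (2 ^ j * y)).filter (fun p => p ∣ m),
        kap y J (m / p) * lamR R (m / p) - WK y J (2 ^ j * y) (i * H) * lamR R m) H i α‖ ≤
          H / L ^ (A + 3) := by
      intro j hj
      obtain ⟨p1, p2, p3, p4⟩ := hPj j hj
      exact m4 J R (2 ^ j * y) H i α hz hR1 hRL p1 p4 g4 hi1
    rw [lfuA_split] at hα
    have h1 := hS i α hi0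
    have h2 : ‖∑ j ∈ range J, (Bs (Fp (bs y J R) (2 ^ j * y)) H i α +
        Bs (fun m => ∑ p ∈ (pb (2 ^ j * y)).filter (fun p => p ∣ m), kap y J (m / p) * lamR R (m / p)
          - WK y J (2 ^ j * y) (i * H) * lamR R m) H i α)‖ ≤ 2 * L * (2 * (H / L ^ (A + 3))) := by
      calc ‖∑ j ∈ range J, (Bs (Fp (bs y J R) (2 ^ j * y)) H i α +
        Bs (fun m => ∑ p ∈ (pb (2 ^ j * y)).filter (fun p => p ∣ m), kap y J (m / p) * lamR R (m / p)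
          - WK y J (2 ^ j * y) (i * H) * lamR R m) H i α)‖
          ≤ ∑ j ∈ range J, 2 * (H / L ^ (A + 3)) := by
            refine (norm_sum_le _ _).trans (sum_le_sum fun j hj => ?_)
            refine (norm_add_le _ _).trans ?_
            have := hgood j hj
            have := hom j hj
            linarith
        _ = J * (2 * (H / L ^ (A + 3))) := by rw [sum_const, card_range, nsmul_eq_mul]
        _ ≤ 2 * L * (2 * (H / L ^ (A + 3))) := by gcongr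
    have h3 := norm_sub_le (Bs (fun m => S m - kS * lamR R m) H i α)
      (∑ j ∈ range J, (Bs (Fp (bs y J R) (2 ^ j * y)) H i α +
        Bs (fun m => ∑ p ∈ (pb (2 ^ j * y)).filter (fun p => p ∣ m), kap y J (m / p) * lamR R (m / p)
          - WK y J (2 ^ j * y) (i * H) * lamR R m) H i α))
    have h4 : (H : ℝ) / L ^ (A + 1) + 2 * L * (2 * (H / L ^ (A + 3))) ≤ H / L ^ A := by
      have e1 : (H : ℝ) / L ^ (A + 1) + 2 * L * (2 * (H / L ^ (A + 3))) = H / L ^ A * (1 / L + 4 / L ^ 2) := by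
        rw [pow_add, pow_add]
        field_simp
        ring
      rw [e1]
      have h5 : 1 / L + 4 / L ^ 2 ≤ 1 := by
        have h6 : 1 / L ≤ 1 / 12 := by
          apply one_div_le_one_div_of_le (by norm_num) g1
        have h7 : 4 / L ^ 2 ≤ 4 / 144 := by
          apply div_le_div_of_nonneg_left (by norm_num) (by norm_num)
          nlinarith
        linarith
      calc (H : ℝ) / L ^ A * (1 / L + 4 / L ^ 2) ≤ H / L ^ A * 1 := by gcongr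
        _ = H / L ^ A := mul_one _
    linarith
  have hcard : ((badA S kS y J R N H A).card : ℝ) ≤ ∑ j ∈ range J, (N / H : ℝ) / L ^ (A + 3) := by
    calc ((badA S kS y J R N H A).card : ℝ)
        ≤ ((∑ j ∈ range J, (badB (Fp (bs y J R) (2 ^ j * y)) N H (H / L ^ (A + 3))).card : ℕ) : ℝ) := by
          exact_mod_cast (card_le_card hsub).trans card_biUnion_le
      _ = ∑ j ∈ range J, ((badB (Fp (bs y J R) (2 ^ j * y)) N H (H / L ^ (A + 3))).card : ℝ) := by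
          push_cast
          rfl
      _ ≤ ∑ j ∈ range J, (N / H : ℝ) / L ^ (A + 3) := sum_le_sum hbad
  rw [sum_const, card_range, nsmul_eq_mul] at hcard
  refine hcard.trans ?_
  calc (J : ℝ) * ((N / H : ℝ) / L ^ (A + 3)) ≤ 2 * L * ((N / H : ℝ) / L ^ (A + 3)) := by gcongr
    _ = (N / H : ℝ) / L ^ A * (2 / L ^ 2) := by
        rw [pow_add]
        field_simp
    _ ≤ (N / H : ℝ) / L ^ A * 1 := by
        apply mul_le_mul_of_nonneg_left _ (by positivity)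
        rw [div_le_one (by positivity)]
        nlinarith
    _ = (N / H : ℝ) / L ^ A := mul_one _

end Pool.Agent.H76.TP
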