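import Pool.Agent.H76.TP.Defs

/-!
# TP TyM: second moment and mean value of a function of type I

* `tyI_sq`: `∑_{m ∈ [u, u+w)} S² = ∑_{n1, n2 ≤ Q} g n1 g n2 #{m : [n1,n2] ∣ m} ≤ ∑ |g n1| |g n2| (w/[n1,n2] + 1)`.  `∑_{n1, n2 sqf} 3^(ω(n1)+ω(n2))/[n1,n2] = ∑_{l sqf, l ≤ Q²} 15^ω(l)/l` (`∑_{[n1,n2] = l} 3^(ω+ω) = ∏_{p ∣ l} (3 + 3 + 9)`)
  `≤ (∑_{l ≤ Q²} 1/l)^15 ≤ (1 + 2 log Q)^15` (`15^ω(l) = τ_15(l)` for squarefree `l`; alternatively `∏_{p ≤ Q} (1 + 15/p) ≤ ∏ (1 + 1/p)^15 ≤ (∑_{..} 1/n)^15`, or: `15^ω(l)/l` summed over squarefree `l ≤ Q²` all of whose prime factors are `≤ Q`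
  is `≤ ∏_{p ≤ Q} (1 + 15/p) ≤ (∏_{p ≤ Q} (1 + 1/p))^15 ≤ (∏ (1-1/p)^(-1))^15`, any bound `C (1 + log Q)^15` with `C ≤ 50` is enough, as is any other way).
  The rest: `(∑_{n ≤ Q} 3^ω(n))² ≤ (6 Q^(3/2))² = 36 Q³ ≤ 36 w` (`3^ω(n) ≤ 6 √n` for squarefree `n`: `∏_{p ∣ n} 3/√p ≤ 81/√210 < 6`).
* `tyI_mean`: `#{m ∈ (x, x+l] : n ∣ m} = l/n + O(1)`, `∑_{n ≤ Q} |g n| ≤ 6 Q^(3/2)`.
-/

set_option autoImplicit false

namespace Pool.Agent.H76.TP

open Finset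

/-- the number of the multiples of `n` in `(x, x + l]` -/
private theorem TyM_card (n x l : ℕ) :
    (((Ioc x (x + l)).filter (fun m => n ∣ m)).card : ℝ) = ((x + l) / n : ℕ) - (x / n : ℕ) := by
  have h1 : (Ioc 0 (x + l)).filter (fun m => n ∣ m) =
      (Ioc 0 x).filter (fun m => n ∣ m) ∪ (Ioc x (x + l)).filter (fun m => n ∣ m) := by
    rw [← filter_union, Ioc_union_Ioc_eq_Ioc (Nat.zero_le x) (Nat.le_add_right x l)]
  have h2 : Disjoint ((Ioc 0 x).filter (fun m => n ∣ m))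
      ((Ioc x (x + l)).filter (fun m => n ∣ m)) := by
    refine disjoint_filter_filter ?_
    rw [disjoint_left]
    intro a ha hb
    rw [mem_Ioc] at ha hb
    omega
  have h3 := card_union_of_disjoint h2
  rw [← h1, Nat.Ioc_filter_dvd_card_eq_div, Nat.Ioc_filter_dvd_card_eq_div] at h3
  rw [h3]
  push_cast
  ring

private theorem TyM_div (n x : ℕ) (hn : 1 ≤ n) :
    ((x / n : ℕ) : ℝ) ≤ (x : ℝ) / n ∧ (x : ℝ) / n < ((x / n : ℕ) : ℝ) + 1 := by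
  have hn' : (0 : ℝ) < n := by exact_mod_cast hn
  constructor
  · exact Nat.cast_div_le
  · rw [div_lt_iff₀ hn']
    have h1 : x < (x / n + 1) * n := by
      rw [mul_comm]
      exact Nat.lt_mul_div_succ x hn
    exact_mod_cast h1

private theorem TyM_card_abs (n x l : ℕ) (hn : 1 ≤ n) :
    |(((Ioc x (x + l)).filter (fun m => n ∣ m)).card : ℝ) - (l : ℝ) / n| ≤ 1 := by
  rw [TyM_card]
  have h1 := TyM_div n (x + l) hn
  have h2 := TyM_div n x hn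
  have h3 : ((x + l : ℕ) : ℝ) / n = (x : ℝ) / n + (l : ℝ) / n := by
    push_cast
    ring
  rw [h3] at h1
  rw [abs_le]
  constructor <;> linarith [h1.1, h1.2, h2.1, h2.2]

private theorem TyM_omega (n : ℕ) (hn : 1 ≤ n) : (3 : ℝ) ^ n.primeFactors.card ≤ 3 / 2 * n := by
  have h0 : ∏ p ∈ n.primeFactors, p ≤ n := Nat.le_of_dvd hn (Nat.prod_primeFactors_dvd n)
  have h1 : 3 ^ (n.primeFactors.erase 2).card ≤ ∏ p ∈ n.primeFactors.erase 2, p := by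
    rw [← prod_const]
    refine prod_le_prod' fun p hp => ?_
    rw [mem_erase] at hp
    have h2 := (Nat.prime_of_mem_primeFactors hp.2).two_le
    omega
  have h2 : 2 * 3 ^ n.primeFactors.card ≤ 3 * n := by
    by_cases h : 2 ∈ n.primeFactors
    · have h3 : ∏ p ∈ n.primeFactors, p = 2 * ∏ p ∈ n.primeFactors.erase 2, p :=
        (mul_prod_erase _ _ h).symm
      have h4 : n.primeFactors.card = (n.primeFactors.erase 2).card + 1 :=
        (card_erase_add_one h).symm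
      rw [h4, pow_succ]
      omega
    · rw [erase_eq_of_notMem h] at h1
      omega
  have h3 : (2 : ℝ) * 3 ^ n.primeFactors.card ≤ 3 * n := by exact_mod_cast h2
  linarith

private theorem TyM_sum_abs (Q : ℕ) (g S : ℕ → ℝ) (hg : Adm Q g S) :
    ∑ n ∈ Icc 1 Q, |g n| ≤ 3 / 2 * (Q : ℝ) ^ 2 := by
  have h1 : ∀ n ∈ Icc 1 Q, |g n| ≤ 3 / 2 * (Q : ℝ) := by
    intro n hn
    rw [mem_Icc] at hn
    have h2 : (n : ℝ) ≤ Q := by exact_mod_cast hn.2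
    linarith [hg.2.1 n, TyM_omega n hn.1]
  calc ∑ n ∈ Icc 1 Q, |g n| ≤ (Icc 1 Q).card • (3 / 2 * (Q : ℝ)) := sum_le_card_nsmul _ _ _ h1
    _ = 3 / 2 * (Q : ℝ) ^ 2 := by
      rw [Nat.card_Icc, nsmul_eq_mul, Nat.add_sub_cancel]
      ring

/-- the sum over the squarefree numbers -/
private noncomputable def TyM_G (k Q : ℕ) : ℝ :=
  ∑ n ∈ (Icc 1 Q).filter Squarefree, (k : ℝ) ^ n.primeFactors.card / n

private theorem TyM_divisors (k n : ℕ) (hn : n ≠ 0) :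
    ((k + 1 : ℕ) : ℝ) ^ n.primeFactors.card ≤ ∑ d ∈ n.divisors, (k : ℝ) ^ d.primeFactors.card := by
  have hpr : ∀ T ∈ n.primeFactors.powerset, (∏ p ∈ T, p).primeFactors = T := by
    intro T hT
    rw [mem_powerset] at hT
    exact Nat.primeFactors_prod fun p hp => Nat.prime_of_mem_primeFactors (hT hp)
  have h1 : ((k + 1 : ℕ) : ℝ) ^ n.primeFactors.card =
      ∑ T ∈ n.primeFactors.powerset, (k : ℝ) ^ (∏ p ∈ T, p).primeFactors.card := by
    rw [Nat.cast_add, Nat.cast_one, ← sum_pow_mul_eq_add_pow]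
    refine sum_congr rfl fun T hT => ?_
    rw [hpr T hT, one_pow, mul_one]
  have h2 : Set.InjOn (fun T : Finset ℕ => ∏ p ∈ T, p) (n.primeFactors.powerset : Set (Finset ℕ)) := by
    intro T hT T' hT' h
    have h3 := congrArg Nat.primeFactors h
    simp only at h3
    rw [hpr T hT, hpr T' hT'] at h3
    exact h3
  rw [h1, ← sum_image (f := fun d => (k : ℝ) ^ d.primeFactors.card) h2]
  refine sum_le_sum_of_subset_of_nonneg ?_ fun _ _ _ => by positivity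
  intro d hd
  obtain ⟨T, hT, rfl⟩ := mem_image.1 hd
  rw [mem_powerset] at hT
  rw [Nat.mem_divisors]
  exact ⟨(prod_dvd_prod_of_subset _ _ _ hT).trans (Nat.prod_primeFactors_dvd n), hn⟩

private theorem TyM_G_succ (k Q : ℕ) :
    TyM_G (k + 1) Q ≤ TyM_G k Q * ∑ n ∈ Icc 1 Q, (1 : ℝ) / n := by
  unfold TyM_G
  have h1 : ∀ n ∈ (Icc 1 Q).filter Squarefree, ((k + 1 : ℕ) : ℝ) ^ n.primeFactors.card / n ≤
      ∑ d ∈ n.divisors, (k : ℝ) ^ d.primeFactors.card / d * (1 / ((n / d : ℕ) : ℝ)) := by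
    intro n hn
    rw [mem_filter, mem_Icc] at hn
    have hn0 : n ≠ 0 := by omega
    have h2 : ∀ d ∈ n.divisors, (k : ℝ) ^ d.primeFactors.card / d * (1 / ((n / d : ℕ) : ℝ)) =
        (k : ℝ) ^ d.primeFactors.card / n := by
      intro d hd
      have hd' := Nat.dvd_of_mem_divisors hd
      have hd0 : (d : ℝ) ≠ 0 := by
        have := Nat.pos_of_mem_divisors hd
        exact_mod_cast this.ne'
      have hn1 : (n : ℝ) ≠ 0 := by exact_mod_cast hn0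
      rw [Nat.cast_div hd' hd0]
      field_simp
    rw [sum_congr rfl h2, ← sum_div]
    gcongr
    exact TyM_divisors k n hn0
  refine (sum_le_sum h1).trans ?_
  rw [sum_mul_sum, ← sum_product', sum_sigma']
  have hmap : ∀ x ∈ ((Icc 1 Q).filter Squarefree).sigma (fun n => n.divisors),
      ((x.2, x.1 / x.2) : ℕ × ℕ) ∈ ((Icc 1 Q).filter Squarefree) ×ˢ (Icc 1 Q) := by
    rintro ⟨n, d⟩ hx
    rw [mem_sigma, mem_filter, mem_Icc] at hx
    obtain ⟨⟨⟨h2, h3⟩, h4⟩, h5⟩ := hx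
    simp only at h2 h3 h4 h5 ⊢
    have hd := Nat.dvd_of_mem_divisors h5
    have hd0 := Nat.pos_of_mem_divisors h5
    have h6 : d ≤ n := Nat.le_of_dvd h2 hd
    have h7 : n / d ≤ n := Nat.div_le_self n d
    have h8 : 1 ≤ n / d := Nat.div_pos h6 hd0
    rw [mem_product, mem_filter, mem_Icc, mem_Icc]
    exact ⟨⟨⟨hd0, h6.trans h3⟩, h4.squarefree_of_dvd hd⟩, h8, h7.trans h3⟩
  have hinj : Set.InjOn (fun x : (_ : ℕ) × ℕ => ((x.2, x.1 / x.2) : ℕ × ℕ))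
      (((Icc 1 Q).filter Squarefree).sigma (fun n => n.divisors) : Set ((_ : ℕ) × ℕ)) := by
    rintro ⟨n, d⟩ hx ⟨n', d'⟩ hx' h
    rw [mem_coe, mem_sigma] at hx hx'
    simp only [Prod.mk.injEq] at h
    have h1 := Nat.dvd_of_mem_divisors hx.2
    have h2 := Nat.dvd_of_mem_divisors hx'.2
    simp only at h1 h2
    obtain ⟨rfl, h3⟩ := h
    have h4 : n = n' := by
      rw [← Nat.mul_div_cancel' h1, ← Nat.mul_div_cancel' h2, h3]
    subst h4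
    rfl
  have h2 := sum_image (f := fun y : ℕ × ℕ => (k : ℝ) ^ y.1.primeFactors.card / y.1 *
    (1 / (y.2 : ℝ))) hinj
  simp only at h2
  rw [← h2]
  refine sum_le_sum_of_subset_of_nonneg ?_ fun _ _ _ => by positivity
  intro y hy
  obtain ⟨x, hx, rfl⟩ := mem_image.1 hy
  exact hmap x hx

private theorem TyM_G_le (k Q : ℕ) (hQ : 1 ≤ Q) :
    TyM_G k Q ≤ (∑ n ∈ Icc 1 Q, (1 : ℝ) / n) ^ k := by
  induction k with
  | zero =>
    unfold TyM_G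
    rw [pow_zero]
    have h1 : ∀ n ∈ (Icc 1 Q).filter Squarefree,
        ((0 : ℕ) : ℝ) ^ n.primeFactors.card / n ≤ if n = 1 then 1 else 0 := by
      intro n hn
      rw [mem_filter, mem_Icc] at hn
      by_cases h : n = 1
      · subst h
        simp
      · rw [if_neg h]
        have h2 : n.primeFactors.card ≠ 0 := by
          rw [Ne, card_eq_zero, Nat.primeFactors_eq_empty]
          omega
        rw [Nat.cast_zero, zero_pow h2, zero_div]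
    refine (sum_le_sum h1).trans ?_
    rw [sum_ite_eq']
    split_ifs <;> norm_num
  | succ k ih =>
    refine (TyM_G_succ k Q).trans ?_
    rw [pow_succ]
    refine mul_le_mul_of_nonneg_right ih (sum_nonneg fun _ _ => by positivity)

private theorem TyM_H_le (Q : ℕ) : ∑ n ∈ Icc 1 Q, (1 : ℝ) / n ≤ 1 + Real.log Q := by
  have h1 := harmonic_le_one_add_log Q
  rw [harmonic_eq_sum_Icc] at h1
  push_cast at h1
  simpa [one_div] using h1

private theorem TyM_lcm (Q : ℕ) :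
    ∑ x ∈ ((Icc 1 Q).filter Squarefree) ×ˢ ((Icc 1 Q).filter Squarefree),
      (3 : ℝ) ^ x.1.primeFactors.card * 3 ^ x.2.primeFactors.card / (Nat.lcm x.1 x.2 : ℕ) ≤
      TyM_G 9 Q * (TyM_G 3 Q * TyM_G 3 Q) := by
  unfold TyM_G
  rw [sum_mul_sum, ← sum_product', sum_mul_sum, ← sum_product']
  have hval : ∀ x ∈ ((Icc 1 Q).filter Squarefree) ×ˢ ((Icc 1 Q).filter Squarefree),
      (3 : ℝ) ^ x.1.primeFactors.card * 3 ^ x.2.primeFactors.card / (Nat.lcm x.1 x.2 : ℕ) =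
      (fun y : ℕ × (ℕ × ℕ) => ((9 : ℕ) : ℝ) ^ y.1.primeFactors.card / y.1 *
        (((3 : ℕ) : ℝ) ^ y.2.1.primeFactors.card / y.2.1 *
          (((3 : ℕ) : ℝ) ^ y.2.2.primeFactors.card / y.2.2)))
        (Nat.gcd x.1 x.2, (x.1 / Nat.gcd x.1 x.2, x.2 / Nat.gcd x.1 x.2)) := by
    rintro ⟨n, m⟩ hx
    rw [mem_product, mem_filter, mem_filter, mem_Icc, mem_Icc] at hx
    obtain ⟨⟨⟨hn1, hn2⟩, hn3⟩, ⟨hm1, hm2⟩, hm3⟩ := hx
    simp only at hn1 hn2 hn3 hm1 hm2 hm3 ⊢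
    obtain ⟨a, ha⟩ : ∃ a, a = Nat.gcd n m := ⟨_, rfl⟩
    have han : a ∣ n := ha ▸ Nat.gcd_dvd_left n m
    have ham : a ∣ m := ha ▸ Nat.gcd_dvd_right n m
    have ha0 : 0 < a := Nat.pos_of_dvd_of_pos han hn1
    rw [← ha]
    obtain ⟨b, rfl⟩ := han
    obtain ⟨c, hc⟩ := ham
    rw [hc] at hm1 hm2 hm3 ha ⊢
    rw [Nat.mul_div_cancel_left b ha0, Nat.mul_div_cancel_left c ha0]
    have hab : Nat.Coprime a b := (Nat.squarefree_mul_iff.1 hn3).1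
    have hac : Nat.Coprime a c := (Nat.squarefree_mul_iff.1 hm3).1
    have hb0 : 0 < b := Nat.pos_of_mul_pos_left hn1
    have hc0 : 0 < c := Nat.pos_of_mul_pos_left hm1
    have hbc : Nat.gcd b c = 1 := by
      rw [Nat.gcd_mul_left] at ha
      have : a * 1 = a * Nat.gcd b c := by rw [mul_one]; exact ha
      exact (Nat.eq_of_mul_eq_mul_left ha0 this).symm
    have hlcm : Nat.lcm (a * b) (a * c) = a * (b * c) := by
      rw [Nat.lcm_mul_left, Nat.Coprime.lcm_eq_mul hbc]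
    have ho1 : (a * b).primeFactors.card = a.primeFactors.card + b.primeFactors.card := by
      rw [hab.primeFactors_mul, card_union_of_disjoint hab.disjoint_primeFactors]
    have ho2 : (a * c).primeFactors.card = a.primeFactors.card + c.primeFactors.card := by
      rw [hac.primeFactors_mul, card_union_of_disjoint hac.disjoint_primeFactors]
    rw [hlcm, ho1, ho2]
    have ha' : (a : ℝ) ≠ 0 := by exact_mod_cast ha0.ne'
    have hb' : (b : ℝ) ≠ 0 := by exact_mod_cast hb0.ne'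
    have hc' : (c : ℝ) ≠ 0 := by exact_mod_cast hc0.ne'
    have h9 : ((9 : ℕ) : ℝ) ^ a.primeFactors.card =
        3 ^ a.primeFactors.card * 3 ^ a.primeFactors.card := by
      rw [← mul_pow]
      norm_num
    rw [h9]
    push_cast
    rw [pow_add, pow_add]
    field_simp
  have hinj : Set.InjOn (fun x : ℕ × ℕ =>
      ((Nat.gcd x.1 x.2, (x.1 / Nat.gcd x.1 x.2, x.2 / Nat.gcd x.1 x.2)) : ℕ × (ℕ × ℕ)))
      ((((Icc 1 Q).filter Squarefree) ×ˢ ((Icc 1 Q).filter Squarefree) : Finset (ℕ × ℕ)) :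
        Set (ℕ × ℕ)) := by
    rintro ⟨n, m⟩ _ ⟨n', m'⟩ _ h
    simp only [Prod.mk.injEq] at h
    obtain ⟨h1, h2, h3⟩ := h
    have e1 := Nat.mul_div_cancel' (Nat.gcd_dvd_left n m)
    have e2 := Nat.mul_div_cancel' (Nat.gcd_dvd_right n m)
    have e3 := Nat.mul_div_cancel' (Nat.gcd_dvd_left n' m')
    have e4 := Nat.mul_div_cancel' (Nat.gcd_dvd_right n' m')
    rw [h2, h1] at e1
    rw [h3, h1] at e2
    rw [e1] at e3
    rw [e2] at e4
    rw [e3, e4]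
  rw [sum_congr rfl hval, ← sum_image (f := fun y : ℕ × (ℕ × ℕ) =>
    ((9 : ℕ) : ℝ) ^ y.1.primeFactors.card / y.1 * (((3 : ℕ) : ℝ) ^ y.2.1.primeFactors.card / y.2.1 *
    (((3 : ℕ) : ℝ) ^ y.2.2.primeFactors.card / y.2.2))) hinj]
  refine sum_le_sum_of_subset_of_nonneg ?_ fun _ _ _ => by positivity
  intro y hy
  obtain ⟨⟨n, m⟩, hx, rfl⟩ := mem_image.1 hy
  rw [mem_product, mem_filter, mem_filter, mem_Icc, mem_Icc] at hx
  obtain ⟨⟨⟨hn1, hn2⟩, hn3⟩, ⟨hm1, hm2⟩, hm3⟩ := hx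
  simp only at hn1 hn2 hn3 hm1 hm2 hm3 ⊢
  have hd1 := Nat.gcd_dvd_left n m
  have hd2 := Nat.gcd_dvd_right n m
  have ha0 : 0 < Nat.gcd n m := Nat.gcd_pos_of_pos_left m hn1
  have han : Nat.gcd n m ≤ n := Nat.le_of_dvd hn1 hd1
  have ham : Nat.gcd n m ≤ m := Nat.le_of_dvd hm1 hd2
  rw [mem_product, mem_product, mem_filter, mem_filter, mem_filter, mem_Icc, mem_Icc, mem_Icc]
  refine ⟨⟨⟨ha0, han.trans hn2⟩, hn3.squarefree_of_dvd hd1⟩,
    ⟨⟨Nat.div_pos han ha0, (Nat.div_le_self _ _).trans hn2⟩,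
      hn3.squarefree_of_dvd (Nat.div_dvd_of_dvd hd1)⟩,
    ⟨Nat.div_pos ham ha0, (Nat.div_le_self _ _).trans hm2⟩,
      hm3.squarefree_of_dvd (Nat.div_dvd_of_dvd hd2)⟩

theorem tyI_sq (Q : ℕ) (g S : ℕ → ℝ) (hQ : 1 ≤ Q) (hg : Adm Q g S) (u w : ℕ) (hu : 1 ≤ u) (hw : Q ^ 4 ≤ w) :
    ∑ m ∈ Ico u (u + w), S m ^ 2 ≤ 100 * w * (1 + 2 * Real.log Q) ^ 15 := by
  have hsub : ∀ x ∈ (Icc 1 Q) ×ˢ (Icc 1 Q), 0 ≤ |g x.1| * |g x.2| := fun _ _ => by positivity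
  have hlog : 0 ≤ Real.log Q := Real.log_natCast_nonneg Q
  -- the interval
  obtain ⟨v, rfl⟩ : ∃ v, u = v + 1 := ⟨u - 1, by omega⟩
  have hIco : Ico (v + 1) (v + 1 + w) = Ioc v (v + w) := by
    ext m
    rw [mem_Ico, mem_Ioc]
    omega
  rw [hIco]
  -- expansion of the square
  have h1 : ∀ m ∈ Ioc v (v + w), S m ^ 2 = ∑ x ∈ (Icc 1 Q) ×ˢ (Icc 1 Q),
      if Nat.lcm x.1 x.2 ∣ m then g x.1 * g x.2 else 0 := by
    intro m hm
    rw [mem_Ioc] at hm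
    rw [hg.2.2 m (by omega), sq, sum_filter, sum_mul_sum, ← sum_product']
    refine sum_congr rfl fun x _ => ?_
    by_cases ha : x.1 ∣ m
    · by_cases hb : x.2 ∣ m
      · rw [if_pos ha, if_pos hb, if_pos (Nat.lcm_dvd ha hb)]
      · rw [if_neg hb, if_neg (fun h => hb ((Nat.dvd_lcm_right _ _).trans h)), mul_zero]
    · rw [if_neg ha, if_neg (fun h => ha ((Nat.dvd_lcm_left _ _).trans h)), zero_mul]
  rw [sum_congr rfl h1, sum_comm]
  have h2 : ∀ x ∈ (Icc 1 Q) ×ˢ (Icc 1 Q),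
      ∑ m ∈ Ioc v (v + w), (if Nat.lcm x.1 x.2 ∣ m then g x.1 * g x.2 else 0) ≤
      |g x.1| * |g x.2| / (Nat.lcm x.1 x.2 : ℕ) * w + |g x.1| * |g x.2| := by
    intro x hx
    rw [mem_product, mem_Icc, mem_Icc] at hx
    have hl : 1 ≤ Nat.lcm x.1 x.2 := Nat.lcm_pos hx.1.1 hx.2.1
    have h3 := abs_le.1 (TyM_card_abs (Nat.lcm x.1 x.2) v w hl)
    rw [← sum_filter, sum_const, nsmul_eq_mul]
    have h4 : g x.1 * g x.2 ≤ |g x.1| * |g x.2| := by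
      rw [← abs_mul]
      exact le_abs_self _
    have h5 : (((Ioc v (v + w)).filter (fun m => Nat.lcm x.1 x.2 ∣ m)).card : ℝ) ≤
        (w : ℝ) / (Nat.lcm x.1 x.2 : ℕ) + 1 := by linarith [h3.2]
    calc (((Ioc v (v + w)).filter (fun m => Nat.lcm x.1 x.2 ∣ m)).card : ℝ) * (g x.1 * g x.2)
        ≤ (((Ioc v (v + w)).filter (fun m => Nat.lcm x.1 x.2 ∣ m)).card : ℝ) *
            (|g x.1| * |g x.2|) := mul_le_mul_of_nonneg_left h4 (by positivity)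
      _ ≤ ((w : ℝ) / (Nat.lcm x.1 x.2 : ℕ) + 1) * (|g x.1| * |g x.2|) :=
          mul_le_mul_of_nonneg_right h5 (hsub x (by
            rw [mem_product, mem_Icc, mem_Icc]; exact hx))
      _ = _ := by ring
  refine (sum_le_sum h2).trans ?_
  rw [sum_add_distrib, ← sum_mul]
  -- the diagonal part
  have h6 : ∑ x ∈ (Icc 1 Q) ×ˢ (Icc 1 Q), |g x.1| * |g x.2| ≤ 9 / 4 * (w : ℝ) := by
    have e0 : ∑ x ∈ (Icc 1 Q) ×ˢ (Icc 1 Q), |g x.1| * |g x.2| =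
        (∑ n ∈ Icc 1 Q, |g n|) * (∑ n ∈ Icc 1 Q, |g n|) := by
      rw [sum_mul_sum, ← sum_product']
    rw [e0]
    have h7 := TyM_sum_abs Q g S hg
    have h8 : 0 ≤ ∑ n ∈ Icc 1 Q, |g n| := sum_nonneg fun _ _ => abs_nonneg _
    have h9 : ((Q : ℝ)) ^ 4 ≤ w := by exact_mod_cast hw
    calc (∑ n ∈ Icc 1 Q, |g n|) * (∑ n ∈ Icc 1 Q, |g n|)
        ≤ (3 / 2 * (Q : ℝ) ^ 2) * (3 / 2 * (Q : ℝ) ^ 2) := mul_le_mul h7 h7 h8 (by positivity)
      _ = 9 / 4 * (Q : ℝ) ^ 4 := by ring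
      _ ≤ 9 / 4 * (w : ℝ) := by linarith
  -- the main part
  have h7 : ∑ x ∈ (Icc 1 Q) ×ˢ (Icc 1 Q), |g x.1| * |g x.2| / (Nat.lcm x.1 x.2 : ℕ) ≤
      (1 + Real.log Q) ^ 15 := by
    have h8 : ∑ x ∈ (Icc 1 Q) ×ˢ (Icc 1 Q), |g x.1| * |g x.2| / (Nat.lcm x.1 x.2 : ℕ) =
        ∑ x ∈ ((Icc 1 Q).filter Squarefree) ×ˢ ((Icc 1 Q).filter Squarefree),
          |g x.1| * |g x.2| / (Nat.lcm x.1 x.2 : ℕ) := by
      symm
      refine sum_subset (product_subset_product (filter_subset _ _) (filter_subset _ _)) ?_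
      intro x hx hx'
      rw [mem_product] at hx hx'
      have h9 : ¬ Squarefree x.1 ∨ ¬ Squarefree x.2 := by
        by_contra hcon
        push Not at hcon
        exact hx' ⟨mem_filter.2 ⟨hx.1, hcon.1⟩, mem_filter.2 ⟨hx.2, hcon.2⟩⟩
      rcases h9 with h9 | h9
      · rw [hg.1 _ h9, abs_zero, zero_mul, zero_div]
      · rw [hg.1 _ h9, abs_zero, mul_zero, zero_div]
    rw [h8]
    have h9 : ∑ x ∈ ((Icc 1 Q).filter Squarefree) ×ˢ ((Icc 1 Q).filter Squarefree),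
          |g x.1| * |g x.2| / (Nat.lcm x.1 x.2 : ℕ) ≤
        ∑ x ∈ ((Icc 1 Q).filter Squarefree) ×ˢ ((Icc 1 Q).filter Squarefree),
      (3 : ℝ) ^ x.1.primeFactors.card * 3 ^ x.2.primeFactors.card / (Nat.lcm x.1 x.2 : ℕ) := by
      refine sum_le_sum fun x _ => ?_
      gcongr
      · exact hg.2.1 _
      · exact hg.2.1 _
    refine h9.trans ((TyM_lcm Q).trans ?_)
    have hH0 : 0 ≤ ∑ n ∈ Icc 1 Q, (1 : ℝ) / n := sum_nonneg fun _ _ => by positivity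
    have hG0 : ∀ k, 0 ≤ TyM_G k Q := fun k => sum_nonneg fun _ _ => by positivity
    have h10 := TyM_G_le 9 Q hQ
    have h11 := TyM_G_le 3 Q hQ
    calc TyM_G 9 Q * (TyM_G 3 Q * TyM_G 3 Q)
        ≤ (∑ n ∈ Icc 1 Q, (1 : ℝ) / n) ^ 9 * ((∑ n ∈ Icc 1 Q, (1 : ℝ) / n) ^ 3 *
            (∑ n ∈ Icc 1 Q, (1 : ℝ) / n) ^ 3) := by
          have := hG0 3
          have := hG0 9
          gcongr
      _ = (∑ n ∈ Icc 1 Q, (1 : ℝ) / n) ^ 15 := by ring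
      _ ≤ (1 + Real.log Q) ^ 15 := pow_le_pow_left₀ hH0 (TyM_H_le Q) 15
  have h8 : (1 + Real.log Q) ^ 15 ≤ (1 + 2 * Real.log Q) ^ 15 :=
    pow_le_pow_left₀ (by linarith) (by linarith) 15
  have h9 : (1 : ℝ) ≤ (1 + 2 * Real.log Q) ^ 15 := one_le_pow₀ (by linarith)
  have hw0 : (0 : ℝ) ≤ w := Nat.cast_nonneg w
  calc (∑ x ∈ (Icc 1 Q) ×ˢ (Icc 1 Q), |g x.1| * |g x.2| / (Nat.lcm x.1 x.2 : ℕ)) * w +
        ∑ x ∈ (Icc 1 Q) ×ˢ (Icc 1 Q), |g x.1| * |g x.2|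
      ≤ (1 + 2 * Real.log Q) ^ 15 * w + 9 / 4 * (w : ℝ) :=
        add_le_add (mul_le_mul_of_nonneg_right (h7.trans h8) hw0) h6
    _ ≤ 100 * w * (1 + 2 * Real.log Q) ^ 15 := by
      nlinarith [mul_nonneg hw0 (sub_nonneg.2 h9)]

/-- the mean value -/
theorem tyI_mean (Q : ℕ) (g S : ℕ → ℝ) (hQ : 1 ≤ Q) (hg : Adm Q g S) (x l : ℕ) :
    |∑ m ∈ Ioc x (x + l), S m - l * ∑ n ∈ Icc 1 Q, g n / n| ≤ 6 * (Q : ℝ) ^ 2 := by
  have h1 : ∑ m ∈ Ioc x (x + l), S m =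
      ∑ n ∈ Icc 1 Q, g n * ((Ioc x (x + l)).filter (fun m => n ∣ m)).card := by
    have h2 : ∀ m ∈ Ioc x (x + l), S m = ∑ n ∈ Icc 1 Q, if n ∣ m then g n else 0 := by
      intro m hm
      rw [mem_Ioc] at hm
      rw [hg.2.2 m (by omega), sum_filter]
    rw [sum_congr rfl h2, sum_comm]
    refine sum_congr rfl fun n _ => ?_
    rw [← sum_filter, sum_const, nsmul_eq_mul, mul_comm]
  rw [h1, mul_sum, ← sum_sub_distrib]
  have h2 : ∀ n ∈ Icc 1 Q, |g n * ((Ioc x (x + l)).filter (fun m => n ∣ m)).card -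
      l * (g n / n)| ≤ |g n| := by
    intro n hn
    rw [mem_Icc] at hn
    have h3 := TyM_card_abs n x l hn.1
    have h4 : g n * ((Ioc x (x + l)).filter (fun m => n ∣ m)).card - l * (g n / n) =
        g n * ((((Ioc x (x + l)).filter (fun m => n ∣ m)).card : ℝ) - (l : ℝ) / n) := by ring
    rw [h4, abs_mul]
    exact mul_le_of_le_one_right (abs_nonneg _) h3
  refine (abs_sum_le_sum_abs _ _).trans ((sum_le_sum h2).trans ?_)
  have h3 := TyM_sum_abs Q g S hg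
  nlinarith [sq_nonneg (Q : ℝ)]

end Pool.Agent.H76.TP
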