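import Pool.Agent.H53.MID.Defs

/-!
# PROJECT TP (MP_967f73_nt): two primes in windows `n^θ`, `θ > 0.2805`: definitions

`L = log N`, `y = yN e1 N = ⌊N^e1⌋` (`e1` small), `z = zz y J = 2^J y ≤ N^ζ`, `P_j = 2^j y`, `pb P` = primes of `(P, 2P]`.

* `rg y k = 1` if all prime factors of `k` are `> y`, else `0` (`rg y 0 = 0`, `rg y 1 = 1`);
* `nu y J k` = number of the primes `p ∣ k` with `y < p ≤ z`;
* `bf y J k = rg y k/(1 + nu y J k)` (Ramaré weights);
* `AA y J m = rg y m - ∑_{j<J} Fp (bf y J) (2^j y) m`: it is `≥ 0`, `= 1` on `z`-rough numbers and `≤ 1[z-rough] + 1[p² ∣ m, y < p ≤ z]`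
  (`RamId.lean`);
* the upper bound sieve `SS w y r ρ m = (∑_{T ⊆ primes ≤ w dividing m, |T| ≤ 2r} (-1)^|T|) (∑_{A ⊆ primes of (w, y] dividing m} ρ A)²`,
  `≥ rg y m`; `Ap = SS - ∑_j Fp bf P_j ≥ AA ≥ 1_P`;
* the local density `kap y J x` of `bf` at `x`; `kapA` the local density of `Ap`.
-/

set_option autoImplicit false

namespace Pool.Agent.H76.TP

open Finset
open Pool.Agent.H91.PK (ee)
open Pool.Agent.H91.EHA (Lam hR lamR ramS)
open Pool.Agent.H35.W (pb)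
open Pool.Agent.H53.MID (Fp Bs)

/-- the lower end of the sieving range -/
noncomputable def yN (e1 : ℝ) (N : ℕ) : ℕ := ⌊(N : ℝ) ^ e1⌋₊

/-- the upper end `z = 2^J y` -/
def zz (y J : ℕ) : ℕ := 2 ^ J * y

open Classical in
/-- the indicator of the `y`-rough numbers -/
noncomputable def rg (y k : ℕ) : ℝ := if ∀ p : ℕ, p.Prime → p ∣ k → y < p then 1 else 0

/-- the number of the primes of `(y, z]` dividing `k` -/
def nu (y J k : ℕ) : ℕ := (k.primeFactors.filter (fun p => y < p ∧ p ≤ zz y J)).card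

/-- the cofactor weights (Ramaré) -/
noncomputable def bf (y J k : ℕ) : ℝ := rg y k / (1 + nu y J k)

/-- rough numbers minus the type II sums -/
noncomputable def AA (y J m : ℕ) : ℝ := rg y m - ∑ j ∈ range J, Fp (bf y J) (2 ^ j * y) m

/-- the local density of `bf` at `x` -/
noncomputable def kap (y J x : ℕ) : ℝ :=
  (∑ k ∈ Icc 1 (x / y), rg y k / ((1 + nu y J k + if x < k * zz y J then 1 else 0) * k)) / Real.log x

/-- `∑_{p ∈ pb P} kap(x/p)/p` -/
noncomputable def WK (y J P x : ℕ) : ℝ := ∑ p ∈ pb P, kap y J (x / p) / p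

/-- the sieve minus the type II sums: the majorant of the primes -/
noncomputable def Ap (S : ℕ → ℝ) (y J m : ℕ) : ℝ := S m - ∑ j ∈ range J, Fp (bf y J) (2 ^ j * y) m

/-- the local density of `Ap` -/
noncomputable def kapA (kS : ℝ) (y J x : ℕ) : ℝ := kS - ∑ j ∈ range J, WK y J (2 ^ j * y) x

/-- primes `≤ w` -/
def PW (w : ℕ) : Finset ℕ := (Icc 1 w).filter Nat.Prime

/-- primes in `(w, y]` -/
def PY (w y : ℕ) : Finset ℕ := (Ioc w y).filter Nat.Prime

/-- Bonferroni sum of level `2r` over the primes `≤ w` -/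
noncomputable def bon (w r m : ℕ) : ℝ :=
  ∑ T ∈ ((PW w).filter (fun p => p ∣ m)).powerset.filter (fun T => T.card ≤ 2 * r), (-1 : ℝ) ^ T.card

/-- Selberg's square over the primes of `(w, y]` -/
noncomputable def sel (w y : ℕ) (ρ : Finset ℕ → ℝ) (m : ℕ) : ℝ :=
  (∑ A ∈ ((PY w y).filter (fun p => p ∣ m)).powerset, ρ A) ^ 2

/-- the upper bound sieve -/
noncomputable def SS (w y r : ℕ) (ρ : Finset ℕ → ℝ) (m : ℕ) : ℝ := bon w r m * sel w y ρ m

/-- admissible coefficients of type I: `g` supported on squarefree numbers, `|g n| ≤ 3^ω(n)`, `S m = ∑_{n ≤ Q, n ∣ m} g n` -/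
def Adm (Q : ℕ) (g S : ℕ → ℝ) : Prop :=
  (∀ n, ¬ Squarefree n → g n = 0) ∧ (∀ n, |g n| ≤ 3 ^ n.primeFactors.card) ∧
    ∀ m, 1 ≤ m → S m = ∑ n ∈ (Icc 1 Q).filter (fun n => n ∣ m), g n

/-- `∏_{p ∈ T} (1 - 1/p)` -/
noncomputable def VV (T : Finset ℕ) : ℝ := ∏ p ∈ T, (1 - 1 / (p : ℝ))

/-- the number of prime factors `> N^ζ` main terms: `E_2` -/
noncomputable def Z2 (ζ : ℝ) : ℝ := Real.log ((1 - ζ) / ζ)

/-- `E_3` -/
noncomputable def Z3 (ζ : ℝ) : ℝ := ∫ u in ζ..(1 / 3 : ℝ), Real.log ((1 - 2 * u) / u) / (u * (1 - u))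

end Pool.Agent.H76.TP
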