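import Pool.Agent.H76.TP.Defs
import Pool.Agent.H91.EHA.SwK1

/-!
# TP EqB: `bf` in short intervals and progressions

`bf(k) log k = ∑_{n ∣ k} Λ(n) bf(k)`.  Let `y = ⌊N^e1⌋`, `z = zz y J ≤ N^ζ`, `ζ < 1/2`, `x ≥ N^(1/2)`, `x/L^K ≤ l ≤ x/L^(A+3)`, `c ≤ L^B`, `I = (x, x+l]`.
1. If `(a, c) > 1`: for `k ≡ a (c)` a prime `≤ c < y` divides `k` and `bf k = 0`: both sides are `0`.  Let `(a, c) = 1`.
2. `∑_{k ∈ I, k ≡ a} bf(k) log k = ∑_{k} ∑_{n ∣ k} Λ(n) bf(k)`.  The terms with `n = q^j`, `j ≥ 2` (`q > y` as `bf k ≠ 0`): `≤ ∑_{q > y} ∑_{j ≥ 2} log q (l/q^j + 1)`, `q^j ≤ 2x`: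
   `≤ 2 l L/y + 2√x L^2 ≤ l/L^(A+2)`.
3. Terms `n = q` prime `> y`: `k = k' q`, `k' ≤ 2x/y`, `rg y k = rg y k'`, `nu y J k = nu y J k' + [q ≤ z]` if `q ∤ k'` (the pairs with `q ∣ k'`, i.e. `q² ∣ k`, are in the error as in 2).
   For fixed `k'` the primes run over `(x/k', (x+l)/k']`, `q k' ≡ a (c)` (one class modulo `c`, coprime to `c`, because `k'` is `y`-rough and `c < y`), and `[q ≤ z]` is
   `[x < k' z]` unless `x < k' z < x + l`: for `k' z ≤ x`: `q > x/k' ≥ z`, weight `0`; for `k' z ≥ x + l`: `q ≤ z`, weight `1`; for `x < k' z < x + l`: at most `l/z + 1` such `k'`, each with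
   at most `l/k' + 1 ≤ 2 l z/x + 1` numbers `q`, weight `≤ L`: error `≤ (l/z + 1)(2 l z/x + 1) L ≤ l/L^(A+1)` (`l ≤ x/L^(A+3)`, `z ≤ N^ζ ≤ x N^(-c)`).
   `psi_ap` (`Pool.Agent.H91.EHA.psi_ap`, `H91/EHA/SwK1.lean:229`) at the two end points `X = (x+l)/k', x/k' ≥ y/2 ≥ N^(e1)/4` gives
   `∑_q log q = l/(k' φ(c)) + O((x/k') L^(-K'))` (prime powers `≥ 2`: `√X` trivial).  For `x/y < k' ≤ 2x/y` the primes `q ≤ y` have to be left out: `q ∈ (x/k', (x+l)/k']`, `q > y` is
   possible only if `k' < (x+l)/y`: `k' ∈ (x/y, (x+l)/y]`, at most `l/y + 1` numbers with `≤ l/k' + 1 ≤ ly/x + 1` primes each: error `≤ (l/y+1)(ly/x+1) L`.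
   Sum over `k'`: main term `l/φ(c) · ∑_{k' ≤ x/y} rg y k'/((1 + nu y J k' + [x < k' z]) k')`, error `≤ 2 x L^(1-K')`, `K' = K + A + 4`.
4. `log k = log x + O(l/x)`, `0 ≤ bf ≤ 1`: `∑ bf(k) log k = log x ∑ bf(k) + O(l · l/x)`.  Divide by `log x ≥ L/2`.
-/

set_option autoImplicit false

namespace Pool.Agent.H76.TP

open Finset
open Pool.Agent.H91.EHA (Lam psiA psi_ap)

/-! ### the weights -/

private theorem eqB_rg_cases (y k : ℕ) : rg y k = 0 ∨ rg y k = 1 := by
  unfold rg
  split_ifs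
  · exact Or.inr rfl
  · exact Or.inl rfl

private theorem eqB_rg_nonneg (y k : ℕ) : 0 ≤ rg y k := by
  rcases eqB_rg_cases y k with h | h <;> rw [h]
  exact zero_le_one

private theorem eqB_rg_le (y k : ℕ) : rg y k ≤ 1 := by
  rcases eqB_rg_cases y k with h | h <;> rw [h]
  exact zero_le_one

private theorem eqB_rg_one {y k : ℕ} : rg y k = 1 ↔ ∀ p : ℕ, p.Prime → p ∣ k → y < p := by
  unfold rg
  split_ifs with h
  · exact ⟨fun _ => h, fun _ => rfl⟩
  · exact ⟨fun h1 => absurd h1 (by norm_num), fun h1 => absurd h1 h⟩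

private theorem eqB_rg_zero {y k p : ℕ} (hp : p.Prime) (hpk : p ∣ k) (hpy : p ≤ y) :
    rg y k = 0 := by
  rcases eqB_rg_cases y k with h | h
  · exact h
  · exact absurd (eqB_rg_one.1 h p hp hpk) (not_lt.2 hpy)

private theorem eqB_rg_mul {y k q : ℕ} (hq : q.Prime) :
    rg y (k * q) = if y < q then rg y k else 0 := by
  by_cases hy : y < q
  · rw [if_pos hy]
    rcases eqB_rg_cases y k with h | h
    · rw [h]
      rcases eqB_rg_cases y (k * q) with h1 | h1
      · exact h1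
      · rw [eqB_rg_one] at h1
        have h2 : rg y k = 1 := eqB_rg_one.2 fun p hp hpk => h1 p hp (hpk.mul_right q)
        rw [h] at h2
        norm_num at h2
    · rw [h]
      rw [eqB_rg_one] at h ⊢
      intro p hp hpk
      rcases (hp.dvd_mul).1 hpk with h1 | h1
      · exact h p hp h1
      · rw [(Nat.prime_dvd_prime_iff_eq hp hq).1 h1]
        exact hy
  · rw [if_neg hy]
    exact eqB_rg_zero hq (dvd_mul_left q k) (not_lt.1 hy)

private theorem eqB_nu_mul {y J k q : ℕ} (hk : k ≠ 0) (hq : q.Prime) (hqk : ¬ q ∣ k)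
    (hy : y < q) : nu y J (k * q) = nu y J k + if q ≤ zz y J then 1 else 0 := by
  unfold nu
  rw [Nat.primeFactors_mul hk hq.ne_zero, Nat.Prime.primeFactors hq, filter_union,
    card_union_of_disjoint]
  · congr 1
    by_cases hz : q ≤ zz y J
    · rw [if_pos hz, filter_singleton, if_pos ⟨hy, hz⟩, card_singleton]
    · rw [if_neg hz, filter_singleton, if_neg (fun h => hz h.2), card_empty]
  · refine disjoint_filter_filter ?_
    rw [disjoint_singleton_right]
    exact fun h => hqk (Nat.dvd_of_mem_primeFactors h)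

/-- the weight of the pair `k', q` -/
private noncomputable def eqBw (y J k q : ℕ) : ℝ :=
  if y < q then rg y k / (1 + nu y J k + if q ≤ zz y J then 1 else 0) else 0

/-- the local weight of `k'` -/
private noncomputable def eqBom (y J x k : ℕ) : ℝ :=
  rg y k / (1 + nu y J k + if x < k * zz y J then 1 else 0)

private theorem eqB_div_nonneg {a b : ℝ} (ha : 0 ≤ a) (P : Prop) [Decidable P] (hb : 0 ≤ b) :
    0 ≤ a / (1 + b + if P then 1 else 0) := by
  split_ifs <;> positivity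

private theorem eqB_div_le {a b : ℝ} (ha1 : a ≤ 1) (P : Prop) [Decidable P]
    (hb : 0 ≤ b) : a / (1 + b + if P then 1 else 0) ≤ 1 := by
  rw [div_le_one]
  · split_ifs <;> linarith
  · split_ifs <;> positivity

private theorem eqBw_nonneg (y J k q : ℕ) : 0 ≤ eqBw y J k q := by
  unfold eqBw
  by_cases h : y < q
  · rw [if_pos h]
    exact eqB_div_nonneg (eqB_rg_nonneg y k) (q ≤ zz y J) (Nat.cast_nonneg _)
  · rw [if_neg h]

private theorem eqBw_le (y J k q : ℕ) : eqBw y J k q ≤ 1 := by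
  unfold eqBw
  by_cases h : y < q
  · rw [if_pos h]
    exact eqB_div_le (eqB_rg_le y k) (q ≤ zz y J) (Nat.cast_nonneg _)
  · rw [if_neg h]
    exact zero_le_one

private theorem eqBom_nonneg (y J x k : ℕ) : 0 ≤ eqBom y J x k :=
  eqB_div_nonneg (eqB_rg_nonneg y k) (x < k * zz y J) (Nat.cast_nonneg _)

private theorem eqBom_le (y J x k : ℕ) : eqBom y J x k ≤ 1 :=
  eqB_div_le (eqB_rg_le y k) (x < k * zz y J) (Nat.cast_nonneg _)

private theorem eqB_bf_nonneg (y J k : ℕ) : 0 ≤ bf y J k := by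
  unfold bf
  have := eqB_rg_nonneg y k
  positivity

private theorem eqB_bf_le (y J k : ℕ) : bf y J k ≤ 1 := by
  unfold bf
  rw [div_le_one (by positivity)]
  have := eqB_rg_le y k
  have h2 : (0 : ℝ) ≤ nu y J k := Nat.cast_nonneg _
  linarith

private theorem eqB_bf_mul {y J k q : ℕ} (hk : k ≠ 0) (hq : q.Prime) (hqk : ¬ q ∣ k) :
    bf y J (k * q) = eqBw y J k q := by
  unfold bf eqBw
  rw [eqB_rg_mul hq]
  by_cases hy : y < q
  · rw [if_pos hy, if_pos hy, eqB_nu_mul hk hq hqk hy]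
    congr 1
    push_cast
    ring
  · rw [if_neg hy, if_neg hy, zero_div]

/-- the number of the primes `q > y` with `q² ∣ k` -/
private def eqBsq (y k : ℕ) : ℕ := (k.primeFactors.filter (fun q => y < q ∧ q * q ∣ k)).card

private theorem eqB_sum_log_le {k : ℕ} (hk : k ≠ 0) :
    ∑ q ∈ k.primeFactors, Real.log q ≤ Real.log k := by
  rw [← Real.log_prod (fun q hq => by
    exact_mod_cast (Nat.prime_of_mem_primeFactors hq).ne_zero), ← Nat.cast_prod]
  refine Real.log_le_log ?_ ?_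
  · exact_mod_cast Finset.prod_pos fun q hq => (Nat.prime_of_mem_primeFactors hq).pos
  · exact_mod_cast Nat.le_of_dvd (Nat.pos_of_ne_zero hk) (Nat.prod_primeFactors_dvd k)

private theorem eqB_sum_log_eq {k : ℕ} (hk : Squarefree k) :
    ∑ q ∈ k.primeFactors, Real.log q = Real.log k := by
  rw [← Real.log_prod (fun q hq => by
    exact_mod_cast (Nat.prime_of_mem_primeFactors hq).ne_zero), ← Nat.cast_prod,
    Nat.prod_primeFactors_of_squarefree hk]

private theorem eqB_key {y J k : ℕ} (hk : k ≠ 0) :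
    |bf y J k * Real.log k - ∑ q ∈ k.primeFactors, Real.log q * eqBw y J (k / q) q| ≤
      Real.log k * eqBsq y k := by
  have hlog : 0 ≤ Real.log k := Real.log_natCast_nonneg k
  have hqlog : ∀ q : ℕ, 0 ≤ Real.log q := fun q => Real.log_natCast_nonneg q
  have hsq : (0 : ℝ) ≤ eqBsq y k := Nat.cast_nonneg _
  rcases eqB_rg_cases y k with h0 | h0
  · have h1 : bf y J k = 0 := by
      unfold bf
      rw [h0, zero_div]
    have h2 : ∑ q ∈ k.primeFactors, Real.log q * eqBw y J (k / q) q = 0 := by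
      refine sum_eq_zero fun q hq => ?_
      have hqp := Nat.prime_of_mem_primeFactors hq
      have hqk := Nat.dvd_of_mem_primeFactors hq
      have h3 : rg y (k / q * q) = 0 := by rw [Nat.div_mul_cancel hqk]; exact h0
      rw [eqB_rg_mul hqp] at h3
      unfold eqBw
      split_ifs at h3 with hy
      · rw [if_pos hy, h3, zero_div, mul_zero]
      · rw [if_neg hy, mul_zero]
    rw [h1, h2, zero_mul, sub_zero, abs_zero]
    positivity
  · by_cases hs : Squarefree k
    · have h2 : ∑ q ∈ k.primeFactors, Real.log q * eqBw y J (k / q) q =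
          ∑ q ∈ k.primeFactors, Real.log q * bf y J k := by
        refine sum_congr rfl fun q hq => ?_
        have hqp := Nat.prime_of_mem_primeFactors hq
        have hqk := Nat.dvd_of_mem_primeFactors hq
        have hne : k / q ≠ 0 := (Nat.div_pos (Nat.le_of_dvd (Nat.pos_of_ne_zero hk) hqk)
          hqp.pos).ne'
        have hnd : ¬ q ∣ k / q := by
          intro h3
          have h4 : q * q ∣ k := by
            obtain ⟨m, hm⟩ := h3
            refine ⟨m, ?_⟩
            rw [mul_assoc, ← hm, Nat.mul_div_cancel' hqk]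
          exact hqp.one_lt.ne' (Nat.isUnit_iff.1 (hs q h4))
        rw [← eqB_bf_mul hne hqp hnd, Nat.div_mul_cancel hqk]
      rw [h2, ← sum_mul, eqB_sum_log_eq hs, mul_comm, sub_self, abs_zero]
      positivity
    · have h3 : 1 ≤ eqBsq y k := by
        rw [Nat.squarefree_iff_prime_squarefree] at hs
        push Not at hs
        obtain ⟨p, hp, hpk⟩ := hs
        unfold eqBsq
        rw [Nat.one_le_iff_ne_zero, ← Nat.pos_iff_ne_zero, card_pos]
        refine ⟨p, ?_⟩
        rw [mem_filter, Nat.mem_primeFactors]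
        have hd : p ∣ k := (dvd_mul_left p p).trans hpk
        exact ⟨⟨hp, hd, hk⟩, eqB_rg_one.1 h0 p hp hd, hpk⟩
      have h4 : (1 : ℝ) ≤ eqBsq y k := by exact_mod_cast h3
      have h5 : 0 ≤ ∑ q ∈ k.primeFactors, Real.log q * eqBw y J (k / q) q :=
        sum_nonneg fun q _ => mul_nonneg (hqlog q) (eqBw_nonneg _ _ _ _)
      have h6 : ∑ q ∈ k.primeFactors, Real.log q * eqBw y J (k / q) q ≤ Real.log k :=
        (sum_le_sum fun q _ => by
          have := eqBw_le y J (k / q) q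
          have h7 := hqlog q
          nlinarith).trans (eqB_sum_log_le hk)
      have h7 : 0 ≤ bf y J k * Real.log k := mul_nonneg (eqB_bf_nonneg _ _ _) hlog
      have h8 : bf y J k * Real.log k ≤ Real.log k := by
        have := eqB_bf_le y J k
        nlinarith
      have h9 : Real.log k ≤ Real.log k * eqBsq y k := by nlinarith
      rw [abs_le]
      constructor <;> linarith

/-! ### counting -/

private theorem eqB_card {x l m : ℕ} (hm : 1 ≤ m) (S : Finset ℕ) :
    (((S.filter (fun k => x < k * m ∧ k * m ≤ x + l)).card : ℕ) : ℝ) ≤ (l : ℝ) / m + 1 := by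
  have hmR : (0 : ℝ) < m := by exact_mod_cast hm
  have h1 : S.filter (fun k => x < k * m ∧ k * m ≤ x + l) ⊆ Ioc (x / m) ((x + l) / m) := by
    intro k hk
    rw [mem_filter] at hk
    rw [mem_Ioc]
    exact ⟨(Nat.div_lt_iff_lt_mul hm).2 hk.2.1, (Nat.le_div_iff_mul_le hm).2 hk.2.2⟩
  have h2 := card_le_card h1
  rw [Nat.card_Ioc] at h2
  have h3 : ((((x + l) / m : ℕ)) : ℝ) ≤ ((x + l : ℕ) : ℝ) / m := Nat.cast_div_le
  have h4 : (x : ℝ) / m < ((x / m : ℕ) : ℝ) + 1 := by
    rw [div_lt_iff₀ hmR]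
    have h5 : x < (x / m + 1) * m := by
      have := Nat.lt_div_mul_add (a := x) hm
      rw [add_mul, one_mul]
      exact this
    exact_mod_cast h5
  have h5 : x / m ≤ (x + l) / m := Nat.div_le_div_right (Nat.le_add_right _ _)
  have h6 : (((S.filter (fun k => x < k * m ∧ k * m ≤ x + l)).card : ℕ) : ℝ) ≤
      (((x + l) / m - x / m : ℕ) : ℝ) := by exact_mod_cast h2
  rw [Nat.cast_sub h5] at h6
  push_cast at h3
  rw [add_div] at h3
  linarith

private theorem eqB_card_dvd {x l d : ℕ} (hd : 1 ≤ d) :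
    ((((Ioc x (x + l)).filter (fun k => d ∣ k)).card : ℕ) : ℝ) ≤ (l : ℝ) / d + 1 := by
  refine le_trans ?_ (eqB_card (x := x) (l := l) hd (Icc 1 (x + l)))
  have h1 : (Ioc x (x + l)).filter (fun k => d ∣ k) ⊆
      ((Icc 1 (x + l)).filter (fun k => x < k * d ∧ k * d ≤ x + l)).image (fun j => j * d) := by
    intro k hk
    rw [mem_filter, mem_Ioc] at hk
    obtain ⟨⟨hk1, hk2⟩, j, rfl⟩ := hk
    rw [mem_image]
    refine ⟨j, ?_, mul_comm j d⟩
    rw [mem_filter, mem_Icc, mul_comm j d]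
    refine ⟨⟨?_, ?_⟩, hk1, hk2⟩
    · rcases Nat.eq_zero_or_pos j with h | h
      · subst h
        rw [mul_zero] at hk1
        exact absurd hk1 (Nat.not_lt_zero _)
      · exact h
    · exact (Nat.le_mul_of_pos_left j hd).trans hk2
  exact_mod_cast (card_le_card h1).trans card_image_le

private theorem eqB_sq_sum {x l y : ℕ} (hy : 1 ≤ y) (hl : l ≤ x) :
    ∑ k ∈ Ioc x (x + l), (eqBsq y k : ℝ) ≤ (l : ℝ) / y + Real.sqrt (2 * x) := by
  set M : ℕ := Nat.sqrt (x + l) with hM
  have hyR : (0 : ℝ) < y := by exact_mod_cast hy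
  have h1 : ∀ k ∈ Ioc x (x + l), (eqBsq y k : ℝ) ≤
      ∑ q ∈ Ioc y M, if q * q ∣ k then (1 : ℝ) else 0 := by
    intro k hk
    rw [mem_Ioc] at hk
    rw [← sum_filter, sum_const, nsmul_eq_mul, mul_one]
    have h2 : k.primeFactors.filter (fun q => y < q ∧ q * q ∣ k) ⊆
        (Ioc y M).filter (fun q => q * q ∣ k) := by
      intro q hq
      rw [mem_filter] at hq
      rw [mem_filter, mem_Ioc]
      refine ⟨⟨hq.2.1, ?_⟩, hq.2.2⟩
      rw [hM, Nat.le_sqrt]
      exact (Nat.le_of_dvd (by omega) hq.2.2).trans hk.2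
    exact_mod_cast card_le_card h2
  refine (sum_le_sum h1).trans ?_
  rw [sum_comm]
  have h2 : ∀ q ∈ Ioc y M, ∑ k ∈ Ioc x (x + l), (if q * q ∣ k then (1 : ℝ) else 0) ≤
      (l : ℝ) * ((q : ℝ) ^ 2)⁻¹ + 1 := by
    intro q hq
    rw [mem_Ioc] at hq
    rw [← sum_filter, sum_const, nsmul_eq_mul, mul_one]
    have hq1 : 1 ≤ q * q := Nat.mul_pos (by omega) (by omega)
    have h3 := eqB_card_dvd (x := x) (l := l) hq1
    push_cast at h3
    rw [← div_eq_mul_inv, sq]
    exact h3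
  refine (sum_le_sum h2).trans ?_
  rw [sum_add_distrib, ← mul_sum, sum_const, nsmul_eq_mul, mul_one, Nat.card_Ioc]
  have h4 : (l : ℝ) * ∑ q ∈ Ioc y M, ((q : ℝ) ^ 2)⁻¹ ≤ l / y := by
    rw [div_eq_mul_inv]
    refine mul_le_mul_of_nonneg_left ?_ (Nat.cast_nonneg _)
    rcases le_or_gt y M with h | h
    · have h5 := sum_Ioc_inv_sq_le_sub (α := ℝ) (k := y) (n := M) (by omega) h
      have h6 : (0 : ℝ) ≤ (M : ℝ)⁻¹ := by positivity
      linarith
    · rw [Ioc_eq_empty (by omega), sum_empty]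
      positivity
  have h5 : ((M - y : ℕ) : ℝ) ≤ Real.sqrt (2 * x) := by
    have h6 : ((M - y : ℕ) : ℝ) ≤ M := by exact_mod_cast Nat.sub_le M y
    refine h6.trans (Real.le_sqrt_of_sq_le ?_)
    have h7 : M * M ≤ x + l := Nat.sqrt_le (x + l)
    have h8 : (M : ℝ) * M ≤ x + l := by exact_mod_cast h7
    have h9 : (l : ℝ) ≤ x := by exact_mod_cast hl
    nlinarith
  linarith

/-- the double window -/
private theorem eqB_dw {x l m X : ℕ} (hx : 1 ≤ x) (hm : 1 ≤ m) (S : Finset ℕ) :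
    ∑ k ∈ S.filter (fun k => x < k * m ∧ k * m ≤ x + l),
      ((((Icc 1 X).filter (fun q => x < k * q ∧ k * q ≤ x + l)).card : ℕ) : ℝ) ≤
      ((l : ℝ) / m + 1) * (l * m / x + 1) := by
  have hxR : (0 : ℝ) < x := by exact_mod_cast hx
  have hmR : (0 : ℝ) < m := by exact_mod_cast hm
  have h1 : ∀ k ∈ S.filter (fun k => x < k * m ∧ k * m ≤ x + l),
      ((((Icc 1 X).filter (fun q => x < k * q ∧ k * q ≤ x + l)).card : ℕ) : ℝ) ≤
        (l : ℝ) * m / x + 1 := by
    intro k hk
    rw [mem_filter] at hk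
    have hk0 : 1 ≤ k := by
      rcases Nat.eq_zero_or_pos k with h | h
      · rw [h, zero_mul] at hk
        exact absurd hk.2.1 (Nat.not_lt_zero _)
      · exact h
    have hkR : (0 : ℝ) < k := by exact_mod_cast hk0
    have h2 := eqB_card (x := x) (l := l) hk0 (Icc 1 X)
    have h3 : (Icc 1 X).filter (fun q => x < k * q ∧ k * q ≤ x + l) =
        (Icc 1 X).filter (fun q => x < q * k ∧ q * k ≤ x + l) := by
      refine filter_congr fun q _ => ?_
      rw [mul_comm k q]
    rw [h3]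
    have h4 : (l : ℝ) / k ≤ l * m / x := by
      rw [div_le_div_iff₀ hkR hxR]
      have h5 : (x : ℝ) ≤ k * m := by exact_mod_cast hk.2.1.le
      have h6 : (0 : ℝ) ≤ l := Nat.cast_nonneg _
      nlinarith
    linarith
  refine (sum_le_sum h1).trans ?_
  rw [sum_const, nsmul_eq_mul]
  exact mul_le_mul_of_nonneg_right (eqB_card hm S) (by positivity)

/-- the primes `q` with `x < k q ≤ x + l`, `k q ≡ a` -/
private def eqBS (x l a c k : ℕ) : Finset ℕ :=
  (Icc 1 (x + l)).filter (fun q => q.Prime ∧ x < k * q ∧ k * q ≤ x + l ∧ k * q ≡ a [MOD c])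

private theorem eqB_swap {x l : ℕ} (a c : ℕ) (F : ℕ → ℕ → ℝ) :
    ∑ k ∈ (Ioc x (x + l)).filter (fun k => k ≡ a [MOD c]), ∑ q ∈ k.primeFactors, F (k / q) q =
      ∑ k ∈ Icc 1 (x + l), ∑ q ∈ eqBS x l a c k, F k q := by
  rw [sum_sigma', sum_sigma']
  refine sum_nbij' (fun p => ⟨p.1 / p.2, p.2⟩) (fun p => ⟨p.1 * p.2, p.2⟩) ?_ ?_ ?_ ?_ ?_
  · rintro ⟨k, q⟩ h
    rw [mem_sigma, mem_filter, mem_Ioc, Nat.mem_primeFactors] at h
    obtain ⟨⟨⟨h1, h2⟩, h3⟩, h4, h5, h6⟩ := h
    simp only at h1 h2 h3 h4 h5 h6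
    rw [mem_sigma, eqBS, mem_filter, mem_Icc, mem_Icc]
    have h7 : k / q * q = k := Nat.div_mul_cancel h5
    have h8 : q ≤ k := Nat.le_of_dvd (by omega) h5
    refine ⟨⟨Nat.div_pos h8 h4.pos, (Nat.div_le_self k q).trans h2⟩,
      ⟨h4.pos, h8.trans h2⟩, h4, ?_, ?_, ?_⟩
    · simp only [h7]; exact h1
    · simp only [h7]; exact h2
    · simp only [h7]; exact h3
  · rintro ⟨k, q⟩ h
    rw [mem_sigma, eqBS, mem_filter, mem_Icc, mem_Icc] at h
    obtain ⟨⟨h1, h2⟩, ⟨h3, h4⟩, h5, h6, h7, h8⟩ := h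
    simp only at h1 h2 h3 h4 h5 h6 h7 h8
    rw [mem_sigma, mem_filter, mem_Ioc, Nat.mem_primeFactors]
    exact ⟨⟨⟨h6, h7⟩, h8⟩, h5, dvd_mul_left q k, by simp only; positivity⟩
  · rintro ⟨k, q⟩ h
    rw [mem_sigma, mem_filter, mem_Ioc, Nat.mem_primeFactors] at h
    obtain ⟨⟨⟨h1, h2⟩, h3⟩, h4, h5, h6⟩ := h
    simp only at h5 ⊢
    rw [Nat.div_mul_cancel h5]
  · rintro ⟨k, q⟩ h
    rw [mem_sigma, eqBS, mem_filter, mem_Icc, mem_Icc] at h
    obtain ⟨⟨h1, h2⟩, ⟨h3, h4⟩, h5, h6, h7, h8⟩ := h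
    simp only at h3 ⊢
    rw [Nat.mul_div_cancel k h3]
  · rintro ⟨k, q⟩ _
    rfl

/-! ### the two sets of weights -/

private theorem eqB_cmp {x l y J a c : ℕ} (hx : 1 ≤ x) (hy : 1 ≤ y) (hz : 1 ≤ zz y J) :
    |∑ k ∈ Icc 1 (x + l), ∑ q ∈ eqBS x l a c k, Real.log q * eqBw y J k q
      - ∑ k ∈ Icc 1 (x / y), eqBom y J x k * ∑ q ∈ eqBS x l a c k, Real.log q| ≤
      Real.log ((x : ℝ) + l) *
        (((l : ℝ) / (zz y J : ℕ) + 1) * (l * (zz y J : ℕ) / x + 1) +
          ((l : ℝ) / y + 1) * (l * y / x + 1)) := by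
  have hL : 0 ≤ Real.log ((x : ℝ) + l) := by
    have := Real.log_natCast_nonneg (x + l)
    push_cast at this
    exact this
  have hlog : ∀ k, ∀ q ∈ eqBS x l a c k, Real.log q ≤ Real.log ((x : ℝ) + l) := by
    intro k q hq
    rw [eqBS, mem_filter, mem_Icc] at hq
    have h1 : ((q : ℕ) : ℝ) ≤ (x : ℝ) + l := by exact_mod_cast hq.1.2
    exact Real.log_le_log (by exact_mod_cast hq.1.1) h1
  have hlog0 : ∀ q : ℕ, 0 ≤ Real.log q := fun q => Real.log_natCast_nonneg q
  have hsplit : ∑ k ∈ Icc 1 (x + l), ∑ q ∈ eqBS x l a c k, Real.log q * eqBw y J k q =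
      ∑ k ∈ Icc 1 (x / y), ∑ q ∈ eqBS x l a c k, Real.log q * eqBw y J k q +
        ∑ k ∈ Ioc (x / y) (x + l), ∑ q ∈ eqBS x l a c k, Real.log q * eqBw y J k q := by
    have h1 : ∀ n : ℕ, Icc 1 n = Ioc 0 n := fun n => by ext i; simp; omega
    rw [h1, h1, sum_Ioc_consecutive _ (Nat.zero_le _)
      ((Nat.div_le_self x y).trans (Nat.le_add_right x l))]
  have hcard : ∀ k, ((eqBS x l a c k).card : ℝ) ≤
      ((((Icc 1 (x + l)).filter (fun q => x < k * q ∧ k * q ≤ x + l)).card : ℕ) : ℝ) := by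
    intro k
    have h1 : eqBS x l a c k ⊆ (Icc 1 (x + l)).filter (fun q => x < k * q ∧ k * q ≤ x + l) := by
      intro q hq
      rw [eqBS, mem_filter] at hq
      rw [mem_filter]
      exact ⟨hq.1, hq.2.2.1, hq.2.2.2.1⟩
    exact_mod_cast card_le_card h1
  -- the first part
  have hP1 : |∑ k ∈ Icc 1 (x / y), ∑ q ∈ eqBS x l a c k, Real.log q * eqBw y J k q
      - ∑ k ∈ Icc 1 (x / y), eqBom y J x k * ∑ q ∈ eqBS x l a c k, Real.log q| ≤
      Real.log ((x : ℝ) + l) * (((l : ℝ) / (zz y J : ℕ) + 1) * (l * (zz y J : ℕ) / x + 1)) := by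
    rw [← sum_sub_distrib]
    refine (abs_sum_le_sum_abs _ _).trans ?_
    have h1 : ∀ k ∈ Icc 1 (x / y), |∑ q ∈ eqBS x l a c k, Real.log q * eqBw y J k q
        - eqBom y J x k * ∑ q ∈ eqBS x l a c k, Real.log q| ≤
        if x < k * zz y J ∧ k * zz y J ≤ x + l then Real.log ((x : ℝ) + l) *
          ((((Icc 1 (x + l)).filter (fun q => x < k * q ∧ k * q ≤ x + l)).card : ℕ) : ℝ)
        else 0 := by
      intro k hk
      rw [mem_Icc] at hk
      have hky : k * y ≤ x := (Nat.le_div_iff_mul_le hy).1 hk.2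
      have h2 : ∑ q ∈ eqBS x l a c k, Real.log q * eqBw y J k q
          - eqBom y J x k * ∑ q ∈ eqBS x l a c k, Real.log q =
          ∑ q ∈ eqBS x l a c k, Real.log q * (eqBw y J k q - eqBom y J x k) := by
        rw [mul_sum, ← sum_sub_distrib]
        refine sum_congr rfl fun q _ => ?_
        ring
      rw [h2]
      split_ifs with h3
      · refine (abs_sum_le_sum_abs _ _).trans ?_
        have h4 : ∀ q ∈ eqBS x l a c k, |Real.log q * (eqBw y J k q - eqBom y J x k)| ≤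
            Real.log ((x : ℝ) + l) := by
          intro q hq
          rw [abs_mul, abs_of_nonneg (hlog0 q)]
          have h5 : |eqBw y J k q - eqBom y J x k| ≤ 1 := by
            have := eqBw_nonneg y J k q
            have := eqBw_le y J k q
            have := eqBom_nonneg y J x k
            have := eqBom_le y J x k
            rw [abs_le]
            constructor <;> linarith
          calc Real.log q * |eqBw y J k q - eqBom y J x k| ≤ Real.log q * 1 :=
                mul_le_mul_of_nonneg_left h5 (hlog0 q)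
            _ ≤ Real.log ((x : ℝ) + l) := by rw [mul_one]; exact hlog k q hq
        refine (sum_le_sum h4).trans ?_
        rw [sum_const, nsmul_eq_mul, mul_comm]
        exact mul_le_mul_of_nonneg_left (hcard k) hL
      · have h4 : ∀ q ∈ eqBS x l a c k, Real.log q * (eqBw y J k q - eqBom y J x k) = 0 := by
          intro q hq
          rw [eqBS, mem_filter] at hq
          obtain ⟨-, -, h5, h6, -⟩ := hq
          have hyq : y < q := by
            by_contra h7
            have h8 : k * q ≤ k * y := Nat.mul_le_mul_left k (not_lt.1 h7)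
            omega
          have h9 : (q ≤ zz y J) ↔ (x < k * zz y J) := by
            constructor
            · intro h7
              exact h5.trans_le (Nat.mul_le_mul_left k h7)
            · intro h7
              by_contra h8
              have h10 : x + l < k * zz y J := by
                by_contra h11
                exact h3 ⟨h7, not_lt.1 h11⟩
              have h11 : k * zz y J ≤ k * q := Nat.mul_le_mul_left k (not_le.1 h8).le
              omega
          have h10 : eqBw y J k q = eqBom y J x k := by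
            unfold eqBw eqBom
            rw [if_pos hyq]
            by_cases h11 : q ≤ zz y J
            · rw [if_pos h11, if_pos (h9.1 h11)]
            · rw [if_neg h11, if_neg (fun h12 => h11 (h9.2 h12))]
          rw [h10, sub_self, mul_zero]
        rw [sum_eq_zero h4, abs_zero]
    refine (sum_le_sum h1).trans ?_
    rw [← sum_filter, ← mul_sum]
    exact mul_le_mul_of_nonneg_left (eqB_dw hx hz _) hL
  -- the second part
  have hP2 : |∑ k ∈ Ioc (x / y) (x + l), ∑ q ∈ eqBS x l a c k, Real.log q * eqBw y J k q| ≤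
      Real.log ((x : ℝ) + l) * (((l : ℝ) / y + 1) * (l * y / x + 1)) := by
    refine (abs_sum_le_sum_abs _ _).trans ?_
    have h1 : ∀ k ∈ Ioc (x / y) (x + l), |∑ q ∈ eqBS x l a c k, Real.log q * eqBw y J k q| ≤
        if x < k * y ∧ k * y ≤ x + l then Real.log ((x : ℝ) + l) *
          ((((Icc 1 (x + l)).filter (fun q => x < k * q ∧ k * q ≤ x + l)).card : ℕ) : ℝ)
        else 0 := by
      intro k hk
      rw [mem_Ioc] at hk
      have hky : x < k * y := (Nat.div_lt_iff_lt_mul hy).1 hk.1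
      split_ifs with h3
      · refine (abs_sum_le_sum_abs _ _).trans ?_
        have h4 : ∀ q ∈ eqBS x l a c k, |Real.log q * eqBw y J k q| ≤
            Real.log ((x : ℝ) + l) := by
          intro q hq
          rw [abs_mul, abs_of_nonneg (hlog0 q), abs_of_nonneg (eqBw_nonneg y J k q)]
          calc Real.log q * eqBw y J k q ≤ Real.log q * 1 :=
                mul_le_mul_of_nonneg_left (eqBw_le y J k q) (hlog0 q)
            _ ≤ Real.log ((x : ℝ) + l) := by rw [mul_one]; exact hlog k q hq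
        refine (sum_le_sum h4).trans ?_
        rw [sum_const, nsmul_eq_mul, mul_comm]
        exact mul_le_mul_of_nonneg_left (hcard k) hL
      · have h4 : ∀ q ∈ eqBS x l a c k, Real.log q * eqBw y J k q = 0 := by
          intro q hq
          rw [eqBS, mem_filter] at hq
          obtain ⟨-, -, h5, h6, -⟩ := hq
          have hyq : ¬ y < q := by
            intro h7
            have h8 : k * y ≤ k * q := Nat.mul_le_mul_left k h7.le
            exact h3 ⟨hky, h8.trans h6⟩
          unfold eqBw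
          rw [if_neg hyq, mul_zero]
        rw [sum_eq_zero h4, abs_zero]
    refine (sum_le_sum h1).trans ?_
    rw [← sum_filter, ← mul_sum]
    exact mul_le_mul_of_nonneg_left (eqB_dw hx hy _) hL
  rw [hsplit, mul_add]
  have h5 : ∀ u v w : ℝ, u + v - w = (u - w) + v := fun u v w => by ring
  rw [h5]
  exact (abs_add_le _ _).trans (add_le_add hP1 hP2)

/-! ### the primes for a fixed cofactor -/

private theorem eqB_psi_sub {Y1 Y2 c a : ℕ} (h : Y1 ≤ Y2) :
    psiA Y2 c a - psiA Y1 c a = ∑ n ∈ (Ioc Y1 Y2).filter (fun n => n ≡ a [MOD c]), Lam n := by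
  have h1 : ∀ n : ℕ, Icc 1 n = Ioc 0 n := fun n => by ext i; simp; omega
  unfold psiA
  rw [h1, h1, sum_filter, sum_filter, sum_filter,
    ← sum_Ioc_consecutive _ (Nat.zero_le Y1) h]
  ring

private theorem eqB_nonprime {Y1 Y2 c a : ℕ} (hY : 1 ≤ Y2) :
    0 ≤ ∑ n ∈ ((Ioc Y1 Y2).filter (fun n => n ≡ a [MOD c])).filter (fun n => ¬ n.Prime), Lam n ∧
    ∑ n ∈ ((Ioc Y1 Y2).filter (fun n => n ≡ a [MOD c])).filter (fun n => ¬ n.Prime), Lam n ≤
      2 * Real.sqrt Y2 * Real.log Y2 := by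
  have hnn : ∀ n : ℕ, 0 ≤ Lam n := fun n => ArithmeticFunction.vonMangoldt_nonneg
  refine ⟨sum_nonneg fun n _ => hnn n, ?_⟩
  have h1 := Chebyshev.psi_sub_theta_eq_sum_not_prime (Y2 : ℝ)
  have h2 := Chebyshev.psi_sub_theta_le (x := (Y2 : ℝ)) (by exact_mod_cast hY)
  rw [h1, Nat.floor_natCast] at h2
  refine le_trans ?_ h2
  refine sum_le_sum_of_subset_of_nonneg ?_ fun n _ _ => hnn n
  intro n hn
  rw [mem_filter, mem_filter, mem_Ioc] at hn
  rw [mem_filter, mem_Ioc]
  exact ⟨⟨by omega, hn.1.1.2⟩, hn.2⟩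

private theorem eqB_inv {a c k : ℕ} (hc : 1 ≤ c) (hk : Nat.Coprime k c) (ha : Nat.Coprime a c) :
    ∃ a' : ℕ, Nat.Coprime a' c ∧ ∀ q : ℕ, k * q ≡ a [MOD c] ↔ q ≡ a' [MOD c] := by
  have : NeZero c := ⟨by omega⟩
  have hku : IsUnit (k : ZMod c) := (ZMod.isUnit_iff_coprime k c).mpr hk
  have hau : IsUnit (a : ZMod c) := (ZMod.isUnit_iff_coprime a c).mpr ha
  obtain ⟨u, hu⟩ := hku
  refine ⟨((a : ZMod c) * (↑u⁻¹ : ZMod c)).val, ?_, fun q => ?_⟩
  · rw [← ZMod.isUnit_iff_coprime, ZMod.natCast_zmod_val]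
    exact hau.mul (Units.isUnit _)
  · rw [← ZMod.natCast_eq_natCast_iff, ← ZMod.natCast_eq_natCast_iff, ZMod.natCast_zmod_val,
      Nat.cast_mul, ← hu]
    constructor
    · intro h
      rw [← h, mul_comm (u : ZMod c), mul_assoc, Units.mul_inv, mul_one]
    · intro h
      rw [h, mul_comm (a : ZMod c), ← mul_assoc, Units.mul_inv, one_mul]

private theorem eqB_pr {x l a c k : ℕ} (hk : 1 ≤ k) (hc : 1 ≤ c) (hkc : Nat.Coprime k c)
    (ha : Nat.Coprime a c) (hY : 1 ≤ (x + l) / k) {E : ℝ}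
    (hE : ∀ a' : ℕ, Nat.Coprime a' c → ∀ Y : ℕ, Y ≤ (x + l) / k →
      |psiA Y c a' - Y / (c.totient : ℝ)| ≤ E) :
    |∑ q ∈ eqBS x l a c k, Real.log q - (l : ℝ) / k / c.totient| ≤
      2 * E + 1 + 2 * Real.sqrt ((x + l) / k : ℕ) * Real.log ((x + l) / k : ℕ) := by
  obtain ⟨a', ha', hiff⟩ := eqB_inv hc hkc ha
  set Y1 : ℕ := x / k with hY1
  set Y2 : ℕ := (x + l) / k with hY2
  have hkR : (0 : ℝ) < k := by exact_mod_cast hk
  have h12 : Y1 ≤ Y2 := Nat.div_le_div_right (Nat.le_add_right _ _)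
  have hφ : 0 < c.totient := Nat.totient_pos.mpr hc
  have hφ1 : (1 : ℝ) ≤ c.totient := by exact_mod_cast hφ
  have hφ0 : (0 : ℝ) < c.totient := by exact_mod_cast hφ
  have h1 : ∑ q ∈ eqBS x l a c k, Real.log q =
      ∑ n ∈ ((Ioc Y1 Y2).filter (fun n => n ≡ a' [MOD c])).filter (fun n => n.Prime), Lam n := by
    have h2 : eqBS x l a c k =
        ((Ioc Y1 Y2).filter (fun n => n ≡ a' [MOD c])).filter (fun n => n.Prime) := by
      ext q
      rw [eqBS, mem_filter, mem_filter, mem_filter, mem_Icc, mem_Ioc, hiff q, hY1, hY2,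
        Nat.div_lt_iff_lt_mul hk, Nat.le_div_iff_mul_le hk, mul_comm q k]
      constructor
      · rintro ⟨⟨h3, h4⟩, h5, h6, h7, h8⟩
        exact ⟨⟨⟨h6, h7⟩, h8⟩, h5⟩
      · rintro ⟨⟨⟨h6, h7⟩, h8⟩, h5⟩
        refine ⟨⟨h5.pos, ?_⟩, h5, h6, h7, h8⟩
        exact (Nat.le_mul_of_pos_left q hk).trans h7
    rw [h2]
    refine sum_congr rfl fun n hn => ?_
    rw [mem_filter] at hn
    exact (ArithmeticFunction.vonMangoldt_apply_prime hn.2).symm
  have h3 := sum_filter_add_sum_filter_not ((Ioc Y1 Y2).filter (fun n => n ≡ a' [MOD c]))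
    (fun n => n.Prime) Lam
  rw [← eqB_psi_sub h12] at h3
  obtain ⟨h4, h5⟩ := eqB_nonprime (Y1 := Y1) (c := c) (a := a') hY
  have h6 := hE a' ha' Y2 le_rfl
  have h7 := hE a' ha' Y1 h12
  rw [← h1] at h3
  have h8 : |((Y2 : ℝ) - Y1) - l / k| ≤ 1 := by
    have g1 : (Y2 : ℝ) ≤ ((x + l : ℕ) : ℝ) / k := Nat.cast_div_le
    have g2 : (Y1 : ℝ) ≤ (x : ℝ) / k := Nat.cast_div_le
    have g3 : (x : ℝ) / k < (Y1 : ℝ) + 1 := by
      rw [div_lt_iff₀ hkR]
      have h5 : x < (x / k + 1) * k := by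
        have := Nat.lt_div_mul_add (a := x) hk
        rw [add_mul, one_mul]
        exact this
      exact_mod_cast h5
    have g4 : ((x + l : ℕ) : ℝ) / k < (Y2 : ℝ) + 1 := by
      rw [div_lt_iff₀ hkR]
      have h5 : x + l < ((x + l) / k + 1) * k := by
        have := Nat.lt_div_mul_add (a := x + l) hk
        rw [add_mul, one_mul]
        exact this
      exact_mod_cast h5
    push_cast at g1 g4
    rw [add_div] at g1 g4
    rw [abs_le]
    constructor <;> linarith
  have h9 : |(((Y2 : ℝ) - Y1) - l / k) / c.totient| ≤ 1 := by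
    rw [abs_div, abs_of_pos hφ0, div_le_one hφ0]
    exact h8.trans hφ1
  have h10 : ∑ q ∈ eqBS x l a c k, Real.log q - (l : ℝ) / k / c.totient =
      (psiA Y2 c a' - Y2 / (c.totient : ℝ)) - (psiA Y1 c a' - Y1 / (c.totient : ℝ)) +
        (((Y2 : ℝ) - Y1) - l / k) / c.totient -
        ∑ n ∈ ((Ioc Y1 Y2).filter (fun n => n ≡ a' [MOD c])).filter (fun n => ¬ n.Prime),
          Lam n := by
    have h11 : (((Y2 : ℝ) - Y1) - l / k) / c.totient =
        (Y2 : ℝ) / c.totient - Y1 / c.totient - l / k / c.totient := by ring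
    rw [h11]
    linarith
  rw [h10]
  rw [abs_le] at h6 h7 h9 ⊢
  constructor <;> linarith [h6.1, h6.2, h7.1, h7.2, h9.1, h9.2]

/-- the sum over the cofactors -/
private theorem eqB_sum_pr {x l a c y J : ℕ} (hx : 1 ≤ x) (hl : l ≤ x) (hy : 2 ≤ y) (hcy : c ≤ y)
    (hc : 1 ≤ c) (ha : Nat.Coprime a c) {e : ℝ} (he : 0 ≤ e)
    (hE : ∀ X : ℕ, y ≤ X → X ≤ 2 * x → ∀ a' : ℕ, Nat.Coprime a' c → ∀ Y : ℕ, Y ≤ X →
      |psiA Y c a' - Y / (c.totient : ℝ)| ≤ X * e) :
    |∑ k ∈ Icc 1 (x / y), eqBom y J x k * ∑ q ∈ eqBS x l a c k, Real.log q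
      - ∑ k ∈ Icc 1 (x / y), eqBom y J x k * ((l : ℝ) / k / c.totient)| ≤
      2 * x * (2 * e + 1 / y + 2 * Real.log (2 * x) / Real.sqrt y) * (1 + Real.log x) := by
  have hxR : (0 : ℝ) < x := by exact_mod_cast hx
  have hyR : (0 : ℝ) < y := by exact_mod_cast (by omega : 0 < y)
  have hsy : 0 < Real.sqrt y := Real.sqrt_pos.2 hyR
  have hlog2x : 0 ≤ Real.log (2 * x) := by
    have := Real.log_natCast_nonneg (2 * x)
    push_cast at this
    exact this
  set δ : ℝ := 2 * e + 1 / y + 2 * Real.log (2 * x) / Real.sqrt y with hδ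
  have hδ0 : 0 ≤ δ := by positivity
  rw [← sum_sub_distrib]
  refine (abs_sum_le_sum_abs _ _).trans ?_
  have h1 : ∀ k ∈ Icc 1 (x / y), |eqBom y J x k * ∑ q ∈ eqBS x l a c k, Real.log q
      - eqBom y J x k * ((l : ℝ) / k / c.totient)| ≤ 2 * x * δ * (k : ℝ)⁻¹ := by
    intro k hk
    rw [mem_Icc] at hk
    have hkR : (0 : ℝ) < k := by exact_mod_cast hk.1
    have hky : k * y ≤ x := (Nat.le_div_iff_mul_le (by omega)).1 hk.2
    rw [← mul_sub, abs_mul, abs_of_nonneg (eqBom_nonneg y J x k)]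
    rcases eqB_rg_cases y k with h0 | h0
    · have h2 : eqBom y J x k = 0 := by
        unfold eqBom
        rw [h0, zero_div]
      rw [h2, zero_mul]
      positivity
    · have hkc : Nat.Coprime k c := by
        by_contra h2
        obtain ⟨p, hp, hpk, hpc⟩ := Nat.Prime.not_coprime_iff_dvd.1 h2
        have h3 := eqB_rg_one.1 h0 p hp hpk
        have h4 : p ≤ c := Nat.le_of_dvd hc hpc
        omega
      set X : ℕ := (x + l) / k with hX
      have hyX : y ≤ X := by
        rw [hX, Nat.le_div_iff_mul_le hk.1, mul_comm]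
        omega
      have hXle : (X : ℝ) ≤ 2 * x / k := by
        have g1 : (X : ℝ) ≤ ((x + l : ℕ) : ℝ) / k := Nat.cast_div_le
        refine g1.trans ?_
        push_cast
        have g2 : (l : ℝ) ≤ x := by exact_mod_cast hl
        gcongr
        linarith
      have hX2 : X ≤ 2 * x := (Nat.div_le_self _ _).trans (by omega)
      have hXR : (0 : ℝ) < X := by exact_mod_cast (by omega : 0 < X)
      have hyXR : (y : ℝ) ≤ X := by exact_mod_cast hyX
      have h5 := eqB_pr (x := x) (l := l) hk.1 hc hkc ha (by omega) (E := X * e)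
        (fun a' ha' Y hY' => hE X hyX hX2 a' ha' Y hY')
      rw [← hX] at h5
      have h6 : 2 * (X * e) + 1 + 2 * Real.sqrt X * Real.log X ≤ X * δ := by
        have g1 : (1 : ℝ) ≤ X * (1 / y) := by
          rw [mul_one_div, one_le_div hyR]
          exact hyXR
        have g2 : Real.sqrt X ≤ X / Real.sqrt y := by
          rw [le_div_iff₀ hsy]
          calc Real.sqrt X * Real.sqrt y ≤ Real.sqrt X * Real.sqrt X :=
                mul_le_mul_of_nonneg_left (Real.sqrt_le_sqrt hyXR) (Real.sqrt_nonneg _)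
            _ = X := Real.mul_self_sqrt hXR.le
        have g3 : Real.log X ≤ Real.log (2 * x) := by
          refine Real.log_le_log hXR ?_
          exact_mod_cast hX2
        have g4 : 0 ≤ Real.log X := Real.log_natCast_nonneg X
        have g5 : 2 * Real.sqrt X * Real.log X ≤
            2 * (X / Real.sqrt y) * Real.log (2 * x) := by
          have g6 : 0 ≤ Real.sqrt X := Real.sqrt_nonneg _
          have g7 : 0 ≤ X / Real.sqrt y := by positivity
          gcongr
        have g8 : X * δ = 2 * (X * e) + X * (1 / y) +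
            2 * (X / Real.sqrt y) * Real.log (2 * x) := by
          rw [hδ]
          ring
        rw [g8]
        linarith
      have h7 : X * δ ≤ 2 * x * δ * (k : ℝ)⁻¹ := by
        calc X * δ ≤ 2 * x / k * δ := mul_le_mul_of_nonneg_right hXle hδ0
          _ = 2 * x * δ * (k : ℝ)⁻¹ := by ring
      have h8 := eqBom_le y J x k
      have h9 := (h5.trans h6).trans h7
      calc eqBom y J x k * |∑ q ∈ eqBS x l a c k, Real.log q - (l : ℝ) / k / c.totient|
          ≤ 1 * (2 * x * δ * (k : ℝ)⁻¹) :=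
            mul_le_mul h8 h9 (abs_nonneg _) zero_le_one
        _ = 2 * x * δ * (k : ℝ)⁻¹ := one_mul _
  refine (sum_le_sum h1).trans ?_
  rw [← mul_sum]
  refine mul_le_mul_of_nonneg_left ?_ (by positivity)
  have h2 := harmonic_le_one_add_log (x / y)
  rw [harmonic_eq_sum_Icc] at h2
  push_cast at h2
  refine h2.trans ?_
  have h3 : Real.log ((x / y : ℕ) : ℝ) ≤ Real.log x := by
    rcases Nat.eq_zero_or_pos (x / y) with h | h
    · rw [h, Nat.cast_zero, Real.log_zero]
      exact Real.log_natCast_nonneg x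
    · exact Real.log_le_log (by exact_mod_cast h) (by exact_mod_cast Nat.div_le_self x y)
  linarith

/-! ### sizes -/

private theorem eqB_ev (β e1 ζ C : ℝ) (he1 : 0 < e1) (hβ : 0 < β) (hζ2 : ζ < β) (M x0 : ℕ) :
    ∃ N0 : ℕ, ∀ N : ℕ, N0 ≤ N → 2 ≤ N ∧ 12 ≤ Real.log N ∧ C ≤ Real.log N ∧
      2 ≤ yN e1 N ∧ x0 ≤ yN e1 N ∧ 108 * Real.log N ^ M ≤ Real.sqrt (yN e1 N) ∧
      108 * Real.log N ^ M * (N : ℝ) ^ ζ ≤ (N : ℝ) ^ β ∧
      108 * Real.log N ^ M ≤ (N : ℝ) ^ (β / 2) ∧ e1 / 2 * Real.log N ≤ Real.log (yN e1 N) := by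
  set s : ℝ := min (e1 / 4) (min (β - ζ) (β / 2)) with hs
  have hs0 : 0 < s := by
    rw [hs]
    refine lt_min (by positivity) (lt_min (by linarith) (by linarith))
  have hcast := tendsto_natCast_atTop_atTop (R := ℝ)
  have hlog : Filter.Tendsto (fun N : ℕ => Real.log (N : ℝ)) Filter.atTop Filter.atTop :=
    Real.tendsto_log_atTop.comp hcast
  have h1 : ∀ᶠ N : ℕ in Filter.atTop, 2 ≤ N := Filter.eventually_ge_atTop 2
  have h2 : ∀ᶠ N : ℕ in Filter.atTop, 12 ≤ Real.log N := hlog.eventually_ge_atTop 12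
  have h3 : ∀ᶠ N : ℕ in Filter.atTop, C ≤ Real.log N := hlog.eventually_ge_atTop C
  have h4 : ∀ᶠ N : ℕ in Filter.atTop, 2 + (x0 : ℝ) ≤ (N : ℝ) ^ (e1 / 2) :=
    ((tendsto_rpow_atTop (by positivity)).comp hcast).eventually_ge_atTop _
  have h5 : ∀ᶠ N : ℕ in Filter.atTop, 108 * Real.log N ^ M ≤ (N : ℝ) ^ s := by
    have h6 := (isLittleO_log_rpow_rpow_atTop (M : ℝ) hs0).bound
      (show (0 : ℝ) < 1 / 108 by norm_num)
    have h7 := hcast.eventually h6
    filter_upwards [h7, h1, h2] with N h8 h9 h10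
    rw [Real.norm_eq_abs, Real.norm_eq_abs, Real.rpow_natCast,
      abs_of_nonneg (by positivity), abs_of_nonneg (by positivity)] at h8
    linarith
  obtain ⟨N0, hN0⟩ := Filter.eventually_atTop.1 (h1.and (h2.and (h3.and (h4.and h5))))
  refine ⟨N0, fun N hN => ?_⟩
  obtain ⟨g1, g2, g3, g4, g5⟩ := hN0 N hN
  have hNR : (1 : ℝ) ≤ N := by exact_mod_cast (by omega : 1 ≤ N)
  have hN0' : (0 : ℝ) < N := by linarith
  set t : ℝ := (N : ℝ) ^ (e1 / 2) with ht
  have hx0 : (0 : ℝ) ≤ x0 := Nat.cast_nonneg _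
  have ht2 : 2 ≤ t := by linarith
  have hyt : t ≤ yN e1 N := by
    have g6 : (N : ℝ) ^ e1 = t * t := by
      rw [ht, ← Real.rpow_add hN0']
      congr 1
      ring
    have g7 : (N : ℝ) ^ e1 < (yN e1 N : ℝ) + 1 := by
      unfold yN
      exact Nat.lt_floor_add_one _
    nlinarith
  have hst : (N : ℝ) ^ s ≤ Real.sqrt (yN e1 N) := by
    have g6 : (N : ℝ) ^ s ≤ (N : ℝ) ^ (e1 / 4) :=
      Real.rpow_le_rpow_of_exponent_le hNR (min_le_left _ _)
    have g7 : (N : ℝ) ^ (e1 / 4) = Real.sqrt t := by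
      rw [ht, Real.sqrt_eq_rpow, ← Real.rpow_mul hN0'.le]
      congr 1
      ring
    rw [g7] at g6
    exact g6.trans (Real.sqrt_le_sqrt hyt)
  refine ⟨g1, g2, g3, ?_, ?_, g5.trans hst, ?_, ?_, ?_⟩
  · exact_mod_cast ht2.trans hyt
  · have : (x0 : ℝ) ≤ yN e1 N := by linarith
    exact_mod_cast this
  · have g6 : (N : ℝ) ^ s ≤ (N : ℝ) ^ (β - ζ) :=
      Real.rpow_le_rpow_of_exponent_le hNR ((min_le_right _ _).trans (min_le_left _ _))
    have g7 : (N : ℝ) ^ β = (N : ℝ) ^ (β - ζ) * (N : ℝ) ^ ζ := by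
      rw [← Real.rpow_add hN0']
      congr 1
      ring
    rw [g7]
    exact mul_le_mul_of_nonneg_right (g5.trans g6) (by positivity)
  · exact g5.trans (Real.rpow_le_rpow_of_exponent_le hNR
      ((min_le_right _ _).trans (min_le_right _ _)))
  · have g6 : Real.log t ≤ Real.log (yN e1 N) := Real.log_le_log (by linarith) hyt
    rwa [ht, Real.log_rpow hN0'] at g6

private theorem eqB_dwb {L u l m x : ℝ} (hL : 12 ≤ L) (hu : 1 ≤ u) (hl : 0 ≤ l) (hx : 0 < x)
    (hm : 12 * (L * u) ≤ m) (hmx : 12 * (L * u) * m ≤ x) (hlx : l * (L ^ 3 * u) ≤ x)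
    (hul : 12 * (L * u) ≤ l) :
    3 * L * ((l / m + 1) * (l * m / x + 1)) ≤ l / u := by
  have hL0 : 0 < L := by linarith
  have hu0 : 0 < u := by linarith
  have hLu : 0 < L * u := by positivity
  have hm0 : 0 < m := by linarith
  have e1 : 3 * L * ((l / m + 1) * (l * m / x + 1)) =
      3 * L * (l * l / x) + 3 * L * (l / m) + 3 * L * (l * m / x) + 3 * L := by
    field_simp
    ring
  have e2 : 3 * L * (l * l / x) ≤ l / (4 * u) := by
    rw [mul_div_assoc', div_le_div_iff₀ hx (by positivity)]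
    have h1 : 12 * L ≤ L ^ 3 := by nlinarith [sq_nonneg L, sq_nonneg (L - 12)]
    have h2 : 12 * L * (l * u) ≤ L ^ 3 * (l * u) :=
      mul_le_mul_of_nonneg_right h1 (by positivity)
    have h3 : l * (12 * L * (l * u)) ≤ l * x := mul_le_mul_of_nonneg_left (by linarith) hl
    linarith
  have e3 : 3 * L * (l / m) ≤ l / (4 * u) := by
    rw [mul_div_assoc', div_le_div_iff₀ hm0 (by positivity)]
    have h3 : l * (12 * (L * u)) ≤ l * m := mul_le_mul_of_nonneg_left hm hl
    linarith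
  have e4 : 3 * L * (l * m / x) ≤ l / (4 * u) := by
    rw [mul_div_assoc', div_le_div_iff₀ hx (by positivity)]
    have h3 : l * (12 * (L * u) * m) ≤ l * x := mul_le_mul_of_nonneg_left hmx hl
    linarith
  have e5 : 3 * L ≤ l / (4 * u) := by
    rw [le_div_iff₀ (by positivity)]
    linarith
  have e6 : l / (4 * u) = l / u / 4 := by
    field_simp
  rw [e1]
  rw [e6] at e2 e3 e4 e5
  linarith

/-- the general form, `x ≥ N^β` for any `β > ζ` -/
theorem eq_bg (β e1 ζ : ℝ) (he1 : 0 < e1) (hζ : e1 < ζ) (hζ2 : ζ < β) (A B K : ℕ) :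
    ∃ N0 : ℕ, ∀ N : ℕ, N0 ≤ N → ∀ J x l c a : ℕ, (zz (yN e1 N) J : ℝ) ≤ (N : ℝ) ^ ζ →
      (N : ℝ) ^ β ≤ x → x ≤ N ^ 2 → (x : ℝ) / Real.log N ^ K ≤ l →
      (l : ℝ) ≤ x / Real.log N ^ (A + 3) → 1 ≤ c → (c : ℝ) ≤ Real.log N ^ B →
      |∑ k ∈ (Ioc x (x + l)).filter (fun k => k ≡ a [MOD c]), bf (yN e1 N) J k
        - (if Nat.Coprime a c then (l : ℝ) * kap (yN e1 N) J x / c.totient else 0)| ≤
          l / Real.log N ^ A := by
  obtain ⟨x0, hx0⟩ := psi_ap (B + 1) (A + K + 2)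
  have hβ : 0 < β := by linarith
  obtain ⟨N0, hN0⟩ := eqB_ev β e1 ζ
    (36 * (2 / e1) ^ (A + K + 2) + (2 / e1) ^ (B + 1) + 5 / β) he1 hβ hζ2 (A + B + K + 2) x0
  refine ⟨N0, fun N hN J x l c a hzN hxN hxN2 hl1 hl2 hc hcB => ?_⟩
  obtain ⟨hN2, hL12, hLC, hy2, hyx0, hsy, hNz, hN4, hlogy⟩ := hN0 N hN
  set L : ℝ := Real.log N with hLdef
  set y : ℕ := yN e1 N with hydef
  set u : ℝ := L ^ A with hu
  set v : ℝ := L ^ K with hv
  have hL0 : 0 < L := by linarith
  have hL1 : 1 ≤ L := by linarith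
  have hu1 : 1 ≤ u := one_le_pow₀ hL1
  have hv1 : 1 ≤ v := one_le_pow₀ hL1
  have hu0 : 0 < u := by linarith
  have hv0 : 0 < v := by linarith
  have hB1 : 1 ≤ L ^ B := one_le_pow₀ hL1
  have hw : L ^ (A + B + K + 2) = L ^ 2 * u * v * L ^ B := by
    rw [hu, hv]
    ring
  have hw1 : L ^ 2 * u * v ≤ L ^ (A + B + K + 2) := by
    rw [hw]
    exact le_mul_of_one_le_right (by positivity) hB1
  have hw2 : L ^ B ≤ L ^ (A + B + K + 2) := pow_le_pow_right₀ hL1 (by omega)
  have hNR : (2 : ℝ) ≤ N := by exact_mod_cast hN2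
  have hN0' : (0 : ℝ) < N := by linarith
  have hyR : (2 : ℝ) ≤ y := by exact_mod_cast hy2
  have hy0 : (0 : ℝ) < y := by linarith
  have hsyle : Real.sqrt y ≤ y := by
    rw [Real.sqrt_le_left (by linarith)]
    nlinarith
  have hsy0 : 0 < Real.sqrt y := Real.sqrt_pos.2 hy0
  -- facts about x
  have hr0 : (0 : ℝ) < (N : ℝ) ^ (β / 2) := by positivity
  have hr2 : (N : ℝ) ^ (β / 2) * (N : ℝ) ^ (β / 2) = (N : ℝ) ^ β := by
    rw [← Real.rpow_add hN0']
    congr 1
    ring
  have hxpos : (0 : ℝ) < x := lt_of_lt_of_le (by positivity) hxN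
  have hx1 : 1 ≤ x := by exact_mod_cast hxpos
  have hsx : (N : ℝ) ^ (β / 2) ≤ Real.sqrt x := by
    refine Real.le_sqrt_of_sq_le ?_
    rw [sq, hr2]
    exact hxN
  have hsx0 : 0 < Real.sqrt x := Real.sqrt_pos.2 hxpos
  have hsxx : Real.sqrt x * Real.sqrt x = x := Real.mul_self_sqrt hxpos.le
  have hF3 : 108 * (L ^ 2 * u * v) ≤ Real.sqrt x := by
    have := hN4.trans hsx
    linarith
  have hF1 : 108 * (L ^ 2 * u * v) ≤ Real.sqrt y := by linarith
  have hLL : L * u * v ≤ L ^ 2 * u * v := by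
    have h1 : L ≤ L ^ 2 := by nlinarith
    have h2 : L * (u * v) ≤ L ^ 2 * (u * v) := mul_le_mul_of_nonneg_right h1 (by positivity)
    linarith
  have hLuv : 0 < L * u * v := by positivity
  have hLu : L * u ≤ L * u * v := le_mul_of_one_le_right (by positivity) hv1
  have hs1 : 1 ≤ Real.sqrt x := by
    have h1 : 1 ≤ L * u * v := by
      have h2 : 1 ≤ L * u := one_le_mul_of_one_le_of_one_le hL1 hu1
      linarith
    linarith
  -- facts about l
  have hlx : (x : ℝ) ≤ l * v := by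
    rwa [div_le_iff₀ hv0] at hl1
  have hl3 : (l : ℝ) * (L ^ 3 * u) ≤ x := by
    have h1 : L ^ (A + 3) = L ^ 3 * u := by rw [hu]; ring
    rw [h1, le_div_iff₀ (by positivity)] at hl2
    exact hl2
  have hlpos : (0 : ℝ) < l := by
    by_contra h
    have h1 : (l : ℝ) * v ≤ 0 := mul_nonpos_of_nonpos_of_nonneg (not_lt.1 h) hv0.le
    linarith
  have hL3u : 1 ≤ L ^ 3 * u := one_le_mul_of_one_le_of_one_le (one_le_pow₀ hL1) hu1
  have hlxR : (l : ℝ) ≤ x := (le_mul_of_one_le_right hlpos.le hL3u).trans hl3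
  have hlx' : l ≤ x := by exact_mod_cast hlxR
  have hul : 12 * (L * u) ≤ l := by
    have h1 : 108 * (L * u * v) * 1 ≤ Real.sqrt x * Real.sqrt x :=
      mul_le_mul (by linarith) hs1 zero_le_one hsx0.le
    rw [hsxx] at h1
    have h2 : 12 * (L * u) * v ≤ l * v := by nlinarith
    exact le_of_mul_le_mul_right h2 hv0
  -- logarithms
  have hp1 : 0 ≤ 36 * (2 / e1) ^ (A + K + 2) := by positivity
  have hp2 : 0 ≤ (2 / e1) ^ (B + 1) := by positivity
  have hp3 : 0 < 5 / β := by positivity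
  have hlogx : 5 ≤ Real.log x := by
    have h1 := Real.log_le_log (by positivity) hxN
    rw [Real.log_rpow hN0'] at h1
    have h2 : 5 / β ≤ L := by linarith
    rw [div_le_iff₀ hβ] at h2
    linarith
  have hlogx0 : 0 < Real.log x := by linarith
  have hxN2R : (x : ℝ) ≤ (N : ℝ) ^ 2 := by exact_mod_cast hxN2
  have hlogx2 : Real.log x ≤ 2 * L := by
    have h1 := Real.log_le_log hxpos hxN2R
    rw [Real.log_pow] at h1
    push_cast at h1
    exact h1
  have h2x : 2 * (x : ℝ) ≤ (N : ℝ) ^ 3 := by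
    have h1 : 2 * (x : ℝ) ≤ N * (N : ℝ) ^ 2 :=
      mul_le_mul hNR hxN2R hxpos.le (by linarith)
    have h2 : (N : ℝ) * (N : ℝ) ^ 2 = (N : ℝ) ^ 3 := by ring
    linarith
  have hlog2x : Real.log (2 * x) ≤ 3 * L := by
    have h1 := Real.log_le_log (by positivity) h2x
    rw [Real.log_pow] at h1
    push_cast at h1
    exact h1
  have hlogxl : Real.log ((x : ℝ) + l) ≤ 3 * L :=
    (Real.log_le_log (by positivity) (by linarith)).trans hlog2x
  have hlogxl0 : 0 ≤ Real.log ((x : ℝ) + l) := by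
    have := Real.log_natCast_nonneg (x + l)
    push_cast at this
    exact this
  have hcy : c ≤ y := by
    have h1 : (c : ℝ) ≤ y := by
      have : 0 ≤ L ^ (A + B + K + 2) := by positivity
      linarith
    exact_mod_cast h1
  have hT0 : 0 ≤ (l : ℝ) / u := by positivity
  by_cases hac : Nat.Coprime a c
  swap
  · -- both sides vanish
    rw [if_neg hac, sub_zero]
    have h1 : ∀ k ∈ (Ioc x (x + l)).filter (fun k => k ≡ a [MOD c]), bf y J k = 0 := by
      intro k hk
      rw [mem_filter] at hk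
      obtain ⟨p, hp, hpa, hpc⟩ := Nat.Prime.not_coprime_iff_dvd.1 hac
      have h2 : p ∣ k := (hk.2.dvd_iff hpc).2 hpa
      have h3 : p ≤ y := (Nat.le_of_dvd hc hpc).trans hcy
      unfold bf
      rw [eqB_rg_zero hp h2 h3, zero_div]
    rw [sum_eq_zero h1, abs_zero]
    exact hT0
  rw [if_pos hac]
  set z : ℕ := zz y J with hzdef
  have hyz : y ≤ z := by
    rw [hzdef]
    unfold zz
    exact Nat.le_mul_of_pos_left y (by positivity)
  have hyzR : (y : ℝ) ≤ z := by exact_mod_cast hyz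
  have hz1 : 1 ≤ z := by omega
  have hmy : 12 * (L * u) ≤ y := by linarith
  have hmz : 12 * (L * u) ≤ z := by linarith
  have hzx : 12 * (L * u) * z ≤ x := by
    have hz0 : (0 : ℝ) ≤ z := Nat.cast_nonneg _
    have h1 : 12 * (L * u) ≤ 108 * L ^ (A + B + K + 2) := by linarith
    calc 12 * (L * u) * (z : ℝ) ≤ 108 * L ^ (A + B + K + 2) * (N : ℝ) ^ ζ :=
          mul_le_mul h1 hzN hz0 (by positivity)
      _ ≤ x := hNz.trans hxN
  have hyx : 12 * (L * u) * y ≤ x := by
    have h1 : 12 * (L * u) * (y : ℝ) ≤ 12 * (L * u) * z :=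
      mul_le_mul_of_nonneg_left hyzR (by positivity)
    linarith
  -- the sums
  set I : Finset ℕ := (Ioc x (x + l)).filter (fun k => k ≡ a [MOD c]) with hI
  set S : ℝ := ∑ k ∈ I, bf y J k with hS
  set T1 : ℝ := ∑ k ∈ I, bf y J k * Real.log k with hT1
  set T3 : ℝ := ∑ k ∈ Icc 1 (x + l), ∑ q ∈ eqBS x l a c k, Real.log q * eqBw y J k q with hT3
  set T4 : ℝ := ∑ k ∈ Icc 1 (x / y), eqBom y J x k * ∑ q ∈ eqBS x l a c k, Real.log q with hT4
  set T5 : ℝ := ∑ k ∈ Icc 1 (x / y), eqBom y J x k * ((l : ℝ) / k / c.totient) with hT5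
  have hIk : ∀ k ∈ I, x < k ∧ k ≤ x + l := by
    intro k hk
    rw [hI, mem_filter, mem_Ioc] at hk
    exact hk.1
  -- step 1
  have hs1' : |T1 - Real.log x * S| ≤ l / u := by
    have h1 : T1 - Real.log x * S = ∑ k ∈ I, bf y J k * (Real.log k - Real.log x) := by
      rw [hT1, hS, mul_sum, ← sum_sub_distrib]
      refine sum_congr rfl fun k _ => ?_
      ring
    rw [h1]
    refine (abs_sum_le_sum_abs _ _).trans ?_
    have h2 : ∀ k ∈ I, |bf y J k * (Real.log k - Real.log x)| ≤ (l : ℝ) / x := by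
      intro k hk
      obtain ⟨h3, h4⟩ := hIk k hk
      have h3R : (x : ℝ) ≤ k := by exact_mod_cast h3.le
      have h4R : (k : ℝ) ≤ x + l := by exact_mod_cast h4
      have hk0 : (0 : ℝ) < k := by linarith
      have h5 : 0 ≤ Real.log k - Real.log x := by
        have := Real.log_le_log hxpos h3R
        linarith
      have h6 : Real.log k - Real.log x ≤ (l : ℝ) / x := by
        rw [← Real.log_div hk0.ne' hxpos.ne']
        refine (Real.log_le_sub_one_of_pos (by positivity)).trans ?_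
        rw [div_sub_one hxpos.ne']
        gcongr
        linarith
      rw [abs_mul, abs_of_nonneg (eqB_bf_nonneg y J k), abs_of_nonneg h5]
      calc bf y J k * (Real.log k - Real.log x) ≤ 1 * (Real.log k - Real.log x) :=
            mul_le_mul_of_nonneg_right (eqB_bf_le y J k) h5
        _ ≤ (l : ℝ) / x := by rw [one_mul]; exact h6
    refine (sum_le_sum h2).trans ?_
    rw [sum_const, nsmul_eq_mul]
    have h3 : ((I.card : ℕ) : ℝ) ≤ l := by
      have h4 : I.card ≤ (Ioc x (x + l)).card := card_filter_le _ _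
      rw [Nat.card_Ioc, Nat.add_sub_cancel_left] at h4
      exact_mod_cast h4
    calc ((I.card : ℕ) : ℝ) * ((l : ℝ) / x) ≤ l * ((l : ℝ) / x) :=
          mul_le_mul_of_nonneg_right h3 (by positivity)
      _ ≤ l * (1 / u) := by
          refine mul_le_mul_of_nonneg_left ?_ hlpos.le
          rw [div_le_div_iff₀ hxpos hu0]
          have h5 : (l : ℝ) * u ≤ l * (L ^ 3 * u) :=
            mul_le_mul_of_nonneg_left (le_mul_of_one_le_left hu0.le (one_le_pow₀ hL1)) hlpos.le
          linarith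
      _ = l / u := by ring
  -- step 2
  have hs2 : |T1 - T3| ≤ l / u := by
    have h1 : T3 = ∑ k ∈ I, ∑ q ∈ k.primeFactors, Real.log q * eqBw y J (k / q) q :=
      (eqB_swap a c (fun k q => Real.log q * eqBw y J k q)).symm
    rw [h1, hT1, ← sum_sub_distrib]
    refine (abs_sum_le_sum_abs _ _).trans ?_
    have h2 : ∀ k ∈ I, |bf y J k * Real.log k
        - ∑ q ∈ k.primeFactors, Real.log q * eqBw y J (k / q) q| ≤
        Real.log ((x : ℝ) + l) * eqBsq y k := by
      intro k hk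
      obtain ⟨h3, h4⟩ := hIk k hk
      have h4R : (k : ℝ) ≤ x + l := by exact_mod_cast h4
      refine (eqB_key (by omega)).trans ?_
      refine mul_le_mul_of_nonneg_right ?_ (Nat.cast_nonneg _)
      exact Real.log_le_log (by exact_mod_cast (by omega : 0 < k)) h4R
    refine (sum_le_sum h2).trans ?_
    rw [← mul_sum]
    have h3 : ∑ k ∈ I, (eqBsq y k : ℝ) ≤ (l : ℝ) / y + Real.sqrt (2 * x) := by
      refine le_trans ?_ (eqB_sq_sum (by omega) hlx')
      exact sum_le_sum_of_subset_of_nonneg (filter_subset _ _) fun _ _ _ => Nat.cast_nonneg _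
    have h4 : Real.sqrt (2 * x) ≤ 2 * Real.sqrt x := by
      rw [Real.sqrt_mul (by norm_num)]
      refine mul_le_mul_of_nonneg_right ?_ hsx0.le
      rw [Real.sqrt_le_left (by norm_num)]
      norm_num
    have h5 : 3 * L * ((l : ℝ) / y) ≤ l / u / 2 := by
      rw [mul_div_assoc', div_div, div_le_div_iff₀ hy0 (by positivity)]
      have h6 : (l : ℝ) * (6 * (L * u)) ≤ l * y := by
        refine mul_le_mul_of_nonneg_left ?_ hlpos.le
        linarith
      linarith
    have h6 : 3 * L * (2 * Real.sqrt x) ≤ l / u / 2 := by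
      rw [div_div, le_div_iff₀ (by positivity)]
      have h7 : 12 * (L * u * v) * Real.sqrt x ≤ Real.sqrt x * Real.sqrt x :=
        mul_le_mul_of_nonneg_right (by linarith) hsx0.le
      rw [hsxx] at h7
      have h8 : (12 * (L * u) * Real.sqrt x) * v ≤ l * v := by linarith
      have h9 := le_of_mul_le_mul_right h8 hv0
      linarith
    calc Real.log ((x : ℝ) + l) * ∑ k ∈ I, (eqBsq y k : ℝ)
        ≤ 3 * L * ((l : ℝ) / y + Real.sqrt (2 * x)) :=
          mul_le_mul hlogxl h3 (sum_nonneg fun _ _ => Nat.cast_nonneg _) (by positivity)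
      _ ≤ 3 * L * ((l : ℝ) / y + 2 * Real.sqrt x) :=
          mul_le_mul_of_nonneg_left (by linarith) (by positivity)
      _ ≤ l / u := by linarith
  -- step 3
  have hs3 : |T3 - T4| ≤ 2 * (l / u) := by
    refine (eqB_cmp hx1 (by omega) hz1).trans ?_
    have h1 := eqB_dwb hL12 hu1 hlpos.le hxpos hmz hzx hl3 hul
    have h2 := eqB_dwb hL12 hu1 hlpos.le hxpos hmy hyx hl3 hul
    have h3 : 0 ≤ ((l : ℝ) / (z : ℕ) + 1) * (l * (z : ℕ) / x + 1) +
        ((l : ℝ) / y + 1) * (l * y / x + 1) := by positivity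
    refine (mul_le_mul_of_nonneg_right hlogxl h3).trans ?_
    rw [mul_add]
    linarith
  -- step 4
  have hs4 : |T4 - T5| ≤ l / u := by
    have hly0 : 0 < Real.log y := Real.log_pos (by linarith)
    have he0 : (0 : ℝ) ≤ 1 / Real.log y ^ (A + K + 2) := by positivity
    have hlogyL : e1 / 2 * L ≤ Real.log y := hlogy
    have hel : 0 < e1 / 2 * L := by positivity
    have hE : ∀ X : ℕ, y ≤ X → X ≤ 2 * x → ∀ a' : ℕ, Nat.Coprime a' c → ∀ Y : ℕ, Y ≤ X →
        |psiA Y c a' - Y / (c.totient : ℝ)| ≤ X * (1 / Real.log y ^ (A + K + 2)) := by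
      intro X hyX _ a' ha' Y hYX
      have h1 : Real.log y ≤ Real.log X := Real.log_le_log hy0 (by exact_mod_cast hyX)
      have h2 : (c : ℝ) ≤ Real.log X ^ (B + 1) := by
        have h3 : (e1 / 2 * L) ^ (B + 1) ≤ Real.log X ^ (B + 1) :=
          pow_le_pow_left₀ hel.le (hlogyL.trans h1) _
        refine le_trans ?_ h3
        have h4 : (2 / e1) ^ (B + 1) ≤ L := by
          linarith
        have h5 : (e1 / 2 * L) ^ (B + 1) = (e1 / 2) ^ (B + 1) * L * L ^ B := by
          rw [mul_pow]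
          ring
        have h6 : (e1 / 2) ^ (B + 1) * (2 / e1) ^ (B + 1) = 1 := by
          rw [← mul_pow]
          have : e1 / 2 * (2 / e1) = 1 := by field_simp
          rw [this, one_pow]
        have h7 : 1 ≤ (e1 / 2) ^ (B + 1) * L := by
          rw [← h6]
          exact mul_le_mul_of_nonneg_left h4 (by positivity)
        rw [h5]
        exact hcB.trans (le_mul_of_one_le_left (by positivity) h7)
      have h3 := hx0 X (hyx0.trans hyX) Y hYX c hc h2 a' ha'
      refine h3.trans ?_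
      rw [mul_one_div]
      refine div_le_div_of_nonneg_left (Nat.cast_nonneg _) (by positivity) ?_
      exact pow_le_pow_left₀ hly0.le h1 _
    refine (eqB_sum_pr hx1 hlx' hy2 hcy hc hac he0 hE).trans ?_
    set δ : ℝ := 2 * (1 / Real.log y ^ (A + K + 2)) + 1 / y +
      2 * Real.log (2 * x) / Real.sqrt y with hδ
    have hlog2x0 : 0 ≤ Real.log (2 * x) := by
      have := Real.log_natCast_nonneg (2 * x)
      push_cast at this
      exact this
    have hδ0 : 0 ≤ δ := by positivity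
    have h1 : 6 * (L * u * v) * δ ≤ 1 := by
      have e1' : 6 * (L * u * v) * (2 * (1 / Real.log y ^ (A + K + 2))) ≤ 1 / 3 := by
        have h3 : (e1 / 2 * L) ^ (A + K + 2) ≤ Real.log y ^ (A + K + 2) :=
          pow_le_pow_left₀ hel.le hlogyL _
        have h4 : 36 * (2 / e1) ^ (A + K + 2) ≤ L := by
          linarith
        have h5 : (e1 / 2 * L) ^ (A + K + 2) = (e1 / 2) ^ (A + K + 2) * L * (L * u * v) := by
          rw [mul_pow, hu, hv]
          ring
        have h6 : (e1 / 2) ^ (A + K + 2) * (2 / e1) ^ (A + K + 2) = 1 := by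
          rw [← mul_pow]
          have : e1 / 2 * (2 / e1) = 1 := by field_simp
          rw [this, one_pow]
        have h7 : 36 ≤ (e1 / 2) ^ (A + K + 2) * L := by
          have h8 := mul_le_mul_of_nonneg_left h4 (show 0 ≤ (e1 / 2) ^ (A + K + 2) by positivity)
          have h9 : (e1 / 2) ^ (A + K + 2) * (36 * (2 / e1) ^ (A + K + 2)) = 36 := by
            rw [mul_left_comm, h6, mul_one]
          linarith
        have h8 : 36 * (L * u * v) ≤ Real.log y ^ (A + K + 2) := by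
          refine le_trans ?_ h3
          rw [h5]
          exact mul_le_mul_of_nonneg_right h7 hLuv.le
        have hp : 0 < Real.log y ^ (A + K + 2) := by positivity
        rw [show 6 * (L * u * v) * (2 * (1 / Real.log y ^ (A + K + 2))) =
          12 * (L * u * v) / Real.log y ^ (A + K + 2) by ring, div_le_iff₀ hp]
        linarith
      have e2' : 6 * (L * u * v) * (1 / y) ≤ 1 / 3 := by
        rw [mul_one_div, div_le_iff₀ hy0]
        linarith
      have e3' : 6 * (L * u * v) * (2 * Real.log (2 * x) / Real.sqrt y) ≤ 1 / 3 := by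
        rw [mul_div_assoc', div_le_iff₀ hsy0]
        have h3 : L * u * v * Real.log (2 * x) ≤ L * u * v * (3 * L) :=
          mul_le_mul_of_nonneg_left hlog2x hLuv.le
        have h4 : L * u * v * (3 * L) = 3 * (L ^ 2 * u * v) := by ring
        linarith
      rw [hδ, mul_add, mul_add]
      linarith
    have h2 : 1 + Real.log x ≤ 3 * L := by linarith
    calc 2 * x * δ * (1 + Real.log x) ≤ 2 * (l * v) * δ * (3 * L) := by
          have h3 : 2 * (x : ℝ) * δ ≤ 2 * (l * v) * δ :=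
            mul_le_mul_of_nonneg_right (by linarith) hδ0
          exact mul_le_mul h3 h2 (by linarith) (by positivity)
      _ = l / u * (6 * (L * u * v) * δ) := by
          field_simp
          ring
      _ ≤ l / u * 1 := mul_le_mul_of_nonneg_left h1 hT0
      _ = l / u := mul_one _
  -- the main term
  have hmain : T5 = Real.log x * ((l : ℝ) * kap y J x / c.totient) := by
    have h1 : ∑ k ∈ Icc 1 (x / y), eqBom y J x k * ((l : ℝ) / k / c.totient) =
        ((l : ℝ) / c.totient) * ∑ k ∈ Icc 1 (x / y),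
          rg y k / ((1 + nu y J k + if x < k * zz y J then 1 else 0) * k) := by
      rw [mul_sum]
      refine sum_congr rfl fun k _ => ?_
      unfold eqBom
      rw [div_mul_eq_div_div]
      ring
    rw [hT5, h1]
    unfold kap
    field_simp
  have hfin : Real.log x * |S - (l : ℝ) * kap y J x / c.totient| ≤ 5 * (l / u) := by
    have h0 : Real.log x * |S - (l : ℝ) * kap y J x / c.totient| =
        |Real.log x * (S - (l : ℝ) * kap y J x / c.totient)| := by
      rw [abs_mul, abs_of_pos hlogx0]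
    rw [h0, mul_sub, ← hmain]
    have h1 : Real.log x * S - T5 = -(T1 - Real.log x * S) + (T1 - T3) + (T3 - T4) + (T4 - T5) := by
      ring
    rw [h1]
    rw [abs_le] at hs1' hs2 hs3 hs4 ⊢
    constructor <;> linarith [hs1'.1, hs1'.2, hs2.1, hs2.2, hs3.1, hs3.2, hs4.1, hs4.2]
  have hlast : 5 * (l / u) ≤ Real.log x * (l / u) :=
    mul_le_mul_of_nonneg_right (by linarith) hT0
  exact le_of_mul_le_mul_left (hfin.trans hlast) hlogx0

theorem eq_b (e1 ζ : ℝ) (he1 : 0 < e1) (hζ : e1 < ζ) (hζ2 : ζ < 1 / 2) (A B K : ℕ) :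
    ∃ N0 : ℕ, ∀ N : ℕ, N0 ≤ N → ∀ J x l c a : ℕ, (zz (yN e1 N) J : ℝ) ≤ (N : ℝ) ^ ζ →
      (N : ℝ) ^ (1 / 2 : ℝ) ≤ x → x ≤ N ^ 2 → (x : ℝ) / Real.log N ^ K ≤ l →
      (l : ℝ) ≤ x / Real.log N ^ (A + 3) → 1 ≤ c → (c : ℝ) ≤ Real.log N ^ B →
      |∑ k ∈ (Ioc x (x + l)).filter (fun k => k ≡ a [MOD c]), bf (yN e1 N) J k
        - (if Nat.Coprime a c then (l : ℝ) * kap (yN e1 N) J x / c.totient else 0)| ≤
          l / Real.log N ^ A :=
  eq_bg (1 / 2) e1 ζ he1 hζ hζ2 A B K

end Pool.Agent.H76.TP
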