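import Pool.Agent.H76.TP.RamId
import Pool.Agent.H76.TP.EqB
import Pool.Agent.H76.TP.KapL
import Pool.Agent.H76.TP.ZCnt
import Pool.Agent.H76.GB.Defs
import Pool.Agent.H91.EHA.ChB

/-!
# TP Mass: the density of `Ap` is `≤ (1 + Z2 + Z3 + ε)/L`

`l = ⌈x/L^8⌉`, `eq_b` with `A = 3`, `K = 9`, `c = 1`.  `∑_{m ∈ (x, x+l]} AA m = ∑ rg - ∑_j ∑_{p ∈ pb (2^j y)} ∑_{k ∈ (x/p, (x+l)/p]} bf k` (`m = p k`), and `eq_b` (`x → x/p ≥ N^(1/2)`, `l → l_p = (x+l)/p - x/p`,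
`|l_p - l/p| ≤ 1`) gives `∑_k bf k ≤ (l/p + 1)(kap(x/p) + L^(-3))`; `∑_{y < p ≤ z} 1/p ≤ 1 + L`, `kap ≤ 2`, `z ≤ N^ζ`.  So
`l kapA = l kS - l ∑∑ kap(x/p)/p ≤ ∑ rg + ε0 l/L - ∑∑∑ bf + error = ∑ AA + ε0 l/L + error ≤ #{z-rough} + ∑_{y < p ≤ z} (l/p² + 1) + ...` (`aa_le`), `zcount` with `ζ'` (`z ≥ N^ζ'`).
-/

set_option autoImplicit false

namespace Pool.Agent.H76.TP

open Finset
open Pool.Agent.H35.W (pb)
open Pool.Agent.H53.MID (Fp Bs)

private theorem mass_le_zz (y J : ℕ) : y ≤ zz y J := by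
  unfold zz
  exact Nat.le_mul_of_pos_left _ (by positivity)

/-- the primes of `(y, z]` are partitioned -/
private theorem mass_part (g : ℕ → ℝ) (y J : ℕ) :
    ∑ j ∈ range J, ∑ p ∈ pb (2 ^ j * y), g p = ∑ p ∈ PY y (zz y J), g p := by
  induction J with
  | zero =>
    have h : PY y (zz y 0) = ∅ := by
      unfold PY zz
      rw [pow_zero, one_mul, Finset.Ioc_self, Finset.filter_empty]
    rw [h, Finset.range_zero, Finset.sum_empty, Finset.sum_empty]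
  | succ J ih =>
    rw [Finset.sum_range_succ, ih]
    have h2 : zz y (J + 1) = 2 * zz y J := by
      unfold zz
      ring
    have hle := mass_le_zz y J
    have h3 : PY y (zz y (J + 1)) = PY y (zz y J) ∪ pb (2 ^ J * y) := by
      ext p
      unfold PY pb
      simp only [Finset.mem_union, Finset.mem_filter, Finset.mem_Ioc]
      rw [h2]
      have h4 : zz y J = 2 ^ J * y := rfl
      rw [← h4]
      constructor
      · rintro ⟨⟨h5, h6⟩, h7⟩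
        by_cases h8 : p ≤ zz y J
        · exact Or.inl ⟨⟨h5, h8⟩, h7⟩
        · exact Or.inr ⟨⟨by omega, h6⟩, h7⟩
      · rintro (⟨⟨h5, h6⟩, h7⟩ | ⟨⟨h5, h6⟩, h7⟩)
        · exact ⟨⟨h5, by omega⟩, h7⟩
        · exact ⟨⟨by omega, h6⟩, h7⟩
    have h4 : Disjoint (PY y (zz y J)) (pb (2 ^ J * y)) := by
      rw [Finset.disjoint_left]
      intro p hp hq
      unfold PY at hp
      unfold pb at hq
      rw [Finset.mem_filter, Finset.mem_Ioc] at hp hq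
      have h5 : zz y J = 2 ^ J * y := rfl
      omega
    rw [h3, Finset.sum_union h4]

/-- the multiples of `d` in an interval -/
private theorem mass_div (f : ℕ → ℝ) (x l d : ℕ) (hd : 1 ≤ d) :
    ∑ m ∈ (Ioc x (x + l)).filter (fun m => d ∣ m), f (m / d) = ∑ k ∈ Ioc (x / d) ((x + l) / d), f k := by
  refine Finset.sum_nbij' (fun m => m / d) (fun k => k * d) ?_ ?_ ?_ ?_ ?_
  · intro m hm
    rw [mem_filter, mem_Ioc] at hm
    obtain ⟨⟨h1, h2⟩, k, rfl⟩ := hm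
    rw [Nat.mul_div_cancel_left k (by omega), mem_Ioc]
    constructor
    · rw [Nat.div_lt_iff_lt_mul (by omega)]
      calc x < d * k := h1
        _ = k * d := mul_comm _ _
    · rw [Nat.le_div_iff_mul_le (by omega)]
      calc k * d = d * k := mul_comm _ _
        _ ≤ x + l := h2
  · intro k hk
    rw [mem_Ioc] at hk
    rw [mem_filter, mem_Ioc]
    refine ⟨⟨?_, ?_⟩, dvd_mul_left d k⟩
    · exact (Nat.div_lt_iff_lt_mul (by omega)).1 hk.1
    · exact (Nat.le_div_iff_mul_le (by omega)).1 hk.2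
  · intro m hm
    rw [mem_filter] at hm
    exact Nat.div_mul_cancel hm.2
  · intro k _
    exact Nat.mul_div_cancel k (by omega)
  · intro m _
    rfl

private theorem mass_len (x l d : ℕ) (hd : 1 ≤ d) :
    ((x + l) / d : ℕ) = x / d + ((x + l) / d - x / d) ∧
      (((x + l) / d - x / d : ℕ) : ℝ) ≤ (l : ℝ) / d + 1 ∧ (l : ℝ) / d - 1 ≤ (((x + l) / d - x / d : ℕ) : ℝ) := by
  have h0 : x / d ≤ (x + l) / d := Nat.div_le_div_right (by omega)
  have hd0 : (0 : ℝ) < d := by exact_mod_cast hd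
  have e1 : (((x + l) / d : ℕ) : ℝ) ≤ ((x : ℝ) + l) / d := by
    have : (((x + l) / d : ℕ) : ℝ) ≤ ((x + l : ℕ) : ℝ) / d := Nat.cast_div_le
    push_cast at this
    exact this
  have e2 : ((x : ℝ) + l) / d - 1 ≤ (((x + l) / d : ℕ) : ℝ) := by
    have := Nat.lt_floor_add_one (((x + l : ℕ) : ℝ) / (d : ℝ))
    rw [Nat.floor_div_eq_div] at this
    push_cast at this
    linarith
  have e3 : ((x / d : ℕ) : ℝ) ≤ (x : ℝ) / d := Nat.cast_div_le
  have e4 : (x : ℝ) / d - 1 ≤ ((x / d : ℕ) : ℝ) := by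
    have := Nat.lt_floor_add_one ((x : ℝ) / (d : ℝ))
    rw [Nat.floor_div_eq_div] at this
    linarith
  have e5 : ((x : ℝ) + l) / d = (x : ℝ) / d + (l : ℝ) / d := add_div _ _ _
  refine ⟨by omega, ?_, ?_⟩
  · rw [Nat.cast_sub h0]
    linarith
  · rw [Nat.cast_sub h0]
    linarith

/-- the sum of the type II parts over an interval -/
private theorem mass_swap (f : ℕ → ℝ) (y J x l : ℕ) :
    ∑ m ∈ Ioc x (x + l), ∑ j ∈ range J, Fp f (2 ^ j * y) m =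
      ∑ p ∈ PY y (zz y J), ∑ k ∈ Ioc (x / p) ((x + l) / p), f k := by
  have h1 : ∀ m, ∑ j ∈ range J, Fp f (2 ^ j * y) m =
      ∑ p ∈ PY y (zz y J), if p ∣ m then f (m / p) else 0 := by
    intro m
    rw [← mass_part (fun p => if p ∣ m then f (m / p) else 0) y J]
    refine sum_congr rfl fun j _ => ?_
    unfold Fp
    rw [sum_filter]
  simp_rw [h1]
  rw [sum_comm]
  refine sum_congr rfl fun p hp => ?_
  unfold PY at hp
  rw [mem_filter] at hp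
  rw [← sum_filter]
  exact mass_div f x l p hp.2.one_lt.le

private theorem mass_inv (y z : ℕ) (L : ℝ) (hz : 1 ≤ z) (hzL : Real.log z ≤ L) :
    ∑ p ∈ PY y z, 1 / (p : ℝ) ≤ 1 + L := by
  have h1 : ∑ p ∈ PY y z, 1 / (p : ℝ) ≤ ∑ p ∈ Icc 1 z, 1 / (p : ℝ) := by
    apply sum_le_sum_of_subset_of_nonneg
    · intro p hp
      unfold PY at hp
      rw [mem_filter, mem_Ioc] at hp
      rw [mem_Icc]
      exact ⟨hp.2.one_lt.le, hp.1.2⟩
    · intro p _ _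
      positivity
  have h2 := Pool.Agent.H91.EHA.chB_harm z
  linarith

/-- the squares -/
private theorem mass_sq (y z x l : ℕ) (L : ℝ) (hy : 1 ≤ y) (hz : 1 ≤ z) (hzL : Real.log z ≤ L) :
    ∑ m ∈ Ioc x (x + l), (((PY y z).filter (fun p => p ^ 2 ∣ m)).card : ℝ) ≤ l * (1 + L) / y + z := by
  have h1 : ∀ m, (((PY y z).filter (fun p => p ^ 2 ∣ m)).card : ℝ) =
      ∑ p ∈ PY y z, if p ^ 2 ∣ m then (1 : ℝ) else 0 := by
    intro m
    rw [← sum_filter, sum_const, nsmul_eq_mul, mul_one]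
  simp_rw [h1]
  rw [sum_comm]
  have hy0 : (0 : ℝ) < y := by exact_mod_cast hy
  have h2 : ∀ p ∈ PY y z, ∑ m ∈ Ioc x (x + l), (if p ^ 2 ∣ m then (1 : ℝ) else 0) ≤
      l / y * (1 / p) + 1 := by
    intro p hp
    unfold PY at hp
    rw [mem_filter, mem_Ioc] at hp
    have hp1 : 1 ≤ p ^ 2 := Nat.one_le_pow _ _ hp.2.pos
    rw [← sum_filter, mass_div (fun _ => (1 : ℝ)) x l (p ^ 2) hp1, sum_const, nsmul_eq_mul, mul_one,
      Nat.card_Ioc]
    refine (mass_len x l (p ^ 2) hp1).2.1.trans ?_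
    have h3 : (y : ℝ) ≤ p := by exact_mod_cast hp.1.1.le
    have h4 : (0 : ℝ) < p := by exact_mod_cast hp.2.pos
    have h5 : (l : ℝ) / ((p ^ 2 : ℕ) : ℝ) ≤ l / y * (1 / p) := by
      rw [div_mul_div_comm, mul_one]
      apply div_le_div_of_nonneg_left (Nat.cast_nonneg l) (by positivity)
      push_cast
      nlinarith
    linarith
  refine (sum_le_sum h2).trans ?_
  rw [sum_add_distrib, ← mul_sum, sum_const, nsmul_eq_mul, mul_one]
  have h3 : ((PY y z).card : ℝ) ≤ z := by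
    have : (PY y z).card ≤ z := by
      unfold PY
      refine (card_filter_le _ _).trans ?_
      rw [Nat.card_Ioc]
      omega
    exact_mod_cast this
  have h4 : (l : ℝ) / y * ∑ p ∈ PY y z, 1 / (p : ℝ) ≤ l / y * (1 + L) :=
    mul_le_mul_of_nonneg_left (mass_inv y z L hz hzL) (by positivity)
  have h5 : (l : ℝ) / y * (1 + L) = l * (1 + L) / y := by ring
  linarith

/-- facts for large `N` -/
private theorem mass_large (e1 ζ ε : ℝ) (he1 : 0 < e1) (he1' : e1 < 1 / 3) (hζ2 : ζ < 1 / 3) (hε : 0 < ε) :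
    ∃ N0 : ℕ, ∀ N : ℕ, N0 ≤ N → 10 ≤ Real.log N ∧ 16 / ε ≤ Real.log N ∧
      100 * Real.log N ^ 9 ≤ (N : ℝ) ^ (1 / 100 : ℝ) ∧ (16 / ε) * Real.log N ^ 2 ≤ (N : ℝ) ^ e1 / 2 ∧
      (64 * 16 / ε) * Real.log N ^ 9 * (N : ℝ) ^ ζ ≤ N ∧
      100 * Real.log N ^ 9 * (N : ℝ) ^ (1 / 2 : ℝ) * (N : ℝ) ^ ζ ≤ N ∧ (2 : ℝ) ≤ (N : ℝ) ^ e1 := by
  obtain ⟨x1, hx1⟩ := Pool.Agent.H76.GB.log_ge 10
  obtain ⟨x2, hx2⟩ := Pool.Agent.H76.GB.log_ge (16 / ε)
  obtain ⟨x3, hx3⟩ := Pool.Agent.H76.GB.log_pow_le (1 / 100) 100 (by norm_num) (by norm_num) 9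
  obtain ⟨x4, hx4⟩ := Pool.Agent.H76.GB.log_pow_le e1 (2 * (16 / ε)) he1 (by positivity) 2
  obtain ⟨x5, hx5⟩ := Pool.Agent.H76.GB.log_pow_le (1 - ζ) (64 * 16 / ε) (by linarith) (by positivity) 9
  obtain ⟨x6, hx6⟩ := Pool.Agent.H76.GB.log_pow_le (1 / 2 - ζ) 100 (by linarith) (by norm_num) 9
  obtain ⟨x7, hx7⟩ := Pool.Agent.H76.GB.log_pow_le e1 2 he1 (by norm_num) 0
  refine ⟨x1 + x2 + x3 + x4 + x5 + x6 + x7, fun N hN => ?_⟩
  have g1 := hx1 N (by omega)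
  have g2 := hx2 N (by omega)
  have g3 := hx3 N (by omega)
  have g4 := hx4 N (by omega)
  have g5 := hx5 N (by omega)
  have g6 := hx6 N (by omega)
  have g7 := hx7 N (by omega)
  rw [pow_zero, mul_one] at g7
  set L := Real.log N with hL
  have hN0 : N ≠ 0 := by
    rintro rfl
    rw [hL] at g1
    norm_num at g1
  have hNpos : (0 : ℝ) < N := by exact_mod_cast Nat.pos_of_ne_zero hN0
  have hadd : ∀ a b : ℝ, (N : ℝ) ^ (a + b) = (N : ℝ) ^ a * (N : ℝ) ^ b := fun a b => Real.rpow_add hNpos a b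
  refine ⟨g1, g2, g3, ?_, ?_, ?_, g7⟩
  · linarith
  · have h6 : (N : ℝ) = (N : ℝ) ^ (1 - ζ) * (N : ℝ) ^ ζ := by
      rw [← hadd, sub_add_cancel, Real.rpow_one]
    calc (64 * 16 / ε) * L ^ 9 * (N : ℝ) ^ ζ ≤ (N : ℝ) ^ (1 - ζ) * (N : ℝ) ^ ζ :=
          mul_le_mul_of_nonneg_right g5 (by positivity)
      _ = N := h6.symm
  · have h6 : (N : ℝ) = (N : ℝ) ^ (1 / 2 - ζ) * (N : ℝ) ^ (1 / 2 : ℝ) * (N : ℝ) ^ ζ := by
      rw [← hadd, ← hadd]
      have : 1 / 2 - ζ + 1 / 2 + ζ = 1 := by ring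
      rw [this, Real.rpow_one]
    calc 100 * L ^ 9 * (N : ℝ) ^ (1 / 2 : ℝ) * (N : ℝ) ^ ζ
        ≤ (N : ℝ) ^ (1 / 2 - ζ) * (N : ℝ) ^ (1 / 2 : ℝ) * (N : ℝ) ^ ζ := by
          gcongr
      _ = N := h6.symm

theorem mass (e1 ζ ζ' ε : ℝ) (he1 : 0 < e1) (he : e1 < ζ') (hζ' : 1 / 4 < ζ') (hζ : ζ' < ζ) (hζ2 : ζ < 1 / 3)
    (hε : 0 < ε) : ∃ N0 : ℕ, ∀ N : ℕ, N0 ≤ N → ∀ (J : ℕ) (kS ε0 : ℝ), (zz (yN e1 N) J : ℝ) ≤ (N : ℝ) ^ ζ →
      (N : ℝ) ^ ζ' ≤ zz (yN e1 N) J →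
      (∀ x l : ℕ, (N : ℝ) ^ (1 / 2 : ℝ) ≤ l →
        kS * l ≤ ∑ m ∈ Ioc x (x + l), rg (yN e1 N) m + ε0 * l / Real.log N) →
      ∀ x : ℕ, N ≤ 8 * x → x ≤ 8 * N →
        kapA kS (yN e1 N) J x ≤ (1 + Z2 ζ' + Z3 ζ' + ε0 + ε) / Real.log N := by
  obtain ⟨N1, hN1⟩ := zcount ζ' (ε / 4) hζ' (by linarith) (by positivity) 8
  obtain ⟨N2, hN2⟩ := eq_b e1 ζ he1 (by linarith) (by linarith) 3 0 9
  obtain ⟨N3, hN3⟩ := mass_large e1 ζ ε he1 (by linarith) hζ2 hε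
  refine ⟨N1 + N2 + N3 + 100, fun N hN J kS ε0 hz1 hz2 hmean x hx1 hx2 => ?_⟩
  have hzc := hN1 N (by omega)
  have heq := hN2 N (by omega) J
  obtain ⟨g1, g2, g3, g4, g5, g6, g7⟩ := hN3 N (by omega)
  set L := Real.log N with hL
  set y := yN e1 N with hy
  set z := zz y J with hz
  have hL0 : 0 < L := by linarith
  have hNpos : (0 : ℝ) < N := by
    have : 0 < N := by omega
    exact_mod_cast this
  have hN1r : (1 : ℝ) ≤ N := by
    have : 1 ≤ N := by omega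
    exact_mod_cast this
  have hxr : (N : ℝ) ≤ 8 * x := by exact_mod_cast hx1
  have hxr2 : (x : ℝ) ≤ 8 * N := by exact_mod_cast hx2
  have hx0 : (0 : ℝ) < x := by linarith
  have hyfl : (N : ℝ) ^ e1 / 2 ≤ y := by
    have h1 := Nat.lt_floor_add_one ((N : ℝ) ^ e1)
    have h2 : (⌊(N : ℝ) ^ e1⌋₊ : ℝ) = y := rfl
    rw [h2] at h1
    linarith
  have hy0 : (0 : ℝ) < y := by
    have : (0 : ℝ) < (N : ℝ) ^ e1 / 2 := by positivity
    linarith
  have hy1 : 1 ≤ y := by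
    have : 0 < y := by exact_mod_cast hy0
    omega
  have hyz : y ≤ z := mass_le_zz y J
  have hz1' : 1 ≤ z := hy1.trans hyz
  have hz0 : (0 : ℝ) < z := by exact_mod_cast hz1'
  have hNζ : (N : ℝ) ^ ζ ≤ N := by
    calc (N : ℝ) ^ ζ ≤ (N : ℝ) ^ (1 : ℝ) := Real.rpow_le_rpow_of_exponent_le hN1r (by linarith)
      _ = N := Real.rpow_one _
  have hzL : Real.log z ≤ L := Real.log_le_log hz0 (hz1.trans hNζ)
  have hL8 : (0 : ℝ) < L ^ 8 := by positivity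
  have hL9 : (0 : ℝ) < L ^ 9 := by positivity
  -- the length
  obtain ⟨l, hl⟩ : ∃ l : ℕ, l = ⌈(x : ℝ) / L ^ 8⌉₊ := ⟨_, rfl⟩
  have hl1 : (x : ℝ) / L ^ 8 ≤ l := by
    rw [hl]
    exact Nat.le_ceil _
  have hl2 : (l : ℝ) < (x : ℝ) / L ^ 8 + 1 := by
    rw [hl]
    exact Nat.ceil_lt_add_one (by positivity)
  have hN100 : (1 : ℝ) ≤ (N : ℝ) ^ (1 / 100 : ℝ) := Real.one_le_rpow hN1r (by norm_num)
  -- `z √N` is much smaller than `x`
  have hbig : 100 * L ^ 9 * ((N : ℝ) ^ (1 / 2 : ℝ) * z) ≤ N := by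
    calc 100 * L ^ 9 * ((N : ℝ) ^ (1 / 2 : ℝ) * z) ≤ 100 * L ^ 9 * ((N : ℝ) ^ (1 / 2 : ℝ) * (N : ℝ) ^ ζ) := by
          gcongr
      _ = 100 * L ^ 9 * (N : ℝ) ^ (1 / 2 : ℝ) * (N : ℝ) ^ ζ := by ring
      _ ≤ N := g6
  have hsq1 : (1 : ℝ) ≤ (N : ℝ) ^ (1 / 2 : ℝ) := Real.one_le_rpow hN1r (by norm_num)
  have hz1r : (1 : ℝ) ≤ z := by exact_mod_cast hz1'
  have hxz : 12 * L ^ 9 * ((N : ℝ) ^ (1 / 2 : ℝ) * z) ≤ x := by linarith
  have hxL9 : 12 * L ^ 9 ≤ x := by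
    have : 12 * L ^ 9 * 1 ≤ 12 * L ^ 9 * ((N : ℝ) ^ (1 / 2 : ℝ) * z) := by
      apply mul_le_mul_of_nonneg_left _ (by positivity)
      nlinarith
    linarith
  have hl3 : (l : ℝ) ≤ 2 * (x / L ^ 8) := by
    have h1 : (1 : ℝ) ≤ x / L ^ 8 := by
      rw [le_div_iff₀ hL8, one_mul]
      have : L ^ 8 ≤ L ^ 9 := pow_le_pow_right₀ (by linarith) (by norm_num)
      linarith
    linarith
  have hl0 : (0 : ℝ) < l := lt_of_lt_of_le (by positivity) hl1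
  have hlx : l ≤ x := by
    have h1 : 2 * ((x : ℝ) / L ^ 8) ≤ x := by
      have h2 : (2 : ℝ) ≤ L ^ 8 := by
        have : L ^ 1 ≤ L ^ 8 := pow_le_pow_right₀ (by linarith) (by norm_num)
        rw [pow_one] at this
        linarith
      rw [← mul_div_assoc, div_le_iff₀ hL8]
      nlinarith
    exact_mod_cast hl3.trans h1
  -- the mean value hypothesis
  have hm1 := hmean x l (by
    refine le_trans ?_ hl1
    rw [le_div_iff₀ hL8]
    have h1 : L ^ 8 ≤ L ^ 9 := pow_le_pow_right₀ (by linarith) (by norm_num)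
    have h2 : (N : ℝ) ^ (1 / 2 : ℝ) * L ^ 8 ≤ 12 * L ^ 9 * ((N : ℝ) ^ (1 / 2 : ℝ) * z) := by
      have h3 : (N : ℝ) ^ (1 / 2 : ℝ) * L ^ 8 ≤ (N : ℝ) ^ (1 / 2 : ℝ) * L ^ 9 := by gcongr
      have h4 : (N : ℝ) ^ (1 / 2 : ℝ) * L ^ 9 * 1 ≤ (N : ℝ) ^ (1 / 2 : ℝ) * L ^ 9 * (12 * z) := by
        apply mul_le_mul_of_nonneg_left _ (by positivity)
        linarith
      calc (N : ℝ) ^ (1 / 2 : ℝ) * L ^ 8 ≤ (N : ℝ) ^ (1 / 2 : ℝ) * L ^ 9 * (12 * z) := by linarith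
        _ = 12 * L ^ 9 * ((N : ℝ) ^ (1 / 2 : ℝ) * z) := by ring
    linarith)
  -- the type II sums
  have hterm : ∀ p ∈ PY y z, (∑ k ∈ Ioc (x / p) ((x + l) / p), bf y J k) - (l / L ^ 3 * (1 / p) + 3) ≤
      l * (kap y J (x / p) / p) := by
    intro p hp
    unfold PY at hp
    rw [mem_filter, mem_Ioc] at hp
    have hp1 : 1 ≤ p := hp.2.one_lt.le
    have hp0 : (0 : ℝ) < p := by exact_mod_cast hp1
    have hpz : (p : ℝ) ≤ z := by exact_mod_cast hp.1.2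
    obtain ⟨a1, a2, a3⟩ := mass_len x l p hp1
    set lp := (x + l) / p - x / p with hlp
    have hxp : ((x : ℝ) / p) - 1 ≤ ((x / p : ℕ) : ℝ) := by
      have := Nat.lt_floor_add_one ((x : ℝ) / (p : ℝ))
      rw [Nat.floor_div_eq_div] at this
      linarith
    have hxp2 : ((x / p : ℕ) : ℝ) ≤ (x : ℝ) / p := Nat.cast_div_le
    have hxpL : 12 * L ^ 9 * (N : ℝ) ^ (1 / 2 : ℝ) ≤ (x : ℝ) / p := by
      rw [le_div_iff₀ hp0]
      calc 12 * L ^ 9 * (N : ℝ) ^ (1 / 2 : ℝ) * p ≤ 12 * L ^ 9 * (N : ℝ) ^ (1 / 2 : ℝ) * z := by gcongr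
        _ = 12 * L ^ 9 * ((N : ℝ) ^ (1 / 2 : ℝ) * z) := by ring
        _ ≤ x := hxz
    have hL9' : (1 : ℝ) ≤ L ^ 9 := one_le_pow₀ (by linarith)
    have b1 : (N : ℝ) ^ (1 / 2 : ℝ) ≤ ((x / p : ℕ) : ℝ) := by
      have h1 : 2 * (N : ℝ) ^ (1 / 2 : ℝ) ≤ 12 * L ^ 9 * (N : ℝ) ^ (1 / 2 : ℝ) := by
        apply mul_le_mul_of_nonneg_right _ (by positivity)
        linarith
      linarith
    have b2 : x / p ≤ N ^ 2 := by
      refine (Nat.div_le_self x p).trans (hx2.trans ?_)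
      have : 100 ≤ N := by omega
      nlinarith
    have hxpL' : 12 * L ^ 9 ≤ (x : ℝ) / p := by
      have h1 : 12 * L ^ 9 * 1 ≤ 12 * L ^ 9 * (N : ℝ) ^ (1 / 2 : ℝ) :=
        mul_le_mul_of_nonneg_left hsq1 (by positivity)
      linarith
    have hlp1 : (x : ℝ) / p / L ^ 8 ≤ l / p := by
      rw [div_div, mul_comm (p : ℝ), ← div_div]
      gcongr
    have b3 : ((x / p : ℕ) : ℝ) / L ^ 9 ≤ lp := by
      have h1 : (x : ℝ) / p / L ^ 8 = (x : ℝ) / p / L ^ 9 * L := by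
        field_simp
      have h2 : (12 : ℝ) ≤ (x : ℝ) / p / L ^ 9 := by
        rw [le_div_iff₀ hL9]
        exact hxpL'
      have h3 : ((x / p : ℕ) : ℝ) / L ^ 9 ≤ (x : ℝ) / p / L ^ 9 := by gcongr
      nlinarith
    have b4 : (lp : ℝ) ≤ ((x / p : ℕ) : ℝ) / L ^ (3 + 3) := by
      have h1 : (l : ℝ) / p ≤ 2 * ((x : ℝ) / p / L ^ 8) := by
        rw [div_le_iff₀ hp0]
        calc (l : ℝ) ≤ 2 * (x / L ^ 8) := hl3
          _ = 2 * ((x : ℝ) / p / L ^ 8) * p := by field_simp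
      have h2 : (x : ℝ) / p / L ^ 8 = (x : ℝ) / p / L ^ (3 + 3) / L ^ 2 := by
        rw [div_div _ (L ^ (3 + 3)), ← pow_add]
      have h3 : ((x : ℝ) / p - 1) / L ^ (3 + 3) ≤ ((x / p : ℕ) : ℝ) / L ^ (3 + 3) := by gcongr
      have h4 : (12 : ℝ) ≤ (x : ℝ) / p / L ^ (3 + 3) := by
        rw [le_div_iff₀ (by positivity)]
        have h41 : L ^ (3 + 3) ≤ L ^ 9 := pow_le_pow_right₀ (by linarith) (by norm_num)
        exact (mul_le_mul_of_nonneg_left h41 (by norm_num)).trans hxpL'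
      have h5 : 1 / L ^ (3 + 3) ≤ 1 := by
        rw [div_le_one (by positivity)]
        exact one_le_pow₀ (by linarith)
      rw [sub_div] at h3
      have h6 : (x : ℝ) / p / L ^ (3 + 3) / L ^ 2 ≤ (x : ℝ) / p / L ^ (3 + 3) / 100 := by
        apply div_le_div_of_nonneg_left (by positivity) (by norm_num)
        nlinarith
      rw [h2] at h1
      linarith
    have hb := heq (x / p) lp 1 0 hz1 b1 b2 b3 b4 le_rfl (by simp)
    have e1 : (Ioc (x / p) (x / p + lp)).filter (fun k => k ≡ 0 [MOD 1]) = Ioc (x / p) ((x + l) / p) := by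
      rw [← a1]
      apply filter_true_of_mem
      intro k _
      exact Nat.modEq_one
    rw [e1, if_pos (Nat.coprime_one_right 0), Nat.totient_one, Nat.cast_one, div_one] at hb
    have hb2 := (abs_le.1 hb).2
    have hxp3 : 3 ≤ x / p := by
      have h1 : (3 : ℝ) ≤ ((x / p : ℕ) : ℝ) := by
        have : (12 : ℝ) * 1 ≤ 12 * L ^ 9 := mul_le_mul_of_nonneg_left hL9' (by norm_num)
        linarith
      exact_mod_cast h1
    have k1 := kap_le y J (x / p) hxp3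
    have k0 := kap_nonneg y J (x / p) (by omega)
    have c1 : (lp : ℝ) * kap y J (x / p) ≤ (l / p + 1) * kap y J (x / p) :=
      mul_le_mul_of_nonneg_right a2 k0
    have c2 : (lp : ℝ) / L ^ 3 ≤ l / p / L ^ 3 + 1 := by
      have h1 : (lp : ℝ) / L ^ 3 ≤ (l / p + 1) / L ^ 3 := by gcongr
      rw [add_div] at h1
      have h2 : 1 / L ^ 3 ≤ 1 := by
        rw [div_le_one (by positivity)]
        exact one_le_pow₀ (by linarith)
      linarith
    have c3 : (l : ℝ) / L ^ 3 * (1 / p) = l / p / L ^ 3 := by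
      field_simp
    have c4 : (l : ℝ) * (kap y J (x / p) / p) = l / p * kap y J (x / p) := by
      field_simp
    rw [c3, c4]
    linarith
  have hsum := sum_le_sum hterm
  rw [sum_sub_distrib, sum_add_distrib, ← mul_sum, ← mul_sum, sum_const, nsmul_eq_mul,
    ← mass_swap (bf y J) y J x l] at hsum
  have hWK : ∑ p ∈ PY y z, kap y J (x / p) / (p : ℝ) = ∑ j ∈ range J, WK y J (2 ^ j * y) x := by
    rw [hz, ← mass_part (fun p => kap y J (x / p) / (p : ℝ)) y J]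
    rfl
  rw [hWK] at hsum
  have hcard : ((PY y z).card : ℝ) ≤ z := by
    have : (PY y z).card ≤ z := by
      unfold PY
      refine (card_filter_le _ _).trans ?_
      rw [Nat.card_Ioc]
      omega
    exact_mod_cast this
  have hinv := mass_inv y z L hz1' hzL
  -- the sum of `AA`
  have hAA : ∑ m ∈ Ioc x (x + l), AA y J m =
      ∑ m ∈ Ioc x (x + l), rg y m - ∑ m ∈ Ioc x (x + l), ∑ j ∈ range J, Fp (bf y J) (2 ^ j * y) m := by
    unfold AA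
    rw [sum_sub_distrib]
  have hAA2 : ∑ m ∈ Ioc x (x + l), AA y J m ≤ ∑ m ∈ Ioc x (x + l), rg z m +
      ∑ m ∈ Ioc x (x + l), (((PY y z).filter (fun p => p ^ 2 ∣ m)).card : ℝ) := by
    rw [← sum_add_distrib]
    apply sum_le_sum
    intro m hm
    rw [mem_Ioc] at hm
    exact aa_le y J m (by omega)
  have hsq := mass_sq y z x l L hy1 hz1' hzL
  have hrough : ∑ m ∈ Ioc x (x + l), rg z m ≤ (1 + Z2 ζ' + Z3 ζ' + ε / 4) * l / L := by
    classical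
    refine le_trans ?_ (hzc x l hx1 hx2 hl1 hlx)
    have h1 : ∑ m ∈ Ioc x (x + l), rg z m =
        (((Ioc x (x + l)).filter (fun m => ∀ p : ℕ, p.Prime → p ∣ m → z < p)).card : ℝ) := by
      unfold rg
      rw [← sum_filter, sum_const, nsmul_eq_mul, mul_one]
    rw [h1]
    have h2 : (Ioc x (x + l)).filter (fun m => ∀ p : ℕ, p.Prime → p ∣ m → z < p) ⊆
        (Ioc x (x + l)).filter (fun m => ∀ p : ℕ, p.Prime → p ∣ m → (N : ℝ) ^ ζ' < p) := by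
      intro m hm
      rw [mem_filter] at hm ⊢
      refine ⟨hm.1, fun p hp hpm => ?_⟩
      have h3 : (z : ℝ) < p := by exact_mod_cast hm.2 p hp hpm
      linarith
    exact_mod_cast card_le_card h2
  -- the error terms
  have er1 : (l : ℝ) / L ^ 3 * (1 + L) ≤ ε / 4 * l / L := by
    rw [div_mul_eq_mul_div, div_le_div_iff₀ (by positivity) hL0]
    have h1 : 1 + L ≤ 2 * L := by linarith
    have h2 : 16 ≤ ε * L := by
      have := (div_le_iff₀ hε).1 g2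
      linarith
    calc (l : ℝ) * (1 + L) * L ≤ l * (2 * L) * L := by gcongr
      _ = l * L ^ 2 * 2 := by ring
      _ ≤ l * L ^ 2 * (ε * L / 4) := by
          apply mul_le_mul_of_nonneg_left _ (by positivity)
          linarith
      _ = ε / 4 * l * L ^ 3 := by ring
  have er2 : (l : ℝ) * (1 + L) / y ≤ ε / 8 * l / L := by
    rw [div_le_div_iff₀ hy0 hL0]
    have h1 : 1 + L ≤ 2 * L := by linarith
    have h2 : 16 * L ^ 2 ≤ ε * y := by
      have h3 : 16 / ε * L ^ 2 ≤ y := g4.trans hyfl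
      have h4 : 16 / ε * L ^ 2 * ε ≤ y * ε := mul_le_mul_of_nonneg_right h3 hε.le
      have h5 : 16 / ε * L ^ 2 * ε = 16 * L ^ 2 := by field_simp
      rw [h5] at h4
      linarith
    calc (l : ℝ) * (1 + L) * L ≤ l * (2 * L) * L := by gcongr
      _ = l * (2 * L ^ 2) := by ring
      _ ≤ l * (ε * y / 8) := by
          apply mul_le_mul_of_nonneg_left _ hl0.le
          linarith
      _ = ε / 8 * l * y := by ring
  have er3 : 4 * (z : ℝ) ≤ ε / 8 * l / L := by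
    rw [le_div_iff₀ hL0]
    have h1 : 64 * 16 / ε * L ^ 9 * z ≤ N := by
      refine le_trans ?_ g5
      gcongr
    have h2 : 1024 * L ^ 9 * z ≤ ε * N := by
      have h3 : 64 * 16 / ε * L ^ 9 * z * ε ≤ N * ε := mul_le_mul_of_nonneg_right h1 hε.le
      have h5 : 64 * 16 / ε * L ^ 9 * z * ε = 1024 * L ^ 9 * z := by
        field_simp
        ring
      rw [h5] at h3
      linarith
    have h3 : x ≤ l * L ^ 8 := (div_le_iff₀ hL8).1 hl1
    have h4 : 4 * (z : ℝ) * L * L ^ 8 ≤ ε / 8 * l * L ^ 8 := by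
      have e : 4 * (z : ℝ) * L * L ^ 8 = 4 * L ^ 9 * z := by ring
      rw [e]
      have h5 : ε * x ≤ ε * (l * L ^ 8) := mul_le_mul_of_nonneg_left h3 hε.le
      have h6 : ε * N ≤ ε * (8 * x) := mul_le_mul_of_nonneg_left hxr hε.le
      have h7 : ε / 8 * l * L ^ 8 = ε * (l * L ^ 8) / 8 := by ring
      rw [h7]
      have h8 : 0 ≤ L ^ 9 * z := by positivity
      nlinarith
    exact le_of_mul_le_mul_right h4 hL8
  -- conclusion
  have hfin : l * kapA kS y J x ≤ (1 + Z2 ζ' + Z3 ζ' + ε0 + ε) * l / L := by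
    unfold kapA
    have t1 : (l : ℝ) / L ^ 3 * ∑ p ∈ PY y z, 1 / (p : ℝ) ≤ l / L ^ 3 * (1 + L) :=
      mul_le_mul_of_nonneg_left hinv (by positivity)
    have t2 : (l : ℝ) * (kS - ∑ j ∈ range J, WK y J (2 ^ j * y) x) =
        kS * l - l * ∑ j ∈ range J, WK y J (2 ^ j * y) x := by ring
    rw [t2]
    have t3 : (1 + Z2 ζ' + Z3 ζ' + ε0 + ε) * l / L = (1 + Z2 ζ' + Z3 ζ' + ε / 4) * l / L + ε0 * l / L +
        (ε / 4 * l / L + ε / 8 * l / L + ε / 8 * l / L) + ε / 4 * l / L := by ring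
    rw [t3]
    have t4 : 0 ≤ ε / 4 * l / L := by positivity
    linarith
  have hfin2 : kapA kS y J x * l ≤ (1 + Z2 ζ' + Z3 ζ' + ε0 + ε) / L * l := by
    calc kapA kS y J x * l = l * kapA kS y J x := mul_comm _ _
      _ ≤ (1 + Z2 ζ' + Z3 ζ' + ε0 + ε) * l / L := hfin
      _ = (1 + Z2 ζ' + Z3 ζ' + ε0 + ε) / L * l := by ring
  exact le_of_mul_le_mul_right hfin2 hl0

end Pool.Agent.H76.TP
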