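import Pool.Agent.H76.TP.Defs
import Pool.Agent.H35.V1.NT
import Pool.Agent.H3.LC.Mertens

/-!
# TP MertR: Riemann sums over primes

`∑_{N^a < p ≤ N^b} f(log p/L)/p ≤ ∫_a^b f(u)/u du + ε`, uniformly in `a0 ≤ a ≤ b ≤ 1` and `f` bounded by `M` and `M`-Lipschitz.
Proof.  Cut `[a, b]` into `n` pieces `[u_i, u_{i+1}]` of length `h = (b-a)/n ≤ 1/n`.  Mertens: `∑_{N^{u_i} < p ≤ N^{u_{i+1}}} 1/p ≤ log(u_{i+1}/u_i) + C/(a0 L)` (`∑_{s<p≤t} 1/p = log(log t/log s) + O(1/log s)`; `Pool.Agent.H87S` `mertens_diff` in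
`H87S/PrimeSums.lean`, or `H37/PPC/Mt.lean` `mertens_two`, `H70/EHC/Mer.lean`).  `f(log p/L) ≤ f(u) + M h` for all `u` in the piece and `log(u_{i+1}/u_i) = ∫ du/u`: the piece contributes
`≤ ∫_{u_i}^{u_{i+1}} (f(u) + M h)/u du + M C/(a0 L)`; total `≤ ∫ f/u + M/(n a0) + n M C/(a0 L)`.  Choose `n`, then `N`.
-/

set_option autoImplicit false

namespace Pool.Agent.H76.TP

open Finset MeasureTheory

private theorem MertR_nat : ∃ c : ℝ, 0 < c ∧ ∀ w z : ℕ, 2 ≤ w → w ≤ z →
    ∑ p ∈ Pool.Agent.H35.V1.PPr w z, (1 : ℝ) / p ≤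
      Real.log (Real.log z / Real.log w) + c / Real.log w := by
  have hlog4 : 0 ≤ Real.log 4 := Real.log_nonneg (by norm_num)
  refine ⟨Real.log 4 + 5, by linarith, fun w z hw hwz => ?_⟩
  refine Pool.Agent.H35.V1.sum_recip_le hw hwz (by linarith) fun m hm _ => ?_
  have h1 := Pool.Agent.H3.LC.mertensM_ge w (by omega)
  have h2 := Pool.Agent.H3.LC.mertensM_le m (by omega)
  unfold Pool.Agent.H3.LC.mertensM at h1 h2
  have e : ∑ d ∈ Ioc 0 m, ArithmeticFunction.vonMangoldt d / (d : ℝ) =
      ∑ d ∈ Ioc 0 w, ArithmeticFunction.vonMangoldt d / (d : ℝ) +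
        ∑ d ∈ Ioc w m, ArithmeticFunction.vonMangoldt d / (d : ℝ) := by
    rw [← sum_union]
    · congr 1
      ext x
      simp only [mem_union, mem_Ioc]
      omega
    · rw [disjoint_left]
      intro x h3 h4
      rw [mem_Ioc] at h3 h4
      omega
  linarith

/-- the primes of a window -/
private noncomputable def MertR_P (N : ℕ) (s t : ℝ) : Finset ℕ :=
  (Icc 1 N).filter (fun p : ℕ => p.Prime ∧ (N : ℝ) ^ s < p ∧ (p : ℝ) ≤ (N : ℝ) ^ t)

private theorem MertR_win : ∃ C : ℝ, 0 < C ∧ ∀ (N : ℕ) (s t : ℝ), 0 < s → s ≤ t → 2 ≤ N →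
    2 ≤ s * Real.log N →
    ∑ p ∈ MertR_P N s t, (1 : ℝ) / p ≤ Real.log (t / s) + C / (s * Real.log N) := by
  obtain ⟨c, hc, h⟩ := MertR_nat
  refine ⟨2 + 2 * c, by linarith, fun N s t hs hst hN hsL => ?_⟩
  have hN0 : (0 : ℝ) < N := by exact_mod_cast (by omega : 0 < N)
  have hN1 : (1 : ℝ) < N := by exact_mod_cast (by omega : 1 < N)
  have hL : 0 < Real.log N := Real.log_pos hN1
  set L := Real.log N with hLd
  have ht : 0 < t := by linarith
  have hsLp : 0 < s * L := by positivity
  have hes : (N : ℝ) ^ s = Real.exp (s * L) := by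
    rw [Real.rpow_def_of_pos hN0, mul_comm]
  have het : (N : ℝ) ^ t = Real.exp (t * L) := by
    rw [Real.rpow_def_of_pos hN0, mul_comm]
  have hexp : 3 ≤ Real.exp (s * L) := by
    have := Real.add_one_le_exp (s * L)
    linarith
  have hst' : Real.exp (s * L) ≤ Real.exp (t * L) :=
    Real.exp_le_exp.2 (mul_le_mul_of_nonneg_right hst hL.le)
  set w := ⌊(N : ℝ) ^ s⌋₊ with hw
  set z := ⌊(N : ℝ) ^ t⌋₊ with hz
  have hw3 : 3 ≤ w := by
    rw [hw, hes]
    exact Nat.le_floor (by exact_mod_cast hexp)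
  have hwz : w ≤ z := by
    rw [hw, hz, hes, het]
    exact Nat.floor_le_floor hst'
  have hsub : MertR_P N s t ⊆ Pool.Agent.H35.V1.PPr w z := by
    intro p hp
    unfold MertR_P at hp
    rw [mem_filter] at hp
    obtain ⟨_, hpp, h1, h2⟩ := hp
    rw [Pool.Agent.H35.V1.mem_PPr]
    refine ⟨⟨?_, ?_⟩, hpp⟩
    · exact (Nat.floor_lt (by positivity)).2 h1
    · exact Nat.le_floor h2
  have h1 : ∑ p ∈ MertR_P N s t, (1 : ℝ) / p ≤ ∑ p ∈ Pool.Agent.H35.V1.PPr w z, (1 : ℝ) / p :=
    sum_le_sum_of_subset_of_nonneg hsub fun _ _ _ => by positivity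
  refine h1.trans ((h w z (by omega) hwz).trans ?_)
  have hwp : (0 : ℝ) < w := by exact_mod_cast (by omega : 0 < w)
  have hzp : (0 : ℝ) < z := by exact_mod_cast (by omega : 0 < z)
  -- lower bound for log w
  have hlw : s * L - Real.log 2 ≤ Real.log w := by
    have h2 : Real.exp (s * L) / 2 ≤ w := by
      have h3 := Nat.sub_one_lt_floor ((N : ℝ) ^ s)
      rw [← hw, hes] at h3
      linarith
    have h3 : s * L - Real.log 2 = Real.log (Real.exp (s * L) / 2) := by
      rw [Real.log_div (Real.exp_ne_zero _) (by norm_num), Real.log_exp]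
    rw [h3]
    exact Real.log_le_log (by positivity) h2
  have hl2 : Real.log 2 ≤ 1 := by linarith [Real.log_two_lt_d9]
  have hl20 : 0 < Real.log 2 := Real.log_pos (by norm_num)
  have hhalf : s * L / 2 ≤ s * L - Real.log 2 := by linarith
  have hlwp : 0 < Real.log w := by linarith
  have hlz : Real.log z ≤ t * L := by
    have h3 : (z : ℝ) ≤ Real.exp (t * L) := by
      have := Nat.floor_le (show 0 ≤ (N : ℝ) ^ t by positivity)
      rw [← hz, het] at this
      exact this
    have h4 := Real.log_le_log hzp h3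
    rwa [Real.log_exp] at h4
  have hlzp : 0 < Real.log z := by
    have h4 : Real.log w ≤ Real.log z := Real.log_le_log hwp (by exact_mod_cast hwz)
    linarith
  -- the main term
  have hden : 0 < s * L - Real.log 2 := by linarith
  have h5 : Real.log (Real.log z / Real.log w) ≤ Real.log (t * L / (s * L - Real.log 2)) := by
    apply Real.log_le_log (by positivity)
    exact div_le_div₀ (by positivity) hlz hden hlw
  have h6 : Real.log (t * L / (s * L - Real.log 2)) =
      Real.log (t / s) + Real.log (s * L / (s * L - Real.log 2)) := by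
    rw [← Real.log_mul (by positivity) (by positivity)]
    congr 1
    field_simp
  have h7 : Real.log (s * L / (s * L - Real.log 2)) ≤ 2 / (s * L) := by
    have h8 := Real.log_le_sub_one_of_pos (show 0 < s * L / (s * L - Real.log 2) by positivity)
    have h9 : s * L / (s * L - Real.log 2) - 1 = Real.log 2 / (s * L - Real.log 2) := by
      field_simp
      ring
    rw [h9] at h8
    refine h8.trans ?_
    rw [div_le_div_iff₀ hden hsLp]
    nlinarith
  have h10 : c / Real.log w ≤ 2 * c / (s * L) := by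
    rw [div_le_div_iff₀ hlwp hsLp]
    nlinarith
  have h11 : (2 + 2 * c) / (s * L) = 2 / (s * L) + 2 * c / (s * L) := by ring
  rw [h11]
  linarith

private theorem MertR_piece {C : ℝ} (N : ℕ) (s t M : ℝ) (f : ℝ → ℝ) (hM : 0 < M) (hs : 0 < s)
    (hst : s ≤ t) (hts : t - s ≤ 1) (hN : 2 ≤ N)
    (hC : ∑ p ∈ MertR_P N s t, (1 : ℝ) / p ≤ Real.log (t / s) + C / (s * Real.log N))
    (hC0 : 0 < C)
    (hf : ∀ u ∈ Set.Icc s t, 0 ≤ f u ∧ f u ≤ M)
    (hfL : ∀ u ∈ Set.Icc s t, ∀ v ∈ Set.Icc s t, |f u - f v| ≤ M * |u - v|) :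
    ∑ p ∈ MertR_P N s t, f (Real.log p / Real.log N) / p ≤ (∫ u in s..t, f u / u) +
      (2 * M * (t - s) ^ 2 / s + 2 * M * (C / (s * Real.log N))) := by
  have hN0 : (0 : ℝ) < N := by exact_mod_cast (by omega : 0 < N)
  have hN1 : (1 : ℝ) < N := by exact_mod_cast (by omega : 1 < N)
  have hL : 0 < Real.log N := Real.log_pos hN1
  have hts0 : 0 ≤ t - s := by linarith
  have hsm : s ∈ Set.Icc s t := ⟨le_rfl, hst⟩
  have hfs := hf s hsm
  have ht : 0 < t := by linarith
  -- the sum
  have h1 : ∑ p ∈ MertR_P N s t, f (Real.log p / Real.log N) / p ≤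
      (f s + M * (t - s)) * ∑ p ∈ MertR_P N s t, (1 : ℝ) / p := by
    rw [mul_sum]
    refine sum_le_sum fun p hp => ?_
    unfold MertR_P at hp
    rw [mem_filter] at hp
    obtain ⟨_, hpp, h2, h3⟩ := hp
    have hp0 : (0 : ℝ) < p := by exact_mod_cast hpp.pos
    have hu : Real.log p / Real.log N ∈ Set.Icc s t := by
      constructor
      · rw [le_div_iff₀ hL, ← Real.log_rpow hN0]
        exact Real.log_le_log (by positivity) h2.le
      · rw [div_le_iff₀ hL, ← Real.log_rpow hN0]
        exact Real.log_le_log hp0 h3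
    have h4 := hfL _ hu s hsm
    have h5 : f (Real.log p / Real.log N) ≤ f s + M * (t - s) := by
      have h6 := le_abs_self (f (Real.log p / Real.log N) - f s)
      have h7 : |Real.log p / Real.log N - s| ≤ t - s := by
        rw [abs_of_nonneg (by linarith [hu.1])]
        linarith [hu.2]
      have h8 := mul_le_mul_of_nonneg_left h7 hM.le
      linarith
    rw [mul_one_div]
    exact div_le_div_of_nonneg_right h5 hp0.le
  have hlog : Real.log (t / s) ≤ (t - s) / s := by
    have h2 := Real.log_le_sub_one_of_pos (show 0 < t / s by positivity)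
    have h3 : t / s - 1 = (t - s) / s := by field_simp
    linarith
  have hlog0 : 0 ≤ Real.log (t / s) := Real.log_nonneg ((one_le_div hs).2 hst)
  -- the integral
  have hcont : ContinuousOn f (Set.Icc s t) := by
    have hlip : LipschitzOnWith ⟨M, hM.le⟩ f (Set.Icc s t) := by
      apply LipschitzOnWith.of_dist_le_mul
      intro x hx y hy
      rw [Real.dist_eq, Real.dist_eq]
      exact hfL x hx y hy
    exact hlip.continuousOn
  have hint : IntervalIntegrable (fun u => f u / u) volume s t := by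
    apply ContinuousOn.intervalIntegrable
    rw [Set.uIcc_of_le hst]
    exact hcont.div continuousOn_id fun u hu => (lt_of_lt_of_le hs hu.1).ne'
  have hint2 : IntervalIntegrable (fun u : ℝ => (f s - M * (t - s)) * (1 / u)) volume s t := by
    apply ContinuousOn.intervalIntegrable
    rw [Set.uIcc_of_le hst]
    exact continuousOn_const.mul (continuousOn_const.div continuousOn_id fun u hu =>
      (lt_of_lt_of_le hs hu.1).ne')
  have h2 : (f s - M * (t - s)) * Real.log (t / s) ≤ ∫ u in s..t, f u / u := by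
    have h3 : ∫ u in s..t, (f s - M * (t - s)) * (1 / u) =
        (f s - M * (t - s)) * Real.log (t / s) := by
      rw [intervalIntegral.integral_const_mul, integral_one_div_of_pos hs ht]
    rw [← h3]
    refine intervalIntegral.integral_mono_on hst hint2 hint fun u hu => ?_
    have hu0 : 0 < u := by linarith [hu.1]
    rw [mul_one_div]
    refine div_le_div_of_nonneg_right ?_ hu0.le
    have h4 := hfL s hsm u hu
    have h6 := le_abs_self (f s - f u)
    have h7 : |s - u| ≤ t - s := by
      rw [abs_sub_comm, abs_of_nonneg (by linarith [hu.1])]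
      linarith [hu.2]
    have h8 := mul_le_mul_of_nonneg_left h7 hM.le
    linarith
  have hE0 : 0 ≤ C / (s * Real.log N) := by positivity
  have hA : 0 ≤ f s + M * (t - s) := by
    have := mul_nonneg hM.le hts0
    linarith [hfs.1]
  have hA2 : f s + M * (t - s) ≤ 2 * M := by
    have : M * (t - s) ≤ M * 1 := mul_le_mul_of_nonneg_left hts hM.le
    linarith [hfs.2]
  have h3 := mul_le_mul_of_nonneg_left hC hA
  have h4 : (f s + M * (t - s)) * (C / (s * Real.log N)) ≤ 2 * M * (C / (s * Real.log N)) :=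
    mul_le_mul_of_nonneg_right hA2 hE0
  have h5 : 2 * M * (t - s) * Real.log (t / s) ≤ 2 * M * (t - s) ^ 2 / s := by
    have h6 : 2 * M * (t - s) ^ 2 / s = 2 * M * (t - s) * ((t - s) / s) := by ring
    rw [h6]
    exact mul_le_mul_of_nonneg_left hlog (by positivity)
  have h6 : (f s + M * (t - s)) * (Real.log (t / s) + C / (s * Real.log N)) =
      (f s - M * (t - s)) * Real.log (t / s) + 2 * M * (t - s) * Real.log (t / s) +
        (f s + M * (t - s)) * (C / (s * Real.log N)) := by ring
  rw [h6] at h3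
  linarith

theorem mert_r (a0 M ε : ℝ) (ha0 : 0 < a0) (hM : 0 < M) (hε : 0 < ε) : ∃ N0 : ℕ, ∀ N : ℕ, N0 ≤ N →
    ∀ (a b : ℝ) (f : ℝ → ℝ), a0 ≤ a → a ≤ b → b ≤ 1 → (∀ u ∈ Set.Icc a b, 0 ≤ f u ∧ f u ≤ M) →
      (∀ u ∈ Set.Icc a b, ∀ v ∈ Set.Icc a b, |f u - f v| ≤ M * |u - v|) →
      ∑ p ∈ (Icc 1 N).filter (fun p : ℕ => p.Prime ∧ (N : ℝ) ^ a < p ∧ (p : ℝ) ≤ (N : ℝ) ^ b),
        f (Real.log p / Real.log N) / p ≤ (∫ u in a..b, f u / u) + ε := by
  obtain ⟨C, hC0, hC⟩ := MertR_win
  obtain ⟨n, hn⟩ := exists_nat_gt (4 * M / (a0 * ε))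
  have hn0 : (0 : ℝ) < n := lt_trans (by positivity) hn
  have hnpos : 0 < n := by exact_mod_cast hn0
  obtain ⟨N1, hN1⟩ := exists_nat_gt (Real.exp (2 / a0 + 4 * M * n * C / (a0 * ε)))
  refine ⟨max N1 2, fun N hN a b f ha hab hb hf hfL => ?_⟩
  have hN2 : 2 ≤ N := le_trans (le_max_right _ _) hN
  have hNN1 : (N1 : ℝ) ≤ N := by exact_mod_cast le_trans (le_max_left _ _) hN
  have hNp : (0 : ℝ) < N := by exact_mod_cast (by omega : 0 < N)
  set L := Real.log N with hL
  have hLbig : 2 / a0 + 4 * M * n * C / (a0 * ε) ≤ L := by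
    rw [hL, Real.le_log_iff_exp_le hNp]
    linarith
  have hq1 : 0 < 2 / a0 := by positivity
  have hq2 : 0 < 4 * M * n * C / (a0 * ε) := by positivity
  have hLp : 0 < L := by linarith
  have hL1 : 2 ≤ a0 * L := by
    have h1 : 2 / a0 ≤ L := by linarith
    rw [div_le_iff₀ ha0] at h1
    linarith
  have hL2 : n * (2 * M * (C / (a0 * L))) ≤ ε / 2 := by
    have h1 : 4 * M * n * C / (a0 * ε) ≤ L := by linarith
    rw [div_le_iff₀ (by positivity)] at h1
    have h2 : n * (2 * M * (C / (a0 * L))) = (2 * M * n * C) / (a0 * L) := by ring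
    rw [h2, div_le_iff₀ (by positivity)]
    linarith
  set h : ℝ := (b - a) / n with hh
  have hba0 : 0 ≤ b - a := by linarith
  have hba1 : b - a ≤ 1 := by linarith
  have hh0 : 0 ≤ h := by positivity
  have hnh : n * h = b - a := by
    rw [hh]
    field_simp
  have hhn : h ≤ 1 / n := div_le_div_of_nonneg_right hba1 hn0.le
  have hh1 : h ≤ 1 := by
    refine hhn.trans ?_
    rw [div_le_one hn0]
    exact_mod_cast hnpos
  set E : ℝ := 2 * M * h ^ 2 / a0 + 2 * M * (C / (a0 * L)) with hE
  have hfi : ∀ s t : ℝ, a ≤ s → s ≤ t → t ≤ b → IntervalIntegrable (fun u => f u / u) volume s t := by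
    intro s t has hst htb
    apply ContinuousOn.intervalIntegrable
    rw [Set.uIcc_of_le hst]
    have hlip : LipschitzOnWith ⟨M, hM.le⟩ f (Set.Icc a b) := by
      apply LipschitzOnWith.of_dist_le_mul
      intro x hx y hy
      rw [Real.dist_eq, Real.dist_eq]
      exact hfL x hx y hy
    exact (hlip.continuousOn.mono (Set.Icc_subset_Icc has htb)).div continuousOn_id fun u hu =>
      (lt_of_lt_of_le (by linarith : 0 < s) hu.1).ne'
  have key : ∀ k : ℕ, k ≤ n →
      ∑ p ∈ MertR_P N a (a + k * h), f (Real.log p / L) / p ≤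
        (∫ u in a..(a + k * h), f u / u) + k * E := by
    intro k
    induction k with
    | zero =>
      intro _
      have h1 : MertR_P N a (a + ((0 : ℕ) : ℝ) * h) = ∅ := by
        apply filter_false_of_mem
        rintro p _ ⟨_, h2, h3⟩
        rw [Nat.cast_zero, zero_mul, add_zero] at h3
        linarith
      rw [h1, sum_empty, Nat.cast_zero, zero_mul, zero_mul, add_zero, add_zero,
        intervalIntegral.integral_same]
    | succ k ih =>
      intro hk
      have hk1 := ih (by omega)
      set s : ℝ := a + k * h with hs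
      set t : ℝ := a + ((k + 1 : ℕ) : ℝ) * h with ht
      have hts : t - s = h := by
        rw [ht, hs]
        push_cast
        ring
      have hkh : 0 ≤ (k : ℝ) * h := by positivity
      have hs0 : a ≤ s := by
        rw [hs]
        linarith
      have hst : s ≤ t := by linarith
      have htb : t ≤ b := by
        have h1 : ((k + 1 : ℕ) : ℝ) * h ≤ n * h :=
          mul_le_mul_of_nonneg_right (by exact_mod_cast hk) hh0
        rw [ht]
        linarith
      have hsp : 0 < s := by linarith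
      have hsL : a0 * L ≤ s * L := mul_le_mul_of_nonneg_right (by linarith) hLp.le
      have hwin := hC N s t hsp hst hN2 (by rw [← hL]; linarith)
      have hpc := MertR_piece N s t M f hM hsp hst (by linarith) hN2 hwin hC0
        (fun u hu => hf u ⟨hs0.trans hu.1, hu.2.trans htb⟩)
        (fun u hu v hv => hfL u ⟨hs0.trans hu.1, hu.2.trans htb⟩ v ⟨hs0.trans hv.1, hv.2.trans htb⟩)
      rw [← hL, hts] at hpc
      have hE1 : 2 * M * h ^ 2 / s + 2 * M * (C / (s * L)) ≤ E := by
        have h1 : 2 * M * h ^ 2 / s ≤ 2 * M * h ^ 2 / a0 :=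
          div_le_div_of_nonneg_left (by positivity) ha0 (by linarith)
        have h2 : C / (s * L) ≤ C / (a0 * L) :=
          div_le_div_of_nonneg_left hC0.le (by positivity) hsL
        have h3 : 2 * M * (C / (s * L)) ≤ 2 * M * (C / (a0 * L)) :=
          mul_le_mul_of_nonneg_left h2 (by positivity)
        linarith
      have hunion : ∑ p ∈ MertR_P N a t, f (Real.log p / L) / p ≤
          ∑ p ∈ MertR_P N a s, f (Real.log p / L) / p + ∑ p ∈ MertR_P N s t, f (Real.log p / L) / p := by
        have hdisj : Disjoint (MertR_P N a s) (MertR_P N s t) := by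
          rw [disjoint_left]
          intro p h1 h2
          unfold MertR_P at h1 h2
          rw [mem_filter] at h1 h2
          linarith [h1.2.2.2, h2.2.2.1]
        rw [← sum_union hdisj]
        have hsub : MertR_P N a t ⊆ MertR_P N a s ∪ MertR_P N s t := by
          intro p hp
          unfold MertR_P at hp ⊢
          rw [mem_union, mem_filter, mem_filter]
          rw [mem_filter] at hp
          by_cases h1 : (p : ℝ) ≤ (N : ℝ) ^ s
          · left
            exact ⟨hp.1, hp.2.1, hp.2.2.1, h1⟩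
          · right
            exact ⟨hp.1, hp.2.1, not_le.1 h1, hp.2.2.2⟩
        refine sum_le_sum_of_subset_of_nonneg hsub fun p hp _ => ?_
        have hp2 : p.Prime ∧ (N : ℝ) ^ a < p ∧ (p : ℝ) ≤ (N : ℝ) ^ b := by
          have hN1' : (1 : ℝ) ≤ N := by exact_mod_cast (by omega : 1 ≤ N)
          unfold MertR_P at hp
          rw [mem_union, mem_filter, mem_filter] at hp
          rcases hp with h1 | h1
          · exact ⟨h1.2.1, h1.2.2.1, h1.2.2.2.trans
              (Real.rpow_le_rpow_of_exponent_le hN1' (hst.trans htb))⟩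
          · exact ⟨h1.2.1, lt_of_le_of_lt (Real.rpow_le_rpow_of_exponent_le hN1' hs0) h1.2.2.1,
              h1.2.2.2.trans (Real.rpow_le_rpow_of_exponent_le hN1' htb)⟩
        have hp0 : (0 : ℝ) < p := by exact_mod_cast hp2.1.pos
        have hu : Real.log p / L ∈ Set.Icc a b := by
          constructor
          · rw [le_div_iff₀ hLp, hL, ← Real.log_rpow hNp]
            exact Real.log_le_log (by positivity) hp2.2.1.le
          · rw [div_le_iff₀ hLp, hL, ← Real.log_rpow hNp]
            exact Real.log_le_log hp0 hp2.2.2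
        exact div_nonneg (hf _ hu).1 hp0.le
      have hadd : (∫ u in a..s, f u / u) + (∫ u in s..t, f u / u) = ∫ u in a..t, f u / u :=
        intervalIntegral.integral_add_adjacent_intervals (hfi a s le_rfl hs0 (hst.trans htb))
          (hfi s t hs0 hst htb)
      rw [← hadd]
      push_cast
      linarith
  have hfin := key n le_rfl
  have hb' : a + (n : ℝ) * h = b := by
    rw [hnh]
    ring
  rw [hb'] at hfin
  have hE2 : n * E ≤ ε := by
    have h1 : n * (2 * M * h ^ 2 / a0) ≤ ε / 2 := by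
      have h2 : n * h ^ 2 ≤ 1 / n := by
        calc n * h ^ 2 = (n * h) * h := by ring
          _ ≤ 1 * h := mul_le_mul_of_nonneg_right (by linarith) hh0
          _ ≤ 1 / n := by linarith
      have h3 : n * (2 * M * h ^ 2 / a0) = 2 * M / a0 * (n * h ^ 2) := by ring
      have h4 : 2 * M / a0 * (n * h ^ 2) ≤ 2 * M / a0 * (1 / n) :=
        mul_le_mul_of_nonneg_left h2 (by positivity)
      have h5 : 2 * M / a0 * (1 / n) ≤ ε / 2 := by
        have h6 : 4 * M < n * (a0 * ε) := by
          rw [div_lt_iff₀ (by positivity)] at hn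
          exact hn
        rw [div_mul_div_comm, div_le_iff₀ (by positivity)]
        linarith
      rw [h3]
      linarith
    have h2 : n * E = n * (2 * M * h ^ 2 / a0) + n * (2 * M * (C / (a0 * L))) := by
      rw [hE]
      ring
    rw [h2]
    linarith
  have hgoal : (Icc 1 N).filter (fun p : ℕ => p.Prime ∧ (N : ℝ) ^ a < p ∧ (p : ℝ) ≤ (N : ℝ) ^ b) =
      MertR_P N a b := rfl
  rw [hgoal]
  linarith

end Pool.Agent.H76.TP
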