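import Pool.Agent.H76.TP.Defs

/-!
# TP SvA: the upper bound sieve is `≥` the indicator of the rough numbers, and its divisor expansion

* `bon_nonneg`, `bon_one`: with `V = {p ≤ w prime, p ∣ m}`, `ν = |V|`: `∑_{T ⊆ V, |T| ≤ 2r} (-1)^|T| = ∑_{j ≤ 2r} (-1)^j C(ν, j) = C(ν-1, 2r) ≥ 0` for `ν ≥ 1`, `= 1` for `ν = 0`.
  (Compare `Pool.Agent.H35.U`: `bonf_upper`, `bonf_mu`, `sb`.)
* `ss_ge`: if `rg y m = 1` then both prime sets are empty and `SS = 1 · (ρ ∅)² = 1`.
* `gS w y r ρ n`: for `n` squarefree with all its prime factors `≤ y`: with `T` the prime factors `≤ w`, `U` those in `(w, y]`,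
  `gS n = (-1)^|T| [|T| ≤ 2r] ∑_{A, B ⊆ U, A ∪ B = U} ρ A ρ B`; `0` for the other `n`.
* `ss_exp`: for `m ≥ 1`: `SS m = ∑_{n ∣ m, n ≤ Q} gS n` (`Q ≥ w^(2r) D²` where `ρ A = 0` if `∏_A p > D`, so `gS n = 0` for `n > Q`): the squarefree `n ∣ m` with prime factors `≤ y` correspond to the pairs
  `(T, U)`, `T ⊆ {p ≤ w, p ∣ m}`, `U ⊆ {w < p ≤ y, p ∣ m}`; and `(∑_A ρ A)² = ∑_U ∑_{A ∪ B = U} ρ A ρ B`.
* `gs_abs`: `|gS n| ≤ 3^ω(n)`: the number of the pairs `A ∪ B = U` is `3^|U|`.
-/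

set_option autoImplicit false

namespace Pool.Agent.H76.TP

open Finset

/-- the coefficients of the sieve -/
noncomputable def gS (w y r : ℕ) (ρ : Finset ℕ → ℝ) (n : ℕ) : ℝ :=
  if Squarefree n ∧ (∀ p ∈ n.primeFactors, p ≤ y) ∧ (n.primeFactors.filter (fun p => p ≤ w)).card ≤ 2 * r then
    (-1 : ℝ) ^ (n.primeFactors.filter (fun p => p ≤ w)).card *
      ∑ A ∈ (n.primeFactors.filter (fun p => w < p)).powerset,
        ∑ B ∈ (n.primeFactors.filter (fun p => w < p)).powerset,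
          if A ∪ B = n.primeFactors.filter (fun p => w < p) then ρ A * ρ B else 0
  else 0

/-- admissible weights: `ρ ∅ = 1`, `|ρ A| ≤ 1`, `ρ A = 0` for `∏_{p ∈ A} p > D` (`A ⊆ PY w y`) -/
def Rho (w y D : ℕ) (ρ : Finset ℕ → ℝ) : Prop :=
  ρ ∅ = 1 ∧ (∀ A ⊆ PY w y, |ρ A| ≤ 1) ∧ ∀ A ⊆ PY w y, D < ∏ p ∈ A, p → ρ A = 0

private theorem SvA_alt (s : Finset ℕ) (k : ℕ) (hs : s.Nonempty) :
    0 ≤ ∑ T ∈ s.powerset.filter (fun T => T.card ≤ 2 * k), (-1 : ℝ) ^ T.card := by
  obtain ⟨a, ha⟩ := hs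
  rw [Finset.sum_filter]
  obtain ⟨s', hs'⟩ : ∃ s', s' = s.erase a := ⟨_, rfl⟩
  have has' : a ∉ s' := by
    rw [hs']
    exact Finset.notMem_erase a s
  have hsi : s = insert a s' := by
    rw [hs', Finset.insert_erase ha]
  rw [hsi, Finset.sum_powerset_insert has', ← Finset.sum_add_distrib]
  apply Finset.sum_nonneg
  intro T hT
  have haT : a ∉ T := fun h => has' (Finset.mem_powerset.mp hT h)
  rw [Finset.card_insert_of_notMem haT]
  by_cases h1 : T.card + 1 ≤ 2 * k
  · rw [if_pos h1, if_pos (by omega), pow_succ]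
    linarith
  · rw [if_neg h1]
    by_cases h2 : T.card ≤ 2 * k
    · have h3 : T.card = 2 * k := by omega
      rw [if_pos h2, h3, pow_mul]
      norm_num
    · rw [if_neg h2]
      norm_num

private theorem SvA_empty (k : ℕ) :
    ∑ T ∈ (∅ : Finset ℕ).powerset.filter (fun T => T.card ≤ 2 * k), (-1 : ℝ) ^ T.card = 1 := by
  rw [Finset.sum_filter, Finset.powerset_empty, Finset.sum_singleton, Finset.card_empty]
  simp

theorem bon_nonneg (w r m : ℕ) : 0 ≤ bon w r m := by
  unfold bon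
  rcases ((PW w).filter (fun p => p ∣ m)).eq_empty_or_nonempty with h | h
  · rw [h, SvA_empty]
    norm_num
  · exact SvA_alt _ r h

theorem bon_one (w r m : ℕ) (h : ∀ p : ℕ, p.Prime → p ∣ m → w < p) : bon w r m = 1 := by
  unfold bon
  have h1 : (PW w).filter (fun p => p ∣ m) = ∅ := by
    rw [Finset.filter_eq_empty_iff]
    intro p hp hpm
    unfold PW at hp
    rw [Finset.mem_filter, mem_Icc] at hp
    have := h p hp.2 hpm
    omega
  rw [h1, SvA_empty]

theorem ss_nonneg (w y r : ℕ) (ρ : Finset ℕ → ℝ) (m : ℕ) : 0 ≤ SS w y r ρ m := by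
  unfold SS sel
  exact mul_nonneg (bon_nonneg w r m) (sq_nonneg _)

theorem ss_ge (w y r D : ℕ) (ρ : Finset ℕ → ℝ) (hwy : w ≤ y) (hρ : Rho w y D ρ) (m : ℕ) (hm : 1 ≤ m) :
    rg y m ≤ SS w y r ρ m := by
  unfold rg
  split_ifs with h
  · have h1 : bon w r m = 1 := bon_one w r m (fun p hp hpm => lt_of_le_of_lt hwy (h p hp hpm))
    have h2 : (PY w y).filter (fun p => p ∣ m) = ∅ := by
      rw [Finset.filter_eq_empty_iff]
      intro p hp hpm
      unfold PY at hp
      rw [Finset.mem_filter, mem_Ioc] at hp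
      have := h p hp.2 hpm
      omega
    unfold SS sel
    rw [h1, h2, Finset.powerset_empty, Finset.sum_singleton, hρ.1]
    norm_num
  · exact ss_nonneg w y r ρ m

private theorem SvA_sub {w y n : ℕ} (h : ∀ p ∈ n.primeFactors, p ≤ y) {A : Finset ℕ}
    (hA : A ⊆ n.primeFactors.filter (fun p => w < p)) : A ⊆ PY w y := by
  intro p hp
  have h1 := hA hp
  rw [Finset.mem_filter] at h1
  unfold PY
  rw [Finset.mem_filter, mem_Ioc]
  exact ⟨⟨h1.2, h p h1.1⟩, Nat.prime_of_mem_primeFactors h1.1⟩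

private theorem SvA_cnt (A U : Finset ℕ) :
    (U.powerset.filter (fun B => A ∪ B = U)).card ≤ 2 ^ A.card := by
  rw [← Finset.card_powerset]
  apply Finset.card_le_card_of_injOn (fun B => B ∩ A)
  · intro B _
    exact Finset.mem_coe.mpr (Finset.mem_powerset.mpr Finset.inter_subset_right)
  · intro B hB C hC hBC
    simp only at hBC
    rw [Finset.mem_coe, Finset.mem_filter] at hB hC
    ext x
    by_cases hx : x ∈ A
    · have h1 := Finset.ext_iff.mp hBC x
      rw [Finset.mem_inter, Finset.mem_inter] at h1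
      tauto
    · have h1 := Finset.ext_iff.mp hB.2 x
      have h2 := Finset.ext_iff.mp hC.2 x
      rw [Finset.mem_union] at h1 h2
      tauto

theorem gs_abs (w y r D : ℕ) (ρ : Finset ℕ → ℝ) (hρ : Rho w y D ρ) (n : ℕ) :
    |gS w y r ρ n| ≤ 3 ^ n.primeFactors.card := by
  unfold gS
  split_ifs with h
  · obtain ⟨-, hy, -⟩ := h
    obtain ⟨U, hU⟩ : ∃ U, U = n.primeFactors.filter (fun p => w < p) := ⟨_, rfl⟩
    rw [← hU, abs_mul, abs_pow, abs_neg, abs_one, one_pow, one_mul]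
    have h1 : ∀ A ∈ U.powerset, |∑ B ∈ U.powerset, if A ∪ B = U then ρ A * ρ B else 0| ≤ (2 : ℝ) ^ A.card := by
      intro A hA
      rw [Finset.mem_powerset] at hA
      refine (Finset.abs_sum_le_sum_abs _ _).trans ?_
      have h2 : ∀ B ∈ U.powerset, |if A ∪ B = U then ρ A * ρ B else 0| ≤ if A ∪ B = U then (1 : ℝ) else 0 := by
        intro B hB
        rw [Finset.mem_powerset] at hB
        split_ifs with hAB
        · rw [abs_mul]
          exact mul_le_one₀ (hρ.2.1 A (SvA_sub hy (hU ▸ hA))) (abs_nonneg _) (hρ.2.1 B (SvA_sub hy (hU ▸ hB)))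
        · rw [abs_zero]
      refine (Finset.sum_le_sum h2).trans ?_
      rw [Finset.sum_boole]
      exact_mod_cast SvA_cnt A U
    refine (Finset.abs_sum_le_sum_abs _ _).trans ((Finset.sum_le_sum h1).trans ?_)
    have h3 := Finset.sum_pow_mul_eq_add_pow (2 : ℝ) 1 U
    have h4 : ∑ A ∈ U.powerset, (2 : ℝ) ^ A.card = 3 ^ U.card := by
      norm_num at h3
      exact h3
    rw [h4]
    apply pow_le_pow_right₀ (by norm_num)
    rw [hU]
    exact Finset.card_le_card (Finset.filter_subset _ _)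
  · rw [abs_zero]
    positivity

private theorem SvA_prod (w : ℕ) {n : ℕ} (hsq : Squarefree n) :
    (∏ p ∈ n.primeFactors.filter (fun p => p ≤ w), p) * ∏ p ∈ n.primeFactors.filter (fun p => w < p), p = n := by
  have h1 := Finset.prod_filter_mul_prod_filter_not n.primeFactors (fun p => p ≤ w) (fun p => p)
  simp only [not_le] at h1
  rw [Nat.prod_primeFactors_of_squarefree hsq] at h1
  exact h1

theorem gs_zero (w y r D : ℕ) (ρ : Finset ℕ → ℝ) (hw : 1 ≤ w) (hρ : Rho w y D ρ) (n : ℕ)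
    (hn : w ^ (2 * r) * D ^ 2 < n) : gS w y r ρ n = 0 := by
  unfold gS
  split_ifs with h
  · obtain ⟨hsq, hy, hcard⟩ := h
    obtain ⟨U, hU⟩ : ∃ U, U = n.primeFactors.filter (fun p => w < p) := ⟨_, rfl⟩
    rw [← hU]
    have hprod : (∏ p ∈ n.primeFactors.filter (fun p => p ≤ w), p) * ∏ p ∈ U, p = n := by
      rw [hU]
      exact SvA_prod w hsq
    have hT : ∏ p ∈ n.primeFactors.filter (fun p => p ≤ w), p ≤ w ^ (2 * r) := by
      refine (Finset.prod_le_pow_card _ (fun p : ℕ => p) w ?_).trans (Nat.pow_le_pow_right hw hcard)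
      intro p hp
      exact (Finset.mem_filter.mp hp).2
    have hUD : D ^ 2 < ∏ p ∈ U, p := by
      by_contra hcon
      push Not at hcon
      have := Nat.mul_le_mul hT hcon
      rw [hprod] at this
      omega
    have hzero : ∀ A ∈ U.powerset, (∑ B ∈ U.powerset, if A ∪ B = U then ρ A * ρ B else 0) = 0 := by
      intro A hA
      apply Finset.sum_eq_zero
      intro B hB
      rw [Finset.mem_powerset] at hA hB
      split_ifs with hAB
      · have hA' := SvA_sub hy (hU ▸ hA)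
        have hB' := SvA_sub hy (hU ▸ hB)
        by_cases hAD : D < ∏ p ∈ A, p
        · rw [hρ.2.2 A hA' hAD, zero_mul]
        · by_cases hBD : D < ∏ p ∈ B, p
          · rw [hρ.2.2 B hB' hBD, mul_zero]
          · exfalso
            push Not at hAD hBD
            have h1 : ∏ p ∈ U, p ≤ (∏ p ∈ A, p) * ∏ p ∈ B, p := by
              rw [← hAB, ← Finset.prod_union_inter]
              apply Nat.le_mul_of_pos_right
              apply Finset.prod_pos
              intro p hp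
              have := hA' (Finset.mem_inter.mp hp).1
              unfold PY at this
              exact (Finset.mem_filter.mp this).2.pos
            have h2 := Nat.mul_le_mul hAD hBD
            have h3 : D * D = D ^ 2 := by ring
            omega
      · rfl
    rw [Finset.sum_eq_zero hzero, mul_zero]
  · rfl

/-- expansion of the square -/
private theorem SvA_sq (ρ : Finset ℕ → ℝ) (V : Finset ℕ) : (∑ A ∈ V.powerset, ρ A) ^ 2 =
    ∑ U ∈ V.powerset, ∑ A ∈ U.powerset, ∑ B ∈ U.powerset, if A ∪ B = U then ρ A * ρ B else 0 := by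
  have h1 : ∀ U ∈ V.powerset, (∑ A ∈ U.powerset, ∑ B ∈ U.powerset, if A ∪ B = U then ρ A * ρ B else 0) =
      ∑ A ∈ V.powerset, ∑ B ∈ V.powerset, if A ∪ B = U then ρ A * ρ B else 0 := by
    intro U hU
    rw [Finset.mem_powerset] at hU
    have h2 : ∀ A ∈ U.powerset, (∑ B ∈ U.powerset, if A ∪ B = U then ρ A * ρ B else 0) =
        ∑ B ∈ V.powerset, if A ∪ B = U then ρ A * ρ B else 0 := by
      intro A _
      apply Finset.sum_subset (Finset.powerset_mono.mpr hU)
      intro B _ hB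
      rw [if_neg]
      intro h
      apply hB
      rw [Finset.mem_powerset, ← h]
      exact Finset.subset_union_right
    rw [Finset.sum_congr rfl h2]
    apply Finset.sum_subset (Finset.powerset_mono.mpr hU)
    intro A _ hA
    apply Finset.sum_eq_zero
    intro B _
    rw [if_neg]
    intro h
    apply hA
    rw [Finset.mem_powerset, ← h]
    exact Finset.subset_union_left
  rw [Finset.sum_congr rfl h1, Finset.sum_comm, pow_two, Finset.sum_mul_sum]
  apply Finset.sum_congr rfl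
  intro A hA
  rw [Finset.sum_comm]
  apply Finset.sum_congr rfl
  intro B hB
  rw [Finset.mem_powerset] at hA hB
  rw [Finset.sum_ite_eq, if_pos (Finset.mem_powerset.mpr (Finset.union_subset hA hB))]

private theorem SvA_sqf {W : Finset ℕ} (hW : ∀ p ∈ W, p.Prime) : Squarefree (∏ p ∈ W, p) := by
  apply Finset.squarefree_prod_of_pairwise_isCoprime
  · intro p hp q hq hpq
    rw [Function.onFun, ← Nat.coprime_iff_isRelPrime]
    exact (Nat.coprime_primes (hW p hp) (hW q hq)).mpr hpq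
  · intro p hp
    exact (hW p hp).prime.squarefree

private theorem SvA_pair {w y r m : ℕ} (hwy : w ≤ y) {T U : Finset ℕ}
    (hx : (T, U) ∈ (((PW w).filter (fun p => p ∣ m)).powerset.filter (fun T => T.card ≤ 2 * r)) ×ˢ
      ((PY w y).filter (fun p => p ∣ m)).powerset) :
    T ⊆ (PW w).filter (fun p => p ∣ m) ∧ T.card ≤ 2 * r ∧ U ⊆ (PY w y).filter (fun p => p ∣ m) ∧
      (∀ p ∈ T ∪ U, p.Prime ∧ p ≤ y ∧ p ∣ m) ∧ Disjoint T U ∧ (∏ p ∈ T ∪ U, p).primeFactors = T ∪ U ∧
      (T ∪ U).filter (fun p => p ≤ w) = T ∧ (T ∪ U).filter (fun p => w < p) = U := by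
  rw [Finset.mem_product, Finset.mem_filter, Finset.mem_powerset, Finset.mem_powerset] at hx
  obtain ⟨⟨hT, hTc⟩, hU⟩ := hx
  simp only at hT hTc hU
  have hT2 : ∀ p ∈ T, p.Prime ∧ p ≤ w ∧ p ∣ m := by
    intro p hp
    have h1 := hT hp
    unfold PW at h1
    rw [Finset.mem_filter, Finset.mem_filter, mem_Icc] at h1
    exact ⟨h1.1.2, h1.1.1.2, h1.2⟩
  have hU2 : ∀ p ∈ U, p.Prime ∧ w < p ∧ p ≤ y ∧ p ∣ m := by
    intro p hp
    have h1 := hU hp
    unfold PY at h1
    rw [Finset.mem_filter, Finset.mem_filter, mem_Ioc] at h1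
    exact ⟨h1.1.2, h1.1.1.1, h1.1.1.2, h1.2⟩
  have hp : ∀ p ∈ T ∪ U, p.Prime ∧ p ≤ y ∧ p ∣ m := by
    intro p hp
    rcases Finset.mem_union.mp hp with h | h
    · obtain ⟨h1, h2, h3⟩ := hT2 p h
      exact ⟨h1, h2.trans hwy, h3⟩
    · obtain ⟨h1, h2, h3, h4⟩ := hU2 p h
      exact ⟨h1, h3, h4⟩
  refine ⟨hT, hTc, hU, hp, ?_, Nat.primeFactors_prod (fun p h => (hp p h).1), ?_, ?_⟩
  · rw [Finset.disjoint_left]
    intro p h1 h2
    have h3 := (hT2 p h1).2.1
    have h4 := (hU2 p h2).2.1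
    omega
  · ext p
    rw [Finset.mem_filter, Finset.mem_union]
    constructor
    · rintro ⟨h1 | h1, h2⟩
      · exact h1
      · have := (hU2 p h1).2.1
        omega
    · intro h1
      exact ⟨Or.inl h1, (hT2 p h1).2.1⟩
  · ext p
    rw [Finset.mem_filter, Finset.mem_union]
    constructor
    · rintro ⟨h1 | h1, h2⟩
      · have := (hT2 p h1).2.1
        omega
      · exact h1
    · intro h1
      exact ⟨Or.inr h1, (hU2 p h1).2.1⟩

/-- the sum over all squarefree divisors -/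
private theorem SvA_div (w y r : ℕ) (ρ : Finset ℕ → ℝ) (hwy : w ≤ y) (m : ℕ) (hm : 1 ≤ m) :
    SS w y r ρ m = ∑ n ∈ m.divisors, gS w y r ρ n := by
  unfold SS bon sel
  rw [SvA_sq, Finset.sum_mul_sum, ← Finset.sum_product']
  have hR : ∑ n ∈ m.divisors, gS w y r ρ n = ∑ n ∈ m.divisors.filter (fun n => Squarefree n ∧
      (∀ p ∈ n.primeFactors, p ≤ y) ∧ (n.primeFactors.filter (fun p => p ≤ w)).card ≤ 2 * r),
      (-1 : ℝ) ^ (n.primeFactors.filter (fun p => p ≤ w)).card *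
      ∑ A ∈ (n.primeFactors.filter (fun p => w < p)).powerset,
        ∑ B ∈ (n.primeFactors.filter (fun p => w < p)).powerset,
          if A ∪ B = n.primeFactors.filter (fun p => w < p) then ρ A * ρ B else 0 := by
    rw [Finset.sum_filter]
    rfl
  rw [hR]
  apply Finset.sum_nbij' (fun x : Finset ℕ × Finset ℕ => ∏ p ∈ x.1 ∪ x.2, p)
    (fun n : ℕ => (n.primeFactors.filter (fun p => p ≤ w), n.primeFactors.filter (fun p => w < p)))
  · rintro ⟨T, U⟩ hx
    obtain ⟨hT, hTc, hU, hp, hdisj, hpf, hfT, hfU⟩ := SvA_pair hwy hx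
    simp only
    rw [Finset.mem_filter, Nat.mem_divisors, hpf, hfT]
    refine ⟨⟨?_, by omega⟩, SvA_sqf (fun p h => (hp p h).1), fun p h => (hp p h).2.1, hTc⟩
    exact Finset.prod_primes_dvd m (fun p h => (hp p h).1.prime) (fun p h => (hp p h).2.2)
  · intro n hn
    rw [Finset.mem_filter, Nat.mem_divisors] at hn
    obtain ⟨⟨hnm, -⟩, hsq, hy, hc⟩ := hn
    rw [Finset.mem_product, Finset.mem_filter, Finset.mem_powerset, Finset.mem_powerset]
    refine ⟨⟨?_, hc⟩, ?_⟩
    · intro p hp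
      simp only [Finset.mem_filter] at hp
      unfold PW
      rw [Finset.mem_filter, Finset.mem_filter, mem_Icc]
      have h1 := Nat.prime_of_mem_primeFactors hp.1
      exact ⟨⟨⟨h1.one_lt.le, hp.2⟩, h1⟩, (Nat.dvd_of_mem_primeFactors hp.1).trans hnm⟩
    · intro p hp
      simp only [Finset.mem_filter] at hp
      unfold PY
      rw [Finset.mem_filter, Finset.mem_filter, mem_Ioc]
      have h1 := Nat.prime_of_mem_primeFactors hp.1
      exact ⟨⟨⟨hp.2, hy p hp.1⟩, h1⟩, (Nat.dvd_of_mem_primeFactors hp.1).trans hnm⟩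
  · rintro ⟨T, U⟩ hx
    obtain ⟨hT, hTc, hU, hp, hdisj, hpf, hfT, hfU⟩ := SvA_pair hwy hx
    simp only
    rw [hpf, hfT, hfU]
  · intro n hn
    rw [Finset.mem_filter] at hn
    obtain ⟨-, hsq, hy, hc⟩ := hn
    simp only
    rw [Finset.prod_union, SvA_prod w hsq]
    rw [Finset.disjoint_left]
    intro p hp hp2
    have h1 := (Finset.mem_filter.mp hp).2
    have h2 := (Finset.mem_filter.mp hp2).2
    omega
  · rintro ⟨T, U⟩ hx
    obtain ⟨hT, hTc, hU, hp, hdisj, hpf, hfT, hfU⟩ := SvA_pair hwy hx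
    simp only
    rw [hpf, hfT, hfU]

theorem ss_exp (w y r D : ℕ) (ρ : Finset ℕ → ℝ) (hw : 1 ≤ w) (hwy : w ≤ y) (hρ : Rho w y D ρ) (m : ℕ)
    (hm : 1 ≤ m) : SS w y r ρ m =
      ∑ n ∈ (Icc 1 (w ^ (2 * r) * D ^ 2)).filter (fun n => n ∣ m), gS w y r ρ n := by
  rw [SvA_div w y r ρ hwy m hm]
  symm
  apply Finset.sum_subset
  · intro n hn
    rw [Finset.mem_filter] at hn
    exact Nat.mem_divisors.mpr ⟨hn.2, by omega⟩
  · intro n hn hn2
    apply gs_zero w y r D ρ hw hρ
    by_contra hcon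
    push Not at hcon
    apply hn2
    rw [Finset.mem_filter, mem_Icc]
    exact ⟨⟨Nat.pos_of_mem_divisors hn, hcon⟩, Nat.dvd_of_mem_divisors hn⟩

end Pool.Agent.H76.TP
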