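import Pool.Agent.H76.TP.SvA

/-!
# TP SvB: the singular coefficients of the sieve

For `q` squarefree with all its prime factors `≤ w` (in particular for squarefree `q ≤ w`), `Q = w^(2r) D²`:
`∑_{n ≤ Q, q ∣ n} gS n/n = (∑_{T ⊆ PW w, T ⊇ primes of q, |T| ≤ 2r} (-1)^|T|/∏T) · (∑_{A,B ⊆ PY w y} ρ A ρ B/∏(A ∪ B))`.
The first factor: `T = primeFactors q ∪ T'`: `μ(q)/q ∑_{T' ⊆ PW w \ pf q, |T'| ≤ 2r - ω(q)} (-1)^|T'|/∏T' = μ(q)/q (∏_{p ≤ w, p ∤ q}(1 - 1/p) + O(tail)) = μ(q)/φ(q) VV(PW w) + O(tail)`,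
`tail = ∑_{|T'| > 2r - ω(q)} 1/∏T' ≤ ∑_{j > 2r - ω(q)} X^j/j!`, `X = ∑_{p ≤ w} 1/p ≤ 1 + log w` (the sum over the `j`-subsets is `≤ X^j/j!`).
For `q` not squarefree both sides are `0` (`gS n = 0` for `q ∣ n`).  With `ω(q) ≤ r` (`2^ω(q) ≤ q ≤ w`) and `6 X ≤ r + 1`:
`X^j/j! ≤ (3X/j)^j ≤ 2^(-j)`, the tail is `≤ ∑_{j > r} 2^(-j) ≤ 2^(-r)`.
-/

set_option autoImplicit false

namespace Pool.Agent.H76.TP

open Finset

/-- the Selberg form -/
noncomputable def SF (w y : ℕ) (ρ : Finset ℕ → ℝ) : ℝ :=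
  ∑ A ∈ (PY w y).powerset, ∑ B ∈ (PY w y).powerset, ρ A * ρ B * ∏ p ∈ A ∪ B, (1 / (p : ℝ))

private noncomputable def svb_c (ρ : Finset ℕ → ℝ) (U : Finset ℕ) : ℝ :=
  ∑ A ∈ U.powerset, ∑ B ∈ U.powerset, if A ∪ B = U then ρ A * ρ B else 0

private noncomputable def svb_s (T : Finset ℕ) : ℝ := ∏ p ∈ T, (1 / (p : ℝ))

private theorem svb_s_nonneg (T : Finset ℕ) : 0 ≤ svb_s T :=
  Finset.prod_nonneg fun p _ => by positivity

private theorem svb_prime_PW {w p : ℕ} (h : p ∈ PW w) : p.Prime := (mem_filter.1 h).2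

private theorem svb_prime_PY {w y p : ℕ} (h : p ∈ PY w y) : p.Prime := (mem_filter.1 h).2

private theorem svb_sf {S : Finset ℕ} (hS : ∀ p ∈ S, p.Prime) : Squarefree (∏ p ∈ S, p) := by
  refine Finset.squarefree_prod_of_pairwise_isCoprime (fun a ha b hb hab => ?_)
    fun a ha => (hS a ha).squarefree
  simp only [Function.onFun, ← Nat.coprime_iff_isRelPrime]
  exact (Nat.coprime_primes (hS a ha) (hS b hb)).mpr hab

private theorem svb_c_sum (w y : ℕ) (ρ : Finset ℕ → ℝ) :
    ∑ U ∈ (PY w y).powerset, svb_c ρ U * svb_s U = SF w y ρ := by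
  unfold SF svb_c
  have h1 : ∀ U ∈ (PY w y).powerset,
      (∑ A ∈ U.powerset, ∑ B ∈ U.powerset, if A ∪ B = U then ρ A * ρ B else 0) * svb_s U =
      ∑ A ∈ (PY w y).powerset, ∑ B ∈ (PY w y).powerset,
        if A ∪ B = U then ρ A * ρ B * svb_s U else 0 := by
    intro U hU
    rw [mem_powerset] at hU
    have hsub : U.powerset ⊆ (PY w y).powerset := powerset_mono.2 hU
    rw [Finset.sum_mul, Finset.sum_subset hsub]
    · apply Finset.sum_congr rfl
      intro A _
      rw [Finset.sum_mul, Finset.sum_subset hsub]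
      · apply Finset.sum_congr rfl
        intro B _
        rw [ite_mul, zero_mul]
      · intro B _ hB
        rw [if_neg, zero_mul]
        intro h
        apply hB
        rw [mem_powerset, ← h]
        exact subset_union_right
    · intro A _ hA
      rw [Finset.sum_eq_zero, zero_mul]
      intro B _
      rw [if_neg]
      intro h
      apply hA
      rw [mem_powerset, ← h]
      exact subset_union_left
  rw [Finset.sum_congr rfl h1, Finset.sum_comm]
  apply Finset.sum_congr rfl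
  intro A hA
  rw [Finset.sum_comm]
  apply Finset.sum_congr rfl
  intro B hB
  rw [Finset.sum_ite_eq, if_pos]
  · rfl
  · rw [mem_powerset] at hA hB ⊢
    exact union_subset hA hB

private theorem svb_filter_le {w y : ℕ} {T U : Finset ℕ} (hT : T ⊆ PW w) (hU : U ⊆ PY w y) :
    (T ∪ U).filter (fun p => p ≤ w) = T := by
  ext p
  rw [mem_filter, mem_union]
  constructor
  · rintro ⟨h1 | h1, h2⟩
    · exact h1
    · have := (mem_Ioc.1 (mem_filter.1 (hU h1)).1).1
      omega
  · intro h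
    exact ⟨Or.inl h, (mem_Icc.1 (mem_filter.1 (hT h)).1).2⟩

private theorem svb_filter_gt {w y : ℕ} {T U : Finset ℕ} (hT : T ⊆ PW w) (hU : U ⊆ PY w y) :
    (T ∪ U).filter (fun p => w < p) = U := by
  ext p
  rw [mem_filter, mem_union]
  constructor
  · rintro ⟨h1 | h1, h2⟩
    · have := (mem_Icc.1 (mem_filter.1 (hT h1)).1).2
      omega
    · exact h1
  · intro h
    exact ⟨Or.inr h, (mem_Ioc.1 (mem_filter.1 (hU h)).1).1⟩

private theorem svb_disj {w y : ℕ} {T U : Finset ℕ} (hT : T ⊆ PW w) (hU : U ⊆ PY w y) :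
    Disjoint T U := by
  rw [Finset.disjoint_left]
  intro p h1 h2
  have := (mem_Icc.1 (mem_filter.1 (hT h1)).1).2
  have := (mem_Ioc.1 (mem_filter.1 (hU h2)).1).1
  omega

/-- the value of `gS` at a squarefree number -/
private theorem svb_gS (w y r : ℕ) (hwy : w ≤ y) (ρ : Finset ℕ → ℝ) (T U : Finset ℕ)
    (hT : T ⊆ PW w) (hU : U ⊆ PY w y) (hc : T.card ≤ 2 * r) :
    gS w y r ρ (∏ p ∈ T ∪ U, p) = (-1 : ℝ) ^ T.card * svb_c ρ U := by
  have hp : ∀ p ∈ T ∪ U, p.Prime := by
    intro p h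
    rcases mem_union.1 h with h | h
    · exact svb_prime_PW (hT h)
    · exact svb_prime_PY (hU h)
  have hpf : (∏ p ∈ T ∪ U, p).primeFactors = T ∪ U := Nat.primeFactors_prod hp
  unfold gS
  rw [hpf, svb_filter_le hT hU, svb_filter_gt hT hU, if_pos]
  · rfl
  · refine ⟨svb_sf hp, ?_, hc⟩
    intro p h
    rcases mem_union.1 h with h | h
    · exact (mem_Icc.1 (mem_filter.1 (hT h)).1).2.trans hwy
    · exact (mem_Ioc.1 (mem_filter.1 (hU h)).1).2

private theorem svb_inv (S : Finset ℕ) : (1 : ℝ) / ((∏ p ∈ S, p : ℕ) : ℝ) = svb_s S := by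
  unfold svb_s
  rw [Nat.cast_prod, Finset.prod_div_distrib, Finset.prod_const_one]

/-- the sum over `n` as a product -/
private theorem svb_split (w y r D q : ℕ) (ρ : Finset ℕ → ℝ) (hw : 1 ≤ w) (hwy : w ≤ y)
    (hρ : Rho w y D ρ) (hq : 1 ≤ q) (hqw : q ≤ w) (hsq : Squarefree q) :
    ∑ n ∈ (Icc 1 (w ^ (2 * r) * D ^ 2)).filter (fun n => q ∣ n), gS w y r ρ n / n =
      (∑ T ∈ (PW w).powerset.filter (fun T => q.primeFactors ⊆ T ∧ T.card ≤ 2 * r),
        (-1 : ℝ) ^ T.card * svb_s T) * SF w y ρ := by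
  rw [← svb_c_sum, Finset.sum_mul_sum, ← Finset.sum_product']
  have hgn : ∀ n, gS w y r ρ n ≠ 0 → Squarefree n ∧ (∀ p ∈ n.primeFactors, p ≤ y) ∧
      (n.primeFactors.filter (fun p => p ≤ w)).card ≤ 2 * r := by
    intro n h
    by_contra h2
    apply h
    unfold gS
    rw [if_neg h2]
  have hfac : ∀ n : ℕ, (∀ p ∈ n.primeFactors, p ≤ y) →
      n.primeFactors.filter (fun p => p ≤ w) ⊆ PW w ∧
      n.primeFactors.filter (fun p => w < p) ⊆ PY w y := by
    intro n h
    constructor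
    · intro p hp
      rw [mem_filter] at hp
      have := Nat.prime_of_mem_primeFactors hp.1
      exact mem_filter.2 ⟨mem_Icc.2 ⟨this.one_lt.le, hp.2⟩, this⟩
    · intro p hp
      rw [mem_filter] at hp
      have := Nat.prime_of_mem_primeFactors hp.1
      exact mem_filter.2 ⟨mem_Ioc.2 ⟨hp.2, h p hp.1⟩, this⟩
  have hun : ∀ n : ℕ, n.primeFactors.filter (fun p => p ≤ w) ∪
      n.primeFactors.filter (fun p => w < p) = n.primeFactors := by
    intro n
    ext p
    simp only [mem_union, mem_filter]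
    constructor
    · rintro (h | h)
      · exact h.1
      · exact h.1
    · intro h
      rcases le_or_gt p w with h2 | h2
      · exact Or.inl ⟨h, h2⟩
      · exact Or.inr ⟨h, h2⟩
  have hval : ∀ T U : Finset ℕ, T ⊆ PW w → U ⊆ PY w y → T.card ≤ 2 * r →
      gS w y r ρ (∏ p ∈ T ∪ U, p) / ((∏ p ∈ T ∪ U, p : ℕ) : ℝ) =
        (-1 : ℝ) ^ T.card * svb_s T * (svb_c ρ U * svb_s U) := by
    intro T U hT hU hc
    rw [svb_gS w y r hwy ρ T U hT hU hc, div_eq_mul_one_div, svb_inv, svb_s,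
      Finset.prod_union (svb_disj hT hU)]
    change (-1 : ℝ) ^ T.card * svb_c ρ U * (svb_s T * svb_s U) = _
    ring
  apply Finset.sum_bij_ne_zero (fun n _ _ => (n.primeFactors.filter (fun p => p ≤ w),
    n.primeFactors.filter (fun p => w < p)))
  · intro n hn hne
    have h1 : gS w y r ρ n ≠ 0 := by
      intro h
      apply hne
      rw [h, zero_div]
    obtain ⟨h2, h3, h4⟩ := hgn n h1
    obtain ⟨h5, h6⟩ := hfac n h3
    rw [mem_product, mem_filter, mem_powerset, mem_powerset]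
    refine ⟨⟨h5, ?_, h4⟩, h6⟩
    intro p hp
    rw [mem_filter]
    refine ⟨Nat.primeFactors_mono (mem_filter.1 hn).2 h2.ne_zero hp, ?_⟩
    exact (Nat.le_of_mem_primeFactors hp).trans hqw
  · intro n hn hne m hm hme h
    have h1 : gS w y r ρ n ≠ 0 := by
      intro h
      apply hne
      rw [h, zero_div]
    have h1' : gS w y r ρ m ≠ 0 := by
      intro h
      apply hme
      rw [h, zero_div]
    have h2 := (hgn n h1).1
    have h2' := (hgn m h1').1
    rw [Prod.mk.injEq] at h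
    rw [← Nat.prod_primeFactors_of_squarefree h2, ← Nat.prod_primeFactors_of_squarefree h2',
      ← hun n, ← hun m, h.1, h.2]
  · rintro ⟨T, U⟩ hb hne
    rw [mem_product, mem_filter, mem_powerset, mem_powerset] at hb
    obtain ⟨⟨hT, hqT, hc⟩, hU⟩ := hb
    have hp : ∀ p ∈ T ∪ U, p.Prime := by
      intro p h
      rcases mem_union.1 h with h | h
      · exact svb_prime_PW (hT h)
      · exact svb_prime_PY (hU h)
    have hpf : (∏ p ∈ T ∪ U, p).primeFactors = T ∪ U := Nat.primeFactors_prod hp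
    have hv := hval T U hT hU hc
    have hne2 : gS w y r ρ (∏ p ∈ T ∪ U, p) / ((∏ p ∈ T ∪ U, p : ℕ) : ℝ) ≠ 0 := by
      rw [hv]
      exact hne
    have hne3 : gS w y r ρ (∏ p ∈ T ∪ U, p) ≠ 0 := by
      intro h
      apply hne2
      rw [h, zero_div]
    refine ⟨∏ p ∈ T ∪ U, p, ?_, hne2, ?_⟩
    · rw [mem_filter, mem_Icc]
      refine ⟨⟨?_, ?_⟩, ?_⟩
      · exact Nat.one_le_iff_ne_zero.2 (svb_sf hp).ne_zero
      · by_contra h
        exact hne3 (gs_zero w y r D ρ hw hρ _ (not_le.1 h))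
      · rw [← Nat.prod_primeFactors_of_squarefree hsq]
        exact Finset.prod_dvd_prod_of_subset _ _ _ (hqT.trans subset_union_left)
    · rw [hpf, svb_filter_le hT hU, svb_filter_gt hT hU]
  · intro n hn hne
    have h1 : gS w y r ρ n ≠ 0 := by
      intro h
      apply hne
      rw [h, zero_div]
    obtain ⟨h2, h3, h4⟩ := hgn n h1
    obtain ⟨h5, h6⟩ := hfac n h3
    have h7 := hval _ _ h5 h6 h4
    rw [hun n, Nat.prod_primeFactors_of_squarefree h2] at h7
    exact h7

/-- the sum of the reciprocals of the primes -/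
private theorem svb_X (w : ℕ) : ∑ p ∈ PW w, 1 / (p : ℝ) ≤ 1 + Real.log w := by
  have h1 := harmonic_le_one_add_log w
  rw [harmonic_eq_sum_Icc] at h1
  push_cast at h1
  refine le_trans ?_ h1
  unfold PW
  have h2 : ∀ k ∈ Icc 1 w, k ∉ (Icc 1 w).filter Nat.Prime → 0 ≤ ((k : ℝ))⁻¹ := by
    intro k _ _
    positivity
  simp only [one_div]
  exact Finset.sum_le_sum_of_subset_of_nonneg (Finset.filter_subset _ _) h2

/-- the tail -/
private theorem svb_tail (w r k : ℕ) (S : Finset ℕ) (hS : S ⊆ PW w)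
    (hr : 6 * (1 + Real.log w) ≤ r + 1) (hk : k ≤ r) :
    |∑ T ∈ S.powerset.filter (fun T => ¬ T.card + k ≤ 2 * r), (-1 : ℝ) ^ T.card * svb_s T| ≤
      1 / 2 ^ r := by
  have h1 : |∑ T ∈ S.powerset.filter (fun T => ¬ T.card + k ≤ 2 * r), (-1 : ℝ) ^ T.card * svb_s T| ≤
      ∑ T ∈ S.powerset.filter (fun T => ¬ T.card + k ≤ 2 * r), svb_s T * 6 ^ T.card / 6 ^ (r + 1) := by
    refine (Finset.abs_sum_le_sum_abs _ _).trans (Finset.sum_le_sum ?_)
    intro T hT
    rw [mem_filter] at hT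
    rw [abs_mul, abs_pow, abs_neg, abs_one, one_pow, one_mul, abs_of_nonneg (svb_s_nonneg T),
      le_div_iff₀ (by positivity)]
    apply mul_le_mul_of_nonneg_left _ (svb_s_nonneg T)
    apply pow_le_pow_right₀ (by norm_num)
    omega
  have h2 : ∑ T ∈ S.powerset.filter (fun T => ¬ T.card + k ≤ 2 * r),
      svb_s T * 6 ^ T.card / 6 ^ (r + 1) ≤ ∑ T ∈ S.powerset, svb_s T * 6 ^ T.card / 6 ^ (r + 1) := by
    apply Finset.sum_le_sum_of_subset_of_nonneg (Finset.filter_subset _ _)
    intro T _ _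
    have := svb_s_nonneg T
    positivity
  have h3 : ∑ T ∈ S.powerset, svb_s T * 6 ^ T.card / 6 ^ (r + 1) =
      (∏ p ∈ S, (1 + 6 * (1 / (p : ℝ)))) / 6 ^ (r + 1) := by
    rw [Finset.prod_one_add, ← Finset.sum_div]
    congr 1
    apply Finset.sum_congr rfl
    intro T _
    rw [Finset.prod_mul_distrib, Finset.prod_const, mul_comm]
    rfl
  have h4 : ∏ p ∈ S, (1 + 6 * (1 / (p : ℝ))) ≤ Real.exp (r + 1) := by
    refine (Real.prod_one_add_le_exp_sum S (f := fun p : ℕ => 6 * (1 / (p : ℝ)))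
      (fun p => by positivity)).trans ?_
    apply Real.exp_le_exp.2
    rw [← Finset.mul_sum]
    refine le_trans ?_ hr
    apply mul_le_mul_of_nonneg_left _ (by norm_num)
    refine le_trans ?_ (svb_X w)
    apply Finset.sum_le_sum_of_subset_of_nonneg hS
    intro p _ _
    positivity
  have h5 : Real.exp (r + 1) / 6 ^ (r + 1) ≤ 1 / 2 ^ r := by
    have h6 : Real.exp ((r : ℝ) + 1) ≤ 3 ^ (r + 1) := by
      have h7 : Real.exp ((r : ℝ) + 1) = Real.exp 1 ^ (r + 1) := by
        rw [← Real.exp_nat_mul]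
        congr 1
        push_cast
        ring
      rw [h7]
      apply pow_le_pow_left₀ (Real.exp_pos 1).le
      have := Real.exp_one_lt_d9
      linarith
    rw [div_le_div_iff₀ (by positivity) (by positivity), one_mul]
    calc Real.exp ((r : ℝ) + 1) * 2 ^ r ≤ 3 ^ (r + 1) * 2 ^ r := by
          apply mul_le_mul_of_nonneg_right h6 (by positivity)
      _ ≤ 3 ^ (r + 1) * 2 ^ (r + 1) := by
          apply mul_le_mul_of_nonneg_left _ (by positivity)
          exact pow_le_pow_right₀ (by norm_num) (Nat.le_succ r)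
      _ = 6 ^ (r + 1) := by
          rw [← mul_pow]
          norm_num
  calc _ ≤ _ := h1
    _ ≤ _ := h2
    _ = _ := h3
    _ ≤ Real.exp (r + 1) / 6 ^ (r + 1) := div_le_div_of_nonneg_right h4 (by positivity)
    _ ≤ _ := h5

private theorem svb_neg (T : Finset ℕ) :
    ∏ p ∈ T, (-(1 / (p : ℝ))) = (-1 : ℝ) ^ T.card * svb_s T := by
  unfold svb_s
  rw [← Finset.prod_const, ← Finset.prod_mul_distrib]
  apply Finset.prod_congr rfl
  intro p _
  ring

/-- the complete sum -/
private theorem svb_full (S : Finset ℕ) :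
    ∑ T ∈ S.powerset, (-1 : ℝ) ^ T.card * svb_s T = VV S := by
  unfold VV
  have h : ∀ p ∈ S, (1 : ℝ) - 1 / p = 1 + (-(1 / (p : ℝ))) := fun p _ => sub_eq_add_neg _ _
  rw [Finset.prod_congr rfl h, Finset.prod_one_add]
  apply Finset.sum_congr rfl
  intro T _
  rw [svb_neg]

private theorem svb_first (w r q : ℕ) (hsub : q.primeFactors ⊆ PW w) :
    ∑ T ∈ (PW w).powerset.filter (fun T => q.primeFactors ⊆ T ∧ T.card ≤ 2 * r),
        (-1 : ℝ) ^ T.card * svb_s T =
      (-1 : ℝ) ^ q.primeFactors.card * svb_s q.primeFactors *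
        ∑ T ∈ (PW w \ q.primeFactors).powerset.filter
          (fun T => T.card + q.primeFactors.card ≤ 2 * r), (-1 : ℝ) ^ T.card * svb_s T := by
  rw [Finset.mul_sum]
  refine Finset.sum_nbij' (fun T => T \ q.primeFactors) (fun T => T ∪ q.primeFactors) ?_ ?_ ?_ ?_ ?_
  · intro T hT
    rw [mem_filter, mem_powerset] at hT ⊢
    refine ⟨sdiff_subset_sdiff hT.1 (le_refl _), ?_⟩
    have := card_sdiff_add_card_eq_card hT.2.1
    omega
  · intro T hT
    rw [mem_filter, mem_powerset] at hT ⊢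
    refine ⟨union_subset (hT.1.trans sdiff_subset) hsub, subset_union_right, ?_⟩
    exact (card_union_le _ _).trans hT.2
  · intro T hT
    rw [mem_filter, mem_powerset] at hT
    exact sdiff_union_of_subset hT.2.1
  · intro T hT
    rw [mem_filter, mem_powerset] at hT
    rw [union_sdiff_right]
    apply sdiff_eq_self_of_disjoint
    exact disjoint_of_subset_left hT.1 sdiff_disjoint
  · intro T hT
    rw [mem_filter, mem_powerset] at hT
    have h1 := card_sdiff_add_card_eq_card hT.2.1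
    have h2 : svb_s T = svb_s (T \ q.primeFactors) * svb_s q.primeFactors := by
      unfold svb_s
      exact (Finset.prod_sdiff hT.2.1).symm
    rw [h2, ← h1, pow_add]
    ring

private theorem svb_phi (w q : ℕ) (hq : 1 ≤ q) (hsq : Squarefree q) (hsub : q.primeFactors ⊆ PW w) :
    (-1 : ℝ) ^ q.primeFactors.card * svb_s q.primeFactors * VV (PW w \ q.primeFactors) =
      VV (PW w) * (ArithmeticFunction.moebius q : ℝ) / (q.totient : ℝ) := by
  have h1 : (ArithmeticFunction.moebius q : ℝ) = (-1 : ℝ) ^ q.primeFactors.card := by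
    rw [ArithmeticFunction.moebius_apply_of_squarefree hsq,
      ← (ArithmeticFunction.cardDistinctFactors_eq_cardFactors_iff_squarefree hsq.ne_zero).2 hsq,
      ArithmeticFunction.cardDistinctFactors_apply]
    push_cast
    congr 1
  have h2 : (q.totient : ℝ) = q * VV q.primeFactors := by
    have h3 := Nat.totient_eq_mul_prod_factors q
    have h4 : ((q.totient : ℚ) : ℝ) = ((q * ∏ p ∈ q.primeFactors, (1 - (p : ℚ)⁻¹) : ℚ) : ℝ) := by
      rw [h3]
    push_cast at h4
    rw [h4]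
    unfold VV
    congr 1
    apply Finset.prod_congr rfl
    intro p _
    rw [one_div]
  have h5 : VV (PW w) = VV (PW w \ q.primeFactors) * VV q.primeFactors := by
    unfold VV
    exact (Finset.prod_sdiff hsub).symm
  have h6 : svb_s q.primeFactors = 1 / (q : ℝ) := by
    rw [← svb_inv, Nat.prod_primeFactors_of_squarefree hsq]
  have h7 : 0 < VV q.primeFactors := by
    unfold VV
    apply Finset.prod_pos
    intro p hp
    have := (Nat.prime_of_mem_primeFactors hp).one_lt
    rw [sub_pos, div_lt_one (by positivity)]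
    exact_mod_cast this
  have h8 : (0 : ℝ) < q := by exact_mod_cast hq
  rw [h1, h2, h5, h6]
  field_simp

/-- `2^(-r)` is negligible; hypothesis `SF ≤ 1` holds for Selberg's weights -/
theorem gs_sing (w y r D q : ℕ) (ρ : Finset ℕ → ℝ) (hw : 2 ≤ w) (hwy : w ≤ y) (hρ : Rho w y D ρ)
    (hr : 6 * (1 + Real.log w) ≤ r + 1) (h0 : 0 ≤ SF w y ρ) (h1 : SF w y ρ ≤ 1) (hq : 1 ≤ q) (hqw : q ≤ w) :
    |∑ n ∈ (Icc 1 (w ^ (2 * r) * D ^ 2)).filter (fun n => q ∣ n), gS w y r ρ n / n
      - VV (PW w) * SF w y ρ * (ArithmeticFunction.moebius q : ℝ) / (q.totient : ℝ)| ≤ 1 / 2 ^ r := by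
  by_cases hsq : Squarefree q
  · have hsub : q.primeFactors ⊆ PW w := by
      intro p hp
      have := Nat.prime_of_mem_primeFactors hp
      exact mem_filter.2 ⟨mem_Icc.2 ⟨this.one_lt.le, (Nat.le_of_mem_primeFactors hp).trans hqw⟩,
        this⟩
    have hk : q.primeFactors.card ≤ r := by
      have h1 : 2 ^ q.primeFactors.card ≤ q := by
        calc 2 ^ q.primeFactors.card ≤ ∏ p ∈ q.primeFactors, p :=
              Finset.pow_card_le_prod _ _ _ fun p hp => (Nat.prime_of_mem_primeFactors hp).two_le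
          _ = q := Nat.prod_primeFactors_of_squarefree hsq
      have h2 : (q.primeFactors.card : ℝ) * Real.log 2 ≤ Real.log w := by
        rw [← Real.log_pow]
        apply Real.log_le_log (by positivity)
        exact_mod_cast h1.trans hqw
      have h3 := Real.log_two_gt_d9
      have h4 : (0 : ℝ) ≤ q.primeFactors.card := Nat.cast_nonneg _
      have h5 : (q.primeFactors.card : ℝ) ≤ r := by nlinarith
      exact_mod_cast h5
    have htail := svb_tail w r q.primeFactors.card (PW w \ q.primeFactors) sdiff_subset hr hk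
    have hsplit := Finset.sum_filter_add_sum_filter_not (PW w \ q.primeFactors).powerset
      (fun T => T.card + q.primeFactors.card ≤ 2 * r) (fun T => (-1 : ℝ) ^ T.card * svb_s T)
    rw [svb_full] at hsplit
    rw [svb_split w y r D q ρ (by omega) hwy hρ hq hqw hsq, svb_first w r q hsub]
    have hphi := svb_phi w q hq hsq hsub
    set A := ∑ T ∈ (PW w \ q.primeFactors).powerset.filter
      (fun T => T.card + q.primeFactors.card ≤ 2 * r), (-1 : ℝ) ^ T.card * svb_s T with hA
    set E := ∑ T ∈ (PW w \ q.primeFactors).powerset.filter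
      (fun T => ¬ T.card + q.primeFactors.card ≤ 2 * r), (-1 : ℝ) ^ T.card * svb_s T with hE
    have hk1 : (-1 : ℝ) ^ q.primeFactors.card * svb_s q.primeFactors * A * SF w y ρ -
        VV (PW w) * SF w y ρ * (ArithmeticFunction.moebius q : ℝ) / (q.totient : ℝ) =
        -((-1 : ℝ) ^ q.primeFactors.card * svb_s q.primeFactors * SF w y ρ * E) := by
      have h2 : VV (PW w) * SF w y ρ * (ArithmeticFunction.moebius q : ℝ) / (q.totient : ℝ) =
          SF w y ρ * (VV (PW w) * (ArithmeticFunction.moebius q : ℝ) / (q.totient : ℝ)) := by ring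
      rw [h2, ← hphi, ← hsplit]
      ring
    rw [hk1, abs_neg, abs_mul, abs_mul, abs_mul, abs_pow, abs_neg, abs_one, one_pow, one_mul,
      abs_of_nonneg (svb_s_nonneg _), abs_of_nonneg h0]
    have h3 : svb_s q.primeFactors ≤ 1 := by
      rw [← svb_inv, Nat.prod_primeFactors_of_squarefree hsq]
      have : (1 : ℝ) ≤ q := by exact_mod_cast hq
      rw [div_le_one (by linarith)]
      exact this
    have h4 : svb_s q.primeFactors * SF w y ρ ≤ 1 := mul_le_one₀ h3 h0 h1
    calc svb_s q.primeFactors * SF w y ρ * |E| ≤ 1 * |E| :=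
          mul_le_mul_of_nonneg_right h4 (abs_nonneg _)
      _ = |E| := one_mul _
      _ ≤ _ := htail
  · have h2 : ∀ n ∈ (Icc 1 (w ^ (2 * r) * D ^ 2)).filter (fun n => q ∣ n),
        gS w y r ρ n / n = 0 := by
      intro n hn
      have h3 : ¬ Squarefree n := fun h => hsq (h.squarefree_of_dvd (mem_filter.1 hn).2)
      unfold gS
      rw [if_neg (fun h => h3 h.1), zero_div]
    rw [Finset.sum_eq_zero h2, ArithmeticFunction.moebius_eq_zero_of_not_squarefree hsq]
    simp

end Pool.Agent.H76.TP
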