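import Pool.Agent.H76.TP.EqB
import Pool.Agent.H76.TP.KapL
import Pool.Agent.H91.EHA.SwK2
import Pool.Agent.H76.EHB.HRm
import Pool.Agent.H76.EHB.MelB

/-!
# TP SwB: Siegel-Walfisz for `bs = bf - kap · lamR R`

`bs y J R k = bf y J k - kap y J k * lamR R k`.  Split `(K1, K2]` into cells `(x, x+l]`, `l = ⌊x/L^M⌋`, `M = k + m + B + 8` (the last cell, of length `≤ x/L^M`, is trivial).
On a cell `t log n` varies by `≤ L^m L^(-M)`, `kap` by `≤ 10 (L^(-M) + N^(ζ-1/2))` (`kap_lip`), `|lamR R n| ≤ R`.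
`∑_{n ∈ cell} bf(n) ee(n b/c) = ∑_{a mod c} ee(a b/c) (l kap(x)/φ(c) [(a,c) = 1] + O(l/L^A'))= l kap(x) μ(c)/φ(c) + O(c l/L^A')` (`eq_b`, `ramS_eq`).
`∑_{n ∈ cell} lamR R n ee(n b/c) = l μ(c)/φ(c) + O(R^4)` (`lamR_exp`).
-/

set_option autoImplicit false

namespace Pool.Agent.H76.TP

open Finset
open Pool.Agent.H91.PK (ee)
open Pool.Agent.H91.EHA (Lam hR lamR ramS)

/-- the error part of `bf` -/
noncomputable def bs (y J R k : ℕ) : ℝ := bf y J k - kap y J k * lamR R k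

/-! ### additive characters -/

private theorem SwB_ee_nat (n : ℕ) : ee (n : ℝ) = 1 := by
  unfold ee
  rw [Complex.exp_eq_one_iff]
  exact ⟨n, by push_cast; ring⟩

private theorem SwB_ee_le {n a b c : ℕ} (hc : 1 ≤ c) (han : a ≤ n) (h : n ≡ a [MOD c]) :
    ee ((n : ℝ) * b / c) = ee ((a : ℝ) * b / c) := by
  obtain ⟨t, ht⟩ := (Nat.modEq_iff_dvd' han).1 h.symm
  have hn : n = a + c * t := by omega
  have hc' : (c : ℝ) ≠ 0 := by
    have : (0 : ℝ) < c := by exact_mod_cast hc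
    exact this.ne'
  have e : (n : ℝ) * b / c = (a : ℝ) * b / c + ((t * b : ℕ) : ℝ) := by
    rw [hn]
    push_cast
    field_simp
  rw [e, Pool.Agent.H91.PK.LSa_ee_add, SwB_ee_nat, mul_one]

private theorem SwB_ee_congr {n a b c : ℕ} (hc : 1 ≤ c) (h : n ≡ a [MOD c]) :
    ee ((n : ℝ) * b / c) = ee ((a : ℝ) * b / c) := by
  rcases le_total a n with h1 | h1
  · exact SwB_ee_le hc h1 h
  · exact (SwB_ee_le hc h1 h.symm).symm

/-- the representative in `1..c` -/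
private def SwB_rep (c n : ℕ) : ℕ := if n % c = 0 then c else n % c

private theorem SwB_rep_mem {c : ℕ} (hc : 1 ≤ c) (n : ℕ) : SwB_rep c n ∈ Icc 1 c := by
  unfold SwB_rep
  rw [mem_Icc]
  have := Nat.mod_lt n (show 0 < c by omega)
  split_ifs with h
  · omega
  · omega

private theorem SwB_rep_modEq {c : ℕ} (n : ℕ) : n ≡ SwB_rep c n [MOD c] := by
  unfold SwB_rep Nat.ModEq
  split_ifs with h
  · rw [h, Nat.mod_self]
  · rw [Nat.mod_mod]

private theorem SwB_rep_iff {c n a : ℕ} (hc : 1 ≤ c) (ha : a ∈ Icc 1 c) :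
    SwB_rep c n = a ↔ n ≡ a [MOD c] := by
  constructor
  · rintro rfl
    exact SwB_rep_modEq n
  · intro h
    have h1 := SwB_rep_mem hc n
    rw [mem_Icc] at ha h1
    have h2 : SwB_rep c n ≡ a [MOD c] := (SwB_rep_modEq n).symm.trans h
    rcases Nat.lt_or_ge (SwB_rep c n) c with h3 | h3
    · rcases Nat.lt_or_ge a c with h4 | h4
      · exact Nat.ModEq.eq_of_lt_of_lt h2 h3 h4
      · have h5 : a = c := by omega
        subst h5
        unfold Nat.ModEq at h2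
        rw [Nat.mod_self, Nat.mod_eq_of_lt h3] at h2
        omega
    · have h5 : SwB_rep c n = c := by omega
      rw [h5] at h2 ⊢
      unfold Nat.ModEq at h2
      rw [Nat.mod_self] at h2
      rcases Nat.lt_or_ge a c with h4 | h4
      · rw [Nat.mod_eq_of_lt h4] at h2
        omega
      · omega

/-- splitting a sum according to the class of `n` modulo `c` -/
private theorem SwB_split {M : Type*} [AddCommMonoid M] (S : Finset ℕ) (c : ℕ) (hc : 1 ≤ c)
    (f : ℕ → M) :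
    ∑ n ∈ S, f n = ∑ a ∈ Icc 1 c, ∑ n ∈ S.filter (fun n => n ≡ a [MOD c]), f n := by
  rw [← Finset.sum_fiberwise_of_maps_to (s := S) (t := Icc 1 c) (g := SwB_rep c)]
  · refine Finset.sum_congr rfl fun a ha => ?_
    refine Finset.sum_congr ?_ fun _ _ => rfl
    ext n
    simp only [mem_filter]
    exact and_congr_right fun _ => SwB_rep_iff hc ha
  · intro n _
    exact SwB_rep_mem hc n

private theorem SwB_ram (c b : ℕ) (hb : Nat.Coprime b c) :
    ramS c b = (ArithmeticFunction.moebius c : ℝ) := by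
  unfold ramS
  have h : Nat.gcd c b = 1 := hb.symm
  rw [h, Nat.divisors_one, Finset.sum_singleton, Nat.div_one]
  simp

/-- from progressions to additive characters -/
private theorem SwB_char (S : Finset ℕ) (f : ℕ → ℝ) (c b : ℕ) (hc : 1 ≤ c) (hb : Nat.Coprime b c)
    (V E : ℝ)
    (hE : ∀ a : ℕ, |∑ n ∈ S.filter (fun n => n ≡ a [MOD c]), f n -
      (if Nat.Coprime a c then V / c.totient else 0)| ≤ E) :
    ‖(∑ n ∈ S, ((f n : ℝ) : ℂ) * ee ((n : ℝ) * b / c))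
      - (((ArithmeticFunction.moebius c : ℝ) / (c.totient : ℝ) * V : ℝ) : ℂ)‖ ≤ c * E := by
  have hr := Pool.Agent.H91.EHA.ramS_eq c b hc
  rw [SwB_ram c b hb] at hr
  have hmain : (((ArithmeticFunction.moebius c : ℝ) / (c.totient : ℝ) * V : ℝ) : ℂ) =
      ∑ a ∈ Icc 1 c, (((if Nat.Coprime a c then V / c.totient else 0 : ℝ)) : ℂ) *
        ee ((b : ℝ) * a / c) := by
    have h1 : ∀ a ∈ Icc 1 c, (((if Nat.Coprime a c then V / c.totient else 0 : ℝ)) : ℂ) *
        ee ((b : ℝ) * a / c) = if Nat.Coprime a c then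
          (((V / (c.totient : ℝ) : ℝ)) : ℂ) * ee ((b : ℝ) * a / c) else 0 := by
      intro a _
      split_ifs
      · rfl
      · simp
    rw [sum_congr rfl h1, ← sum_filter, ← Finset.mul_sum, ← hr]
    push_cast
    ring
  have hsum : ∑ n ∈ S, ((f n : ℝ) : ℂ) * ee ((n : ℝ) * b / c) =
      ∑ a ∈ Icc 1 c, ((∑ n ∈ S.filter (fun n => n ≡ a [MOD c]), f n : ℝ) : ℂ) *
        ee ((b : ℝ) * a / c) := by
    rw [SwB_split S c hc]
    refine Finset.sum_congr rfl fun a _ => ?_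
    rw [Complex.ofReal_sum, Finset.sum_mul]
    refine Finset.sum_congr rfl fun n hn => ?_
    rw [mem_filter] at hn
    rw [SwB_ee_congr hc hn.2, mul_comm (a : ℝ) (b : ℝ)]
  rw [hsum, hmain, ← Finset.sum_sub_distrib]
  refine (norm_sum_le _ _).trans ?_
  calc ∑ a ∈ Icc 1 c, ‖((∑ n ∈ S.filter (fun n => n ≡ a [MOD c]), f n : ℝ) : ℂ) *
        ee ((b : ℝ) * a / c) - (((if Nat.Coprime a c then V / c.totient else 0 : ℝ)) : ℂ) *
        ee ((b : ℝ) * a / c)‖ ≤ ∑ a ∈ Icc 1 c, E := by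
        refine Finset.sum_le_sum fun a _ => ?_
        rw [← sub_mul, norm_mul, Pool.Agent.H91.PK.LSa_norm_ee, mul_one, ← Complex.ofReal_sub,
          Complex.norm_real, Real.norm_eq_abs]
        exact hE a
    _ = c * E := by
        rw [Finset.sum_const, Nat.card_Icc, nsmul_eq_mul, Nat.add_sub_cancel]

/-! ### pointwise bounds -/

private theorem SwB_bf (y J k : ℕ) : 0 ≤ bf y J k ∧ bf y J k ≤ 1 := by
  have h1 : 0 ≤ rg y k ∧ rg y k ≤ 1 := by
    unfold rg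
    split_ifs <;> norm_num
  have h2 : (0 : ℝ) ≤ nu y J k := Nat.cast_nonneg _
  unfold bf
  refine ⟨div_nonneg h1.1 (by linarith), ?_⟩
  rw [div_le_one (by linarith)]
  linarith [h1.2]

private theorem SwB_lamR_abs (R n : ℕ) (hn : 1 ≤ n) : |lamR R n| ≤ R := by
  have h3 : |lamR R n| = ‖((lamR R n : ℝ) : ℂ)‖ := by
    rw [Complex.norm_real]; rfl
  rw [h3, Pool.Agent.H76.EHB.lamR_eq R n hn]
  calc ‖∑ c ∈ Icc 1 R, ((((ArithmeticFunction.moebius c : ℤ) : ℝ) / (c.totient : ℝ) : ℝ) : ℂ)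
        * ∑ b ∈ Pool.Agent.H92.EH.red c, ee (n * ((b : ℝ) / c))‖
      ≤ ∑ c ∈ Icc 1 R, ‖((((ArithmeticFunction.moebius c : ℤ) : ℝ) / (c.totient : ℝ) : ℝ) : ℂ)
        * ∑ b ∈ Pool.Agent.H92.EH.red c, ee (n * ((b : ℝ) / c))‖ := norm_sum_le _ _
    _ ≤ ∑ _c ∈ Icc 1 R, (1 : ℝ) := by
        refine sum_le_sum fun c hc => ?_
        rw [mem_Icc] at hc
        have hφ : (0 : ℝ) < c.totient := by
          exact_mod_cast Nat.totient_pos.mpr hc.1
        have h4 : ‖∑ b ∈ Pool.Agent.H92.EH.red c, ee (n * ((b : ℝ) / c))‖ ≤ c.totient := by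
          refine (norm_sum_le _ _).trans ?_
          simp only [Pool.Agent.H91.PK.LSa_norm_ee, sum_const, nsmul_eq_mul, mul_one]
          rw [Pool.Agent.H92.EH.card_red]
        have h5 : ‖((((ArithmeticFunction.moebius c : ℤ) : ℝ) / (c.totient : ℝ) : ℝ) : ℂ)‖
            ≤ 1 / c.totient := by
          rw [Complex.norm_real, norm_div, Real.norm_eq_abs, Real.norm_of_nonneg hφ.le]
          apply div_le_div_of_nonneg_right _ hφ.le
          exact_mod_cast ArithmeticFunction.abs_moebius_le_one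
        rw [norm_mul]
        calc _ ≤ 1 / (c.totient : ℝ) * c.totient :=
              mul_le_mul h5 h4 (norm_nonneg _) (by positivity)
          _ = 1 := by field_simp
    _ = R := by simp

private theorem SwB_bs_abs (y J R n : ℕ) (hn : 3 ≤ n) : |bs y J R n| ≤ 1 + 2 * R := by
  have h1 := SwB_bf y J n
  have h2 := SwB_lamR_abs R n (by omega)
  have h3 := kap_le y J n hn
  have h4 := kap_nonneg y J n (by omega)
  have h5 : |kap y J n * lamR R n| ≤ 2 * R := by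
    rw [abs_mul, abs_of_nonneg h4]
    exact mul_le_mul h3 h2 (abs_nonneg _) (by norm_num)
  unfold bs
  calc |bf y J n - kap y J n * lamR R n| ≤ |bf y J n| + |kap y J n * lamR R n| := abs_sub _ _
    _ ≤ 1 + 2 * R := by
        rw [abs_of_nonneg h1.1]
        linarith [h1.2]

/-! ### `lamR` on a cell -/

private theorem SwB_cell_eq {M : Type*} [AddCommGroup M] (f : ℕ → M) (x l : ℕ) :
    ∑ n ∈ Ioc x (x + l), f n = ∑ n ∈ Icc 1 (x + l), f n - ∑ n ∈ Icc 1 x, f n := by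
  have h1 : Icc 1 (x + l) = Ioc 0 (x + l) := by
    ext n; simp only [mem_Icc, mem_Ioc]; omega
  have h2 : Icc 1 x = Ioc 0 x := by
    ext n; simp only [mem_Icc, mem_Ioc]; omega
  rw [h1, h2, eq_sub_iff_add_eq, add_comm]
  exact Finset.sum_Ioc_consecutive f (Nat.zero_le x) (Nat.le_add_right x l)

private theorem SwB_lam_cell (R x l c b : ℕ) (hc : 1 ≤ c) (hcR : c ≤ R) (hb : Nat.Coprime b c) :
    ‖(∑ n ∈ Ioc x (x + l), ((lamR R n : ℝ) : ℂ) * ee ((n : ℝ) * b / c))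
      - (((ArithmeticFunction.moebius c : ℝ) / (c.totient : ℝ) * l : ℝ) : ℂ)‖ ≤ 2 * (R : ℝ) ^ 4 := by
  have h1 := Pool.Agent.H91.EHA.lamR_exp R (x + l) c b hc hcR hb
  have h2 := Pool.Agent.H91.EHA.lamR_exp R x c b hc hcR hb
  rw [SwB_cell_eq (fun n => ((lamR R n : ℝ) : ℂ) * ee ((n : ℝ) * b / c)) x l]
  have e : (∑ n ∈ Icc 1 (x + l), ((lamR R n : ℝ) : ℂ) * ee ((n : ℝ) * b / c) -
      ∑ n ∈ Icc 1 x, ((lamR R n : ℝ) : ℂ) * ee ((n : ℝ) * b / c)) -
      (((ArithmeticFunction.moebius c : ℝ) / (c.totient : ℝ) * l : ℝ) : ℂ) =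
      ((∑ n ∈ Icc 1 (x + l), ((lamR R n : ℝ) : ℂ) * ee ((n : ℝ) * b / c)) -
        (((ArithmeticFunction.moebius c : ℝ) / (c.totient : ℝ) * (x + l : ℕ) : ℝ) : ℂ)) -
      ((∑ n ∈ Icc 1 x, ((lamR R n : ℝ) : ℂ) * ee ((n : ℝ) * b / c)) -
        (((ArithmeticFunction.moebius c : ℝ) / (c.totient : ℝ) * x : ℝ) : ℂ)) := by
    push_cast
    ring
  rw [e]
  refine (norm_sub_le _ _).trans ?_
  linarith

/-! ### one cell -/

private theorem SwB_cell1 (y J R x l c b : ℕ) (hc : 1 ≤ c) (hcR : c ≤ R) (hb : Nat.Coprime b c)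
    (hy : 1 ≤ y) (hx : 3 ≤ x) (hz : zz y J ≤ x) (E : ℝ)
    (hE : ∀ a : ℕ, |∑ k ∈ (Ioc x (x + l)).filter (fun k => k ≡ a [MOD c]), bf y J k
        - (if Nat.Coprime a c then (l : ℝ) * kap y J x / c.totient else 0)| ≤ E) :
    ‖∑ n ∈ Ioc x (x + l), ((bs y J R n : ℝ) : ℂ) * ee ((n : ℝ) * b / c)‖ ≤
      c * E + 4 * (R : ℝ) ^ 4 + l * (10 * ((l : ℝ) + zz y J) / x * R) := by
  have hA := SwB_char (Ioc x (x + l)) (bf y J) c b hc hb ((l : ℝ) * kap y J x) E hE
  have hB := SwB_lam_cell R x l c b hc hcR hb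
  have hk0 := kap_nonneg y J x (by omega)
  have hk2 := kap_le y J x hx
  have hx0 : (0 : ℝ) < x := by exact_mod_cast (by omega : 0 < x)
  have e : ∑ n ∈ Ioc x (x + l), ((bs y J R n : ℝ) : ℂ) * ee ((n : ℝ) * b / c) =
      ((∑ n ∈ Ioc x (x + l), ((bf y J n : ℝ) : ℂ) * ee ((n : ℝ) * b / c))
        - (((ArithmeticFunction.moebius c : ℝ) / (c.totient : ℝ) * ((l : ℝ) * kap y J x) : ℝ) : ℂ))
      - ((kap y J x : ℝ) : ℂ) * ((∑ n ∈ Ioc x (x + l), ((lamR R n : ℝ) : ℂ) *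
          ee ((n : ℝ) * b / c))
        - (((ArithmeticFunction.moebius c : ℝ) / (c.totient : ℝ) * l : ℝ) : ℂ))
      - ∑ n ∈ Ioc x (x + l), (((kap y J n - kap y J x) * lamR R n : ℝ) : ℂ) *
          ee ((n : ℝ) * b / c) := by
    have h1 : ∑ n ∈ Ioc x (x + l), ((bs y J R n : ℝ) : ℂ) * ee ((n : ℝ) * b / c) =
        (∑ n ∈ Ioc x (x + l), ((bf y J n : ℝ) : ℂ) * ee ((n : ℝ) * b / c)) -
        ((kap y J x : ℝ) : ℂ) * (∑ n ∈ Ioc x (x + l), ((lamR R n : ℝ) : ℂ) *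
          ee ((n : ℝ) * b / c)) -
        ∑ n ∈ Ioc x (x + l), (((kap y J n - kap y J x) * lamR R n : ℝ) : ℂ) *
          ee ((n : ℝ) * b / c) := by
      rw [mul_sum, ← sum_sub_distrib, ← sum_sub_distrib]
      refine sum_congr rfl fun n _ => ?_
      unfold bs
      push_cast
      ring
    rw [h1]
    push_cast
    ring
  rw [e]
  refine (norm_sub_le _ _).trans (add_le_add ((norm_sub_le _ _).trans (add_le_add hA ?_)) ?_)
  · rw [norm_mul, Complex.norm_real, Real.norm_eq_abs, abs_of_nonneg hk0]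
    calc kap y J x * _ ≤ 2 * (2 * (R : ℝ) ^ 4) :=
          mul_le_mul hk2 hB (norm_nonneg _) (by norm_num)
      _ = 4 * (R : ℝ) ^ 4 := by ring
  · refine (norm_sum_le _ _).trans ?_
    have h2 : ∀ n ∈ Ioc x (x + l), ‖(((kap y J n - kap y J x) * lamR R n : ℝ) : ℂ) *
        ee ((n : ℝ) * b / c)‖ ≤ 10 * ((l : ℝ) + zz y J) / x * R := by
      intro n hn
      rw [mem_Ioc] at hn
      rw [norm_mul, Pool.Agent.H91.PK.LSa_norm_ee, mul_one, Complex.norm_real, Real.norm_eq_abs,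
        abs_mul]
      have h3 := kap_lip y J x n hy hx hz hn.1.le
      have h4 := SwB_lamR_abs R n (by omega)
      have h5 : (n : ℝ) - x ≤ l := by
        have : (n : ℝ) ≤ x + l := by exact_mod_cast hn.2
        linarith
      refine mul_le_mul (h3.trans ?_) h4 (abs_nonneg _) (by positivity)
      apply div_le_div_of_nonneg_right _ hx0.le
      linarith
    refine (sum_le_sum h2).trans (le_of_eq ?_)
    rw [sum_const, Nat.card_Ioc, Nat.add_sub_cancel_left, nsmul_eq_mul]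

private theorem SwB_cell2 (y J R x l c b : ℕ) (t : ℝ) (hx : 3 ≤ x) (V : ℝ)
    (hV : ‖∑ n ∈ Ioc x (x + l), ((bs y J R n : ℝ) : ℂ) * ee ((n : ℝ) * b / c)‖ ≤ V) :
    ‖∑ n ∈ Ioc x (x + l), ((bs y J R n : ℝ) : ℂ) * ee ((n : ℝ) * b / c) *
      ee (t * Real.log n)‖ ≤ V + l * ((1 + 2 * R) * (7 * (|t| * ((l : ℝ) / x)))) := by
  have hx0 : (0 : ℝ) < x := by exact_mod_cast (by omega : 0 < x)
  have e : ∑ n ∈ Ioc x (x + l), ((bs y J R n : ℝ) : ℂ) * ee ((n : ℝ) * b / c) *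
      ee (t * Real.log n) =
      ee (t * Real.log x) * (∑ n ∈ Ioc x (x + l), ((bs y J R n : ℝ) : ℂ) *
        ee ((n : ℝ) * b / c)) +
      ∑ n ∈ Ioc x (x + l), ((bs y J R n : ℝ) : ℂ) * ee ((n : ℝ) * b / c) *
        (ee (t * Real.log n) - ee (t * Real.log x)) := by
    rw [mul_sum, ← sum_add_distrib]
    refine sum_congr rfl fun n _ => ?_
    ring
  rw [e]
  refine (norm_add_le _ _).trans (add_le_add ?_ ?_)
  · rw [norm_mul, Pool.Agent.H91.PK.LSa_norm_ee, one_mul]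
    exact hV
  · refine (norm_sum_le _ _).trans ?_
    have h2 : ∀ n ∈ Ioc x (x + l), ‖((bs y J R n : ℝ) : ℂ) * ee ((n : ℝ) * b / c) *
        (ee (t * Real.log n) - ee (t * Real.log x))‖ ≤
        (1 + 2 * R) * (7 * (|t| * ((l : ℝ) / x))) := by
      intro n hn
      rw [mem_Ioc] at hn
      rw [norm_mul, norm_mul, Pool.Agent.H91.PK.LSa_norm_ee, mul_one, Complex.norm_real,
        Real.norm_eq_abs]
      have h4 := Pool.Agent.H76.EHB.melB_ee_sub (t * Real.log x) (t * (Real.log n - Real.log x))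
      have h5 : t * Real.log x + t * (Real.log n - Real.log x) = t * Real.log n := by ring
      rw [h5] at h4
      have hn0 : (0 : ℝ) < n := by exact_mod_cast (by omega : 0 < n)
      have hnx : (x : ℝ) ≤ n := by exact_mod_cast hn.1.le
      have h6 : 0 ≤ Real.log n - Real.log x := sub_nonneg.2 (Real.log_le_log hx0 hnx)
      have h7 : Real.log n - Real.log x ≤ (l : ℝ) / x := by
        rw [← Real.log_div hn0.ne' hx0.ne']
        refine (Real.log_le_sub_one_of_pos (by positivity)).trans ?_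
        have h8 : (n : ℝ) / x - 1 = ((n : ℝ) - x) / x := by
          field_simp
        rw [h8]
        apply div_le_div_of_nonneg_right _ hx0.le
        have : (n : ℝ) ≤ x + l := by exact_mod_cast hn.2
        linarith
      refine mul_le_mul (SwB_bs_abs y J R n (by omega)) (h4.trans ?_) (norm_nonneg _)
        (by positivity)
      rw [abs_mul, abs_of_nonneg h6]
      exact mul_le_mul_of_nonneg_left (mul_le_mul_of_nonneg_left h7 (abs_nonneg _)) (by norm_num)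
    refine (sum_le_sum h2).trans (le_of_eq ?_)
    rw [sum_const, Nat.card_Ioc, Nat.add_sub_cancel_left, nsmul_eq_mul]

/-- the induction over the cells -/
private theorem SwB_ind (F : ℕ → ℂ) (l : ℕ → ℕ) (K0 K2 : ℕ) (ε W : ℝ) (hε : 0 ≤ ε)
    (h1 : ∀ x, K0 ≤ x → x ≤ K2 → 1 ≤ l x)
    (h2 : ∀ x, K0 ≤ x → x + l x ≤ K2 → ‖∑ n ∈ Ioc x (x + l x), F n‖ ≤ ε * l x)
    (h3 : ∀ x, K0 ≤ x → x ≤ K2 → K2 < x + l x → ‖∑ n ∈ Ioc x K2, F n‖ ≤ W) (d : ℕ) :
    ∀ x, K0 ≤ x → x ≤ K2 → K2 - x ≤ d →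
      ‖∑ n ∈ Ioc x K2, F n‖ ≤ ε * ((K2 : ℝ) - x) + W := by
  induction d with
  | zero =>
    intro x hx hx2 hd
    have h4 : K2 < x + l x := by
      have := h1 x hx hx2
      omega
    have h5 := h3 x hx hx2 h4
    have h6 : (x : ℝ) ≤ K2 := by exact_mod_cast hx2
    have h7 : 0 ≤ ε * ((K2 : ℝ) - x) := mul_nonneg hε (by linarith)
    linarith
  | succ d ih =>
    intro x hx hx2 hd
    rcases Nat.lt_or_ge K2 (x + l x) with h4 | h4
    · have h5 := h3 x hx hx2 h4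
      have h6 : (x : ℝ) ≤ K2 := by exact_mod_cast hx2
      have h7 : 0 ≤ ε * ((K2 : ℝ) - x) := mul_nonneg hε (by linarith)
      linarith
    · have h5 := h1 x hx hx2
      have h6 := ih (x + l x) (by omega) h4 (by omega)
      have h7 := h2 x hx h4
      rw [← Finset.sum_Ioc_consecutive F (Nat.le_add_right x (l x)) h4]
      refine (norm_add_le _ _).trans ?_
      push_cast at h6
      linarith

private theorem SwB_pow_le (n : ℕ) {e0 : ℝ} (he : 0 < e0) : ∀ᶠ N : ℕ in Filter.atTop,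
    Real.log N ^ n ≤ 1 / 4 * (N : ℝ) ^ e0 := by
  have h1 := (isLittleO_log_rpow_rpow_atTop (n : ℝ) he).bound (c := 1 / 4) (by norm_num)
  have h2 := tendsto_natCast_atTop_atTop (R := ℝ) |>.eventually h1
  filter_upwards [h2, Filter.eventually_ge_atTop 1] with N hN hN1
  have h3 := (le_abs_self _).trans hN
  rw [Real.rpow_natCast] at h3
  rw [Real.norm_eq_abs, abs_of_nonneg (Real.rpow_nonneg (Nat.cast_nonneg N) _)] at h3
  exact h3

/-- the numerical estimate for one cell -/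
private theorem SwB_num (L l x R c z t : ℝ) (B m k : ℕ) (hL : 8 ≤ L) (hl : 0 ≤ l) (hx : 0 < x)
    (hR0 : 0 ≤ R) (hR : R ≤ L ^ B) (hc : c ≤ L ^ B) (ht0 : 0 ≤ t) (ht : t ≤ L ^ m)
    (hlx : l ≤ x / L ^ (k + m + B + 8)) (hz : z ≤ x / L ^ (k + m + B + 8))
    (hR4 : 32 * (L ^ (4 * B) * L ^ k) ≤ l) :
    c * (l / L ^ (k + m + B + 5)) + 4 * R ^ 4 + l * (10 * (l + z) / x * R) +
      l * ((1 + 2 * R) * (7 * (t * (l / x)))) ≤ 1 / (2 * L ^ k) * l := by
  have hL0 : 0 < L := by linarith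
  have hL1 : 1 ≤ L := by linarith
  have hk : 0 < L ^ k := by positivity
  have hB : 1 ≤ L ^ B := one_le_pow₀ hL1
  have hm : 1 ≤ L ^ m := one_le_pow₀ hL1
  have h8 : (168 : ℝ) ≤ L ^ 8 := by
    calc (168 : ℝ) ≤ 8 ^ 8 := by norm_num
      _ ≤ L ^ 8 := pow_le_pow_left₀ (by norm_num) hL 8
  have h5 : (8 : ℝ) ≤ L ^ 5 := by
    calc (8 : ℝ) ≤ 8 ^ 5 := by norm_num
      _ ≤ L ^ 5 := pow_le_pow_left₀ (by norm_num) hL 5
  have hlk : 0 ≤ l / L ^ k := by positivity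
  have t1 : c * (l / L ^ (k + m + B + 5)) ≤ l / L ^ k * (1 / 8) := by
    calc c * (l / L ^ (k + m + B + 5)) ≤ L ^ B * (l / L ^ (k + m + B + 5)) :=
          mul_le_mul_of_nonneg_right hc (by positivity)
      _ = l / L ^ k * (1 / (L ^ m * L ^ 5)) := by
          rw [show k + m + B + 5 = k + (m + (B + 5)) by ring, pow_add, pow_add, pow_add]
          field_simp
      _ ≤ l / L ^ k * (1 / 8) := by
          refine mul_le_mul_of_nonneg_left ?_ hlk
          apply one_div_le_one_div_of_le (by norm_num)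
          nlinarith
  have t2 : 4 * R ^ 4 ≤ l / L ^ k * (1 / 8) := by
    have h1 : R ^ 4 ≤ L ^ (4 * B) := by
      calc R ^ 4 ≤ (L ^ B) ^ 4 := pow_le_pow_left₀ hR0 hR 4
        _ = L ^ (4 * B) := by rw [← pow_mul, mul_comm B 4]
    rw [div_mul_eq_mul_div, le_div_iff₀ hk]
    have h2 : 4 * R ^ 4 * L ^ k ≤ 4 * L ^ (4 * B) * L ^ k := by
      apply mul_le_mul_of_nonneg_right _ hk.le
      linarith
    linarith
  have hlx' : l / x ≤ 1 / L ^ (k + m + B + 8) := by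
    rw [div_le_iff₀ hx]
    calc l ≤ x / L ^ (k + m + B + 8) := hlx
      _ = 1 / L ^ (k + m + B + 8) * x := by ring
  have hlx0 : 0 ≤ l / x := by positivity
  have t3 : l * (10 * (l + z) / x * R) ≤ l / L ^ k * (1 / 8) := by
    have h1 : 10 * (l + z) / x ≤ 20 / L ^ (k + m + B + 8) := by
      rw [div_le_iff₀ hx]
      calc 10 * (l + z) ≤ 10 * (x / L ^ (k + m + B + 8) + x / L ^ (k + m + B + 8)) := by linarith
        _ = 20 / L ^ (k + m + B + 8) * x := by ring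
    calc l * (10 * (l + z) / x * R) ≤ l * (20 / L ^ (k + m + B + 8) * L ^ B) := by
          refine mul_le_mul_of_nonneg_left ?_ hl
          exact mul_le_mul h1 hR hR0 (by positivity)
      _ = l / L ^ k * (20 / (L ^ m * L ^ 8)) := by
          rw [show k + m + B + 8 = k + (m + (B + 8)) by ring, pow_add, pow_add, pow_add]
          field_simp
      _ ≤ l / L ^ k * (1 / 8) := by
          refine mul_le_mul_of_nonneg_left ?_ hlk
          rw [div_le_div_iff₀ (by positivity) (by norm_num)]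
          nlinarith
  have t4 : l * ((1 + 2 * R) * (7 * (t * (l / x)))) ≤ l / L ^ k * (1 / 8) := by
    calc l * ((1 + 2 * R) * (7 * (t * (l / x)))) ≤
          l * ((3 * L ^ B) * (7 * (L ^ m * (1 / L ^ (k + m + B + 8))))) := by
          refine mul_le_mul_of_nonneg_left ?_ hl
          refine mul_le_mul (by linarith) ?_ (by positivity) (by positivity)
          refine mul_le_mul_of_nonneg_left ?_ (by norm_num)
          exact mul_le_mul ht hlx' hlx0 (by positivity)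
      _ = l / L ^ k * (21 / L ^ 8) := by
          rw [show k + m + B + 8 = k + (m + (B + 8)) by ring, pow_add, pow_add, pow_add]
          field_simp
          ring
      _ ≤ l / L ^ k * (1 / 8) := by
          refine mul_le_mul_of_nonneg_left ?_ hlk
          rw [div_le_div_iff₀ (by positivity) (by norm_num)]
          linarith
  have h9 : 1 / (2 * L ^ k) * l = l / L ^ k * (1 / 2) := by
    field_simp
  rw [h9]
  linarith

theorem sw_b (e1 ζ : ℝ) (he1 : 0 < e1) (hζ : e1 < ζ) (hζ2 : ζ < 1 / 2) (B m k : ℕ) :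
    ∃ N0 : ℕ, ∀ N : ℕ, N0 ≤ N → ∀ (J R c b K1 K2 : ℕ) (t : ℝ),
      (zz (yN e1 N) J : ℝ) ≤ (N : ℝ) ^ ζ → (R : ℝ) ≤ Real.log N ^ B → 1 ≤ c → c ≤ R →
      Nat.Coprime b c → (N : ℝ) ^ (1 / 2 : ℝ) ≤ K1 → K1 ≤ K2 → K2 ≤ N ^ 2 → |t| ≤ Real.log N ^ m →
      ‖∑ n ∈ Ioc K1 K2, ((bs (yN e1 N) J R n : ℝ) : ℂ) * ee (-((n : ℝ) * b / c)) *
        ee (-(t * Real.log n))‖ ≤ K2 / Real.log N ^ k := by
  obtain ⟨N1, hN1⟩ := eq_b e1 ζ he1 hζ hζ2 (k + m + B + 5) B (k + m + B + 9)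
  have hlog : ∀ K : ℝ, ∀ᶠ N : ℕ in Filter.atTop, K ≤ Real.log N := fun K =>
    (Real.tendsto_log_atTop.comp (tendsto_natCast_atTop_atTop (R := ℝ))).eventually_ge_atTop K
  obtain ⟨N0, hN0⟩ := Filter.eventually_atTop.1 (((Filter.eventually_ge_atTop N1).and
    (Filter.eventually_ge_atTop 9)).and ((hlog 8).and
      ((SwB_pow_le ((4 * B + k) + (k + m + B + 10)) (show (0 : ℝ) < 1 / 2 by norm_num)).and
      (SwB_pow_le (k + m + B + 8) (show (0 : ℝ) < 1 / 2 - ζ by linarith)))))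
  refine ⟨N0, fun N hN J R c b K1 K2 t hz hRB hc hcR hb hK1 hK12 hK2 ht => ?_⟩
  obtain ⟨⟨g1, g2⟩, g3, g4, g5⟩ := hN0 N hN
  have hEq := hN1 N g1
  obtain ⟨L, hLdef⟩ : ∃ L : ℝ, L = Real.log N := ⟨_, rfl⟩
  rw [← hLdef] at hEq g3 g4 g5 hRB ht ⊢
  have hL0 : 0 < L := by linarith
  have hL1 : 1 ≤ L := by linarith
  have hNpos : (0 : ℝ) < N := by exact_mod_cast (by omega : 0 < N)
  have hN1' : (1 : ℝ) ≤ N := by exact_mod_cast (by omega : 1 ≤ N)
  obtain ⟨y, hy⟩ : ∃ y : ℕ, y = yN e1 N := ⟨_, rfl⟩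
  rw [← hy] at hz hEq ⊢
  have hy1 : 1 ≤ y := by
    rw [hy]
    unfold yN
    rw [Nat.one_le_floor_iff]
    exact Real.one_le_rpow hN1' he1.le
  have hM : 0 < L ^ (k + m + B + 8) := by positivity
  -- the points of `[N^(1/2), N^2]`
  have hx3 : ∀ x : ℕ, (N : ℝ) ^ (1 / 2 : ℝ) ≤ x → 3 ≤ x := by
    intro x hx
    have h1 : (3 : ℝ) ≤ (N : ℝ) ^ (1 / 2 : ℝ) := by
      have h2 : (9 : ℝ) ^ (1 / 2 : ℝ) ≤ (N : ℝ) ^ (1 / 2 : ℝ) :=
        Real.rpow_le_rpow (by norm_num) (by exact_mod_cast g2) (by norm_num)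
      have h3 : (9 : ℝ) ^ (1 / 2 : ℝ) = 3 := by
        rw [← Real.sqrt_eq_rpow, show (9 : ℝ) = 3 ^ 2 by norm_num,
          Real.sqrt_sq (by norm_num)]
      rw [h3] at h2
      exact h2
    exact_mod_cast h1.trans hx
  have hzx : ∀ x : ℕ, (N : ℝ) ^ (1 / 2 : ℝ) ≤ x → (zz y J : ℝ) ≤ x / L ^ (k + m + B + 8) := by
    intro x hx
    rw [le_div_iff₀ hM]
    calc (zz y J : ℝ) * L ^ (k + m + B + 8) ≤ (N : ℝ) ^ ζ * (1 / 4 * (N : ℝ) ^ (1 / 2 - ζ)) :=
          mul_le_mul hz g5 hM.le (Real.rpow_nonneg hNpos.le _)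
      _ = 1 / 4 * (N : ℝ) ^ (1 / 2 : ℝ) := by
          rw [mul_left_comm, ← Real.rpow_add hNpos]
          congr 2
          ring
      _ ≤ x := by
          have : 0 ≤ (N : ℝ) ^ (1 / 2 : ℝ) := Real.rpow_nonneg hNpos.le _
          linarith
  have hlb : ∀ x : ℕ, (N : ℝ) ^ (1 / 2 : ℝ) ≤ x →
      L ^ (4 * B + k) * (4 * L ^ 2) ≤ x / L ^ (k + m + B + 8) := by
    intro x hx
    rw [le_div_iff₀ hM]
    calc L ^ (4 * B + k) * (4 * L ^ 2) * L ^ (k + m + B + 8) =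
          4 * L ^ ((4 * B + k) + (k + m + B + 10)) := by
          rw [pow_add L (4 * B + k) (k + m + B + 10),
            show k + m + B + 10 = (k + m + B + 8) + 2 by ring, pow_add L (k + m + B + 8) 2]
          ring
      _ ≤ x := by linarith
  have hfl : ∀ x : ℕ, (N : ℝ) ^ (1 / 2 : ℝ) ≤ x →
      (x : ℝ) / L ^ (k + m + B + 9) ≤ (⌊(x : ℝ) / L ^ (k + m + B + 8)⌋₊ : ℕ) ∧
      L ^ (4 * B + k) * 32 ≤ (⌊(x : ℝ) / L ^ (k + m + B + 8)⌋₊ : ℕ) := by
    intro x hx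
    have h1 := hlb x hx
    have h2 := Nat.lt_floor_add_one ((x : ℝ) / L ^ (k + m + B + 8))
    have h3 : 1 ≤ L ^ (4 * B + k) := one_le_pow₀ hL1
    have h4 : (64 : ℝ) ≤ L ^ 2 := by nlinarith
    have h5 : L ^ (4 * B + k) * 256 ≤ x / L ^ (k + m + B + 8) := by
      refine le_trans ?_ h1
      apply mul_le_mul_of_nonneg_left _ (by positivity)
      linarith
    constructor
    · have h6 : (x : ℝ) / L ^ (k + m + B + 9) ≤ (x : ℝ) / L ^ (k + m + B + 8) * (1 / 8) := by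
        rw [show k + m + B + 9 = (k + m + B + 8) + 1 by ring, pow_succ, ← div_div,
          div_eq_mul_one_div ((x : ℝ) / L ^ (k + m + B + 8)) L]
        apply mul_le_mul_of_nonneg_left _ (by positivity)
        exact one_div_le_one_div_of_le (by norm_num) g3
      linarith
    · linarith
  -- the conjugate
  have hconj : ∑ n ∈ Ioc K1 K2, ((bs y J R n : ℝ) : ℂ) * ee (-((n : ℝ) * b / c)) *
      ee (-(t * Real.log n)) =
      (starRingEnd ℂ) (∑ n ∈ Ioc K1 K2, ((bs y J R n : ℝ) : ℂ) * ee ((n : ℝ) * b / c) *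
        ee (t * Real.log n)) := by
    rw [map_sum]
    refine Finset.sum_congr rfl fun n _ => ?_
    simp only [map_mul, Complex.conj_ofReal, Pool.Agent.H91.PK.LSa_conj_ee]
  rw [hconj, RCLike.norm_conj]
  have hRc : (c : ℝ) ≤ L ^ B := le_trans (by exact_mod_cast hcR) hRB
  have hcast : ∀ x : ℕ, K1 ≤ x → (N : ℝ) ^ (1 / 2 : ℝ) ≤ x := fun x hx =>
    hK1.trans (by exact_mod_cast hx)
  have hind := SwB_ind (fun n => ((bs y J R n : ℝ) : ℂ) * ee ((n : ℝ) * b / c) *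
        ee (t * Real.log n)) (fun x => ⌊(x : ℝ) / L ^ (k + m + B + 8)⌋₊) K1 K2 (1 / (2 * L ^ k))
    (K2 / L ^ k * (1 / 2)) (by positivity) ?_ ?_ ?_ (K2 - K1) K1 le_rfl hK12 le_rfl
  · refine hind.trans ?_
    have h1 : 1 / (2 * L ^ k) * ((K2 : ℝ) - K1) ≤ 1 / (2 * L ^ k) * K2 := by
      apply mul_le_mul_of_nonneg_left _ (by positivity)
      have : (0 : ℝ) ≤ K1 := Nat.cast_nonneg K1
      linarith
    have h2 : 1 / (2 * L ^ k) * (K2 : ℝ) = K2 / L ^ k * (1 / 2) := by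
      field_simp
    linarith
  · intro x hx _
    have h1 := (hfl x (hcast x hx)).2
    have h3 : 1 ≤ L ^ (4 * B + k) := one_le_pow₀ hL1
    have h4 : (1 : ℝ) ≤ (⌊(x : ℝ) / L ^ (k + m + B + 8)⌋₊ : ℕ) := by linarith
    exact_mod_cast h4
  · intro x hx hxl
    have hxN := hcast x hx
    have hx3' := hx3 x hxN
    have hx0 : (0 : ℝ) < x := by exact_mod_cast (by omega : 0 < x)
    obtain ⟨f1, f2⟩ := hfl x hxN
    obtain ⟨l, hl⟩ : ∃ l : ℕ, l = ⌊(x : ℝ) / L ^ (k + m + B + 8)⌋₊ := ⟨_, rfl⟩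
    show ‖∑ n ∈ Ioc x (x + ⌊(x : ℝ) / L ^ (k + m + B + 8)⌋₊), _‖ ≤
      1 / (2 * L ^ k) * (⌊(x : ℝ) / L ^ (k + m + B + 8)⌋₊ : ℕ)
    have hlx : (l : ℝ) ≤ x / L ^ (k + m + B + 8) := by
      rw [hl]
      exact Nat.floor_le (by positivity)
    rw [← hl] at f1 f2 hxl ⊢
    have hz1 := hzx x hxN
    have hzx' : zz y J ≤ x := by
      have h1 : (x : ℝ) / L ^ (k + m + B + 8) ≤ x :=
        div_le_self hx0.le (one_le_pow₀ hL1)
      exact_mod_cast hz1.trans h1
    have hE : ∀ a : ℕ, |∑ k ∈ (Ioc x (x + l)).filter (fun k => k ≡ a [MOD c]), bf y J k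
        - (if Nat.Coprime a c then (l : ℝ) * kap y J x / c.totient else 0)| ≤
        l / L ^ (k + m + B + 5) := fun a =>
      hEq J x l c a hz hxN (by omega) f1 hlx hc hRc
    have hC1 := SwB_cell1 y J R x l c b hc hcR hb hy1 hx3' hzx' _ hE
    have hC2 := SwB_cell2 y J R x l c b t hx3' _ hC1
    refine hC2.trans ?_
    refine SwB_num L l x R c (zz y J) |t| B m k g3 (Nat.cast_nonneg l) hx0 (Nat.cast_nonneg R) hRB
      hRc (abs_nonneg t) ht hlx hz1 ?_
    rw [← pow_add]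
    linarith
  · intro x hx hxK hKl
    have hxN := hcast x hx
    have hx3' := hx3 x hxN
    have hx0 : (0 : ℝ) < x := by exact_mod_cast (by omega : 0 < x)
    refine (norm_sum_le _ _).trans ?_
    have h2 : ∀ n ∈ Ioc x K2, ‖((bs y J R n : ℝ) : ℂ) * ee ((n : ℝ) * b / c) *
        ee (t * Real.log n)‖ ≤ 1 + 2 * R := by
      intro n hn
      rw [mem_Ioc] at hn
      rw [norm_mul, norm_mul, Pool.Agent.H91.PK.LSa_norm_ee, Pool.Agent.H91.PK.LSa_norm_ee,
        mul_one, mul_one, Complex.norm_real, Real.norm_eq_abs]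
      exact SwB_bs_abs y J R n (by omega)
    refine (sum_le_sum h2).trans ?_
    rw [sum_const, Nat.card_Ioc, nsmul_eq_mul]
    have h3 : ((K2 - x : ℕ) : ℝ) ≤ K2 / L ^ (k + m + B + 8) := by
      have h4 : K2 - x ≤ ⌊(x : ℝ) / L ^ (k + m + B + 8)⌋₊ := by
        have : K2 < x + ⌊(x : ℝ) / L ^ (k + m + B + 8)⌋₊ := hKl
        omega
      have h5 : ((K2 - x : ℕ) : ℝ) ≤ (⌊(x : ℝ) / L ^ (k + m + B + 8)⌋₊ : ℕ) := by
        exact_mod_cast h4
      refine h5.trans ((Nat.floor_le (by positivity)).trans ?_)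
      apply div_le_div_of_nonneg_right _ hM.le
      exact_mod_cast hxK
    have hB1 : 1 ≤ L ^ B := one_le_pow₀ hL1
    have hm1 : 1 ≤ L ^ m := one_le_pow₀ hL1
    calc ((K2 - x : ℕ) : ℝ) * (1 + 2 * R) ≤ K2 / L ^ (k + m + B + 8) * (3 * L ^ B) :=
          mul_le_mul h3 (by linarith) (by positivity) (by positivity)
      _ = K2 / L ^ k * (3 / (L ^ m * L ^ 8)) := by
          rw [show k + m + B + 8 = k + (m + (B + 8)) by ring, pow_add, pow_add, pow_add]
          field_simp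
      _ ≤ K2 / L ^ k * (1 / 2) := by
          refine mul_le_mul_of_nonneg_left ?_ (by positivity)
          have h8 : (168 : ℝ) ≤ L ^ 8 := by
            calc (168 : ℝ) ≤ 8 ^ 8 := by norm_num
              _ ≤ L ^ 8 := pow_le_pow_left₀ (by norm_num) g3 8
          rw [div_le_div_iff₀ (by positivity) (by norm_num)]
          nlinarith

/-! ### the second moment -/

/-- mean square of `lamR` in a short interval -/
private theorem SwB_lamR (R u w : ℕ) (hu : 1 ≤ u) (hw : 0 < w) (hR : R ^ 2 ≤ w) :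
    ∑ k ∈ Ico u (u + w), lamR R k ^ 2 ≤ 5 * w * ∑ c ∈ Icc 1 R, 1 / (c.totient : ℝ) := by
  classical
  set J : Finset (Σ _ : ℕ, ℕ) := (Icc 1 R).sigma (fun r => Pool.Agent.H92.EH.red r) with hJ
  have hsp : ∀ i ∈ J, ∀ j ∈ J, i ≠ j → ∀ k : ℤ,
      (1 : ℝ) / w ≤ |(i.2 : ℝ) / i.1 - (j.2 : ℝ) / j.1 - k| := by
    rintro ⟨r, b⟩ hi ⟨r', b'⟩ hj hne k
    rw [hJ, mem_sigma, mem_Icc] at hi hj
    simp only at hi hj
    refine le_trans ?_ (Pool.Agent.H92.EH.farey_spacing (by omega) (by omega) hi.2 hj.2 ?_ k)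
    · apply one_div_le_one_div_of_le
      · have h1 : (0 : ℝ) < r := by exact_mod_cast hi.1.1
        have h2 : (0 : ℝ) < r' := by exact_mod_cast hj.1.1
        positivity
      · have : r * r' ≤ w := by
          calc r * r' ≤ R * R := Nat.mul_le_mul hi.1.2 hj.1.2
            _ = R ^ 2 := by ring
            _ ≤ w := hR
        exact_mod_cast this
    · rintro ⟨rfl, rfl⟩
      exact hne rfl
  set m : ℕ → ℝ := fun c => ((ArithmeticFunction.moebius c : ℤ) : ℝ) / (c.totient : ℝ) with hm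
  set cf : (Σ _ : ℕ, ℕ) → ℂ := fun j => ((m j.1 : ℝ) : ℂ) *
    Pool.Agent.H92.EH.e (((u : ℝ) - 1) * ((j.2 : ℝ) / j.1)) with hcf
  have hen : ∀ t : ℝ, ‖Pool.Agent.H92.EH.e t‖ = 1 := fun t => by
    rw [Pool.Agent.H76.EHB.HRm_e, Pool.Agent.H91.PK.LSa_norm_ee]
  have h := Pool.Agent.H92.EH.dual_large_sieve J (fun j => (j.2 : ℝ) / j.1) cf w w le_rfl hw hsp
  have himg : Ico u (u + w) = (Icc 1 w).image (fun n => u + n - 1) := by
    ext k
    rw [Finset.mem_Ico, Finset.mem_image]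
    constructor
    · rintro ⟨h3, h4⟩
      exact ⟨k + 1 - u, by rw [Finset.mem_Icc]; omega, by omega⟩
    · rintro ⟨n, hn, rfl⟩
      rw [Finset.mem_Icc] at hn
      omega
  have h1 : ∀ n ∈ Icc 1 w, lamR R (u + n - 1) ^ 2 =
      ‖∑ j ∈ J, cf j * Pool.Agent.H92.EH.e (n * ((j.2 : ℝ) / j.1))‖ ^ 2 := by
    intro n hn
    rw [Finset.mem_Icc] at hn
    have h2 := Pool.Agent.H76.EHB.lamR_eq R (u + n - 1) (by omega)
    have h3 : ∑ j ∈ J, cf j * Pool.Agent.H92.EH.e (n * ((j.2 : ℝ) / j.1)) =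
        ((lamR R (u + n - 1) : ℝ) : ℂ) := by
      rw [h2, hJ, sum_sigma]
      refine sum_congr rfl fun c _ => ?_
      rw [mul_sum]
      refine sum_congr rfl fun b _ => ?_
      have h4 : ((u + n - 1 : ℕ) : ℝ) = ((u : ℝ) - 1) + n := by
        rw [Nat.cast_sub (by omega)]
        push_cast
        ring
      rw [hcf]
      simp only
      rw [Pool.Agent.H76.EHB.HRm_e, Pool.Agent.H76.EHB.HRm_e, mul_assoc,
        ← Pool.Agent.H91.PK.LSa_ee_add, h4, ← add_mul]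
    rw [h3, Complex.norm_real, Real.norm_eq_abs, sq_abs]
  rw [himg, Finset.sum_image (by
    intro a ha b hb hab
    simp only [Finset.coe_Icc, Set.mem_Icc] at ha hb
    simp only at hab
    omega), sum_congr rfl h1]
  refine h.trans (mul_le_mul_of_nonneg_left ?_ (by positivity))
  rw [hJ, sum_sigma]
  refine sum_le_sum fun c hc => ?_
  have h5 : ∀ b ∈ Pool.Agent.H92.EH.red c, ‖cf ⟨c, b⟩‖ ^ 2 = m c ^ 2 := fun b _ => by
    rw [hcf]
    simp only
    rw [norm_mul, hen, mul_one, Complex.norm_real, Real.norm_eq_abs, sq_abs]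
  rw [sum_congr rfl h5, sum_const, Pool.Agent.H92.EH.card_red, nsmul_eq_mul]
  have hc1 : 0 < c := (mem_Icc.mp hc).1
  have ht : (0 : ℝ) < c.totient := by exact_mod_cast Nat.totient_pos.mpr hc1
  have hmu : (((ArithmeticFunction.moebius c : ℤ) : ℝ)) ^ 2 ≤ 1 := by
    have h5 := ArithmeticFunction.abs_moebius_le_one (n := c)
    have h6 : |((ArithmeticFunction.moebius c : ℤ) : ℝ)| ≤ 1 := by exact_mod_cast h5
    rw [← sq_abs]
    exact pow_le_one₀ (abs_nonneg _) h6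
  rw [hm]
  simp only
  rw [div_pow, mul_div_assoc', div_le_div_iff₀ (by positivity) ht]
  nlinarith [mul_pos ht ht]

private theorem SwB_kap3 (y J x : ℕ) : 0 ≤ kap y J x ∧ kap y J x ≤ 3 := by
  rcases Nat.lt_or_ge x 3 with hx | hx
  · have hx' : x = 0 ∨ x = 1 ∨ x = 2 := by omega
    rcases hx' with rfl | rfl | rfl
    · unfold kap
      rw [Nat.cast_zero, Real.log_zero, div_zero]
      norm_num
    · unfold kap
      rw [Nat.cast_one, Real.log_one, div_zero]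
      norm_num
    · refine ⟨kap_nonneg y J 2 (by norm_num), ?_⟩
      unfold kap
      have hlog : 1 / 2 ≤ Real.log ((2 : ℕ) : ℝ) := by
        have := Real.log_two_gt_d9
        push_cast
        linarith
      have hlog0 : 0 < Real.log ((2 : ℕ) : ℝ) := lt_of_lt_of_le (by norm_num) hlog
      rw [div_le_iff₀ hlog0]
      have h1 : ∑ k ∈ Icc 1 (2 / y), rg y k /
          ((1 + nu y J k + if 2 < k * zz y J then 1 else 0) * k) ≤
          ∑ k ∈ Icc (1 : ℕ) 2, 1 / (k : ℝ) := by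
        calc ∑ k ∈ Icc 1 (2 / y), rg y k /
              ((1 + nu y J k + if 2 < k * zz y J then 1 else 0) * k) ≤
              ∑ k ∈ Icc (1 : ℕ) (2 / y), 1 / (k : ℝ) := by
              refine sum_le_sum fun k hk => ?_
              rw [mem_Icc] at hk
              have hk0 : (0 : ℝ) < k := by exact_mod_cast hk.1
              have h2 : (0 : ℝ) ≤ nu y J k := Nat.cast_nonneg _
              have h3 : (0 : ℝ) ≤ (if 2 < k * zz y J then (1 : ℝ) else 0) := by
                split_ifs <;> norm_num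
              have h4 : rg y k ≤ 1 := by
                unfold rg
                split_ifs <;> norm_num
              refine div_le_div₀ zero_le_one h4 hk0 ?_
              nlinarith [mul_nonneg h2 hk0.le, mul_nonneg h3 hk0.le]
          _ ≤ ∑ k ∈ Icc (1 : ℕ) 2, 1 / (k : ℝ) := by
              refine Finset.sum_le_sum_of_subset_of_nonneg ?_ fun k _ _ => by positivity
              exact Finset.Icc_subset_Icc le_rfl (Nat.div_le_self 2 y)
      have h5 : ∑ k ∈ Icc (1 : ℕ) 2, 1 / (k : ℝ) = 3 / 2 := by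
        rw [show (Icc 1 2 : Finset ℕ) = {1, 2} by decide, sum_pair (by norm_num)]
        norm_num
      rw [h5] at h1
      linarith
  · exact ⟨kap_nonneg y J x (by omega), (kap_le y J x hx).trans (by norm_num)⟩

private theorem SwB_bs_sq (y J R k : ℕ) : bs y J R k ^ 2 ≤ 2 + 18 * lamR R k ^ 2 := by
  have h1 := SwB_bf y J k
  have h2 := SwB_kap3 y J k
  have h3 : bf y J k ^ 2 ≤ 1 := pow_le_one₀ h1.1 h1.2
  have h4 : kap y J k ^ 2 ≤ 9 := by nlinarith
  have h5 : kap y J k ^ 2 * lamR R k ^ 2 ≤ 9 * lamR R k ^ 2 :=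
    mul_le_mul_of_nonneg_right h4 (sq_nonneg _)
  unfold bs
  nlinarith [sq_nonneg (bf y J k + kap y J k * lamR R k)]

private theorem SwB_bs_zero (y J R : ℕ) : bs y J R 0 ^ 2 ≤ 1 := by
  have h1 := SwB_bf y J 0
  have h2 : kap y J 0 = 0 := by
    unfold kap
    rw [Nat.cast_zero, Real.log_zero, div_zero]
  unfold bs
  rw [h2, zero_mul, sub_zero]
  exact pow_le_one₀ h1.1 h1.2

private theorem SwB_sq1 (N : ℕ) (hN : Real.exp 50 ≤ N) (y J R : ℕ) (hR : 1 ≤ R) (u w : ℕ)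
    (hu : 1 ≤ u) (hw : R ^ 4 + 1 ≤ w) (huw : u + w ≤ N ^ 4) :
    ∑ k ∈ Ico u (u + w), bs y J R k ^ 2 ≤ w * (Real.log N ^ 4 - 1) := by
  have hN0 : (0 : ℝ) < N := lt_of_lt_of_le (Real.exp_pos _) hN
  have hL : 50 ≤ Real.log N := by
    rw [Real.le_log_iff_exp_le hN0]; exact hN
  set L := Real.log N with hLdef
  have hw1 : 1 ≤ w := by omega
  have hw0 : (0 : ℝ) < w := by exact_mod_cast hw1
  have hR2 : R ^ 2 ≤ w := by
    have h1 : R ^ 2 ≤ R ^ 4 + 1 := (Nat.pow_le_pow_right hR (by norm_num)).trans (Nat.le_succ _)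
    exact h1.trans hw
  have hlog4 : ∀ k : ℕ, 1 ≤ k → k ≤ N ^ 4 → Real.log k ≤ 4 * L := by
    intro k hk1 hk
    have h1 : Real.log k ≤ Real.log ((N : ℝ) ^ 4) :=
      Real.log_le_log (by exact_mod_cast hk1) (by exact_mod_cast hk)
    rw [Real.log_pow] at h1
    push_cast at h1
    exact h1
  have hlam : ∑ k ∈ Ico u (u + w), lamR R k ^ 2 ≤ w * (125 * L ^ 2) := by
    refine (SwB_lamR R u w hu hw1 hR2).trans ?_
    have h1 : ∑ c ∈ Icc 1 R, 1 / (c.totient : ℝ) ≤ 25 * L ^ 2 := by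
      refine (Pool.Agent.H76.EHB.HRm_tot w R hR hR2).trans ?_
      have h2 := hlog4 w hw1 (by omega)
      have h3 : 0 ≤ Real.log w := Real.log_natCast_nonneg w
      have h4 : Real.log w + 1 ≤ 5 * L := by linarith
      calc (Real.log w + 1) * (1 + Real.log w) = (Real.log w + 1) ^ 2 := by ring
        _ ≤ (5 * L) ^ 2 := pow_le_pow_left₀ (by linarith) h4 2
        _ = 25 * L ^ 2 := by ring
    calc 5 * (w : ℝ) * ∑ c ∈ Icc 1 R, 1 / (c.totient : ℝ) ≤ 5 * w * (25 * L ^ 2) :=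
          mul_le_mul_of_nonneg_left h1 (by positivity)
      _ = w * (125 * L ^ 2) := by ring
  have hfin : 2 + 2250 * L ^ 2 ≤ L ^ 4 - 1 := by
    have h1 : 2500 ≤ L ^ 2 := by nlinarith
    have h2 : L ^ 4 = L ^ 2 * L ^ 2 := by ring
    rw [h2]
    nlinarith
  calc ∑ k ∈ Ico u (u + w), bs y J R k ^ 2 ≤ ∑ k ∈ Ico u (u + w), (2 + 18 * lamR R k ^ 2) :=
        sum_le_sum fun k _ => SwB_bs_sq y J R k
    _ = w * 2 + 18 * ∑ k ∈ Ico u (u + w), lamR R k ^ 2 := by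
        rw [sum_add_distrib, sum_const, Nat.card_Ico, nsmul_eq_mul, Nat.add_sub_cancel_left,
          mul_sum]
    _ ≤ w * 2 + 18 * (w * (125 * L ^ 2)) := by linarith
    _ = w * (2 + 2250 * L ^ 2) := by ring
    _ ≤ w * (L ^ 4 - 1) := mul_le_mul_of_nonneg_left hfin hw0.le

/-- the second moment: `bf ≤ 1`, `kap ≤ 3`, `∑ lamR^2 ≤ w L^2` -/
theorem sq_b (B : ℕ) : ∃ N0 : ℕ, ∀ N : ℕ, N0 ≤ N → ∀ (y J R : ℕ), 1 ≤ R → (R : ℝ) ≤ Real.log N ^ B →
    Pool.Agent.H53.MID.SqB (bs y J R) (R ^ 4 + 2) (N ^ 4) (Real.log N) := by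
  refine ⟨⌈Real.exp 50⌉₊, fun N hN y J R hR _ => ?_⟩
  have hN1 : Real.exp 50 ≤ N := Nat.ceil_le.mp hN
  intro u w hw huw
  have hwc : (0 : ℝ) ≤ w := Nat.cast_nonneg w
  rcases Nat.eq_zero_or_pos u with rfl | hu
  · have h1 := SwB_sq1 N hN1 y J R hR 1 (w - 1) le_rfl (by omega) (by omega)
    rw [show 1 + (w - 1) = 0 + w by omega] at h1
    rw [Finset.sum_eq_sum_Ico_succ_bot (by omega)]
    simp only [zero_add] at h1 ⊢
    have h2 := SwB_bs_zero y J R
    have h3 : ((w - 1 : ℕ) : ℝ) = (w : ℝ) - 1 := by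
      rw [Nat.cast_sub (by omega)]
      simp
    have h4 : (1 : ℝ) ≤ w := by exact_mod_cast (by omega : 1 ≤ w)
    have h6 : (0 : ℝ) ≤ Real.log N ^ 4 := by positivity
    have h5 : ((w - 1 : ℕ) : ℝ) * (Real.log N ^ 4 - 1) ≤ w * Real.log N ^ 4 - 1 := by
      rw [h3]
      have hN0 : (0 : ℝ) < N := lt_of_lt_of_le (Real.exp_pos _) hN1
      have hL : 50 ≤ Real.log N := by
        rw [Real.le_log_iff_exp_le hN0]; exact hN1
      have h7 : (2 : ℝ) ≤ Real.log N ^ 4 := by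
        calc (2 : ℝ) ≤ 50 ^ 4 := by norm_num
          _ ≤ Real.log N ^ 4 := pow_le_pow_left₀ (by norm_num) hL 4
      nlinarith
    linarith
  · refine (SwB_sq1 N hN1 y J R hR u w hu (by omega) huw).trans ?_
    apply mul_le_mul_of_nonneg_left _ hwc
    linarith

end Pool.Agent.H76.TP
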