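import Pool.Agent.H76.TP.Defs

/-!
# TP Znum: the numerical condition at `ζ = 0.2805`

`Z2 (0.2805) = log(0.7195/0.2805) = 0.94198280..`, `Z3 (0.2805) = ∫_{0.2805}^{1/3} log((1-2u)/u)/(u(1-u)) du = 0.05757450..`, sum `1.99955731 < 2`: margin `0.00044`.
Upper bound for the integrand (`t = (1-2u)/u ≥ 1`): `log t ≤ (t-1)(t+5)/(2(2t+1))` (Padé; derivative of the difference `= (t-1)^3/(t(2t+1)^2) ≥ 0`), `t - 1 = (1-3u)/u`, `t + 5 = (1+3u)/u`, `2t + 1 = (2-3u)/u`:
`log t ≤ (1-3u)(1+3u)/(2u(2-3u))`; so `Z3 ≤ ∫ (1-9u²)/(2u²(1-u)(2-3u)) du` = 0.0577..; a rational function (partial fractions give logarithms), or cut the interval into 20-40 pieces and use that the function is decreasing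
(and convex: trapezoid).  `log(0.7195/0.2805) = log(1439/561)`: `log 2 + log(1439/1122)`, series of `log((1+s)/(1-s))`, `s = 317/2561`.
-/

set_option autoImplicit false

namespace Pool.Agent.H76.TP

open Finset MeasureTheory

/-- derivative of the difference -/
private lemma znum_hasDeriv (x : ℝ) (hx : 0 < x) :
    HasDerivAt (fun x : ℝ => (x - 1) * (x + 5) / (2 * (2 * x + 1)) - Real.log x)
      ((x - 1) ^ 3 / (x * (2 * x + 1) ^ 2)) x := by
  have h1 : HasDerivAt (fun x : ℝ => (x - 1) * (x + 5)) (1 * (x + 5) + (x - 1) * 1) x :=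
    ((hasDerivAt_id x).sub_const 1).mul ((hasDerivAt_id x).add_const 5)
  have h2 : HasDerivAt (fun x : ℝ => 2 * (2 * x + 1)) (2 * (2 * 1)) x :=
    (((hasDerivAt_id x).const_mul 2).add_const 1).const_mul 2
  have hne : (2 * (2 * x + 1) : ℝ) ≠ 0 := by positivity
  have h3 := (h1.div h2 hne).sub (Real.hasDerivAt_log hx.ne')
  refine h3.congr_deriv ?_
  have hx' : x ≠ 0 := hx.ne'
  have h4 : (2 * x + 1 : ℝ) ≠ 0 := by positivity
  field_simp
  ring

/-- Padé upper bound of the logarithm -/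
private lemma znum_pade (x : ℝ) (hx : 0 < x) : Real.log x ≤ (x - 1) * (x + 5) / (2 * (2 * x + 1)) := by
  set f : ℝ → ℝ := fun x => (x - 1) * (x + 5) / (2 * (2 * x + 1)) - Real.log x with hf
  have hf1 : f 1 = 0 := by simp [hf]
  suffices h : f 1 ≤ f x by
    rw [hf1] at h
    simp only [hf] at h
    linarith
  rcases le_total 1 x with h1 | h1
  · have hmono : MonotoneOn f (Set.Ici 1) := by
      apply monotoneOn_of_deriv_nonneg (convex_Ici 1)
      · intro y hy
        exact (znum_hasDeriv y (lt_of_lt_of_le one_pos hy)).continuousAt.continuousWithinAt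
      · intro y hy
        rw [interior_Ici] at hy
        exact (znum_hasDeriv y (lt_trans one_pos hy)).differentiableAt.differentiableWithinAt
      · intro y hy
        rw [interior_Ici] at hy
        have hy1 : (1 : ℝ) < y := hy
        rw [(znum_hasDeriv y (lt_trans one_pos hy1)).deriv]
        have : 0 ≤ y - 1 := by linarith
        positivity
    exact hmono (Set.mem_Ici.2 le_rfl) (Set.mem_Ici.2 h1) h1
  · have hanti : AntitoneOn f (Set.Ioc 0 1) := by
      apply antitoneOn_of_deriv_nonpos (convex_Ioc 0 1)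
      · intro y hy
        exact (znum_hasDeriv y hy.1).continuousAt.continuousWithinAt
      · intro y hy
        rw [interior_Ioc] at hy
        exact (znum_hasDeriv y hy.1).differentiableAt.differentiableWithinAt
      · intro y hy
        rw [interior_Ioc] at hy
        rw [(znum_hasDeriv y hy.1).deriv]
        have h0 : 0 ≤ 1 - y := by linarith [hy.2]
        have h2 : (y - 1) ^ 3 = - ((1 - y) ^ 3) := by ring
        have hy0 := hy.1
        rw [h2, neg_div]
        have : 0 ≤ (1 - y) ^ 3 / (y * (2 * y + 1) ^ 2) := by positivity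
        linarith
    exact hanti ⟨hx, h1⟩ ⟨one_pos, le_rfl⟩ h1

private lemma znum_lo (x : ℝ) (hx : 0 < x) :
    - ((1 / x - 1) * (1 / x + 5) / (2 * (2 * (1 / x) + 1))) ≤ Real.log x := by
  have h := znum_pade (1 / x) (by positivity)
  rw [one_div, Real.log_inv] at h
  rw [one_div]
  linarith

/-- the antiderivative -/
private noncomputable def znumF (u : ℝ) : ℝ :=
  5 / 8 * Real.log u - 1 / 4 * u⁻¹ - 4 * Real.log (1 - u) + 27 / 8 * Real.log (2 - 3 * u)

private lemma znum_F (u : ℝ) (h0 : 0 < u) (h1 : u < 2 / 3) :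
    HasDerivAt znumF ((1 - 9 * u ^ 2) / (2 * u ^ 2 * (1 - u) * (2 - 3 * u))) u := by
  have a1 : HasDerivAt (fun u : ℝ => 5 / 8 * Real.log u) (5 / 8 * u⁻¹) u :=
    (Real.hasDerivAt_log h0.ne').const_mul (5 / 8)
  have a2 : HasDerivAt (fun u : ℝ => 1 / 4 * u⁻¹) (1 / 4 * (-(u ^ 2)⁻¹)) u :=
    (hasDerivAt_inv h0.ne').const_mul (1 / 4)
  have b3 : HasDerivAt (fun u : ℝ => 1 - u) (-1) u := by
    simpa using (hasDerivAt_id u).const_sub 1
  have hn3 : (1 - u : ℝ) ≠ 0 := by linarith
  have a3 : HasDerivAt (fun u : ℝ => 4 * Real.log (1 - u)) (4 * (-1 / (1 - u))) u :=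
    (b3.log hn3).const_mul 4
  have b4 : HasDerivAt (fun u : ℝ => 2 - 3 * u) (-(3 * 1)) u := by
    simpa using ((hasDerivAt_id u).const_mul 3).const_sub 2
  have hn4 : (2 - 3 * u : ℝ) ≠ 0 := by linarith
  have a4 : HasDerivAt (fun u : ℝ => 27 / 8 * Real.log (2 - 3 * u)) (27 / 8 * (-(3 * 1) / (2 - 3 * u))) u :=
    (b4.log hn4).const_mul (27 / 8)
  have h := ((a1.sub a2).sub a3).add a4
  refine h.congr_deriv ?_
  have hu : u ≠ 0 := h0.ne'
  have hu2 : u ^ 2 ≠ 0 := pow_ne_zero 2 hu
  have e : 5 / 8 * u⁻¹ - 1 / 4 * -(u ^ 2)⁻¹ - 4 * (-1 / (1 - u)) + 27 / 8 * (-(3 * 1) / (2 - 3 * u))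
      = 5 / 8 / u + 1 / 4 / u ^ 2 + 4 / (1 - u) - 81 / 8 / (2 - 3 * u) := by
    ring
  rw [e, div_add_div _ _ hu hu2, div_add_div _ _ (mul_ne_zero hu hu2) hn3,
    div_sub_div _ _ (mul_ne_zero (mul_ne_zero hu hu2) hn3) hn4,
    div_eq_div_iff (mul_ne_zero (mul_ne_zero (mul_ne_zero hu hu2) hn3) hn4)
      (mul_ne_zero (mul_ne_zero (mul_ne_zero two_ne_zero hu2) hn3) hn4)]
  ring

private lemma znum_Z3 : Z3 (561 / 2000) ≤ znumF (1 / 3) - znumF (561 / 2000) := by
  have hI : ∫ u in (561 / 2000 : ℝ)..(1 / 3 : ℝ), (1 - 9 * u ^ 2) / (2 * u ^ 2 * (1 - u) * (2 - 3 * u))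
      = znumF (1 / 3) - znumF (561 / 2000) := by
    apply intervalIntegral.integral_eq_sub_of_hasDerivAt
    · intro u hu
      rw [Set.uIcc_of_le (by norm_num)] at hu
      exact znum_F u (by linarith [hu.1]) (by linarith [hu.2])
    · apply ContinuousOn.intervalIntegrable
      intro u hu
      rw [Set.uIcc_of_le (by norm_num)] at hu
      have h0 : 0 < u := by linarith [hu.1]
      have h1 : u ≤ 1 / 3 := hu.2
      have h2 : (1 - u : ℝ) ≠ 0 := by linarith
      have h3 : (2 - 3 * u : ℝ) ≠ 0 := by linarith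
      have h4 : 2 * u ^ 2 * (1 - u) * (2 - 3 * u) ≠ 0 := by
        have : u ≠ 0 := h0.ne'
        positivity
      apply ContinuousAt.continuousWithinAt
      exact ContinuousAt.div (by fun_prop) (by fun_prop) h4
  rw [← hI]
  unfold Z3
  apply intervalIntegral.integral_mono_on (by norm_num)
  · apply ContinuousOn.intervalIntegrable
    intro u hu
    rw [Set.uIcc_of_le (by norm_num)] at hu
    have h0 : 0 < u := by linarith [hu.1]
    have h1 : u ≤ 1 / 3 := hu.2
    have h2 : (1 - u : ℝ) ≠ 0 := by linarith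
    have h3 : 0 < (1 - 2 * u) / u := by
      apply div_pos _ h0
      linarith
    have h4 : u * (1 - u) ≠ 0 := mul_ne_zero h0.ne' h2
    apply ContinuousAt.continuousWithinAt
    have c1 : ContinuousAt (fun u : ℝ => (1 - 2 * u) / u) u :=
      ContinuousAt.div (by fun_prop) (by fun_prop) h0.ne'
    have c2 : ContinuousAt (fun u : ℝ => Real.log ((1 - 2 * u) / u)) u := c1.log h3.ne'
    have c3 : ContinuousAt (fun u : ℝ => u * (1 - u)) u := by fun_prop
    exact c2.div c3 h4
  · apply ContinuousOn.intervalIntegrable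
    intro u hu
    rw [Set.uIcc_of_le (by norm_num)] at hu
    have h0 : 0 < u := by linarith [hu.1]
    have h1 : u ≤ 1 / 3 := hu.2
    have h2 : (1 - u : ℝ) ≠ 0 := by linarith
    have h3 : (2 - 3 * u : ℝ) ≠ 0 := by linarith
    have h4 : 2 * u ^ 2 * (1 - u) * (2 - 3 * u) ≠ 0 := by
      have : u ≠ 0 := h0.ne'
      positivity
    apply ContinuousAt.continuousWithinAt
    exact ContinuousAt.div (by fun_prop) (by fun_prop) h4
  · intro u hu
    have h0 : 0 < u := by linarith [hu.1]
    have h1 : u ≤ 1 / 3 := hu.2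
    have h2 : 0 < 1 - u := by linarith
    have h3 : 0 < 2 - 3 * u := by linarith
    have h5 : 0 < 1 - 2 * u := by linarith
    have hp := znum_pade ((1 - 2 * u) / u) (div_pos h5 h0)
    have e1 : ((1 - 2 * u) / u - 1) * ((1 - 2 * u) / u + 5) / (2 * (2 * ((1 - 2 * u) / u) + 1))
        = (1 - 9 * u ^ 2) / (2 * u * (2 - 3 * u)) := by
      have hu : u ≠ 0 := h0.ne'
      have h6 : 2 * ((1 - 2 * u) / u) + 1 = (2 - 3 * u) / u := by
        field_simp
        ring
      rw [h6]
      field_simp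
      ring
    rw [e1] at hp
    calc Real.log ((1 - 2 * u) / u) / (u * (1 - u))
        ≤ ((1 - 9 * u ^ 2) / (2 * u * (2 - 3 * u))) / (u * (1 - u)) := by
          apply div_le_div_of_nonneg_right hp
          positivity
      _ = (1 - 9 * u ^ 2) / (2 * u ^ 2 * (1 - u) * (2 - 3 * u)) := by
          rw [div_div]
          congr 1
          ring

theorem znum : 1 + Z2 (561 / 2000) + Z3 (561 / 2000) < 2 := by
  have h3 := znum_Z3
  have h2 : Z2 (561 / 2000) = 1 / 3 * (4 * Real.log 2 + Real.log ((1439 / 561) ^ 3 / 16)) := by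
    unfold Z2
    have e : ((1 - 561 / 2000) / (561 / 2000) : ℝ) = 1439 / 561 := by norm_num
    have e2 : Real.log ((1439 / 561 : ℝ) ^ 3 / 16) = 3 * Real.log (1439 / 561) - 4 * Real.log 2 := by
      rw [Real.log_div (by norm_num) (by norm_num), Real.log_pow,
        show (16 : ℝ) = 2 ^ 4 by norm_num, Real.log_pow]
      push_cast
      ring
    rw [e, e2]
    ring
  have hl2 := Real.log_two_lt_d9
  have hx := znum_pade ((1439 / 561) ^ 3 / 16) (by norm_num)
  have hF : znumF (1 / 3) - znumF (561 / 2000)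
      = 5 / 8 * Real.log (2000 / 1683) - 1 / 4 * (3 - 2000 / 561) + 4 * Real.log (4317 / 4000)
        - 27 / 8 * Real.log (2317 / 2000) := by
    unfold znumF
    have e1 : (1 - 1 / 3 : ℝ) = 2 / 3 := by norm_num
    have e2 : (2 - 3 * (1 / 3) : ℝ) = 1 := by norm_num
    have e3 : (1 - 561 / 2000 : ℝ) = 1439 / 2000 := by norm_num
    have e4 : (2 - 3 * (561 / 2000) : ℝ) = 2317 / 2000 := by norm_num
    have e5 : Real.log (2000 / 1683) = Real.log (1 / 3) - Real.log (561 / 2000) := by
      rw [← Real.log_div (by norm_num) (by norm_num)]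
      norm_num
    have e6 : Real.log (4317 / 4000) = Real.log (1439 / 2000) - Real.log (2 / 3) := by
      rw [← Real.log_div (by norm_num) (by norm_num)]
      norm_num
    rw [e1, e2, e3, e4, e5, e6, Real.log_one]
    norm_num
    ring
  have ha := znum_pade (2000 / 1683) (by norm_num)
  have hb := znum_pade (4317 / 4000) (by norm_num)
  have hc := znum_lo (2317 / 2000) (by norm_num)
  rw [hF] at h3
  rw [h2]
  norm_num at ha hb hc hx ⊢
  linarith

end Pool.Agent.H76.TP
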