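import Pool.Agent.H76.TP.LfuA
import Pool.Agent.H76.TP.Mass
import Pool.Agent.H76.TP.KStep
import Pool.Agent.H76.TP.SvBB
import Pool.Agent.H76.TP.Znum
import Pool.Agent.H43.TP.LamSq
import Pool.Agent.H76.GB.Defs
import Pool.Agent.H91.EHA.Lam1

/-!
# TP Tpin: the black box `TPIN θ c` for `0.2805 < θ < 1/3`

`ζ' = 561/2000 < ζ < θ`.  `1 + Z2 ζ' + Z3 ζ' < 2` (`znum`); `ε` small; `e4 = 1/4`; `e10` from `sieve_bb`; `e1 = min e10 (1/100)`; `J` = the largest number with `2^J y ≤ N^ζ`, so `z ≥ N^ζ/2 ≥ N^ζ'`.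
`F m = Ap S y J m`, `κ i = max 0 (kapA kS y J (iH))`; `F ≥ AA ≥ 0`, `F ≥ 1` at the primes `> z` (`aa_one`), `F ≤ S`.  On a good block `kapA ≥ -2/L^A'`: `α = 0` and `∑ F ≥ 0`, `∑ lamR ≥ H/2`.
-/

set_option autoImplicit false

namespace Pool.Agent.H76.TP

open Finset
open Pool.Agent.H91.PK (ee)
open Pool.Agent.H91.EHA (Lam hR lamR ramS)
open Pool.Agent.H35.W (pb)
open Pool.Agent.H53.MID (Fp Bs VKp)
open Pool.Agent.H43.MP (blk Hn idx Rn)
open Pool.Agent.H43.TP (badF TPIN)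

private theorem tpin_lamsum1 (R y : ℕ) (hR : 1 ≤ R) :
    |(∑ n ∈ Icc 1 y, lamR R n) - (y : ℝ)| ≤ (R : ℝ) ^ 3 := by
  have h1 := Pool.Agent.H91.EHA.lamR_ap R y 1 0 le_rfl (Nat.coprime_one_right 0)
  have h2 : (Icc 1 y).filter (fun n => n ≡ 0 [MOD 1]) = Icc 1 y := by
    apply filter_true_of_mem
    intro n _
    exact Nat.modEq_one
  rw [h2] at h1
  have h3 : (Nat.divisors 1).filter (fun c => c ≤ R) = {1} := by
    ext c
    simp only [Nat.divisors_one, mem_filter, mem_singleton]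
    constructor
    · exact fun h => h.1
    · intro h
      exact ⟨h, by omega⟩
  rw [h3] at h1
  simpa using h1

private theorem tpin_lamsum (R a b : ℕ) (hR : 1 ≤ R) (hab : a ≤ b) (ha : 1 ≤ a) :
    (b : ℝ) - a - 2 * (R : ℝ) ^ 3 ≤ ∑ m ∈ Ico a b, lamR R m := by
  have h1 := abs_le.1 (tpin_lamsum1 R (b - 1) hR)
  have h2 := abs_le.1 (tpin_lamsum1 R (a - 1) hR)
  have h3 : ∑ m ∈ Ico a b, lamR R m =
      ∑ n ∈ Icc 1 (b - 1), lamR R n - ∑ n ∈ Icc 1 (a - 1), lamR R n := by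
    have e1 : Icc 1 (b - 1) = Ico 1 b := by
      ext n
      simp only [mem_Icc, mem_Ico]
      omega
    have e2 : Icc 1 (a - 1) = Ico 1 a := by
      ext n
      simp only [mem_Icc, mem_Ico]
      omega
    rw [e1, e2, ← sum_Ico_consecutive _ ha hab]
    ring
  rw [h3]
  have h4 : ((b - 1 : ℕ) : ℝ) = b - 1 := by
    rw [Nat.cast_sub (by omega)]
    simp
  have h5 : ((a - 1 : ℕ) : ℝ) = a - 1 := by
    rw [Nat.cast_sub ha]
    simp
  rw [h4] at h1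
  rw [h5] at h2
  linarith [h1.1, h2.2]

private theorem tpin_fp_nonneg (y J P m : ℕ) : 0 ≤ Fp (bf y J) P m := by
  unfold Fp
  exact sum_nonneg fun p _ => bf_nonneg y J _

private theorem tpin_blk (H i : ℕ) : blk H i = Ico (i * H) (i * H + H) := by
  unfold blk
  congr 1
  ring

private theorem tpin_abs (R H i : ℕ) (M : ℝ) (hM : 0 ≤ M)
    (h : ∑ m ∈ blk H i, lamR R m ^ 2 ≤ H * M ^ 2) : ∑ m ∈ blk H i, |lamR R m| ≤ H * M := by
  have h1 := sum_mul_sq_le_sq_mul_sq (blk H i) (fun _ => (1 : ℝ)) (fun m => |lamR R m|)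
  simp only [one_mul, one_pow, sum_const, nsmul_eq_mul, mul_one, sq_abs] at h1
  have h2 : ((blk H i).card : ℝ) = H := by
    rw [tpin_blk, Nat.card_Ico]
    congr 1
    omega
  rw [h2] at h1
  have h3 : (∑ m ∈ blk H i, |lamR R m|) ^ 2 ≤ (H * M) ^ 2 := by
    calc (∑ m ∈ blk H i, |lamR R m|) ^ 2 ≤ H * ∑ m ∈ blk H i, lamR R m ^ 2 := h1
      _ ≤ H * (H * M ^ 2) := mul_le_mul_of_nonneg_left h (Nat.cast_nonneg H)
      _ = (H * M) ^ 2 := by ring
  exact le_of_sq_le_sq h3 (by positivity)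

/-- facts for large `N` -/
private theorem tpin_large (θ ζ : ℝ) (e1 : ℝ) (h1 : 561 / 2000 < ζ) (h2 : ζ < θ) (h3 : θ < 1 / 3)
    (h4 : 0 < e1) (h5 : e1 ≤ 1 / 100) (B : ℕ) :
    ∃ N0 : ℕ, ∀ N : ℕ, N0 ≤ N → 10 ≤ Real.log N ∧ (N : ℝ) ^ (1 / 4 : ℝ) ≤ ⌊(N : ℝ) ^ θ⌋₊ ∧
      ((⌊(N : ℝ) ^ θ⌋₊ : ℕ) : ℝ) ≤ (N : ℝ) ^ (1 / 2 : ℝ) ∧ 8 * ⌊(N : ℝ) ^ θ⌋₊ ≤ N ∧
      (N : ℝ) ^ ζ < N / 4 ∧ 1 ≤ yN e1 N ∧ (yN e1 N : ℝ) ≤ (N : ℝ) ^ ζ ∧
      2 * (N : ℝ) ^ (561 / 2000 : ℝ) ≤ (⌊(N : ℝ) ^ ζ⌋₊ : ℝ) ∧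
      (Rn B N : ℝ) ≤ Real.log N ^ B ∧ 1 ≤ Rn B N ∧ Real.log N ^ (2 * B) ≤ ⌊(N : ℝ) ^ θ⌋₊ ∧
      4 * (Rn B N : ℝ) ^ 3 ≤ ⌊(N : ℝ) ^ θ⌋₊ := by
  obtain ⟨x1, hx1⟩ := Pool.Agent.H76.GB.log_ge 10
  obtain ⟨x2, hx2⟩ := Pool.Agent.H76.GB.log_pow_le (θ - 1 / 4) 2 (by linarith) (by norm_num) 0
  obtain ⟨x3, hx3⟩ := Pool.Agent.H76.GB.log_pow_le (1 - θ) 8 (by linarith) (by norm_num) 0
  obtain ⟨x4, hx4⟩ := Pool.Agent.H76.GB.log_pow_le (1 - ζ) 8 (by linarith) (by norm_num) 0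
  obtain ⟨x5, hx5⟩ := Pool.Agent.H76.GB.log_pow_le (ζ - 561 / 2000) 4 (by linarith) (by norm_num) 0
  obtain ⟨x6, hx6⟩ := Pool.Agent.H76.GB.log_pow_le (1 / 4) 1 (by norm_num) (by norm_num) (2 * B)
  obtain ⟨x7, hx7⟩ := Pool.Agent.H76.GB.log_pow_le (1 / 4) 4 (by norm_num) (by norm_num) (3 * B)
  refine ⟨x1 + x2 + x3 + x4 + x5 + x6 + x7, fun N hN => ?_⟩
  have g1 := hx1 N (by omega)
  have g2 := hx2 N (by omega)
  have g3 := hx3 N (by omega)
  have g4 := hx4 N (by omega)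
  have g5 := hx5 N (by omega)
  have g6 := hx6 N (by omega)
  have g7 := hx7 N (by omega)
  rw [pow_zero, mul_one] at g2 g3 g4 g5
  rw [one_mul] at g6
  set L := Real.log N with hL
  have hN0 : N ≠ 0 := by
    rintro rfl
    rw [hL] at g1
    norm_num at g1
  have hN1 : (1 : ℝ) ≤ N := by exact_mod_cast Nat.one_le_iff_ne_zero.2 hN0
  have hNpos : (0 : ℝ) < N := by linarith
  have hadd : ∀ a b : ℝ, (N : ℝ) ^ (a + b) = (N : ℝ) ^ a * (N : ℝ) ^ b := fun a b => Real.rpow_add hNpos a b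
  have hge1 : ∀ a : ℝ, 0 ≤ a → 1 ≤ (N : ℝ) ^ a := fun a ha => Real.one_le_rpow hN1 ha
  have hmono : ∀ a b : ℝ, a ≤ b → (N : ℝ) ^ a ≤ (N : ℝ) ^ b := fun a b hab =>
    Real.rpow_le_rpow_of_exponent_le hN1 hab
  have hfl : ∀ t : ℝ, 1 ≤ t → t / 2 ≤ (⌊t⌋₊ : ℝ) := by
    intro t ht
    have h6 := Nat.lt_floor_add_one t
    have h7 : (1 : ℝ) ≤ (⌊t⌋₊ : ℝ) := by
      exact_mod_cast (Nat.one_le_floor_iff t).2 ht
    linarith
  have hθ4 : (N : ℝ) ^ (1 / 4 : ℝ) ≤ ⌊(N : ℝ) ^ θ⌋₊ := by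
    have h6 : (N : ℝ) ^ θ = (N : ℝ) ^ (θ - 1 / 4) * (N : ℝ) ^ (1 / 4 : ℝ) := by
      rw [← hadd]
      congr 1
      ring
    have h7 := hfl ((N : ℝ) ^ θ) (hge1 θ (by linarith))
    have h8 := hge1 (1 / 4) (by norm_num)
    have h9 : 2 * (N : ℝ) ^ (1 / 4 : ℝ) ≤ (N : ℝ) ^ θ := by
      rw [h6]
      exact mul_le_mul_of_nonneg_right g2 (by linarith)
    linarith
  have hR : (Rn B N : ℝ) ≤ L ^ B := by
    unfold Rn
    exact Nat.floor_le (by positivity)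
  refine ⟨g1, hθ4, ?_, ?_, ?_, ?_, ?_, ?_, hR, ?_, g6.trans hθ4, ?_⟩
  · exact (Nat.floor_le (by positivity)).trans (hmono _ _ (by linarith))
  · have h6 : (N : ℝ) = (N : ℝ) ^ (1 - θ) * (N : ℝ) ^ θ := by
      rw [← hadd, sub_add_cancel, Real.rpow_one]
    have h7 : ((⌊(N : ℝ) ^ θ⌋₊ : ℕ) : ℝ) ≤ (N : ℝ) ^ θ := Nat.floor_le (by positivity)
    have h8 : 8 * ((⌊(N : ℝ) ^ θ⌋₊ : ℕ) : ℝ) ≤ N := by
      have h9 : 8 * (N : ℝ) ^ θ ≤ (N : ℝ) ^ (1 - θ) * (N : ℝ) ^ θ :=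
        mul_le_mul_of_nonneg_right g3 (by positivity)
      linarith
    exact_mod_cast h8
  · have h6 : (N : ℝ) = (N : ℝ) ^ (1 - ζ) * (N : ℝ) ^ ζ := by
      rw [← hadd, sub_add_cancel, Real.rpow_one]
    have h9 : 8 * (N : ℝ) ^ ζ ≤ (N : ℝ) ^ (1 - ζ) * (N : ℝ) ^ ζ :=
        mul_le_mul_of_nonneg_right g4 (by positivity)
    have h10 : 0 < (N : ℝ) ^ ζ := by positivity
    linarith
  · unfold yN
    exact (Nat.one_le_floor_iff _).2 (hge1 e1 h4.le)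
  · unfold yN
    exact (Nat.floor_le (by positivity)).trans (hmono _ _ (by linarith))
  · have h6 : (N : ℝ) ^ ζ = (N : ℝ) ^ (ζ - 561 / 2000) * (N : ℝ) ^ (561 / 2000 : ℝ) := by
      rw [← hadd]
      congr 1
      ring
    have h7 := hfl ((N : ℝ) ^ ζ) (hge1 ζ (by linarith))
    have h9 : 4 * (N : ℝ) ^ (561 / 2000 : ℝ) ≤ (N : ℝ) ^ ζ := by
      rw [h6]
      exact mul_le_mul_of_nonneg_right g5 (by positivity)
    linarith
  · unfold Rn
    exact (Nat.one_le_floor_iff _).2 (one_le_pow₀ (by linarith))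
  · have h6 : (Rn B N : ℝ) ^ 3 ≤ (L ^ B) ^ 3 := pow_le_pow_left₀ (Nat.cast_nonneg _) hR 3
    rw [← pow_mul, mul_comm B 3] at h6
    linarith

/-- on a good block the maximum with `0` costs little -/
private theorem tpin_good (N R H i A y J : ℕ) (S : ℕ → ℝ) (kS L : ℝ) (hi : 1 ≤ i) (hH : 1 ≤ H) (hR : 1 ≤ R)
    (hL : 10 ≤ L) (hRH : 4 * (R : ℝ) ^ 3 ≤ H)
    (hlam : ∑ m ∈ blk H i, lamR R m ^ 2 ≤ H * L ^ 2)
    (hF : ∀ m ∈ blk H i, 0 ≤ Ap S y J m)
    (hg : ∀ α : ℝ, ‖Bs (fun m => Ap S y J m - kapA kS y J (i * H) * lamR R m) H i α‖ ≤ H / L ^ (A + 5)) (α : ℝ) :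
    ‖∑ m ∈ blk H i, ((Ap S y J m - max 0 (kapA kS y J (i * H)) * lamR R m : ℝ) : ℂ) * ee (-(α * m))‖ ≤
      H / L ^ A := by
  set k := kapA kS y J (i * H) with hk
  have hL0 : 0 < L := by linarith
  have hH0 : (0 : ℝ) < H := by exact_mod_cast hH
  have hbs : ∀ g : ℕ → ℝ, ∀ β : ℝ, Bs g H i β = ∑ m ∈ blk H i, ((g m : ℝ) : ℂ) * ee (-(β * m)) := by
    intro g β
    unfold Bs blk
    refine sum_congr rfl fun m _ => ?_
    rw [mul_comm (m : ℝ) β]
  have h0 := hg 0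
  have hα := hg α
  rw [hbs] at h0 hα
  have hlo : -(2 / L ^ (A + 5)) ≤ k := by
    have e0 : ee (-(0 * (0 : ℝ))) = 1 := by
      unfold ee
      simp
    have h1 : ∑ m ∈ blk H i, ((Ap S y J m - k * lamR R m : ℝ) : ℂ) * ee (-(0 * (m : ℝ))) =
        ((∑ m ∈ blk H i, Ap S y J m - k * ∑ m ∈ blk H i, lamR R m : ℝ) : ℂ) := by
      rw [mul_sum, ← sum_sub_distrib]
      push_cast
      refine sum_congr rfl fun m _ => ?_
      have : ee (-(0 * (m : ℝ))) = 1 := by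
        unfold ee
        simp
      rw [this, mul_one]
    rw [h1, Complex.norm_real, Real.norm_eq_abs] at h0
    have h2 : 0 ≤ ∑ m ∈ blk H i, Ap S y J m := sum_nonneg hF
    have h3 : (H : ℝ) / 2 ≤ ∑ m ∈ blk H i, lamR R m := by
      rw [tpin_blk]
      have h4 := tpin_lamsum R (i * H) (i * H + H) hR (by omega) (Nat.mul_pos hi hH)
      push_cast at h4
      linarith
    by_contra hc
    push Not at hc
    have h5 : 0 < 2 / L ^ (A + 5) := by positivity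
    have hk0 : k < 0 := by linarith
    have h6 : -k * (H / 2) ≤ -k * ∑ m ∈ blk H i, lamR R m :=
      mul_le_mul_of_nonneg_left h3 (by linarith)
    have h7 := (abs_le.1 h0).2
    have h8 : 2 / L ^ (A + 5) * (H / 2) < -k * (H / 2) :=
      mul_lt_mul_of_pos_right (by linarith) (by positivity)
    have h9 : 2 / L ^ (A + 5) * (H / 2) = H / L ^ (A + 5) := by ring
    linarith
  have hδ0 : 0 ≤ max 0 k - k := by
    rcases le_total 0 k with h | h
    · rw [max_eq_right h]; linarith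
    · rw [max_eq_left h]; linarith
  have hδ : max 0 k - k ≤ 2 / L ^ (A + 5) := by
    have h5 : 0 < 2 / L ^ (A + 5) := by positivity
    rcases le_total 0 k with h | h
    · rw [max_eq_right h]; linarith
    · rw [max_eq_left h]; linarith
  have hsplit : ∑ m ∈ blk H i, ((Ap S y J m - max 0 k * lamR R m : ℝ) : ℂ) * ee (-(α * m)) =
      ∑ m ∈ blk H i, ((Ap S y J m - k * lamR R m : ℝ) : ℂ) * ee (-(α * m)) -
        ∑ m ∈ blk H i, (((max 0 k - k) * lamR R m : ℝ) : ℂ) * ee (-(α * m)) := by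
    rw [← sum_sub_distrib]
    refine sum_congr rfl fun m _ => ?_
    push_cast
    ring
  have hab := tpin_abs R H i L hL0.le hlam
  have h2nd : ‖∑ m ∈ blk H i, (((max 0 k - k) * lamR R m : ℝ) : ℂ) * ee (-(α * m))‖ ≤
      2 / L ^ (A + 5) * (H * L) := by
    calc ‖∑ m ∈ blk H i, (((max 0 k - k) * lamR R m : ℝ) : ℂ) * ee (-(α * m))‖
        ≤ ∑ m ∈ blk H i, ‖(((max 0 k - k) * lamR R m : ℝ) : ℂ) * ee (-(α * m))‖ := norm_sum_le _ _
      _ = ∑ m ∈ blk H i, (max 0 k - k) * |lamR R m| := by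
          refine sum_congr rfl fun m _ => ?_
          rw [norm_mul, Pool.Agent.H91.PK.LSa_norm_ee, mul_one, Complex.norm_real, Real.norm_eq_abs, abs_mul,
            abs_of_nonneg hδ0]
      _ = (max 0 k - k) * ∑ m ∈ blk H i, |lamR R m| := by rw [mul_sum]
      _ ≤ 2 / L ^ (A + 5) * (H * L) :=
          mul_le_mul hδ hab (sum_nonneg fun m _ => abs_nonneg _) (by positivity)
  rw [hsplit]
  refine (norm_sub_le _ _).trans ((add_le_add hα h2nd).trans ?_)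
  have e1 : (H : ℝ) / L ^ (A + 5) + 2 / L ^ (A + 5) * (H * L) = H / L ^ A * ((1 + 2 * L) / L ^ 5) := by
    rw [pow_add]
    field_simp
  rw [e1]
  have h10 : (1 + 2 * L) / L ^ 5 ≤ 1 := by
    rw [div_le_one (by positivity)]
    have h11 : L ^ 2 ≤ L ^ 5 := pow_le_pow_right₀ (by linarith) (by norm_num)
    nlinarith
  calc (H : ℝ) / L ^ A * ((1 + 2 * L) / L ^ 5) ≤ H / L ^ A * 1 :=
        mul_le_mul_of_nonneg_left h10 (by positivity)
    _ = H / L ^ A := mul_one _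

theorem tpin (hVK : VKp) (θ : ℝ) (hθ : 561 / 2000 < θ) (hθ2 : θ < 1 / 3) :
    ∃ c : ℝ, 0 < c ∧ Pool.Agent.H43.TP.TPIN θ c := by
  obtain ⟨ζ, hζ1, hζ2⟩ := exists_between hθ
  have hz := znum
  set S0 : ℝ := 1 + Z2 (561 / 2000) + Z3 (561 / 2000) with hS0
  have hε : 0 < (2 - S0) / 4 := by linarith
  obtain ⟨e10, he10, hsv⟩ := sieve_bb (1 / 4) ((2 - S0) / 4) (by norm_num) hε
  set e1 : ℝ := min e10 (1 / 100) with he1
  have he1pos : 0 < e1 := lt_min he10 (by norm_num)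
  have he1le : e1 ≤ 1 / 100 := min_le_right _ _
  obtain ⟨C, hC⟩ := hsv e1 he1pos (min_le_left _ _)
  refine ⟨(2 - S0) / 2, by linarith, C, fun A => ?_⟩
  obtain ⟨B1, hB1⟩ := lfuA hVK θ ζ e1 he1pos (by linarith) hζ2 (by linarith) (A + 5)
  obtain ⟨B2, hB2⟩ := hC (A + 5 + 1)
  set B : ℕ := max B1 B2 with hB
  obtain ⟨N1, hN1⟩ := hB1 B (le_max_left _ _)
  obtain ⟨N2, hN2⟩ := hB2 B (le_max_right _ _)
  obtain ⟨N3, hN3⟩ := mass e1 ζ (561 / 2000) ((2 - S0) / 4) he1pos (by linarith) (by norm_num) hζ1 (by linarith) hε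
  obtain ⟨N4, hN4⟩ := kap_step e1 ζ he1pos (by linarith) (by linarith) A
  obtain ⟨N5, hN5⟩ := tpin_large θ ζ e1 hζ1 hζ2 hθ2 he1pos he1le B
  obtain ⟨N6, hN6⟩ := Pool.Agent.H43.TP.lamR_blk B
  refine ⟨B, N1 + N2 + N3 + N4 + N5 + N6, fun N hN => ?_⟩
  obtain ⟨S, kS, s1, s2, s3, s4, s5, s6, s7⟩ := hN2 N (by omega)
  obtain ⟨g1, g2, g3, g4, g5, g6, g7, g8, g9, g10, g11, g12⟩ := hN5 N (by omega)
  have m1 := hN1 N (by omega)
  have m3 := hN3 N (by omega)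
  have m4 := hN4 N (by omega)
  have m6 := hN6 N (by omega)
  set L := Real.log N with hL
  set y := yN e1 N with hy
  set H := Hn θ N with hH
  have hHfl : ⌊(N : ℝ) ^ θ⌋₊ = H := rfl
  rw [hHfl] at g2 g3 g4 g11 g12
  set R := Rn B N with hRdef
  have hRfl : ⌊L ^ B⌋₊ = R := rfl
  have hN0 : N ≠ 0 := by
    rintro rfl
    rw [hL] at g1
    norm_num at g1
  have hNr1 : (1 : ℝ) ≤ N := by exact_mod_cast Nat.one_le_iff_ne_zero.2 hN0
  have hL0 : 0 < L := by linarith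
  -- the number of steps
  set J : ℕ := Nat.log 2 (⌊(N : ℝ) ^ ζ⌋₊ / y) with hJ
  have hfl : y ≤ ⌊(N : ℝ) ^ ζ⌋₊ := Nat.le_floor g7
  have hdiv : ⌊(N : ℝ) ^ ζ⌋₊ / y ≠ 0 := (Nat.div_pos hfl g6).ne'
  have hJ1 : 2 ^ J ≤ ⌊(N : ℝ) ^ ζ⌋₊ / y := Nat.pow_log_le_self 2 hdiv
  have hJ2 : ⌊(N : ℝ) ^ ζ⌋₊ / y < 2 ^ (J + 1) := Nat.lt_pow_succ_log_self (by norm_num) _
  have hz1 : (zz y J : ℝ) ≤ (N : ℝ) ^ ζ := by
    have h1 : 2 ^ J * y ≤ ⌊(N : ℝ) ^ ζ⌋₊ := (Nat.le_div_iff_mul_le g6).1 hJ1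
    unfold zz
    calc ((2 ^ J * y : ℕ) : ℝ) ≤ (⌊(N : ℝ) ^ ζ⌋₊ : ℝ) := by exact_mod_cast h1
      _ ≤ (N : ℝ) ^ ζ := Nat.floor_le (by positivity)
  have hz2 : (N : ℝ) ^ (561 / 2000 : ℝ) ≤ zz y J := by
    have h1 : ⌊(N : ℝ) ^ ζ⌋₊ < 2 ^ (J + 1) * y := (Nat.div_lt_iff_lt_mul g6).1 hJ2
    have h2 : ((⌊(N : ℝ) ^ ζ⌋₊ : ℕ) : ℝ) < 2 * (zz y J : ℕ) := by
      have : ⌊(N : ℝ) ^ ζ⌋₊ < 2 * zz y J := by
        unfold zz
        rw [pow_succ] at h1
        linarith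
      exact_mod_cast this
    linarith
  have hH1 : 1 ≤ H := by
    have h1 : (1 : ℝ) ≤ (N : ℝ) ^ (1 / 4 : ℝ) := Real.one_le_rpow hNr1 (by norm_num)
    have : (1 : ℝ) ≤ H := h1.trans g2
    exact_mod_cast this
  -- the indices
  have hidx : ∀ i ∈ idx N H, 1 ≤ i ∧ N ≤ 8 * (i * H) ∧ i * H ≤ 3 * N := by
    intro i hi
    unfold idx at hi
    rw [mem_Icc] at hi
    have h1 : i * H ≤ 3 * N := (Nat.mul_le_mul_right H hi.2).trans (Nat.div_mul_le_self _ _)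
    have h2 : N < 2 * H * (N / (2 * H) + 1) := Nat.lt_mul_div_succ N (by omega)
    have h3 : N / (2 * H) ≤ i := hi.1
    have h4 : N < 2 * (i * H) + 2 * H := by nlinarith
    have h5 : N ≤ 8 * (i * H) := by omega
    refine ⟨?_, h5, h1⟩
    rcases Nat.eq_zero_or_pos i with h | h
    · rw [h] at h5
      omega
    · exact h
  have hAp : ∀ m, 1 ≤ m → 0 ≤ Ap S y J m ∧ AA y J m ≤ Ap S y J m ∧ Ap S y J m ≤ S m := by
    intro m hm
    have h1 := aa_nonneg y J m hm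
    have h2 := s1 m hm
    have h3 : 0 ≤ ∑ j ∈ range J, Fp (bf y J) (2 ^ j * y) m :=
      sum_nonneg fun j _ => tpin_fp_nonneg y J _ m
    unfold Ap
    unfold AA at h1 ⊢
    refine ⟨by linarith, by linarith, by linarith⟩
  refine ⟨Ap S y J, fun i => max 0 (kapA kS y J (i * H)), ?_, ?_, ?_, ?_, ?_⟩
  · intro m hm1 hm2
    have hm : 1 ≤ m := by
      rcases Nat.eq_zero_or_pos m with h | h
      · rw [h] at hm1
        omega
      · exact h
    refine ⟨(hAp m hm).1, fun hp => ?_⟩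
    have h1 : AA y J m = 1 := by
      apply aa_one y J m hm
      intro p hp' hd
      have h2 : p = m := (Nat.prime_dvd_prime_iff_eq hp' hp).1 hd
      rw [h2]
      have h3 : (zz y J : ℝ) < m := by
        have h4 : (N : ℝ) ≤ 4 * m := by exact_mod_cast hm1
        linarith
      exact_mod_cast h3
    rw [← h1]
    exact (hAp m hm).2.1
  · intro i hi
    obtain ⟨i1, i2, i3⟩ := hidx i hi
    refine ⟨le_max_left _ _, ?_⟩
    apply max_le
    · have : 0 ≤ (2 - (2 - S0) / 2) := by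
        have hz2 : 0 ≤ Z2 (561 / 2000) := by
          unfold Z2
          apply Real.log_nonneg
          norm_num
        have hz3 : 0 ≤ Z3 (561 / 2000) := by
          unfold Z3
          apply intervalIntegral.integral_nonneg (by norm_num)
          intro u hu
          rw [Set.mem_Icc] at hu
          have hu0 : 0 < u := by linarith [hu.1]
          apply div_nonneg
          · apply Real.log_nonneg
            rw [le_div_iff₀ hu0]
            linarith [hu.2]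
          · apply mul_nonneg hu0.le
            linarith [hu.2]
        rw [hS0]
        linarith
      positivity
    · have h1 := m3 J kS ((2 - S0) / 4) hz1 hz2 (fun x l hl => s7 x l (le_trans
        (Real.rpow_le_rpow_of_exponent_le hNr1 (by norm_num)) hl)) (i * H) i2 (by omega)
      refine h1.trans (le_of_eq ?_)
      congr 1
      rw [hS0]
      ring
  · intro i hi
    obtain ⟨i1, i2, i3⟩ := hidx i hi
    have h1 : 1 ≤ i * H := Nat.mul_pos i1 hH1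
    have h2 := s6 (i * H) H h1 g2
    refine le_trans ?_ h2
    rw [tpin_blk]
    refine sum_le_sum fun m hm => ?_
    rw [mem_Ico] at hm
    obtain ⟨a1, -, a3⟩ := hAp m (by omega)
    exact pow_le_pow_left₀ a1 a3 2
  · intro i hi hi1
    obtain ⟨i1, i2, i3⟩ := hidx i hi
    have h1 := m4 J (i * H) ((i + 1) * H) kS hz1 i2 (Nat.mul_le_mul_right H (by omega)) (by
      push_cast
      linarith)
    have h2 := abs_max_sub_max_le_abs (kapA kS y J (i * H)) (kapA kS y J ((i + 1) * H)) 0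
    rw [abs_sub_comm] at h1
    rw [max_comm _ 0, max_comm _ 0] at h2
    exact h2.trans h1
  · have hsub : badF N H R A (Ap S y J) (fun i => max 0 (kapA kS y J (i * H))) ⊆
        badA S kS y J R N H (A + 5) := by
      classical
      intro i hi
      unfold badF at hi
      rw [mem_filter] at hi
      obtain ⟨hi1, α, hα⟩ := hi
      obtain ⟨i1, i2, i3⟩ := hidx i hi1
      unfold badA
      rw [mem_filter]
      constructor
      · unfold idx at hi1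
        rw [mem_Icc] at hi1 ⊢
        refine ⟨hi1.1, hi1.2.trans ?_⟩
        apply Nat.div_le_div_right
        omega
      · by_contra hcon
        push Not at hcon
        have h1 := tpin_good N R H i A y J S kS L i1 hH1 g10 g1 g12 (m6 H i i1 g11)
          (fun m hm => by
            rw [tpin_blk, mem_Ico] at hm
            have : 1 ≤ i * H := Nat.mul_pos i1 hH1
            exact (hAp m (by omega)).1) hcon α
        linarith
    have h1 := m1 J S kS hz1 (fun i α hi => by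
      have := s5 H i α g2 hi
      exact this)
    have h2 : ((badF N H R A (Ap S y J) (fun i => max 0 (kapA kS y J (i * H)))).card : ℝ) ≤
        (badA S kS y J R N H (A + 5)).card := by exact_mod_cast card_le_card hsub
    refine h2.trans (h1.trans ?_)
    have hHr : (0 : ℝ) < H := by exact_mod_cast hH1
    apply div_le_div_of_nonneg_left (by positivity) (by positivity)
    exact pow_le_pow_right₀ (by linarith) (by omega)

end Pool.Agent.H76.TP
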